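import Mathlib
import Pool.Agent.Work.MP_8e9dbb.Iface

/-!
# Part A: statements of the blocks which only use `Facts` (not the construction of `X`)
-/

open MeasureTheory Filter Topology Metric Set
open scoped ContDiff

namespace Pool.MP8e

/-- the four special points -/
def special (D : QD) {X : Type} (Pr : ℝ × ℝ → X) : Set X :=
  {Pr (0, 0), Pr (D.β 0, 0), Pr (D.β 0, Real.pi), Pr (D.β (Real.pi / 2), Real.pi / 2)}

/-- **Block SMOOTH**: all other points are smooth points.  (Disc part: chart = local inverse of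
`Pr`, `G = diag (A², R²)`, from `strip`, `opn`, `inj`; floor: `ζ`, `G = 1`.) -/
def StmtSmooth : Prop := ∀ (D : QD) (X : Type) [MetricSpace X] (Pr : ℝ × ℝ → X), Facts D X Pr →
  ∀ x, x ∉ special D Pr → IsSmoothPoint x

/-- **Block HOMEO**: `X` is a sphere.  (Both `Pr` and the explicit map
`(x, y) = (p / βh θ) (cos θ, sin θ)`, `H = (x, √(1-x²) cos (π y/√(1-x²)), √(1-x²) sin (π y/√(1-x²)))`
are closed surjections from the compact set `{0 ≤ θ ≤ 2π, 0 ≤ p ≤ βh θ}` with the same fibres.) -/
def StmtHomeo : Prop := ∀ (D : QD) (X : Type) [MetricSpace X] (Pr : ℝ × ℝ → X), Facts D X Pr →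
  Nonempty (X ≃ₜ S2)

/-- **Block AREA1** (general): if `F` is injective on the open set `U`, maps open subsets of `U` to
open sets, and the distance is infinitesimally the norm `√((a u₁)² + (b u₂)²)`, then the two
dimensional Hausdorff measure is `a b` times Lebesgue measure. -/
def StmtAreaGen : Prop := ∀ (X : Type) [MetricSpace X] [MeasurableSpace X] [BorelSpace X]
  (U : Set (ℝ × ℝ)) (F : ℝ × ℝ → X) (a b : ℝ × ℝ → ℝ), IsOpen U → InjOn F U →
  ContinuousOn a U → ContinuousOn b U → (∀ q ∈ U, 0 < a q ∧ 0 < b q) →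
  (∀ q ∈ U, ∀ ε > 0, ∃ δ > 0, ∀ x y : ℝ × ℝ, dist x q < δ → dist y q < δ →
    |dist (F x) (F y) - √((a q * (x - y).1) ^ 2 + (b q * (x - y).2) ^ 2)| ≤ ε * ‖x - y‖) →
  (∀ V ⊆ U, IsOpen V → IsOpen (F '' V)) →
  ∀ s ⊆ U, MeasurableSet s →
    MeasureTheory.Measure.euclideanHausdorffMeasure 2 (F '' s) =
      ∫⁻ q in s, ENNReal.ofReal (a q * b q)

/-- **Block AREA2**: area of `X` (uses AREA1 on the strip `0 < p < βh θ`; floor and pole have
measure zero). -/
def StmtArea : Prop := ∀ (D : QD) (X : Type) [MetricSpace X] [MeasurableSpace X] [BorelSpace X]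
  (Pr : ℝ × ℝ → X), Facts D X Pr →
  (MeasureTheory.Measure.euclideanHausdorffMeasure 2 (univ : Set X)).toReal =
    4 * ∫ θ in (0:ℝ)..(Real.pi / 2), ∫ p in (0:ℝ)..D.β θ, D.A p * D.R p

/-- the points of the unit sphere (type synonym, to carry the angular distance) -/
structure Sph where
  /-- the point -/
  pt : S2

/-- **Block SPH1**: the angular distance is a metric, and defines a `ConeSphere` without
singular points. -/
def StmtSph1 : Prop := ∃ g : ConeSphere, IsRound g ∧ g.sing = ∅

/-- **Block SPH2**: area of the round sphere (from AREA1, in spherical coordinates). -/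
def StmtSph2 : Prop := ∀ g : ConeSphere, IsRound g → area g = 4 * Real.pi

/-- **Block SPH3**: systole of the round sphere. -/
def StmtSph3 : Prop := ∀ g : ConeSphere, IsRound g → HasSystole g.X (2 * Real.pi)

end Pool.MP8e
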