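import Mathlib
import Pool.Agent.Work.MP_8e9dbb.A.Calls

/-!
# Block HOMEO: `X` is a sphere
-/

open MeasureTheory Filter Topology Metric Set
open scoped ContDiff

namespace Pool.MP8e.HomeoBlk

/-! ## The function `βh` -/

lemma fold_mem (θ : ℝ) : fold θ ∈ Icc 0 (Real.pi / 2) := by
  refine ⟨Real.arccos_nonneg _, ?_⟩
  have := Real.arccos_le_pi_div_two.2 (abs_nonneg (Real.cos θ))
  exact this

lemma fold_neg (θ : ℝ) : fold (-θ) = fold θ := by simp [fold]

lemma fold_int (θ : ℝ) (n : ℤ) : fold (θ + n * (2 * Real.pi)) = fold θ := by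
  simp [fold, Real.cos_add_int_mul_two_pi]

lemma cont_fold : Continuous fold := by
  unfold fold
  fun_prop

lemma pf_pos (D : QD) : 0 < D.pf := D.e₀_pos.trans D.e₀_lt

lemma beta_pos (D : QD) (θ : ℝ) : 0 < D.βh θ :=
  (pf_pos D).trans (D.β_mem _ (fold_mem θ)).1

lemma bh_neg (D : QD) (θ : ℝ) : D.βh (-θ) = D.βh θ := by simp [QD.βh, fold_neg]

lemma bh_int (D : QD) (θ : ℝ) (n : ℤ) : D.βh (θ + n * (2 * Real.pi)) = D.βh θ := by
  simp [QD.βh, fold_int]

lemma R_inj (D : QD) (hκ : D.κ ≠ 0) : InjOn D.R (Icc D.pf D.ℓ) := by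
  have hc : ContinuousOn D.R (Icc D.pf D.ℓ) := D.smR.continuous.continuousOn
  have hA : ∀ p ∈ interior (Icc D.pf D.ℓ), 0 < D.A p ∧ deriv D.R p = D.κ * D.A p := by
    intro p hp
    have hp' := interior_subset hp
    exact ⟨D.posA p ⟨(pf_pos D).le.trans hp'.1, hp'.2⟩, D.flat p hp'⟩
  rcases lt_or_gt_of_ne hκ with h | h
  · refine (strictAntiOn_of_deriv_neg (convex_Icc _ _) hc fun p hp => ?_).injOn
    rw [(hA p hp).2]
    exact mul_neg_of_neg_of_pos h (hA p hp).1
  · refine (strictMonoOn_of_deriv_pos (convex_Icc _ _) hc fun p hp => ?_).injOn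
    rw [(hA p hp).2]
    exact mul_pos h (hA p hp).1

lemma cont_beta (D : QD) : ContinuousOn D.β (Icc 0 (Real.pi / 2)) := by
  by_cases hκ : D.κ = 0
  · exact (continuousOn_const (c := D.β D.θf)).congr fun θ hθ => D.β_const hκ θ hθ
  · have hmem : ∀ θ ∈ Icc 0 (Real.pi / 2), D.β θ ∈ Icc D.pf D.ℓ := fun θ hθ =>
      ⟨(D.β_mem θ hθ).1.le, (D.β_mem θ hθ).2⟩
    have hcos : ∀ θ ∈ Icc 0 (Real.pi / 2), Real.cos (D.κ * (θ - D.θf)) ≠ 0 := by
      intro θ hθ h0
      have := D.floor θ hθ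
      rw [h0, mul_zero] at this
      exact D.ρf_pos.ne this
    set g : Icc D.pf D.ℓ → ℝ := fun p => D.R p with hg
    have hgc : Continuous g := D.smR.continuous.comp continuous_subtype_val
    have hgi : Function.Injective g := fun a b hab =>
      Subtype.ext (R_inj D hκ a.2 b.2 hab)
    have hemb : IsClosedEmbedding g := hgc.isClosedEmbedding hgi
    rw [continuousOn_iff_continuous_restrict]
    set f : Icc 0 (Real.pi / 2) → Icc D.pf D.ℓ := fun θ => ⟨D.β θ, hmem θ θ.2⟩ with hf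
    have hfc : Continuous f := by
      rw [hemb.isInducing.continuous_iff]
      have h1 : ∀ θ : Icc 0 (Real.pi / 2),
          (g ∘ f) θ = D.ρf / Real.cos (D.κ * ((θ : ℝ) - D.θf)) := by
        intro θ
        have := D.floor θ θ.2
        have hc := hcos θ θ.2
        simp only [hg, hf, Function.comp]
        field_simp
        linarith [this]
      have h2 : Continuous fun θ : Icc 0 (Real.pi / 2) =>
          D.ρf / Real.cos (D.κ * ((θ : ℝ) - D.θf)) := by
        refine Continuous.div continuous_const (by fun_prop) fun θ => hcos θ θ.2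
      exact h2.congr fun θ => (h1 θ).symm
    exact continuous_subtype_val.comp hfc

lemma cont_bh (D : QD) : Continuous D.βh := by
  have h := cont_beta D
  rw [continuousOn_iff_continuous_restrict] at h
  have h2 : Continuous fun θ : ℝ => (⟨fold θ, fold_mem θ⟩ : Icc 0 (Real.pi / 2)) :=
    Continuous.subtype_mk cont_fold _
  exact h.comp h2

/-! ## The explicit map onto the sphere -/

lemma cont_mul (g : ℝ → ℝ) (hg : Continuous g) (hb : ∀ t, |g t| ≤ 1) :
    Continuous fun z : ℝ × ℝ => z.1 * g (Real.pi * (z.2 / z.1)) := by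
  rw [continuous_iff_continuousAt]
  rintro ⟨w, y⟩
  by_cases hw : w = 0
  · subst hw
    have h0 : Tendsto (fun z : ℝ × ℝ => z.1 * g (Real.pi * (z.2 / z.1))) (𝓝 ((0 : ℝ), y))
        (𝓝 0) := by
      have hz : Tendsto (fun z : ℝ × ℝ => |z.1|) (𝓝 ((0 : ℝ), y)) (𝓝 0) := by
        have : Continuous fun z : ℝ × ℝ => |z.1| := by fun_prop
        have h := this.tendsto ((0 : ℝ), y)
        simpa using h
      refine squeeze_zero_norm (fun z => ?_) hz
      rw [Real.norm_eq_abs, abs_mul]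
      exact mul_le_of_le_one_right (abs_nonneg _) (hb _)
    unfold ContinuousAt
    simpa using h0
  · have h1 : ContinuousAt (fun z : ℝ × ℝ => Real.pi * (z.2 / z.1)) (w, y) := by
      refine ContinuousAt.mul continuousAt_const ?_
      exact ContinuousAt.div continuousAt_snd continuousAt_fst hw
    exact ContinuousAt.mul continuousAt_fst (ContinuousAt.comp hg.continuousAt h1)

/-- the parameter domain: `ρ ∈ [0,1]`, `θ ∈ [-π, π]` -/
abbrev Dom : Type := Icc (0 : ℝ) 1 × Icc (-Real.pi) Real.pi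

/-- first coordinate -/
noncomputable def cx (q : Dom) : ℝ := (q.1 : ℝ) * Real.cos q.2
/-- second coordinate -/
noncomputable def cy (q : Dom) : ℝ := (q.1 : ℝ) * Real.sin q.2
/-- width -/
noncomputable def cw (x : ℝ) : ℝ := √(1 - x ^ 2)

lemma cxy (q : Dom) : cx q ^ 2 + cy q ^ 2 = (q.1 : ℝ) ^ 2 := by
  unfold cx cy
  have := Real.sin_sq_add_cos_sq (q.2 : ℝ)
  nlinarith

lemma cxy_le (q : Dom) : cx q ^ 2 + cy q ^ 2 ≤ 1 := by
  rw [cxy]
  have h1 := q.1.2.1
  have h2 := q.1.2.2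
  nlinarith

lemma cw_sq {x y : ℝ} (h : x ^ 2 + y ^ 2 ≤ 1) : cw x ^ 2 = 1 - x ^ 2 := by
  unfold cw
  rw [Real.sq_sqrt]
  nlinarith [sq_nonneg y]

/-- the map of the disc onto the sphere -/
noncomputable def hv (x y : ℝ) : E3 :=
  !₂[x, cw x * Real.cos (Real.pi * (y / cw x)), cw x * Real.sin (Real.pi * (y / cw x))]

lemma hv_norm {x y : ℝ} (h : x ^ 2 + y ^ 2 ≤ 1) : ‖hv x y‖ = 1 := by
  rw [EuclideanSpace.norm_eq, Real.sqrt_eq_one]
  simp only [hv, Fin.sum_univ_three, Real.norm_eq_abs, sq_abs]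
  have h1 := Real.sin_sq_add_cos_sq (Real.pi * (y / cw x))
  have h2 := cw_sq h
  simp
  nlinarith

/-- the map `Dom → S2` -/
noncomputable def P2 (q : Dom) : S2 :=
  ⟨hv (cx q) (cy q), by simpa using hv_norm (cxy_le q)⟩

lemma cont_P2 : Continuous P2 := by
  refine Continuous.subtype_mk ?_ _
  have hx : Continuous cx := by unfold cx; fun_prop
  have hy : Continuous cy := by unfold cy; fun_prop
  have hw : Continuous fun q => cw (cx q) := by unfold cw; fun_prop
  have h1 : Continuous fun q => cw (cx q) * Real.cos (Real.pi * (cy q / cw (cx q))) :=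
    (cont_mul Real.cos Real.continuous_cos Real.abs_cos_le_one).comp (hw.prodMk hy)
  have h2 : Continuous fun q => cw (cx q) * Real.sin (Real.pi * (cy q / cw (cx q))) :=
    (cont_mul Real.sin Real.continuous_sin Real.abs_sin_le_one).comp (hw.prodMk hy)
  unfold hv
  have h3 : Continuous fun q : Dom => (![cx q, cw (cx q) * Real.cos (Real.pi * (cy q / cw (cx q))),
      cw (cx q) * Real.sin (Real.pi * (cy q / cw (cx q)))] : Fin 3 → ℝ) := by
    refine continuous_pi fun i => ?_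
    fin_cases i
    · exact hx
    · exact h1
    · exact h2
  exact (PiLp.continuous_toLp 2 _).comp h3

lemma hv_eq {x y x' y' : ℝ} (h : x ^ 2 + y ^ 2 ≤ 1) (h' : x' ^ 2 + y' ^ 2 ≤ 1)
    (he : hv x y = hv x' y') : x = x' ∧ (y = y' ∨ (y = -y' ∧ x ^ 2 + y ^ 2 = 1)) := by
  have e0 : x = x' := by simpa [hv] using congrArg (fun v : E3 => v 0) he
  subst e0
  have e1 : cw x * Real.cos (Real.pi * (y / cw x)) = cw x * Real.cos (Real.pi * (y' / cw x)) := by
    simpa [hv] using congrArg (fun v : E3 => v 1) he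
  have e2 : cw x * Real.sin (Real.pi * (y / cw x)) = cw x * Real.sin (Real.pi * (y' / cw x)) := by
    simpa [hv] using congrArg (fun v : E3 => v 2) he
  refine ⟨rfl, ?_⟩
  have hw0 : 0 ≤ cw x := Real.sqrt_nonneg _
  have hw2 := cw_sq h
  rcases hw0.eq_or_lt with hw | hw
  · left
    rw [← hw] at hw2
    have hy : y = 0 := by nlinarith
    have hy' : y' = 0 := by nlinarith
    rw [hy, hy']
  · have hne := hw.ne'
    have c1 := mul_left_cancel₀ hne e1
    have c2 := mul_left_cancel₀ hne e2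
    have h3 := Real.Angle.cos_sin_inj c1 c2
    obtain ⟨k, hk⟩ := Real.Angle.angle_eq_iff_two_pi_dvd_sub.1 h3
    have hpi := Real.pi_pos
    have hk2 : y - y' = 2 * k * cw x := by
      have : Real.pi * ((y - y') / cw x) = Real.pi * (2 * k) := by
        rw [sub_div, mul_sub, hk]; ring
      have := mul_left_cancel₀ hpi.ne' this
      rw [div_eq_iff hne] at this
      exact this
    have hy1 : |y| ≤ cw x := by
      apply abs_le_of_sq_le_sq _ hw0
      nlinarith
    have hy2 : |y'| ≤ cw x := by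
      apply abs_le_of_sq_le_sq _ hw0
      nlinarith
    have hk3 : |(k : ℝ)| ≤ 1 := by
      have h4 : |y - y'| ≤ 2 * cw x := by
        calc |y - y'| ≤ |y| + |y'| := abs_sub _ _
          _ ≤ _ := by linarith
      rw [hk2, abs_mul, abs_mul, abs_of_pos hw, abs_two] at h4
      by_contra hcon
      push Not at hcon
      nlinarith
    have hk4 : k = 0 ∨ k = 1 ∨ k = -1 := by
      have : |k| ≤ 1 := by exact_mod_cast hk3
      rw [abs_le] at this
      omega
    rw [abs_le] at hy1 hy2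
    rcases hk4 with rfl | rfl | rfl
    · left
      simp at hk2
      linarith
    · right
      push_cast at hk2
      have ha : y = cw x := by linarith [hy1.2, hy2.1]
      have hb : y' = -cw x := by linarith
      refine ⟨by rw [ha, hb]; ring, ?_⟩
      rw [ha, hw2]; ring
    · right
      push_cast at hk2
      have ha : y = -cw x := by linarith [hy1.1, hy2.2]
      have hb : y' = cw x := by linarith
      refine ⟨by rw [ha, hb], ?_⟩
      rw [ha, neg_sq, hw2]; ring

lemma hv_flip {x y : ℝ} (h : x ^ 2 + y ^ 2 = 1) : hv x (-y) = hv x y := by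
  have hw0 : 0 ≤ cw x := Real.sqrt_nonneg _
  have hw2 := cw_sq h.le
  have hs : cw x * Real.sin (Real.pi * (y / cw x)) = 0 := by
    rcases hw0.eq_or_lt with hw | hw
    · rw [← hw, zero_mul]
    · have : (y - cw x) * (y + cw x) = 0 := by nlinarith
      rcases mul_eq_zero.1 this with h1 | h1
      · have : y = cw x := by linarith
        rw [this, div_self hw.ne', mul_one, Real.sin_pi, mul_zero]
      · have : y = -cw x := by linarith
        rw [this, neg_div, div_self hw.ne', mul_neg, mul_one, Real.sin_neg, Real.sin_pi]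
        simp
  unfold hv
  have e1 : Real.pi * (-y / cw x) = -(Real.pi * (y / cw x)) := by ring
  rw [e1, Real.cos_neg, Real.sin_neg, mul_neg, hs, neg_zero]

lemma surj_P2 : Function.Surjective P2 := by
  rintro ⟨s, hs⟩
  have hs1 : ‖s‖ = 1 := by simpa using hs
  have hs2 : s 0 ^ 2 + s 1 ^ 2 + s 2 ^ 2 = 1 := by
    have := EuclideanSpace.norm_sq_eq s
    rw [hs1] at this
    simp only [Fin.sum_univ_three, Real.norm_eq_abs, sq_abs] at this
    linarith
  set z : ℂ := ⟨s 1, s 2⟩ with hz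
  have hw : cw (s 0) = ‖z‖ := by
    unfold cw
    rw [Complex.norm_def, Complex.normSq_apply]
    congr 1
    simp only [hz]
    nlinarith
  set y : ℝ := cw (s 0) * (z.arg / Real.pi) with hy
  have hpi := Real.pi_pos
  have harg : |z.arg / Real.pi| ≤ 1 := by
    rw [abs_div, abs_of_pos hpi, div_le_one hpi]
    exact Complex.abs_arg_le_pi z
  have hw2 : cw (s 0) ^ 2 = 1 - s 0 ^ 2 := by
    unfold cw
    rw [Real.sq_sqrt]
    nlinarith [sq_nonneg (s 1), sq_nonneg (s 2)]
  have hle : s 0 ^ 2 + y ^ 2 ≤ 1 := by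
    have : y ^ 2 ≤ cw (s 0) ^ 2 := by
      rw [hy, mul_pow]
      have h1 : (z.arg / Real.pi) ^ 2 ≤ 1 := by
        rw [← sq_abs]
        have := abs_nonneg (z.arg / Real.pi)
        nlinarith
      nlinarith [sq_nonneg (cw (s 0))]
    linarith
  have hhv : hv (s 0) y = s := by
    have hw0 : 0 ≤ cw (s 0) := Real.sqrt_nonneg _
    ext i
    rcases hw0.eq_or_lt with hw' | hw'
    · have h1 : s 1 ^ 2 + s 2 ^ 2 = 0 := by rw [← hw'] at hw2; nlinarith
      have h2 : s 1 = 0 := by nlinarith [sq_nonneg (s 1), sq_nonneg (s 2)]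
      have h3 : s 2 = 0 := by nlinarith [sq_nonneg (s 1), sq_nonneg (s 2)]
      fin_cases i <;> simp [hv, ← hw', h2, h3]
    · have hq : Real.pi * (y / cw (s 0)) = z.arg := by
        rw [hy]; field_simp
      have hzc : cw (s 0) * Real.cos z.arg = z.re := by rw [hw]; exact Complex.norm_mul_cos_arg z
      have hzs : cw (s 0) * Real.sin z.arg = z.im := by rw [hw]; exact Complex.norm_mul_sin_arg z
      fin_cases i
      · simp [hv]
      · simp only [hv, hq]; simpa using hzc
      · simp only [hv, hq]; simpa using hzs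
  set u : ℂ := ⟨s 0, y⟩ with hu
  have hu1 : ‖u‖ ≤ 1 := by
    rw [Complex.norm_def, Complex.normSq_apply]
    refine Real.sqrt_le_iff.2 ⟨zero_le_one, ?_⟩
    simp only [hu]
    nlinarith
  refine ⟨(⟨‖u‖, norm_nonneg u, hu1⟩, ⟨u.arg, ?_, Complex.arg_le_pi u⟩), ?_⟩
  · exact (Complex.neg_pi_lt_arg u).le
  · apply Subtype.ext
    have h1 : cx (⟨‖u‖, norm_nonneg u, hu1⟩, ⟨u.arg, (Complex.neg_pi_lt_arg u).le,
        Complex.arg_le_pi u⟩) = s 0 := by
      simp only [cx]; exact Complex.norm_mul_cos_arg u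
    have h2 : cy (⟨‖u‖, norm_nonneg u, hu1⟩, ⟨u.arg, (Complex.neg_pi_lt_arg u).le,
        Complex.arg_le_pi u⟩) = y := by
      simp only [cy]; exact Complex.norm_mul_sin_arg u
    simp only [P2, h1, h2, hhv]

/-! ## The map `Pr` on the same domain -/

section
variable (D : QD) {X : Type} [MetricSpace X] {Pr : ℝ × ℝ → X}

/-- `Pr` in the normalised coordinates -/
noncomputable def P1 (Pr : ℝ × ℝ → X) (q : Dom) : X := Pr ((q.1 : ℝ) * D.βh q.2, (q.2 : ℝ))

lemma per_int (hF : Facts D X Pr) (p θ : ℝ) (n : ℤ) : Pr (p, θ + n * (2 * Real.pi)) = Pr (p, θ) := by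
  have hp : Function.Periodic (fun θ => Pr (p, θ)) (2 * Real.pi) := fun θ => hF.per p θ
  exact (hp.int_mul n) θ

lemma cont_P1 (hF : Facts D X Pr) : Continuous (P1 D Pr) := by
  have hb := cont_bh D
  have h := hF.cont
  have h2 : Continuous fun q : Dom => ((q.1 : ℝ) * D.βh q.2, (q.2 : ℝ)) := by fun_prop
  have hmem : ∀ q : Dom, ((q.1 : ℝ) * D.βh q.2, (q.2 : ℝ)) ∈
      {x : ℝ × ℝ | 0 ≤ x.1 ∧ x.1 ≤ D.βh x.2} := by
    intro q
    have h1 := q.1.2.1
    have h3 := q.1.2.2
    have h4 := beta_pos D (q.2 : ℝ)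
    exact ⟨mul_nonneg h1 h4.le, mul_le_of_le_one_left h4.le h3⟩
  exact h.comp_continuous h2 hmem

lemma surj_P1 (hF : Facts D X Pr) : Function.Surjective (P1 D Pr) := by
  intro x
  obtain ⟨p, θ, hp0, hp1, rfl⟩ := hF.surj x
  have hpi := Real.pi_pos
  set n : ℤ := toIocDiv Real.two_pi_pos (-Real.pi) θ with hn
  have hmem := sub_toIocDiv_zsmul_mem_Ioc Real.two_pi_pos (-Real.pi) θ
  rw [← hn] at hmem
  rw [zsmul_eq_mul] at hmem
  have hmem' : θ - n * (2 * Real.pi) ∈ Icc (-Real.pi) Real.pi := by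
    refine ⟨hmem.1.le, ?_⟩
    have := hmem.2
    linarith
  have hb := beta_pos D θ
  refine ⟨(⟨p / D.βh θ, by positivity, (div_le_one hb).2 hp1⟩, ⟨θ - n * (2 * Real.pi), hmem'⟩), ?_⟩
  have e1 : D.βh (θ - n * (2 * Real.pi)) = D.βh θ := by
    have := bh_int D θ (-n)
    push_cast at this
    rw [← this]; congr 1; ring
  simp only [P1, e1]
  rw [div_mul_cancel₀ _ hb.ne']
  have := per_int D hF p θ (-n)
  push_cast at this
  rw [← this]; congr 2; ring

lemma polar_eq {ρ θ ρ' θ' : ℝ} (h : 0 ≤ ρ) (h' : 0 ≤ ρ')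
    (hc : ρ * Real.cos θ = ρ' * Real.cos θ') (hs : ρ * Real.sin θ = ρ' * Real.sin θ') :
    ρ = ρ' ∧ (ρ = 0 ∨ ∃ n : ℤ, θ' = θ + n * (2 * Real.pi)) := by
  have h1 : ρ ^ 2 = ρ' ^ 2 := by
    have e1 := Real.sin_sq_add_cos_sq θ
    have e2 := Real.sin_sq_add_cos_sq θ'
    have : (ρ * Real.cos θ) ^ 2 + (ρ * Real.sin θ) ^ 2 =
        (ρ' * Real.cos θ') ^ 2 + (ρ' * Real.sin θ') ^ 2 := by rw [hc, hs]
    nlinarith
  have h2 : ρ = ρ' := by
    rcases mul_eq_zero.1 (show (ρ - ρ') * (ρ + ρ') = 0 by nlinarith) with h3 | h3 <;> linarith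
  refine ⟨h2, ?_⟩
  subst h2
  by_cases h0 : ρ = 0
  · exact Or.inl h0
  · right
    have c1 := mul_left_cancel₀ h0 hc
    have c2 := mul_left_cancel₀ h0 hs
    obtain ⟨k, hk⟩ := Real.Angle.angle_eq_iff_two_pi_dvd_sub.1 (Real.Angle.cos_sin_inj c1 c2)
    refine ⟨-k, ?_⟩
    push_cast
    linarith

lemma fib (hF : Facts D X Pr) (a b : Dom) : P1 D Pr a = P1 D Pr b ↔ P2 a = P2 b := by
  obtain ⟨⟨ρ, hρ⟩, ⟨θ, hθ⟩⟩ := a
  obtain ⟨⟨ρ', hρ'⟩, ⟨θ', hθ'⟩⟩ := b
  have hb := beta_pos D θ
  have hb' := beta_pos D θ'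
  have hp0 : 0 ≤ ρ * D.βh θ := mul_nonneg hρ.1 hb.le
  have hp1 : ρ * D.βh θ ≤ D.βh θ := mul_le_of_le_one_left hb.le hρ.2
  have hp0' : 0 ≤ ρ' * D.βh θ' := mul_nonneg hρ'.1 hb'.le
  have hp1' : ρ' * D.βh θ' ≤ D.βh θ' := mul_le_of_le_one_left hb'.le hρ'.2
  have hP2 : ∀ {x y x' y' : ℝ}, ρ * Real.cos θ = x → ρ * Real.sin θ = y →
      ρ' * Real.cos θ' = x' → ρ' * Real.sin θ' = y' → hv x y = hv x' y' →
      P2 (⟨ρ, hρ⟩, ⟨θ, hθ⟩) = P2 (⟨ρ', hρ'⟩, ⟨θ', hθ'⟩) := by
    rintro x y x' y' rfl rfl rfl rfl h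
    apply Subtype.ext
    exact h
  constructor
  · intro h
    simp only [P1] at h
    rcases hρ.1.eq_or_lt with h0 | h0
    · -- the pole
      rw [← h0, zero_mul] at h
      have h0' : ρ' = 0 := by
        by_contra hne
        have hpos : 0 < ρ' := lt_of_le_of_ne hρ'.1 (Ne.symm hne)
        rcases hρ'.2.lt_or_eq with h1 | h1
        · have := hF.inj (ρ' * D.βh θ') θ' 0 θ (mul_pos hpos hb') (by nlinarith) le_rfl hb.le
            h.symm
          have h2 := this.1
          have := mul_pos hpos hb'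
          linarith
        · rw [h1, one_mul] at h
          have := (hF.injF θ' 0 θ le_rfl hb.le h.symm).1
          linarith
      exact hP2 (x := 0) (y := 0) (x' := 0) (y' := 0) (by rw [← h0]; ring) (by rw [← h0]; ring)
        (by rw [h0']; ring) (by rw [h0']; ring) rfl
    · rcases hρ.2.lt_or_eq with h1 | h1
      · obtain ⟨e1, n, e2⟩ := hF.inj (ρ * D.βh θ) θ (ρ' * D.βh θ') θ' (mul_pos h0 hb)
          (by nlinarith) hp0' hp1' h
        rw [e2, bh_int] at e1
        have e3 : ρ' = ρ := mul_right_cancel₀ hb.ne' e1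
        refine hP2 rfl rfl rfl rfl ?_
        rw [e2, e3, Real.cos_add_int_mul_two_pi, Real.sin_add_int_mul_two_pi]
      · rw [h1, one_mul] at h
        obtain ⟨e1, n, e2⟩ := hF.injF θ (ρ' * D.βh θ') θ' hp0' hp1' h
        rcases e2 with e2 | e2
        · rw [e2, bh_int] at e1
          have e3 : ρ' = 1 := by
            have : ρ' * D.βh θ = 1 * D.βh θ := by rw [e1, one_mul]
            exact mul_right_cancel₀ hb.ne' this
          refine hP2 rfl rfl rfl rfl ?_
          rw [e2, e3, h1, Real.cos_add_int_mul_two_pi, Real.sin_add_int_mul_two_pi]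
        · rw [e2, bh_int, bh_neg] at e1
          have e3 : ρ' = 1 := by
            have : ρ' * D.βh θ = 1 * D.βh θ := by rw [e1, one_mul]
            exact mul_right_cancel₀ hb.ne' this
          refine hP2 rfl rfl rfl rfl ?_
          rw [e2, e3, h1, Real.cos_add_int_mul_two_pi, Real.sin_add_int_mul_two_pi, Real.cos_neg,
            Real.sin_neg, mul_neg, one_mul, one_mul]
          exact (hv_flip (by have := Real.sin_sq_add_cos_sq θ; linarith)).symm
  · intro h
    have h2 : hv (ρ * Real.cos θ) (ρ * Real.sin θ) = hv (ρ' * Real.cos θ') (ρ' * Real.sin θ') :=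
      congrArg Subtype.val h
    obtain ⟨ex, ey⟩ := hv_eq (cxy_le (⟨ρ, hρ⟩, ⟨θ, hθ⟩)) (cxy_le (⟨ρ', hρ'⟩, ⟨θ', hθ'⟩)) h2
    simp only [cx, cy] at ex ey
    simp only [P1]
    rcases ey with ey | ⟨ey, ez⟩
    · obtain ⟨e1, e2⟩ := polar_eq hρ.1 hρ'.1 ex ey
      subst e1
      rcases e2 with e2 | ⟨n, e2⟩
      · rw [e2, zero_mul, zero_mul, hF.pole θ, hF.pole θ']
      · rw [e2, bh_int, per_int D hF]
    · have ey' : ρ * Real.sin (-θ) = ρ' * Real.sin θ' := by
        rw [Real.sin_neg]; linarith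
      have ex' : ρ * Real.cos (-θ) = ρ' * Real.cos θ' := by
        rw [Real.cos_neg]; exact ex
      have hρ1 : ρ = 1 := by
        have := Real.sin_sq_add_cos_sq θ
        have h5 : ρ ^ 2 = 1 := by nlinarith
        nlinarith [hρ.1]
      obtain ⟨e1, e2⟩ := polar_eq hρ.1 hρ'.1 ex' ey'
      rcases e2 with e2 | ⟨n, e2⟩
      · rw [hρ1] at e2; exact absurd e2 one_ne_zero
      · rw [← e1, e2, bh_int, per_int D hF, bh_neg, hρ1, one_mul, hF.flr]

end

end Pool.MP8e.HomeoBlk

namespace Pool.MP8e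

open HomeoBlk

/-- **Block HOMEO** -/
theorem blk_HOMEO : StmtHomeo := by
  intro D X _ Pr hF
  have hc1 := cont_P1 D hF
  have hs1 := surj_P1 D hF
  have hq : IsQuotientMap (P1 D Pr) := by
    haveI : CompactSpace Dom := inferInstance
    exact hc1.isClosedMap.isQuotientMap hc1 hs1
  -- the induced map
  set g : X → Dom := Function.surjInv hs1 with hg
  have hg1 : ∀ x, P1 D Pr (g x) = x := Function.surjInv_eq hs1
  set f : X → S2 := fun x => P2 (g x) with hf
  have hfc : f ∘ P1 D Pr = P2 := by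
    funext a
    simp only [hf, Function.comp]
    exact (fib D hF _ _).1 (hg1 _)
  have hfcont : Continuous f := by
    rw [hq.continuous_iff, hfc]
    exact cont_P2
  have hfi : Function.Injective f := by
    intro x y hxy
    have := (fib D hF (g x) (g y)).2 hxy
    rw [hg1, hg1] at this
    exact this
  have hfs : Function.Surjective f := by
    intro s
    obtain ⟨q, rfl⟩ := surj_P2 s
    exact ⟨P1 D Pr q, congrFun hfc q⟩
  haveI : CompactSpace X := by
    have : IsCompact (Set.range (P1 D Pr)) := isCompact_range hc1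
    rw [hs1.range_eq] at this
    exact ⟨this⟩
  exact ⟨(show Continuous (Equiv.ofBijective f ⟨hfi, hfs⟩) from hfcont).homeoOfEquivCompactToT2⟩

end Pool.MP8e
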