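import Mathlib
import Pool.Agent.Work.MP_8e9dbb.A.Homeo

/-!
# Block AREA2: the area of `X`
-/

open MeasureTheory Filter Topology Metric Set
open scoped ContDiff

namespace Pool.MP8e.AreaBlk

open HomeoBlk

/-! ## Sets of measure zero -/

section
variable {X : Type} [MetricSpace X] [MeasurableSpace X] [BorelSpace X]

lemma null_of_line {s : Set X} {T : Set ℝ} {f : ℝ → X} {K : NNReal}
    (hf : LipschitzOnWith K f T) (hs : s ⊆ f '' T) :
    MeasureTheory.Measure.euclideanHausdorffMeasure 2 s = 0 := by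
  have h1 : dimH s < ((2 : NNReal) : ENNReal) := by
    calc dimH s ≤ dimH (f '' T) := dimH_mono hs
      _ ≤ dimH T := hf.dimH_image_le
      _ ≤ dimH (univ : Set ℝ) := dimH_mono (subset_univ _)
      _ = 1 := Real.dimH_univ
      _ < _ := by norm_num
  have h2 := hausdorffMeasure_of_dimH_lt h1
  rw [MeasureTheory.Measure.euclideanHausdorffMeasure_def, Measure.smul_apply]
  have h3 : ((2 : NNReal) : ℝ) = ((2 : ℕ) : ℝ) := by norm_num
  rw [h3] at h2
  rw [h2, smul_zero]

lemma null_single (x : X) : MeasureTheory.Measure.euclideanHausdorffMeasure 2 ({x} : Set X) = 0 :=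
  null_of_line (T := univ) (f := fun _ => x) (K := 0)
    (LipschitzWith.const x).lipschitzOnWith (by simp)

end

/-! ## The floor in the developing map -/

lemma fold_eq (j : ℤ) (t : ℝ) (h0 : 0 ≤ t) (h1 : t ≤ Real.pi / 2) :
    fold (j * Real.pi + t) = t ∧ fold (j * Real.pi - t) = t := by
  have hc : ∀ s : ℝ, |Real.cos (j * Real.pi + s)| = |Real.cos s| := by
    intro s
    rw [Real.cos_add, Real.sin_int_mul_pi, zero_mul, sub_zero, abs_mul, Real.abs_cos_int_mul_pi,
      one_mul]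
  have hpos : 0 ≤ Real.cos t := Real.cos_nonneg_of_neg_pi_div_two_le_of_le (by linarith) h1
  have h2 : t ≤ Real.pi := by linarith [Real.pi_pos]
  constructor
  · unfold fold
    rw [hc, abs_of_nonneg hpos, Real.arccos_cos h0 h2]
  · unfold fold
    rw [sub_eq_add_neg, hc, Real.cos_neg, abs_of_nonneg hpos, Real.arccos_cos h0 h2]

lemma thf_mem (D : QD) : D.θf ∈ Icc 0 (Real.pi / 2) := by
  have := Real.pi_pos
  rcases D.cls with h | h
  · exact ⟨by linarith [h.2.2.1], h.2.2.2.le⟩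
  · rw [h.2.2]; exact ⟨by linarith, le_rfl⟩

lemma R_foot (D : QD) : D.R (D.β D.θf) = D.ρf := by
  have := D.floor D.θf (thf_mem D)
  simpa using this

lemma R_sigma (D : QD) {p : ℝ} (hp : p ∈ Icc D.pf D.ℓ) : D.R p = D.ρf + D.κ * D.σ p := by
  have hb : D.β D.θf ∈ Icc D.pf D.ℓ :=
    ⟨(D.β_mem _ (thf_mem D)).1.le, (D.β_mem _ (thf_mem D)).2⟩
  have h1 : ∫ u in (D.β D.θf)..p, deriv D.R u = D.R p - D.R (D.β D.θf) := by
    apply intervalIntegral.integral_deriv_eq_sub
    · intro x _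
      exact (D.smR.differentiable (by simp)).differentiableAt
    · have : Continuous (deriv D.R) := D.smR.continuous_deriv (by simp)
      exact this.intervalIntegrable _ _
  have h2 : ∫ u in (D.β D.θf)..p, deriv D.R u = ∫ u in (D.β D.θf)..p, D.κ * D.A u := by
    apply intervalIntegral.integral_congr
    intro u hu
    exact D.flat u ((convex_Icc D.pf D.ℓ).ordConnected.uIcc_subset hb hp hu)
  rw [intervalIntegral.integral_const_mul, h1, R_foot] at h2
  unfold QD.σ
  linarith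

lemma re_Z_floor (D : QD) (θ c : ℝ)
    (h : θ - c = fold θ - D.θf ∨ θ - c = -(fold θ - D.θf)) : (D.Z c (D.βh θ) θ).re = 0 := by
  have hmem : D.βh θ ∈ Icc D.pf D.ℓ :=
    ⟨(D.β_mem _ (fold_mem θ)).1.le, (D.β_mem _ (fold_mem θ)).2⟩
  have hre : (D.Z c (D.βh θ) θ).re =
      D.σ (D.βh θ) * Real.cos (D.κ * (θ - c)) + D.ρf * (cdev D.κ (θ - c)).re := by
    unfold QD.Z
    rw [Complex.add_re, Complex.re_ofReal_mul, Complex.re_ofReal_mul, Complex.exp_ofReal_mul_I_re]
  by_cases hκ : D.κ = 0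
  · have h1 : D.βh θ = D.β D.θf := D.β_const hκ _ (fold_mem θ)
    have h2 : D.σ (D.βh θ) = 0 := by
      unfold QD.σ; rw [h1, intervalIntegral.integral_same]
    rw [hre, h2, cdev, if_pos hκ]
    simp
  · have hcos : Real.cos (D.κ * (θ - c)) = Real.cos (D.κ * (fold θ - D.θf)) := by
      rcases h with h | h
      · rw [h]
      · rw [h, mul_neg, Real.cos_neg]
    have hfl : D.R (D.βh θ) * Real.cos (D.κ * (fold θ - D.θf)) = D.ρf :=
      D.floor _ (fold_mem θ)
    have hR := R_sigma D hmem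
    have hcd : (cdev D.κ (θ - c)).re = (Real.cos (D.κ * (θ - c)) - 1) / D.κ := by
      rw [cdev, if_neg hκ, Complex.div_ofReal_re, Complex.sub_re, Complex.exp_ofReal_mul_I_re,
        Complex.one_re]
    rw [hre, hcd, hcos]
    rw [hR] at hfl
    field_simp
    linear_combination hfl

lemma foot_near (D : QD) (θ₀ c : ℝ) (h : D.IsFoot θ₀ c) :
    ∃ η > 0, ∀ θ, |θ - θ₀| < η → (D.Z c (D.βh θ) θ).re = 0 := by
  have hpi := Real.pi_pos
  obtain ⟨j, h | h | h⟩ := h
  · obtain ⟨hc, h1, h2⟩ := h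
    refine ⟨min (θ₀ - j * Real.pi) (j * Real.pi + Real.pi / 2 - θ₀),
      lt_min (by linarith) (by linarith), fun θ hθ => re_Z_floor D θ c (Or.inl ?_)⟩
    rw [abs_lt] at hθ
    have m1 := min_le_left (θ₀ - j * Real.pi) (j * Real.pi + Real.pi / 2 - θ₀)
    have m2 := min_le_right (θ₀ - j * Real.pi) (j * Real.pi + Real.pi / 2 - θ₀)
    have e := (fold_eq j (θ - j * Real.pi) (by linarith) (by linarith)).1
    rw [show j * Real.pi + (θ - j * Real.pi) = θ by ring] at e
    rw [e, hc]; ring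
  · obtain ⟨hc, h1, h2⟩ := h
    refine ⟨min (θ₀ - (j * Real.pi - Real.pi / 2)) (j * Real.pi - θ₀),
      lt_min (by linarith) (by linarith), fun θ hθ => re_Z_floor D θ c (Or.inr ?_)⟩
    rw [abs_lt] at hθ
    have m1 := min_le_left (θ₀ - (j * Real.pi - Real.pi / 2)) (j * Real.pi - θ₀)
    have m2 := min_le_right (θ₀ - (j * Real.pi - Real.pi / 2)) (j * Real.pi - θ₀)
    have e := (fold_eq j (j * Real.pi - θ) (by linarith) (by linarith)).2
    rw [show j * Real.pi - (j * Real.pi - θ) = θ by ring] at e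
    rw [e, hc]; ring
  · obtain ⟨hf, hc, h0⟩ := h
    refine ⟨Real.pi / 2, by linarith, fun θ hθ => ?_⟩
    rw [abs_lt, h0, hc] at hθ
    rcases le_total θ c with h1 | h1
    · refine re_Z_floor D θ c (Or.inl ?_)
      have e := (fold_eq j (θ - j * Real.pi) (by linarith) (by linarith)).1
      rw [show j * Real.pi + (θ - j * Real.pi) = θ by ring] at e
      rw [e, hc, hf]; ring
    · refine re_Z_floor D θ c (Or.inr ?_)
      have e := (fold_eq (j + 1) ((j + 1 : ℤ) * Real.pi - θ) (by push_cast; linarith)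
        (by push_cast; linarith)).2
      rw [show ((j + 1 : ℤ) : ℝ) * Real.pi - (((j + 1 : ℤ) : ℝ) * Real.pi - θ) = θ by ring] at e
      rw [e, hc, hf]; push_cast; ring

/-! ## The floor has measure zero -/

section
variable (D : QD) {X : Type} [MetricSpace X] {Pr : ℝ × ℝ → X}

/-- the floor -/
def Fl (Pr : ℝ × ℝ → X) : Set X := range fun θ : ℝ => Pr (D.βh θ, θ)

/-- the corners -/
def Cor (Pr : ℝ × ℝ → X) : Set X :=
  range fun k : ℤ => Pr (D.βh (k * (Real.pi / 2)), k * (Real.pi / 2))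

lemma compactX (hF : Facts D X Pr) : CompactSpace X := by
  have : IsCompact (Set.range (P1 D Pr)) := isCompact_range (cont_P1 D hF)
  rw [(surj_P1 D hF).range_eq] at this
  exact ⟨this⟩

lemma foot_or (θ : ℝ) : (∃ c, D.IsFoot θ c) ∨ ∃ k : ℤ, θ = k * (Real.pi / 2) := by
  have hpi := Real.pi_pos
  set k : ℤ := ⌊θ / (Real.pi / 2)⌋ with hk
  have h1 : (k : ℝ) * (Real.pi / 2) ≤ θ := by
    have := Int.floor_le (θ / (Real.pi / 2))
    rw [← hk, le_div_iff₀ (by positivity)] at this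
    exact this
  have h2 : θ < (k + 1 : ℝ) * (Real.pi / 2) := by
    have := Int.lt_floor_add_one (θ / (Real.pi / 2))
    rw [← hk, div_lt_iff₀ (by positivity)] at this
    exact this
  rcases h1.eq_or_lt with h | h
  · exact Or.inr ⟨k, h.symm⟩
  · left
    rcases Int.even_or_odd' k with ⟨m, hm | hm⟩
    · refine ⟨D.θf + m * Real.pi, m, Or.inl ⟨rfl, ?_, ?_⟩⟩
      · rw [hm] at h; push_cast at h; linarith
      · rw [hm] at h2; push_cast at h2; linarith
    · refine ⟨-D.θf + (m + 1 : ℤ) * Real.pi, m + 1, Or.inr (Or.inl ⟨rfl, ?_, ?_⟩)⟩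
      · rw [hm] at h; push_cast at h ⊢; linarith
      · rw [hm] at h2; push_cast at h2 ⊢; linarith

lemma floor_local [MeasurableSpace X] [BorelSpace X] (hF : Facts D X Pr) (θ₀ c : ℝ)
    (h : D.IsFoot θ₀ c) : ∃ r > 0, MeasureTheory.Measure.euclideanHausdorffMeasure 2
      (Fl D Pr ∩ ball (Pr (D.βh θ₀, θ₀)) r) = 0 := by
  obtain ⟨η₀, hη₀, hre⟩ := foot_near D θ₀ c h
  have hpf := pf_pos D
  obtain ⟨r, hr, ζ, -, hiso, hmem, -⟩ := hF.floor θ₀ c h (min η₀ D.pf) (lt_min hη₀ hpf)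
  refine ⟨r, hr, ?_⟩
  set s := Fl D Pr ∩ ball (Pr (D.βh θ₀, θ₀)) r with hs
  have hzero : ∀ x ∈ s, (ζ x).re = 0 := by
    rintro x ⟨⟨θ', hθ'⟩, hxb⟩
    obtain ⟨p, θ, hp, hθ, hpb, -, hx⟩ := hmem x hxb
    have hp' := lt_of_lt_of_le hp (min_le_right _ _)
    have hθ2 := lt_of_lt_of_le hθ (min_le_left _ _)
    have hp0 : 0 ≤ p := by
      have := (D.β_mem _ (fold_mem θ₀)).1
      rw [abs_lt] at hp'
      change D.pf < D.βh θ₀ at this
      linarith
    rcases hx with ⟨hx1, hx2⟩ | ⟨hx1, hx2⟩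
    · obtain ⟨e1, n, e2⟩ := hF.injF θ' p θ hp0 hpb (by rw [← hx1]; exact hθ')
      have e3 : D.βh θ = D.βh θ' := by
        rcases e2 with e2 | e2
        · rw [e2, bh_int]
        · rw [e2, bh_int, bh_neg]
      rw [hx2, e1, ← e3]
      exact hre θ hθ2
    · obtain ⟨e1, n, e2⟩ := hF.injF θ' p (-θ) hp0 (by rw [bh_neg]; exact hpb)
        (by rw [← hx1]; exact hθ')
      have e3 : D.βh θ = D.βh θ' := by
        rw [← bh_neg D θ]
        rcases e2 with e2 | e2
        · rw [e2, bh_int]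
        · rw [e2, bh_int, bh_neg]
      rw [hx2, e1, ← e3, Complex.neg_re, Complex.conj_re, hre θ hθ2, neg_zero]
  classical
  set f : ℝ → X := fun t => if h : ∃ x ∈ s, (ζ x).im = t then h.choose else Pr (0, 0) with hf
  have hfs : ∀ t ∈ (fun x => (ζ x).im) '' s, f t ∈ s ∧ (ζ (f t)).im = t := by
    rintro t ⟨x, hx, hxt⟩
    have h : ∃ x ∈ s, (ζ x).im = t := ⟨x, hx, hxt⟩
    simp only [hf, dif_pos h]
    exact h.choose_spec
  have hdist : ∀ x ∈ s, ∀ y ∈ s, dist x y = |(ζ x).im - (ζ y).im| := by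
    intro x hx y hy
    rw [hiso x hx.2 y hy.2]
    have : ζ x - ζ y = (((ζ x).im - (ζ y).im : ℝ) : ℂ) * Complex.I := by
      apply Complex.ext
      · simp [hzero x hx, hzero y hy]
      · simp
    rw [this, norm_mul, Complex.norm_I, mul_one, Complex.norm_real, Real.norm_eq_abs]
  refine null_of_line (T := (fun x => (ζ x).im) '' s) (f := f) (K := 1) ?_ ?_
  · refine LipschitzOnWith.of_dist_le_mul fun t ht t' ht' => ?_
    obtain ⟨a1, a2⟩ := hfs t ht
    obtain ⟨b1, b2⟩ := hfs t' ht'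
    rw [hdist _ a1 _ b1, a2, b2, Real.dist_eq]
    simp
  · intro x hx
    refine ⟨(ζ x).im, ⟨x, hx, rfl⟩, ?_⟩
    obtain ⟨a1, a2⟩ := hfs (ζ x).im ⟨x, hx, rfl⟩
    have := hdist _ a1 x hx
    rw [a2, sub_self, abs_zero] at this
    exact dist_eq_zero.1 this

lemma floor_null [MeasurableSpace X] [BorelSpace X] (hF : Facts D X Pr) :
    MeasureTheory.Measure.euclideanHausdorffMeasure 2 (Fl D Pr) = 0 := by
  haveI := compactX D hF
  have h1 : MeasureTheory.Measure.euclideanHausdorffMeasure 2 (Cor D Pr) = 0 := by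
    have : Cor D Pr = ⋃ k : ℤ, {Pr (D.βh (k * (Real.pi / 2)), k * (Real.pi / 2))} := by
      ext x; simp [Cor, eq_comm]
    rw [this]
    exact measure_iUnion_null fun k => null_single _
  have h2 : MeasureTheory.Measure.euclideanHausdorffMeasure 2 (Fl D Pr \ Cor D Pr) = 0 := by
    refine measure_null_of_locally_null _ fun x hx => ?_
    obtain ⟨⟨θ, hθ⟩, hx2⟩ := hx
    rcases foot_or D θ with ⟨c, hc⟩ | ⟨k, hk⟩
    · obtain ⟨r, hr, hr0⟩ := floor_local D hF θ c hc
      refine ⟨(Fl D Pr \ Cor D Pr) ∩ ball x r, ?_, ?_⟩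
      · exact inter_mem_nhdsWithin _ (ball_mem_nhds _ hr)
      · refine measure_mono_null ?_ hr0
        intro y hy
        refine ⟨hy.1.1, ?_⟩
        have : Pr (D.βh θ, θ) = x := hθ
        rw [this]; exact hy.2
    · exfalso
      apply hx2
      refine ⟨k, ?_⟩
      simp only at hθ ⊢
      rw [← hk]; exact hθ
  have h3 : Fl D Pr ⊆ (Fl D Pr \ Cor D Pr) ∪ Cor D Pr := by
    intro x hx
    by_cases h : x ∈ Cor D Pr
    · exact Or.inr h
    · exact Or.inl ⟨hx, h⟩
  exact measure_mono_null h3 (measure_union_null h2 h1)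

/-! ## The open strip -/

/-- the strip of width `2π` -/
def St (a : ℝ) : Set (ℝ × ℝ) := {q | 0 < q.1 ∧ q.1 < D.βh q.2 ∧ a < q.2 ∧ q.2 < a + 2 * Real.pi}

lemma open_St (a : ℝ) : IsOpen (St D a) := by
  have hb := cont_bh D
  have h1 : IsOpen {q : ℝ × ℝ | 0 < q.1} := isOpen_lt continuous_const continuous_fst
  have h2 : IsOpen {q : ℝ × ℝ | q.1 < D.βh q.2} :=
    isOpen_lt continuous_fst (hb.comp continuous_snd)
  have h3 : IsOpen {q : ℝ × ℝ | a < q.2} := isOpen_lt continuous_const continuous_snd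
  have h4 : IsOpen {q : ℝ × ℝ | q.2 < a + 2 * Real.pi} := isOpen_lt continuous_snd continuous_const
  exact h1.inter (h2.inter (h3.inter h4))

lemma strip_meas (hA : StmtAreaGen) [MeasurableSpace X] [BorelSpace X] (hF : Facts D X Pr)
    (a : ℝ) (s : Set (ℝ × ℝ)) (hs : s ⊆ St D a) (hsm : MeasurableSet s) :
    MeasureTheory.Measure.euclideanHausdorffMeasure 2 (Pr '' s) =
      ∫⁻ q in s, ENNReal.ofReal (D.A q.1 * D.R q.1) := by
  have hAc : Continuous D.A := D.smA.continuous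
  have hRc : Continuous D.R := D.smR.continuous
  refine hA X (St D a) Pr (fun q => D.A q.1) (fun q => D.R q.1) (open_St D a) ?_ ?_ ?_ ?_ ?_ ?_
    s hs hsm
  · rintro ⟨p, θ⟩ ⟨h1, h2, h3, h4⟩ ⟨p', θ'⟩ ⟨h1', h2', h3', h4'⟩ he
    simp only at h1 h2 h3 h4 h1' h2' h3' h4'
    obtain ⟨e1, n, e2⟩ := hF.inj p θ p' θ' h1 h2 h1'.le h2'.le he
    have hpi := Real.pi_pos
    have hn : n = 0 := by
      have b1 : (n : ℝ) * (2 * Real.pi) < 1 * (2 * Real.pi) := by linarith
      have b2 : (-1 : ℝ) * (2 * Real.pi) < n * (2 * Real.pi) := by linarith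
      have b3 := lt_of_mul_lt_mul_right b1 (by positivity)
      have b4 := lt_of_mul_lt_mul_right b2 (by positivity)
      have b5 : n < 1 := by exact_mod_cast b3
      have b6 : -1 < n := by exact_mod_cast b4
      omega
    rw [e1, e2, hn]; simp
  · exact (hAc.comp continuous_fst).continuousOn
  · exact (hRc.comp continuous_fst).continuousOn
  · rintro ⟨p, θ⟩ ⟨h1, h2, h3, h4⟩
    have hl : p ≤ D.ℓ := h2.le.trans (D.β_mem _ (fold_mem θ)).2
    exact ⟨D.posA p ⟨h1.le, hl⟩, D.posR p ⟨h1, hl⟩⟩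
  · rintro q ⟨h1, h2, h3, h4⟩ ε hε
    exact hF.strip q h1 h2 ε hε
  · intro V hV hVo
    rw [Metric.isOpen_iff]
    rintro x ⟨q, hq, rfl⟩
    obtain ⟨δ, hδ, hδV⟩ := Metric.isOpen_iff.1 hVo q hq
    obtain ⟨r, hr, hr2⟩ := hF.opn q (hV hq).1 (hV hq).2.1 δ hδ
    exact ⟨r, hr, hr2.trans (image_mono hδV)⟩

lemma cut_null (hA : StmtAreaGen) [MeasurableSpace X] [BorelSpace X] (hF : Facts D X Pr) :
    MeasureTheory.Measure.euclideanHausdorffMeasure 2
      (Pr '' {q : ℝ × ℝ | 0 < q.1 ∧ q.1 < D.βh q.2 ∧ q.2 = Real.pi}) = 0 := by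
  have hpi := Real.pi_pos
  set s := {q : ℝ × ℝ | 0 < q.1 ∧ q.1 < D.βh q.2 ∧ q.2 = Real.pi} with hs
  have hsub : s ⊆ St D 0 := by
    rintro ⟨p, θ⟩ ⟨h1, h2, h3⟩
    simp only at h3
    refine ⟨h1, h2, ?_, ?_⟩
    · simp only; rw [h3]; exact hpi
    · simp only; rw [h3]; linarith
  have hm : MeasurableSet s := by
    have : s = St D 0 ∩ {q : ℝ × ℝ | q.2 = Real.pi} := by
      ext q
      constructor
      · intro h; exact ⟨hsub h, h.2.2⟩
      · intro h; exact ⟨h.1.1, h.1.2.1, h.2⟩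
    rw [this]
    refine (open_St D 0).measurableSet.inter ?_
    exact (isClosed_eq continuous_snd continuous_const).measurableSet
  rw [strip_meas D hA hF 0 s hsub hm]
  apply setLIntegral_measure_zero
  refine measure_mono_null (t := univ ×ˢ {Real.pi}) ?_ ?_
  · rintro ⟨p, θ⟩ ⟨h1, h2, h3⟩
    exact ⟨mem_univ _, h3⟩
  · rw [Measure.volume_eq_prod, Measure.prod_prod]
    simp

lemma meas_univ (hA : StmtAreaGen) [MeasurableSpace X] [BorelSpace X] (hF : Facts D X Pr) :
    MeasureTheory.Measure.euclideanHausdorffMeasure 2 (univ : Set X) =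
      ∫⁻ q in St D (-Real.pi), ENNReal.ofReal (D.A q.1 * D.R q.1) := by
  rw [← strip_meas D hA hF (-Real.pi) _ Subset.rfl (open_St D _).measurableSet]
  refine le_antisymm ?_ (measure_mono (subset_univ _))
  have hcov : (univ : Set X) ⊆ Pr '' St D (-Real.pi) ∪
      (Pr '' {q : ℝ × ℝ | 0 < q.1 ∧ q.1 < D.βh q.2 ∧ q.2 = Real.pi} ∪
        (Fl D Pr ∪ {Pr (0, 0)})) := by
    intro x _
    obtain ⟨⟨⟨ρ, hρ⟩, ⟨θ, hθ⟩⟩, rfl⟩ := surj_P1 D hF x
    have hb := beta_pos D θ
    simp only [P1]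
    rcases hρ.1.eq_or_lt with h0 | h0
    · right; right; right
      rw [← h0, zero_mul]; exact hF.pole θ
    · rcases hρ.2.eq_or_lt with h1 | h1
      · right; right; left
        exact ⟨θ, by simp [h1]⟩
      · have hp1 : 0 < ρ * D.βh θ := mul_pos h0 hb
        have hp2 : ρ * D.βh θ < D.βh θ := by nlinarith
        rcases hθ.2.eq_or_lt with h2 | h2
        · right; left
          exact ⟨(ρ * D.βh θ, θ), ⟨hp1, hp2, h2⟩, rfl⟩
        · rcases hθ.1.eq_or_lt with h3 | h3
          · right; left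
            refine ⟨(ρ * D.βh θ, Real.pi), ⟨hp1, ?_, rfl⟩, ?_⟩
            · have : D.βh Real.pi = D.βh θ := by rw [← h3, bh_neg]
              simp only; rw [this]; exact hp2
            · have := hF.per (ρ * D.βh θ) θ
              rw [← this]
              congr 2
              rw [← h3]; ring
          · left
            exact ⟨(ρ * D.βh θ, θ), ⟨hp1, hp2, h3, by simp only; linarith⟩, rfl⟩
  refine (measure_mono hcov).trans ?_
  have hz : MeasureTheory.Measure.euclideanHausdorffMeasure 2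
      (Pr '' {q : ℝ × ℝ | 0 < q.1 ∧ q.1 < D.βh q.2 ∧ q.2 = Real.pi} ∪
        (Fl D Pr ∪ {Pr (0, 0)})) = 0 :=
    measure_union_null (cut_null D hA hF) (measure_union_null (floor_null D hF) (null_single _))
  refine (measure_union_le _ _).trans ?_
  rw [hz, add_zero]

end

/-! ## The integral -/

section
variable (D : QD)

/-- the integral over a meridian -/
noncomputable def Gm (θ : ℝ) : ℝ := ∫ p in (0 : ℝ)..(D.βh θ), D.A p * D.R p

lemma AR_nonneg {p : ℝ} (h0 : 0 ≤ p) (h1 : p ≤ D.ℓ) : 0 ≤ D.A p * D.R p := by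
  rcases h0.eq_or_lt with h | h
  · rw [← h, D.R0, mul_zero]
  · exact (mul_pos (D.posA p ⟨h0, h1⟩) (D.posR p ⟨h, h1⟩)).le

lemma bh_le (θ : ℝ) : D.βh θ ≤ D.ℓ := (D.β_mem _ (fold_mem θ)).2

lemma Gm_nonneg (θ : ℝ) : 0 ≤ Gm D θ := by
  apply intervalIntegral.integral_nonneg (beta_pos D θ).le
  intro u hu
  exact AR_nonneg D hu.1 (hu.2.trans (bh_le D θ))

lemma cont_Gm : Continuous (Gm D) := by
  have hAR : Continuous fun p => D.A p * D.R p := D.smA.continuous.mul D.smR.continuous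
  have h : Continuous fun x : ℝ => ∫ p in (0 : ℝ)..x, D.A p * D.R p :=
    intervalIntegral.continuous_primitive (fun a b => hAR.intervalIntegrable a b) 0
  exact h.comp (cont_bh D)

lemma inner_int (θ : ℝ) : ∫⁻ p in Ioo (0 : ℝ) (D.βh θ), ENNReal.ofReal (D.A p * D.R p) =
    ENNReal.ofReal (Gm D θ) := by
  have hAR : Continuous fun p => D.A p * D.R p := D.smA.continuous.mul D.smR.continuous
  unfold Gm
  rw [intervalIntegral.integral_of_le (beta_pos D θ).le, integral_Ioc_eq_integral_Ioo,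
    ofReal_integral_eq_lintegral_ofReal]
  · exact (hAR.integrableOn_Icc (a := 0) (b := D.βh θ)).mono_set Ioo_subset_Icc_self
  · filter_upwards [ae_restrict_mem measurableSet_Ioo] with p hp
    exact AR_nonneg D hp.1.le (hp.2.le.trans (bh_le D θ))

lemma total_int : ∫⁻ q in St D (-Real.pi), ENNReal.ofReal (D.A q.1 * D.R q.1) =
    ENNReal.ofReal (∫ θ in (-Real.pi)..Real.pi, Gm D θ) := by
  have hpi := Real.pi_pos
  have hAR : Continuous fun q : ℝ × ℝ => D.A q.1 * D.R q.1 :=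
    (D.smA.continuous.comp continuous_fst).mul (D.smR.continuous.comp continuous_fst)
  have hm : Measurable fun q : ℝ × ℝ => ENNReal.ofReal (D.A q.1 * D.R q.1) :=
    hAR.measurable.ennreal_ofReal
  rw [← lintegral_indicator (open_St D _).measurableSet, Measure.volume_eq_prod,
    lintegral_prod_symm' _ (hm.indicator (open_St D _).measurableSet)]
  have h1 : ∀ θ : ℝ, ∫⁻ p, (St D (-Real.pi)).indicator
      (fun q : ℝ × ℝ => ENNReal.ofReal (D.A q.1 * D.R q.1)) (p, θ) =
      (Ioo (-Real.pi) Real.pi).indicator (fun θ => ENNReal.ofReal (Gm D θ)) θ := by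
    intro θ
    by_cases hθ : θ ∈ Ioo (-Real.pi) Real.pi
    · rw [indicator_of_mem hθ, ← inner_int, ← lintegral_indicator measurableSet_Ioo]
      congr 1
      funext p
      by_cases hp : p ∈ Ioo (0 : ℝ) (D.βh θ)
      · rw [indicator_of_mem hp, indicator_of_mem]
        exact ⟨hp.1, hp.2, hθ.1, by have := hθ.2; simp only; linarith⟩
      · rw [indicator_of_notMem hp, indicator_of_notMem]
        rintro ⟨a, b, c, d⟩
        exact hp ⟨a, b⟩
    · rw [indicator_of_notMem hθ]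
      rw [lintegral_eq_zero_of_ae_eq_zero]
      filter_upwards with p
      rw [indicator_of_notMem]
      · rfl
      · rintro ⟨a, b, c, d⟩
        simp only at c d
        exact hθ ⟨c, by linarith⟩
  simp_rw [h1]
  rw [lintegral_indicator measurableSet_Ioo, intervalIntegral.integral_of_le (by linarith),
    integral_Ioc_eq_integral_Ioo, ofReal_integral_eq_lintegral_ofReal]
  · exact ((cont_Gm D).integrableOn_Icc (a := -Real.pi) (b := Real.pi)).mono_set
      Ioo_subset_Icc_self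
  · exact Eventually.of_forall fun θ => Gm_nonneg D θ

lemma Gm_four : ∫ θ in (-Real.pi)..Real.pi, Gm D θ = 4 * ∫ θ in (0:ℝ)..(Real.pi / 2), Gm D θ := by
  have hpi := Real.pi_pos
  have hfold : ∀ θ, fold (θ + Real.pi) = fold θ := by
    intro θ; simp [fold, Real.cos_add_pi]
  have hper : Function.Periodic (Gm D) Real.pi := by
    intro θ; simp [Gm, QD.βh, hfold]
  have heven : ∀ θ, Gm D (-θ) = Gm D θ := by
    intro θ; simp [Gm, bh_neg]
  have hint : ∀ a b, IntervalIntegrable (Gm D) volume a b := fun a b =>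
    (cont_Gm D).intervalIntegrable a b
  have h1 : ∫ θ in (-Real.pi)..Real.pi, Gm D θ =
      (∫ θ in (-Real.pi)..0, Gm D θ) + ∫ θ in (0:ℝ)..Real.pi, Gm D θ :=
    (intervalIntegral.integral_add_adjacent_intervals (hint _ _) (hint _ _)).symm
  have h2 : ∫ θ in (-Real.pi)..0, Gm D θ = ∫ θ in (-(Real.pi / 2))..(Real.pi / 2), Gm D θ := by
    have := hper.intervalIntegral_add_eq (-Real.pi) (-(Real.pi / 2))
    rw [show -Real.pi + Real.pi = 0 by ring,
      show -(Real.pi / 2) + Real.pi = Real.pi / 2 by ring] at this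
    exact this
  have h3 : ∫ θ in (0:ℝ)..Real.pi, Gm D θ = ∫ θ in (-(Real.pi / 2))..(Real.pi / 2), Gm D θ := by
    have := hper.intervalIntegral_add_eq 0 (-(Real.pi / 2))
    rw [show 0 + Real.pi = Real.pi by ring,
      show -(Real.pi / 2) + Real.pi = Real.pi / 2 by ring] at this
    exact this
  have h4 : ∫ θ in (-(Real.pi / 2))..(Real.pi / 2), Gm D θ =
      (∫ θ in (-(Real.pi / 2))..0, Gm D θ) + ∫ θ in (0:ℝ)..(Real.pi / 2), Gm D θ :=
    (intervalIntegral.integral_add_adjacent_intervals (hint _ _) (hint _ _)).symm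
  have h5 : ∫ θ in (-(Real.pi / 2))..0, Gm D θ = ∫ θ in (0:ℝ)..(Real.pi / 2), Gm D θ := by
    have := intervalIntegral.integral_comp_neg (a := 0) (b := Real.pi / 2) (Gm D)
    rw [neg_zero] at this
    rw [← this]
    exact intervalIntegral.integral_congr fun θ _ => heven θ
  rw [h1, h2, h3, h4, h5]; ring

end

end Pool.MP8e.AreaBlk

namespace Pool.MP8e

open HomeoBlk AreaBlk

/-- **Block AREA2** (uses AREA1). -/
theorem blk_AREA2 (hA : StmtAreaGen) : StmtArea := by
  intro D X _ _ _ Pr hF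
  rw [meas_univ D hA hF, total_int, ENNReal.toReal_ofReal, Gm_four]
  · congr 1
    apply intervalIntegral.integral_congr
    intro θ hθ
    have hpi := Real.pi_pos
    rw [uIcc_of_le (by linarith)] at hθ
    have hf : fold θ = θ := by
      have := (fold_eq 0 θ hθ.1 hθ.2).1
      simpa using this
    simp only [Gm, QD.βh, hf]
  · apply intervalIntegral.integral_nonneg (by linarith [Real.pi_pos])
    intro u _
    exact Gm_nonneg D u

end Pool.MP8e
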