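import Mathlib
import Pool.Agent.Work.MP_8e9dbb.A.Calls
set_option autoImplicit false

/-!
# Block AREA1: the area formula for infinitesimally Riemannian charts
-/

open MeasureTheory Filter Topology Metric Set
open scoped ContDiff NNReal ENNReal

namespace Pool.MP8e.AreaGen

/-- comparison of Hausdorff measures of two images of a set -/
theorem muHE_image_le {Z X Y : Type} [MetricSpace X] [MeasurableSpace X] [BorelSpace X]
    [MetricSpace Y] [MeasurableSpace Y] [BorelSpace Y] (F : Z → X) (G : Z → Y) (s : Set Z) (K : ℝ≥0)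
    (h : ∀ x ∈ s, ∀ y ∈ s, dist (F x) (F y) ≤ K * dist (G x) (G y)) :
    (Measure.euclideanHausdorffMeasure 2 (F '' s)) ≤
      (K : ℝ≥0∞) ^ 2 * Measure.euclideanHausdorffMeasure 2 (G '' s) := by
  classical
  rcases s.eq_empty_or_nonempty with rfl | ⟨z0, hz0⟩
  · simp
  have : Nonempty Z := ⟨z0⟩
  set f : Y → X := fun y => F (Function.invFunOn G s y) with hf
  have hfG : ∀ z ∈ s, f (G z) = F z := by
    intro z hz
    have h1 : ∃ a ∈ s, G a = G z := ⟨z, hz, rfl⟩
    have h2 := Function.invFunOn_mem h1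
    have h3 := Function.invFunOn_eq h1
    have h4 := h _ h2 _ hz
    rw [h3, dist_self, mul_zero] at h4
    exact dist_le_zero.1 h4
  have hL : LipschitzOnWith K f (G '' s) := by
    apply LipschitzOnWith.of_dist_le_mul
    rintro _ ⟨x, hx, rfl⟩ _ ⟨y, hy, rfl⟩
    rw [hfG x hx, hfG y hy]
    exact h x hx y hy
  have himg : f '' (G '' s) = F '' s := by
    rw [image_image]
    exact image_congr hfG
  have h1 := hL.hausdorffMeasure_image_le (d := 2) (by norm_num)
  rw [himg] at h1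
  rw [Measure.euclideanHausdorffMeasure_def, Measure.euclideanHausdorffMeasure_def,
    Measure.smul_apply, Measure.smul_apply]
  simp only [Nat.cast_ofNat]
  rw [ENNReal.smul_def, ENNReal.smul_def, smul_eq_mul, smul_eq_mul]
  have h2 : (K : ℝ≥0∞) ^ (2 : ℝ) = (K : ℝ≥0∞) ^ 2 := by
    rw [← ENNReal.rpow_natCast]
    norm_num
  rw [h2] at h1
  calc _ ≤ _ * ((K : ℝ≥0∞) ^ 2 * Measure.hausdorffMeasure 2 (G '' s)) := by gcongr
    _ = _ := by ring

/-- the linear map `(u, v) ↦ (a u, b v)` into the Euclidean plane -/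
noncomputable def L (a b : ℝ) (u : ℝ × ℝ) : EuclideanSpace ℝ (Fin 2) := !₂[a * u.1, b * u.2]

theorem dist_L (a b : ℝ) (x y : ℝ × ℝ) :
    dist (L a b x) (L a b y) = √((a * (x - y).1) ^ 2 + (b * (x - y).2) ^ 2) := by
  rw [EuclideanSpace.dist_eq]
  congr 1
  simp only [L, Fin.sum_univ_two, Real.dist_eq, sq_abs, Prod.fst_sub, Prod.snd_sub]
  simp
  ring

noncomputable def D (a b : ℝ) : (ℝ × ℝ) →ₗ[ℝ] (ℝ × ℝ) :=
  (a • (LinearMap.id : ℝ →ₗ[ℝ] ℝ)).prodMap (b • (LinearMap.id : ℝ →ₗ[ℝ] ℝ))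

theorem det_D (a b : ℝ) : LinearMap.det (D a b) = a * b := by
  unfold D
  rw [LinearMap.det_prodMap, LinearMap.det_smul, LinearMap.det_smul]
  simp

theorem vol_L (a b : ℝ) (ha : 0 < a) (hb : 0 < b) (s : Set (ℝ × ℝ)) :
    Measure.euclideanHausdorffMeasure 2 (L a b '' s) = ENNReal.ofReal (a * b) * volume s := by
  have h0 : (Measure.euclideanHausdorffMeasure 2 : Measure (EuclideanSpace ℝ (Fin 2))) = volume :=
    EuclideanSpace.euclideanHausdorffMeasure_eq_volume 2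
  rw [h0]
  have h1 : MeasurePreserving
      (⇑(MeasurableEquiv.toLp 2 (Fin 2 → ℝ)) ∘ ⇑(MeasurableEquiv.finTwoArrow (α := ℝ)).symm)
      (volume : Measure (ℝ × ℝ)) (volume : Measure (EuclideanSpace ℝ (Fin 2))) := by
    refine MeasurePreserving.comp (PiLp.volume_preserving_toLp (Fin 2)) ?_
    exact (volume_preserving_finTwoArrow ℝ).symm
  set e : (ℝ × ℝ) ≃ᵐ EuclideanSpace ℝ (Fin 2) :=
    (MeasurableEquiv.finTwoArrow (α := ℝ)).symm.trans (MeasurableEquiv.toLp 2 (Fin 2 → ℝ)) with he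
  have h2 : MeasurePreserving e volume volume := h1
  have h3 : L a b '' s = e '' (D a b '' s) := by
    rw [image_image]
    apply image_congr
    intro x _
    ext i
    fin_cases i
    · simp [L, e, D, MeasurableEquiv.finTwoArrow]
    · simp [L, e, D, MeasurableEquiv.finTwoArrow]
  rw [h3, e.image_eq_preimage_symm, (h2.symm e).measure_preimage_equiv,
    Measure.addHaar_image_linearMap, det_D, abs_of_pos (mul_pos ha hb)]

/-- `‖u‖ ≤ m⁻¹ N u`. -/
theorem norm_le_N {a b m : ℝ} (hm : 0 < m) (ha : m ≤ a) (hb : m ≤ b) (u : ℝ × ℝ) :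
    m * ‖u‖ ≤ √((a * u.1) ^ 2 + (b * u.2) ^ 2) := by
  rw [Prod.norm_def]
  have h1 : m * |u.1| ≤ √((a * u.1) ^ 2 + (b * u.2) ^ 2) := by
    apply Real.le_sqrt_of_sq_le
    have : (m * |u.1|) ^ 2 = m ^ 2 * u.1 ^ 2 := by rw [mul_pow, sq_abs]
    rw [this]
    have h2 : m ^ 2 ≤ a ^ 2 := by nlinarith
    nlinarith [sq_nonneg u.1, sq_nonneg (b * u.2)]
  have h2 : m * |u.2| ≤ √((a * u.1) ^ 2 + (b * u.2) ^ 2) := by
    apply Real.le_sqrt_of_sq_le
    have : (m * |u.2|) ^ 2 = m ^ 2 * u.2 ^ 2 := by rw [mul_pow, sq_abs]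
    rw [this]
    have h2 : m ^ 2 ≤ b ^ 2 := by nlinarith
    nlinarith [sq_nonneg u.2, sq_nonneg (a * u.1)]
  rcases max_cases ‖u.1‖ ‖u.2‖ with h | h
  · rw [h.1]; exact h1
  · rw [h.1]; exact h2

variable {X : Type} [MetricSpace X] {U : Set (ℝ × ℝ)} {F : ℝ × ℝ → X} {a b : ℝ × ℝ → ℝ}

/-- local bi-Lipschitz estimate -/
theorem local_lip (hab : ∀ q ∈ U, 0 < a q ∧ 0 < b q)
    (hF : ∀ q ∈ U, ∀ ε > 0, ∃ δ > 0, ∀ x y : ℝ × ℝ, dist x q < δ → dist y q < δ →
      |dist (F x) (F y) - √((a q * (x - y).1) ^ 2 + (b q * (x - y).2) ^ 2)| ≤ ε * ‖x - y‖)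
    {q : ℝ × ℝ} (hq : q ∈ U) {K : ℝ} (hK : 1 < K) :
    ∃ δ > 0, ∀ x y : ℝ × ℝ, dist x q < δ → dist y q < δ →
      dist (F x) (F y) ≤ K * dist (L (a q) (b q) x) (L (a q) (b q) y) ∧
      dist (L (a q) (b q) x) (L (a q) (b q) y) ≤ K * dist (F x) (F y) := by
  obtain ⟨ha, hb⟩ := hab q hq
  set m := min (a q) (b q) with hm
  have hm0 : 0 < m := lt_min ha hb
  -- choose ε = m (1 - 1/K)
  have hK0 : 0 < K := by linarith
  have hK1 : 0 < 1 - 1 / K := by
    rw [sub_pos, div_lt_one hK0]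
    exact hK
  obtain ⟨δ, hδ, h⟩ := hF q hq (m * (1 - 1 / K)) (mul_pos hm0 hK1)
  refine ⟨δ, hδ, fun x y hx hy => ?_⟩
  have h1 := h x y hx hy
  rw [dist_L]
  set N := √((a q * (x - y).1) ^ 2 + (b q * (x - y).2) ^ 2) with hN
  have h2 : m * ‖x - y‖ ≤ N := norm_le_N hm0 (min_le_left _ _) (min_le_right _ _) (x - y)
  have h3 : m * (1 - 1 / K) * ‖x - y‖ ≤ (1 - 1 / K) * N := by
    have := mul_le_mul_of_nonneg_left h2 hK1.le
    linarith
  have hN0 : 0 ≤ N := Real.sqrt_nonneg _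
  obtain ⟨h4, h5⟩ := abs_le.1 (h1.trans h3)
  have h6 : 1 - 1 / K ≤ K - 1 := by
    have : 2 ≤ K + 1 / K := by
      have : K + 1 / K - 2 = (K - 1) ^ 2 / K := by field_simp; ring
      have h7 : 0 ≤ (K - 1) ^ 2 / K := by positivity
      linarith
    linarith
  constructor
  · have := mul_le_mul_of_nonneg_right h6 hN0
    linarith
  · have h7 : N / K ≤ dist (F x) (F y) := by
      have : (1 - 1 / K) * N = N - N / K := by ring
      linarith
    rw [div_le_iff₀ hK0] at h7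
    linarith

variable [MeasurableSpace X] [BorelSpace X]

/-- local area estimate -/
theorem local_area (hU : IsOpen U) (hca : ContinuousOn a U) (hcb : ContinuousOn b U)
    (hab : ∀ q ∈ U, 0 < a q ∧ 0 < b q)
    (hF : ∀ q ∈ U, ∀ ε > 0, ∃ δ > 0, ∀ x y : ℝ × ℝ, dist x q < δ → dist y q < δ →
      |dist (F x) (F y) - √((a q * (x - y).1) ^ 2 + (b q * (x - y).2) ^ 2)| ≤ ε * ‖x - y‖)
    {q : ℝ × ℝ} (hq : q ∈ U) {K : ℝ≥0} (hK : 1 < K) :
    ∃ δ > 0, ball q δ ⊆ U ∧ ∀ s ⊆ ball q δ, MeasurableSet s →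
      Measure.euclideanHausdorffMeasure 2 (F '' s) ≤
        (K : ℝ≥0∞) ^ 3 * ∫⁻ x in s, ENNReal.ofReal (a x * b x) ∧
      ∫⁻ x in s, ENNReal.ofReal (a x * b x) ≤
        (K : ℝ≥0∞) ^ 3 * Measure.euclideanHausdorffMeasure 2 (F '' s) := by
  obtain ⟨ha, hb⟩ := hab q hq
  have hK' : (1 : ℝ) < K := by exact_mod_cast hK
  have hK0 : (0 : ℝ) < K := by linarith
  obtain ⟨δ1, hδ1, h1⟩ := local_lip hab hF hq hK'
  obtain ⟨δ2, hδ2, h2⟩ := Metric.isOpen_iff.1 hU q hq
  -- continuity of a b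
  have hc : ContinuousAt (fun x => a x * b x) q :=
    (hca.continuousAt (hU.mem_nhds hq)).mul (hcb.continuousAt (hU.mem_nhds hq))
  set c := a q * b q with hcdef
  have hc0 : 0 < c := mul_pos ha hb
  have e1 : ∀ᶠ x in 𝓝 q, c < K * (a x * b x) := by
    have : ContinuousAt (fun x => K * (a x * b x)) q := hc.const_mul _
    refine this.eventually (lt_mem_nhds ?_)
    show c < K * (a q * b q)
    nlinarith
  have e2 : ∀ᶠ x in 𝓝 q, a x * b x < K * c := by
    refine hc.eventually (gt_mem_nhds ?_)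
    show a q * b q < K * c
    nlinarith
  obtain ⟨δ3, hδ3, h3⟩ := Metric.eventually_nhds_iff_ball.1 (e1.and e2)
  refine ⟨min δ1 (min δ2 δ3), lt_min hδ1 (lt_min hδ2 hδ3), ?_, fun s hs hsm => ?_⟩
  · exact (ball_subset_ball ((min_le_right _ _).trans (min_le_left _ _))).trans h2
  have hs1 : ∀ x ∈ s, dist x q < δ1 := fun x hx => lt_of_lt_of_le (hs hx) (min_le_left _ _)
  have hs3 : ∀ x ∈ s, c < K * (a x * b x) ∧ a x * b x < K * c := fun x hx =>
    h3 x (mem_ball.2 (lt_of_lt_of_le (hs hx) ((min_le_right _ _).trans (min_le_right _ _))))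
  have m1 : Measure.euclideanHausdorffMeasure 2 (F '' s) ≤
      (K : ℝ≥0∞) ^ 2 * Measure.euclideanHausdorffMeasure 2 (L (a q) (b q) '' s) :=
    muHE_image_le F (L (a q) (b q)) s K fun x hx y hy => (h1 x y (hs1 x hx) (hs1 y hy)).1
  have m2 : Measure.euclideanHausdorffMeasure 2 (L (a q) (b q) '' s) ≤
      (K : ℝ≥0∞) ^ 2 * Measure.euclideanHausdorffMeasure 2 (F '' s) :=
    muHE_image_le (L (a q) (b q)) F s K fun x hx y hy => (h1 x y (hs1 x hx) (hs1 y hy)).2
  rw [vol_L _ _ ha hb] at m1 m2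
  -- compare c vol s and the integral
  have i0 : ENNReal.ofReal c * volume s = ∫⁻ _ in s, ENNReal.ofReal c := by
    rw [setLIntegral_const]
  have i1 : ENNReal.ofReal c * volume s ≤ (K : ℝ≥0∞) * ∫⁻ x in s, ENNReal.ofReal (a x * b x) := by
    rw [i0, ← lintegral_const_mul' _ _ ENNReal.coe_ne_top]
    apply setLIntegral_mono' hsm
    intro x hx
    rw [← ENNReal.ofReal_coe_nnreal, ← ENNReal.ofReal_mul hK0.le]
    exact ENNReal.ofReal_le_ofReal (hs3 x hx).1.le
  have i2 : ∫⁻ x in s, ENNReal.ofReal (a x * b x) ≤ (K : ℝ≥0∞) * (ENNReal.ofReal c * volume s) := by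
    rw [i0, ← lintegral_const_mul' _ _ ENNReal.coe_ne_top]
    apply setLIntegral_mono' hsm
    intro x hx
    rw [← ENNReal.ofReal_coe_nnreal, ← ENNReal.ofReal_mul hK0.le]
    exact ENNReal.ofReal_le_ofReal (hs3 x hx).2.le
  constructor
  · calc Measure.euclideanHausdorffMeasure 2 (F '' s)
        ≤ (K : ℝ≥0∞) ^ 2 * (ENNReal.ofReal c * volume s) := m1
      _ ≤ (K : ℝ≥0∞) ^ 2 * ((K : ℝ≥0∞) * ∫⁻ x in s, ENNReal.ofReal (a x * b x)) := by gcongr
      _ = (K : ℝ≥0∞) ^ 3 * ∫⁻ x in s, ENNReal.ofReal (a x * b x) := by ring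
  · calc ∫⁻ x in s, ENNReal.ofReal (a x * b x)
        ≤ (K : ℝ≥0∞) * (ENNReal.ofReal c * volume s) := i2
      _ ≤ (K : ℝ≥0∞) * ((K : ℝ≥0∞) ^ 2 * Measure.euclideanHausdorffMeasure 2 (F '' s)) := by gcongr
      _ = (K : ℝ≥0∞) ^ 3 * Measure.euclideanHausdorffMeasure 2 (F '' s) := by ring

/-- `x ≤ K³ y` for all `K > 1` gives `x ≤ y` -/
theorem le_of_forall_K {x y : ℝ≥0∞} (h : ∀ K : ℝ≥0, 1 < K → x ≤ (K : ℝ≥0∞) ^ 3 * y) : x ≤ y := by
  have h1 : Tendsto (fun K : ℝ≥0 => (K : ℝ≥0∞) ^ 3 * y) (𝓝[>] 1) (𝓝 (((1 : ℝ≥0) : ℝ≥0∞) ^ 3 * y)) := by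
    apply ENNReal.Tendsto.mul_const
    · have : Continuous (fun K : ℝ≥0 => (K : ℝ≥0∞) ^ 3) :=
        (ENNReal.continuous_pow 3).comp ENNReal.continuous_coe
      exact (this.tendsto 1).mono_left nhdsWithin_le_nhds
    · left
      simp
  have h2 : (((1 : ℝ≥0) : ℝ≥0∞) ^ 3 * y) = y := by simp
  rw [h2] at h1
  refine ge_of_tendsto h1 ?_
  filter_upwards [self_mem_nhdsWithin] with K hK
  exact h K hK

theorem continuous_L (a b : ℝ) : Continuous (L a b) := by
  unfold L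
  fun_prop

omit [MeasurableSpace X] [BorelSpace X] in
theorem contF (hab : ∀ q ∈ U, 0 < a q ∧ 0 < b q)
    (hF : ∀ q ∈ U, ∀ ε > 0, ∃ δ > 0, ∀ x y : ℝ × ℝ, dist x q < δ → dist y q < δ →
      |dist (F x) (F y) - √((a q * (x - y).1) ^ 2 + (b q * (x - y).2) ^ 2)| ≤ ε * ‖x - y‖)
    {q : ℝ × ℝ} (hq : q ∈ U) : ContinuousAt F q := by
  obtain ⟨δ, hδ, h⟩ := local_lip hab hF hq (K := 2) (by norm_num)
  rw [ContinuousAt, tendsto_iff_dist_tendsto_zero]
  have h1 : Tendsto (fun x => 2 * dist (L (a q) (b q) x) (L (a q) (b q) q)) (𝓝 q) (𝓝 0) := by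
    have h2 : Tendsto (fun x => dist (L (a q) (b q) x) (L (a q) (b q) q)) (𝓝 q) (𝓝 0) :=
      tendsto_iff_dist_tendsto_zero.1 ((continuous_L (a q) (b q)).tendsto q)
    have := h2.const_mul 2
    rwa [mul_zero] at this
  refine squeeze_zero' (Eventually.of_forall fun _ => dist_nonneg) ?_ h1
  filter_upwards [ball_mem_nhds q hδ] with x hx
  exact (h x q hx (by rw [dist_self]; exact hδ)).1

theorem stmt_AreaGen : StmtAreaGen := by
  intro X _ _ _ U F a b hU hinj hca hcb hab hF hopen s hs hsm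
  -- the restriction of `F` to `U` is an open embedding
  have hemb : IsOpenEmbedding (fun x : U => F x) := by
    apply IsOpenEmbedding.of_continuous_injective_isOpenMap
    · rw [continuous_iff_continuousAt]
      intro x
      exact (contF hab hF x.2).comp continuousAt_subtype_val
    · intro x y hxy
      exact Subtype.ext (hinj x.2 y.2 hxy)
    · intro V hV
      have h1 : (fun x : U => F x) '' V = F '' (Subtype.val '' V) := by
        rw [image_image]
      rw [h1]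
      exact hopen _ (by rintro _ ⟨x, _, rfl⟩; exact x.2) (hU.isOpenMap_subtype_val V hV)
  have hmeas : ∀ s' ⊆ U, MeasurableSet s' → MeasurableSet (F '' s') := by
    intro s' hs' hm
    have h1 : F '' s' = (fun x : U => F x) '' (Subtype.val ⁻¹' s') := by
      ext y
      constructor
      · rintro ⟨x, hx, rfl⟩
        exact ⟨⟨x, hs' hx⟩, hx, rfl⟩
      · rintro ⟨x, hx, rfl⟩
        exact ⟨x, hx, rfl⟩
    rw [h1]
    exact hemb.measurableEmbedding.measurableSet_image.2 (measurable_subtype_coe hm)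
  have key : ∀ K : ℝ≥0, 1 < K →
      Measure.euclideanHausdorffMeasure 2 (F '' s) ≤
        (K : ℝ≥0∞) ^ 3 * ∫⁻ x in s, ENNReal.ofReal (a x * b x) ∧
      ∫⁻ x in s, ENNReal.ofReal (a x * b x) ≤
        (K : ℝ≥0∞) ^ 3 * Measure.euclideanHausdorffMeasure 2 (F '' s) := by
    intro K hK
    have hloc : ∀ q : ℝ × ℝ, ∃ δ > 0, q ∈ U → ball q δ ⊆ U ∧ ∀ s ⊆ ball q δ, MeasurableSet s →
      Measure.euclideanHausdorffMeasure 2 (F '' s) ≤
        (K : ℝ≥0∞) ^ 3 * ∫⁻ x in s, ENNReal.ofReal (a x * b x) ∧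
      ∫⁻ x in s, ENNReal.ofReal (a x * b x) ≤
        (K : ℝ≥0∞) ^ 3 * Measure.euclideanHausdorffMeasure 2 (F '' s) := by
      intro q
      by_cases hq : q ∈ U
      · obtain ⟨δ, hδ, h⟩ := local_area hU hca hcb hab hF hq hK
        exact ⟨δ, hδ, fun _ => h⟩
      · exact ⟨1, one_pos, fun h => absurd h hq⟩
    choose δ hδ hloc using hloc
    obtain ⟨t, htU, htc, ht⟩ := TopologicalSpace.countable_cover_nhdsWithin
      (f := fun q => ball q (δ q)) (s := U)
      (fun q _ => mem_nhdsWithin_of_mem_nhds (ball_mem_nhds q (hδ q)))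
    rcases t.eq_empty_or_nonempty with rfl | htne
    · have hsE : s = ∅ := by
        rw [eq_empty_iff_forall_notMem]
        intro x hx
        have := ht (hs hx)
        simp at this
      subst hsE
      simp
    obtain ⟨g, hg⟩ := htc.exists_eq_range htne
    have hgU : ∀ n, g n ∈ U := fun n => htU (by rw [hg]; exact mem_range_self n)
    set B : ℕ → Set (ℝ × ℝ) := fun n => ball (g n) (δ (g n)) with hB
    set S : ℕ → Set (ℝ × ℝ) := fun n => s ∩ disjointed B n with hS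
    have hSm : ∀ n, MeasurableSet (S n) := fun n =>
      hsm.inter (MeasurableSet.disjointed (fun i => measurableSet_ball) n)
    have hSd : Pairwise (Function.onFun Disjoint S) := by
      intro i j hij
      exact (disjoint_disjointed B hij).mono inter_subset_right inter_subset_right
    have hSU : ⋃ n, S n = s := by
      rw [hS, ← inter_iUnion, iUnion_disjointed]
      apply inter_eq_left.2
      intro x hx
      have h1 := ht (hs hx)
      simp only [mem_iUnion] at h1 ⊢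
      obtain ⟨q, hq, hxq⟩ := h1
      rw [hg] at hq
      obtain ⟨n, rfl⟩ := hq
      exact ⟨n, hxq⟩
    have hSs : ∀ n, S n ⊆ s := fun n => inter_subset_left
    have hSB : ∀ n, S n ⊆ ball (g n) (δ (g n)) := fun n =>
      inter_subset_right.trans (disjointed_subset B n)
    have e1 : Measure.euclideanHausdorffMeasure 2 (F '' s) =
        ∑' n, Measure.euclideanHausdorffMeasure 2 (F '' S n) := by
      have e0 : F '' s = ⋃ n, F '' S n := by rw [← image_iUnion, hSU]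
      rw [e0, measure_iUnion]
      · intro i j hij
        show Disjoint (F '' S i) (F '' S j)
        rw [Set.disjoint_left]
        rintro _ ⟨x, hx, rfl⟩ ⟨y, hy, hyx⟩
        have hxy : y = x := hinj (hs (hSs j hy)) (hs (hSs i hx)) hyx
        rw [hxy] at hy
        exact Set.disjoint_left.1 (hSd hij) hx hy
      · exact fun n => hmeas _ ((hSs n).trans hs) (hSm n)
    have e2 : ∫⁻ x in s, ENNReal.ofReal (a x * b x) =
        ∑' n, ∫⁻ x in S n, ENNReal.ofReal (a x * b x) := by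
      rw [← lintegral_iUnion hSm hSd, hSU]
    constructor
    · rw [e1, e2, ← ENNReal.tsum_mul_left]
      exact ENNReal.tsum_le_tsum fun n => ((hloc (g n) (hgU n)).2 (S n) (hSB n) (hSm n)).1
    · rw [e1, e2, ← ENNReal.tsum_mul_left]
      exact ENNReal.tsum_le_tsum fun n => ((hloc (g n) (hgU n)).2 (S n) (hSB n) (hSm n)).2
  exact le_antisymm (le_of_forall_K fun K hK => (key K hK).1) (le_of_forall_K fun K hK => (key K hK).2)

end Pool.MP8e.AreaGen
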