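import Mathlib
import Pool.Agent.Work.MP_8e9dbb.Defs

/-!
# Part A, file 1: length pseudo-metrics of norm fields, by duality

For a compact convex set `K` and a continuous field of seminorms `N` on `K`, the distance of the
Riemannian (Finsler) metric `N` is the largest pseudo-distance which is infinitesimally `≤ N`:
`d(x,y) = sup |f x - f y|` over all `f` which are infinitesimally 1-Lipschitz.
-/

open Filter Topology Metric Set

namespace Pool.MP8e

/-- midpoints exist -/
def HasMid (Y : Type*) [PseudoMetricSpace Y] : Prop :=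
  ∀ x y : Y, ∃ z, dist x z = dist x y / 2 ∧ dist z y = dist x y / 2

/-- points at every distance between two points exist -/
def HasBet (Y : Type*) [PseudoMetricSpace Y] : Prop :=
  ∀ x y : Y, ∀ a, 0 ≤ a → a ≤ dist x y → ∃ z, dist x z = a ∧ dist z y = dist x y - a

theorem HasBet.hasMid {Y : Type*} [PseudoMetricSpace Y] (h : HasBet Y) : HasMid Y := by
  intro x y
  have := dist_nonneg (x := x) (y := y)
  obtain ⟨z, h1, h2⟩ := h x y (dist x y / 2) (by positivity) (by linarith)
  exact ⟨z, h1, by rw [h2]; ring⟩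

/-- **Local to global principle**: in a compact space with midpoints, a map which is locally
`(Λ+ε)`-Lipschitz for all `ε` is `Λ`-Lipschitz. -/
theorem lip_of_local {Y Z : Type*} [PseudoMetricSpace Y] [CompactSpace Y] [PseudoMetricSpace Z]
    (mid : HasMid Y) (f : Y → Z) {Λ : ℝ}
    (hf : ∀ q : Y, ∀ ε > 0, ∃ r > 0, ∀ x ∈ ball q r, ∀ y ∈ ball q r,
      dist (f x) (f y) ≤ (Λ + ε) * dist x y) (x y : Y) : dist (f x) (f y) ≤ Λ * dist x y := by
  have key : ∀ ε > 0, ∀ x y : Y, dist (f x) (f y) ≤ (Λ + ε) * dist x y := by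
    intro ε hε
    choose r hr hloc using fun q => hf q ε hε
    obtain ⟨δ, hδ, hball⟩ := lebesgue_number_lemma_of_metric (s := (univ : Set Y)) isCompact_univ
      (c := fun q : Y => ball q (r q)) (fun q => isOpen_ball)
      (fun x _ => mem_iUnion.2 ⟨x, mem_ball_self (hr x)⟩)
    have base : ∀ x y : Y, dist x y < δ → dist (f x) (f y) ≤ (Λ + ε) * dist x y := by
      intro x y hxy
      obtain ⟨q, hq⟩ := hball x (mem_univ x)
      exact hloc q x (hq (mem_ball_self hδ)) y (hq (by rwa [mem_ball, dist_comm]))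
    have ind : ∀ n : ℕ, ∀ x y : Y, dist x y < 2 ^ n * δ →
        dist (f x) (f y) ≤ (Λ + ε) * dist x y := by
      intro n
      induction n with
      | zero => intro x y h; exact base x y (by simpa using h)
      | succ n ih =>
        intro x y h
        obtain ⟨z, h1, h2⟩ := mid x y
        have e1 := ih x z (by rw [h1]; rw [pow_succ] at h; linarith)
        have e2 := ih z y (by rw [h2]; rw [pow_succ] at h; linarith)
        have e3 := dist_triangle (f x) (f z) (f y)
        rw [h1] at e1; rw [h2] at e2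
        linarith
    intro x y
    obtain ⟨n, hn⟩ := pow_unbounded_of_one_lt (dist x y / δ) (one_lt_two)
    exact ind n x y (by rwa [div_lt_iff₀ hδ] at hn)
  by_contra hcon
  push Not at hcon
  rcases eq_or_lt_of_le (dist_nonneg (x := x) (y := y)) with h0 | h0
  · have := key 1 one_pos x y
    rw [← h0] at this hcon
    simp at this hcon
    exact absurd hcon (not_lt.2 this)
  · have := key ((dist (f x) (f y) - Λ * dist x y) / (2 * dist x y)) (by
      apply div_pos <;> linarith) x y
    have e : (dist (f x) (f y) - Λ * dist x y) / (2 * dist x y) * dist x y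
        = (dist (f x) (f y) - Λ * dist x y) / 2 := by field_simp
    rw [add_mul, e] at this
    linarith

theorem hasMid_Icc : HasMid (Icc (0:ℝ) 1) := by
  intro x y
  refine ⟨⟨(x.1 + y.1) / 2, ⟨by linarith [x.2.1, y.2.1], by linarith [x.2.2, y.2.2]⟩⟩, ?_, ?_⟩
  · rw [Subtype.dist_eq, Subtype.dist_eq, Real.dist_eq, Real.dist_eq]
    rw [show (x.1 - (x.1 + y.1) / 2) = (x.1 - y.1) / 2 by ring, abs_div]; simp
  · rw [Subtype.dist_eq, Subtype.dist_eq, Real.dist_eq, Real.dist_eq]
    rw [show ((x.1 + y.1) / 2 - y.1) = (x.1 - y.1) / 2 by ring, abs_div]; simp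

/-- a path `[0,1] → Z` which is locally `(C+ε)`-Lipschitz is `C`-Lipschitz. -/
theorem path_lip {Z : Type*} [PseudoMetricSpace Z] (h : ℝ → Z) {C : ℝ}
    (hh : ∀ t ∈ Icc (0:ℝ) 1, ∀ ε > 0, ∃ δ > 0, ∀ u ∈ Icc (0:ℝ) 1, ∀ v ∈ Icc (0:ℝ) 1,
      |u - t| < δ → |v - t| < δ → dist (h u) (h v) ≤ (C + ε) * |u - v|) :
    dist (h 0) (h 1) ≤ C := by
  have := lip_of_local hasMid_Icc (fun t : Icc (0:ℝ) 1 => h t.1) (Λ := C) (by
    intro q ε hε
    obtain ⟨δ, hδ, H⟩ := hh q.1 q.2 ε hε
    refine ⟨δ, hδ, fun x hx y hy => ?_⟩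
    have := H x.1 x.2 y.1 y.2 (by simpa [Subtype.dist_eq, Real.dist_eq] using hx)
      (by simpa [Subtype.dist_eq, Real.dist_eq] using hy)
    simpa [Subtype.dist_eq, Real.dist_eq] using this) ⟨0, by simp⟩ ⟨1, by simp⟩
  simpa [Subtype.dist_eq, Real.dist_eq] using this

variable {V : Type} [NormedAddCommGroup V] [NormedSpace ℝ V]

/-- A continuous field of seminorms on a compact convex set. -/
structure NField (V : Type) [NormedAddCommGroup V] [NormedSpace ℝ V] where
  K : Set V
  N : V → Seminorm ℝ V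
  conv : Convex ℝ K
  cpt : IsCompact K
  nonempty : K.Nonempty
  cont : ∀ q ∈ K, ∀ ε > 0, ∃ δ > 0, ∀ z ∈ K, dist z q < δ → ∀ v, |N z v - N q v| ≤ ε * ‖v‖
  bdd : ∃ C, 0 ≤ C ∧ ∀ q ∈ K, ∀ v, N q v ≤ C * ‖v‖

/-- The points of `K` (type synonym, to carry the new pseudo-distance). -/
structure Pt (D : NField V) where
  val : V
  mem : val ∈ D.K

namespace Pt

variable {D : NField V}

theorem ext' {x y : Pt D} (h : x.val = y.val) : x = y := by
  cases x; cases y; simp at h; subst h; rfl

/-- `f` is infinitesimally 1-Lipschitz -/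
def InfLip (f : Pt D → ℝ) : Prop :=
  ∀ q : Pt D, ∀ ε > 0, ∃ δ > 0, ∀ x y : Pt D, dist x.val q.val < δ → dist y.val q.val < δ →
    |f x - f y| ≤ D.N q.val (x.val - y.val) + ε * ‖x.val - y.val‖

theorem infLip_zero : InfLip (fun _ : Pt D => (0:ℝ)) := by
  intro q ε hε
  refine ⟨1, one_pos, fun x y _ _ => ?_⟩
  simp only [sub_self, abs_zero]
  have := apply_nonneg (D.N q.val) (x.val - y.val)
  positivity

/-- the point of the segment with parameter `t` -/
def seg (x y : Pt D) (t : ℝ) (ht : t ∈ Icc (0:ℝ) 1) : Pt D :=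
  ⟨x.val + t • (y.val - x.val), D.conv.add_smul_sub_mem x.mem y.mem ht⟩

/-- Upper bound along a segment, for a map to a pseudo-metric space which is infinitesimally
1-Lipschitz at the points of the segment. -/
theorem seg_bound' {Z : Type*} [PseudoMetricSpace Z] (f : Pt D → Z) (x y : Pt D) {C : ℝ}
    (hf : ∀ q : Pt D, q.val ∈ segment ℝ x.val y.val → ∀ ε > 0, ∃ δ > 0, ∀ z w : Pt D,
      z.val ∈ segment ℝ x.val y.val → w.val ∈ segment ℝ x.val y.val →
      dist z.val q.val < δ → dist w.val q.val < δ →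
      dist (f z) (f w) ≤ D.N q.val (z.val - w.val) + ε * ‖z.val - w.val‖)
    (hC : ∀ z ∈ segment ℝ x.val y.val, D.N z (x.val - y.val) ≤ C) :
    dist (f x) (f y) ≤ C := by
  classical
  set h : ℝ → Z := fun t => if ht : t ∈ Icc (0:ℝ) 1 then f (seg x y t ht) else f x with hdef
  have h0 : h 0 = f x := by
    simp only [hdef]; rw [dif_pos (by simp)]; congr 1; exact ext' (by simp [seg])
  have h1 : h 1 = f y := by
    simp only [hdef]; rw [dif_pos (by simp)]; congr 1; exact ext' (by simp [seg])
  rw [← h0, ← h1]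
  apply path_lip
  intro t ht ε hε
  have memseg : ∀ u : ℝ, u ∈ Icc (0:ℝ) 1 → x.val + u • (y.val - x.val) ∈ segment ℝ x.val y.val := by
    intro u hu
    rw [segment_eq_image']
    exact ⟨u, hu, rfl⟩
  set M := ‖x.val - y.val‖ + 1 with hM
  have hMpos : 0 < M := by positivity
  obtain ⟨δ, hδ, H⟩ := hf (seg x y t ht) (memseg t ht) (ε / M) (by positivity)
  refine ⟨δ / M, by positivity, fun u hu v hv hut hvt => ?_⟩
  have hd : ∀ u v : ℝ, (x.val + u • (y.val - x.val)) - (x.val + v • (y.val - x.val))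
      = (v - u) • (x.val - y.val) := by
    intro u v; module
  have hnear : ∀ u : ℝ, |u - t| < δ / M →
      dist (x.val + u • (y.val - x.val)) (x.val + t • (y.val - x.val)) < δ := by
    intro u hu
    rw [dist_eq_norm, hd, norm_smul, Real.norm_eq_abs, abs_sub_comm]
    rw [lt_div_iff₀ hMpos] at hu
    have : |u - t| * ‖x.val - y.val‖ ≤ |u - t| * M := by
      apply mul_le_mul_of_nonneg_left _ (abs_nonneg _); linarith
    linarith
  have := H (seg x y u hu) (seg x y v hv) (memseg u hu) (memseg v hv) (hnear u hut) (hnear v hvt)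
  have hu' : h u = f (seg x y u hu) := by simp only [hdef]; rw [dif_pos hu]
  have hv' : h v = f (seg x y v hv) := by simp only [hdef]; rw [dif_pos hv]
  rw [hu', hv']
  refine this.trans ?_
  simp only [seg]
  rw [hd, map_smul_eq_mul, norm_smul, Real.norm_eq_abs, abs_sub_comm v u]
  have e1 : D.N (x.val + t • (y.val - x.val)) (x.val - y.val) ≤ C := hC _ (memseg t ht)
  have e2 : ε / M * (|u - v| * ‖x.val - y.val‖) ≤ ε * |u - v| := by
    rw [div_mul_eq_mul_div, div_le_iff₀ hMpos]
    have : |u - v| * ‖x.val - y.val‖ ≤ |u - v| * M := by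
      apply mul_le_mul_of_nonneg_left _ (abs_nonneg _); linarith
    nlinarith [hε.le]
  have e3 := mul_le_mul_of_nonneg_left e1 (abs_nonneg (u - v))
  linarith

theorem InfLip.seg_bound {f : Pt D → ℝ} (hf : InfLip f) (x y : Pt D) {C : ℝ}
    (hC : ∀ z ∈ segment ℝ x.val y.val, D.N z (x.val - y.val) ≤ C) : |f x - f y| ≤ C := by
  rw [← Real.dist_eq]
  refine seg_bound' f x y (fun q _ ε hε => ?_) hC
  obtain ⟨δ, hδ, H⟩ := hf q ε hε
  refine ⟨δ, hδ, fun z w _ _ hz hw => ?_⟩
  rw [Real.dist_eq]; exact H z w hz hw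

theorem mem_K_of_segment {x y : Pt D} {z : V} (hz : z ∈ segment ℝ x.val y.val) : z ∈ D.K :=
  D.conv.segment_subset x.mem y.mem hz

theorem InfLip.le_norm {f : Pt D → ℝ} (hf : InfLip f) {C : ℝ}
    (hC : ∀ q ∈ D.K, ∀ v, D.N q v ≤ C * ‖v‖) (x y : Pt D) :
    |f x - f y| ≤ C * ‖x.val - y.val‖ :=
  hf.seg_bound x y (fun _ hz => hC _ (mem_K_of_segment hz) _)

/-- the dual distance -/
noncomputable def dN (x y : Pt D) : ℝ := ⨆ f : {f : Pt D → ℝ // InfLip f}, |f.1 x - f.1 y|

theorem bdd (x y : Pt D) : BddAbove (range fun f : {f : Pt D → ℝ // InfLip f} => |f.1 x - f.1 y|) := by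
  obtain ⟨C, _, hC⟩ := D.bdd
  exact ⟨C * ‖x.val - y.val‖, by rintro _ ⟨f, rfl⟩; exact f.2.le_norm hC x y⟩

instance : Nonempty {f : Pt D → ℝ // InfLip f} := ⟨⟨_, infLip_zero⟩⟩

theorem InfLip.le_dN {f : Pt D → ℝ} (hf : InfLip f) (x y : Pt D) : |f x - f y| ≤ dN x y :=
  le_ciSup (bdd x y) ⟨f, hf⟩

theorem dN_le {x y : Pt D} {C : ℝ} (h : ∀ f : Pt D → ℝ, InfLip f → |f x - f y| ≤ C) :
    dN x y ≤ C := ciSup_le fun f => h f.1 f.2

noncomputable instance : PseudoMetricSpace (Pt D) where
  dist := dN
  dist_self x := le_antisymm (dN_le fun f _ => by simp)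
    (by simpa using infLip_zero.le_dN x x)
  dist_comm x y := by simp only [dN, abs_sub_comm]
  dist_triangle x y z := dN_le fun f hf => by
    have := abs_sub_le (f x) (f y) (f z)
    linarith [hf.le_dN x y, hf.le_dN y z]

theorem InfLip.le_dist {f : Pt D → ℝ} (hf : InfLip f) (x y : Pt D) : |f x - f y| ≤ dist x y :=
  hf.le_dN x y

theorem dist_le {x y : Pt D} {C : ℝ} (h : ∀ f : Pt D → ℝ, InfLip f → |f x - f y| ≤ C) :
    dist x y ≤ C := dN_le h

theorem dist_le_seg {x y : Pt D} {C : ℝ}
    (hC : ∀ z ∈ segment ℝ x.val y.val, D.N z (x.val - y.val) ≤ C) : dist x y ≤ C :=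
  dist_le fun _ hf => hf.seg_bound x y hC

theorem dist_le_norm {C : ℝ} (hC : ∀ q ∈ D.K, ∀ v, D.N q v ≤ C * ‖v‖) (x y : Pt D) :
    dist x y ≤ C * ‖x.val - y.val‖ :=
  dist_le fun _ hf => hf.le_norm hC x y

/-- **upper infinitesimal bound** -/
theorem dist_upper (q : Pt D) {ε : ℝ} (hε : 0 < ε) : ∃ δ > 0, ∀ x y : Pt D,
    dist x.val q.val < δ → dist y.val q.val < δ →
    dist x y ≤ D.N q.val (x.val - y.val) + ε * ‖x.val - y.val‖ := by
  obtain ⟨δ, hδ, H⟩ := D.cont q.val q.mem ε hε
  refine ⟨δ, hδ, fun x y hx hy => dist_le_seg fun z hz => ?_⟩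
  have hz1 := (convex_ball q.val δ).segment_subset (mem_ball.2 hx) (mem_ball.2 hy) hz
  have := H z (mem_K_of_segment hz) hz1 (x.val - y.val)
  have := (abs_le.1 this).2
  linarith

theorem infLip_dist (x : Pt D) : InfLip (fun z => dist x z) := by
  intro q ε hε
  obtain ⟨δ, hδ, H⟩ := dist_upper q hε
  refine ⟨δ, hδ, fun z w hz hw => ?_⟩
  have h1 := H z w hz hw
  have h2 := dist_triangle x z w
  have h3 := dist_triangle x w z
  rw [dist_comm w z] at h3
  exact (abs_le.2 ⟨by linarith, by linarith⟩).trans h1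

/-- a real function which is 1-Lipschitz for `dist` is `InfLip`. -/
theorem infLip_of_dist {f : Pt D → ℝ} (hf : ∀ x y, |f x - f y| ≤ dist x y) : InfLip f := by
  intro q ε hε
  obtain ⟨δ, hδ, H⟩ := dist_upper q hε
  exact ⟨δ, hδ, fun z w hz hw => (hf z w).trans (H z w hz hw)⟩

/-- **Lipschitz test** for maps into a pseudo-metric space. -/
theorem map_le {Z : Type*} [PseudoMetricSpace Z] (g : Pt D → Z) {Λ : ℝ} (hΛ : 0 ≤ Λ)
    (hg : ∀ q : Pt D, ∀ ε > 0, ∃ δ > 0, ∀ x y : Pt D, dist x.val q.val < δ →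
      dist y.val q.val < δ →
      dist (g x) (g y) ≤ Λ * D.N q.val (x.val - y.val) + ε * ‖x.val - y.val‖) (x y : Pt D) :
    dist (g x) (g y) ≤ Λ * dist x y := by
  rcases eq_or_lt_of_le hΛ with h0 | h0
  · -- Λ = 0 : the map is constant along segments
    subst h0
    have := seg_bound' (D := { D with
      N := fun _ => 0
      cont := fun q _ ε hε => ⟨1, one_pos, fun z _ _ v => by simp; positivity⟩
      bdd := ⟨0, le_refl _, fun q _ v => by simp⟩ })
      (fun z => g ⟨z.val, z.mem⟩) ⟨x.val, x.mem⟩ ⟨y.val, y.mem⟩ (C := 0) (by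
        intro q _ ε hε
        obtain ⟨δ, hδ, H⟩ := hg ⟨q.val, q.mem⟩ ε hε
        refine ⟨δ, hδ, fun z w _ _ hz hw => ?_⟩
        have := H ⟨z.val, z.mem⟩ ⟨w.val, w.mem⟩ hz hw
        simpa using this) (by intro z _; simp)
    simpa using this
  · have : InfLip (fun z => dist (g x) (g z) / Λ) := by
      intro q ε hε
      obtain ⟨δ, hδ, H⟩ := hg q (ε * Λ) (by positivity)
      refine ⟨δ, hδ, fun z w hz hw => ?_⟩
      have h1 := H z w hz hw
      have h2 := dist_triangle (g x) (g z) (g w)
      have h3 := dist_triangle (g x) (g w) (g z)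
      rw [dist_comm (g w) (g z)] at h3
      rw [← sub_div, abs_div, abs_of_pos h0, div_le_iff₀ h0]
      refine (abs_le.2 ⟨by linarith, by linarith⟩ : |dist (g x) (g z) - dist (g x) (g w)|
        ≤ dist (g z) (g w)).trans (h1.trans (le_of_eq (by ring)))
    have := this.le_dist y x
    rw [dist_self, zero_div, sub_zero, abs_of_nonneg (by positivity), div_le_iff₀ h0] at this
    rw [dist_comm x y]
    linarith

theorem continuous_mk : Continuous (fun z : D.K => (⟨z.1, z.2⟩ : Pt D)) := by
  obtain ⟨C, hC0, hC⟩ := D.bdd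
  rw [Metric.continuous_iff]
  intro b ε hε
  refine ⟨ε / (C + 1), by positivity, fun a hab => ?_⟩
  have h1 := dist_le_norm hC (⟨a.1, a.2⟩ : Pt D) ⟨b.1, b.2⟩
  simp only at h1
  rw [← dist_eq_norm, ← Subtype.dist_eq] at h1
  rw [lt_div_iff₀ (by positivity)] at hab
  nlinarith [dist_nonneg (x := a) (y := b)]

instance : CompactSpace (Pt D) := by
  have : CompactSpace D.K := isCompact_iff_compactSpace.1 D.cpt
  refine ⟨?_⟩
  have : (univ : Set (Pt D)) = range (fun z : D.K => (⟨z.1, z.2⟩ : Pt D)) := by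
    ext x; simp only [mem_univ, true_iff, mem_range]; exact ⟨⟨x.val, x.mem⟩, rfl⟩
  rw [this]
  exact isCompact_range continuous_mk

theorem exists_ball_subset {U : Set (Pt D)} (hU : IsOpen U) {q : Pt D} (hq : q ∈ U) :
    ∃ δ > 0, ∀ x : Pt D, dist x.val q.val < δ → x ∈ U := by
  obtain ⟨C, hC0, hC⟩ := D.bdd
  obtain ⟨r, hr, hball⟩ := Metric.isOpen_iff.1 hU q hq
  refine ⟨r / (C + 1), by positivity, fun x hx => hball ?_⟩
  rw [mem_ball]
  have h1 := dist_le_norm hC x q
  rw [← dist_eq_norm] at h1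
  rw [lt_div_iff₀ (by positivity)] at hx
  nlinarith [dist_nonneg (x := x.val) (y := q.val)]

theorem exists_approx_bet (x y : Pt D) {a : ℝ} (ha : 0 ≤ a) (ha' : a ≤ dist x y) {κ : ℝ}
    (hκ : 0 < κ) : ∃ z, dist x z ≤ a + κ ∧ dist z y ≤ dist x y - a + κ := by
  classical
  by_contra hcon
  push Not at hcon
  set d := dist x y with hd
  set r := a + κ with hr
  set r' := d - a + κ with hr'
  have hd0 : 0 ≤ d := dist_nonneg
  set f : Pt D → ℝ := fun z => if dist x z ≤ r then dist x z else
    if dist z y ≤ r' then r + r' - dist z y else r with hf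
  have hInf : InfLip f := by
    intro q ε hε
    obtain ⟨δ1, hδ1, H1⟩ := dist_upper q hε
    by_cases hq : dist x q ≤ r
    · have hqB : r' < dist q y := hcon q hq
      obtain ⟨δ2, hδ2, H2⟩ := exists_ball_subset (U := {z : Pt D | r' < dist z y})
        (isOpen_lt continuous_const (continuous_id.dist continuous_const)) hqB
      refine ⟨min δ1 δ2, lt_min hδ1 hδ2, fun z w hz hw => ?_⟩
      have key : ∀ z : Pt D, dist z.val q.val < δ2 → f z = min (dist x z) r := by
        intro z hz
        have hz2 : r' < dist z y := H2 z hz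
        simp only [hf]
        split_ifs with h1 h2
        · rw [min_eq_left h1]
        · exact absurd h2 (not_le.2 hz2)
        · rw [min_eq_right (le_of_not_ge h1)]
      rw [key z (lt_of_lt_of_le hz (min_le_right _ _)), key w (lt_of_lt_of_le hw (min_le_right _ _))]
      have hzw := H1 z w (lt_of_lt_of_le hz (min_le_left _ _)) (lt_of_lt_of_le hw (min_le_left _ _))
      have h2 := dist_triangle x z w
      have h3 := dist_triangle x w z
      rw [dist_comm w z] at h3
      have h4 : |min (dist x z) r - min (dist x w) r| ≤ |dist x z - dist x w| := by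
        have := abs_min_sub_min_le_max (dist x z) r (dist x w) r
        simpa using this
      refine h4.trans ((abs_le.2 ⟨by linarith, by linarith⟩ : |dist x z - dist x w| ≤ dist z w).trans hzw)
    · push Not at hq
      obtain ⟨δ2, hδ2, H2⟩ := exists_ball_subset (U := {z : Pt D | r < dist x z})
        (isOpen_lt continuous_const (continuous_const.dist continuous_id)) hq
      refine ⟨min δ1 δ2, lt_min hδ1 hδ2, fun z w hz hw => ?_⟩
      have key : ∀ z : Pt D, dist z.val q.val < δ2 → f z = max (r + r' - dist z y) r := by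
        intro z hz
        have hz2 : r < dist x z := H2 z hz
        simp only [hf]
        split_ifs with h1 h2
        · exact absurd h1 (not_le.2 hz2)
        · rw [max_eq_left (by linarith)]
        · rw [max_eq_right (by linarith)]
      rw [key z (lt_of_lt_of_le hz (min_le_right _ _)), key w (lt_of_lt_of_le hw (min_le_right _ _))]
      have hzw := H1 z w (lt_of_lt_of_le hz (min_le_left _ _)) (lt_of_lt_of_le hw (min_le_left _ _))
      have h2 := dist_triangle z w y
      have h3 := dist_triangle w z y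
      rw [dist_comm w z] at h3
      have h4 : |max (r + r' - dist z y) r - max (r + r' - dist w y) r|
          ≤ |(r + r' - dist z y) - (r + r' - dist w y)| := by
        have := abs_max_sub_max_le_max (r + r' - dist z y) r (r + r' - dist w y) r
        simpa using this
      refine h4.trans ((abs_le.2 ⟨by linarith, by linarith⟩ :
        |(r + r' - dist z y) - (r + r' - dist w y)| ≤ dist z w).trans hzw)
  have h1 := hInf.le_dist x y
  have hr0 : 0 ≤ r := by positivity
  have hr'0 : 0 ≤ r' := by rw [hr']; linarith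
  have fx : f x = 0 := by simp only [hf]; rw [if_pos (by rw [dist_self]; exact hr0)]; simp
  have fy : f y = r + r' := by
    simp only [hf]
    rw [if_neg, if_pos]
    · simp
    · simpa using hr'0
    · intro h
      have := hcon y h
      rw [dist_self] at this
      linarith
  rw [fx, fy, zero_sub, abs_neg, abs_of_nonneg (by positivity)] at h1
  rw [← hd] at h1
  linarith

theorem hasBet : HasBet (Pt D) := by
  intro x y a ha ha'
  have hc : Continuous (fun z : Pt D => max (dist x z - a) (dist z y - (dist x y - a))) :=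
    ((continuous_const.dist continuous_id).sub continuous_const).max
      ((continuous_id.dist continuous_const).sub continuous_const)
  obtain ⟨z, _, hz⟩ := isCompact_univ.exists_isMinOn (s := (univ : Set (Pt D))) ⟨x, mem_univ x⟩
    hc.continuousOn
  have h1 : max (dist x z - a) (dist z y - (dist x y - a)) ≤ 0 := by
    refine le_of_forall_pos_le_add fun κ hκ => ?_
    obtain ⟨w, hw1, hw2⟩ := exists_approx_bet x y ha ha' hκ
    exact (hz (mem_univ w)).trans (max_le (by linarith) (by linarith))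
  have h2 := (le_max_left _ _).trans h1
  have h3 := (le_max_right _ _).trans h1
  have h4 := dist_triangle x z y
  exact ⟨z, by linarith, by linarith⟩

theorem hasMid : HasMid (Pt D) := hasBet.hasMid

/-- Truncated functions: a function `h` which is infinitesimally 1-Lipschitz on the part `U` and
is `≥ r` near the complement of `U` gives the `InfLip` function `min h r` (and `r` outside `U`). -/
theorem infLip_trunc (U : Set V) (h : Pt D → ℝ) (r : ℝ)
    (h1 : ∀ q : Pt D, q.val ∈ U → ∀ ε > 0, ∃ δ > 0, ∀ z w : Pt D,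
      dist z.val q.val < δ → dist w.val q.val < δ → z.val ∈ U ∧ w.val ∈ U ∧
      |h z - h w| ≤ D.N q.val (z.val - w.val) + ε * ‖z.val - w.val‖)
    (h2 : ∀ q : Pt D, q.val ∉ U → ∃ δ > 0, ∀ z : Pt D, z.val ∈ U → dist z.val q.val < δ →
      r ≤ h z) [DecidablePred (· ∈ U)] :
    InfLip (fun z : Pt D => if z.val ∈ U then min (h z) r else r) := by
  intro q ε hε
  by_cases hq : q.val ∈ U
  · obtain ⟨δ, hδ, H⟩ := h1 q hq ε hε
    refine ⟨δ, hδ, fun z w hz hw => ?_⟩
    obtain ⟨hzU, hwU, hb⟩ := H z w hz hw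
    simp only [if_pos hzU, if_pos hwU]
    have h4 : |min (h z) r - min (h w) r| ≤ |h z - h w| := by
      have := abs_min_sub_min_le_max (h z) r (h w) r
      simpa using this
    exact h4.trans hb
  · obtain ⟨δ, hδ, H⟩ := h2 q hq
    refine ⟨δ, hδ, fun z w hz hw => ?_⟩
    have key : ∀ z : Pt D, dist z.val q.val < δ → (if z.val ∈ U then min (h z) r else r) = r := by
      intro z hz
      split_ifs with hzU
      · rw [min_eq_right (H z hzU hz)]
      · rfl
    simp only [key z hz, key w hw]
    simp only [sub_self, abs_zero]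
    have := apply_nonneg (D.N q.val) (z.val - w.val)
    positivity

/-- **lower infinitesimal bound** at a point where `N` is a norm. -/
theorem dist_lower (q : Pt D) {c : ℝ} (hc : 0 < c) (hN : ∀ v, c * ‖v‖ ≤ D.N q.val v)
    {ε : ℝ} (hε : 0 < ε) : ∃ δ > 0, ∀ x y : Pt D,
    dist x.val q.val < δ → dist y.val q.val < δ →
    D.N q.val (x.val - y.val) ≤ (1 + ε) * dist x y := by
  classical
  obtain ⟨C, hC0, hC⟩ := D.bdd
  -- near q: N q v ≤ (1+ε) N z v
  obtain ⟨δ1, hδ1, H1⟩ := D.cont q.val q.mem (c * (ε / (1 + ε))) (by positivity)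
  set a := 1 / (1 + ε) with ha
  have ha0 : 0 < a := by positivity
  have ha1 : a * (1 + ε) = 1 := by rw [ha]; field_simp
  have hcmp : ∀ z ∈ D.K, dist z q.val < δ1 → ∀ v, a * D.N q.val v ≤ D.N z v := by
    intro z hz hzq v
    have e1 := (abs_le.1 (H1 z hz hzq v)).1
    have e2 := hN v
    have e3 : c * (ε / (1 + ε)) * ‖v‖ ≤ (ε / (1 + ε)) * D.N q.val v := by
      have : (0:ℝ) ≤ ε / (1 + ε) := by positivity
      nlinarith
    have e4 : a * D.N q.val v = D.N q.val v - ε / (1 + ε) * D.N q.val v := by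
      rw [ha]; field_simp; ring
    rw [e4]; linarith
  set r := a * c * (δ1 / 4) with hr
  have hr0 : 0 < r := by positivity
  set δ := min (δ1 / 4) (r / (2 * a * (C + 1))) with hδdef
  have hδ0 : 0 < δ := by positivity
  refine ⟨δ, hδ0, fun x y hx hy => ?_⟩
  have hInf := infLip_trunc (D := D) (ball q.val δ1) (fun z => a * D.N q.val (z.val - x.val)) r
    (by
      intro p hp η hη
      obtain ⟨δ2, hδ2, hsub⟩ := Metric.isOpen_iff.1 (isOpen_ball (x := q.val) (ε := δ1)) p.val hp
      refine ⟨δ2, hδ2, fun z w hz hw => ⟨hsub hz, hsub hw, ?_⟩⟩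
      have e1 : |D.N q.val (z.val - x.val) - D.N q.val (w.val - x.val)|
          ≤ D.N q.val (z.val - w.val) := by
        have := abs_sub_map_le_sub (D.N q.val) (z.val - x.val) (w.val - x.val)
        simpa using this
      rw [← mul_sub, abs_mul, abs_of_pos ha0]
      have e2 := hcmp p.val p.mem hp (z.val - w.val)
      have e3 := mul_le_mul_of_nonneg_left e1 ha0.le
      have : 0 ≤ η * ‖z.val - w.val‖ := by positivity
      linarith)
    (by
      intro p hp
      refine ⟨δ1 / 4, by positivity, fun z _ hz => ?_⟩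
      have hp' : δ1 ≤ dist p.val q.val := by simpa using hp
      have hx' : dist x.val q.val < δ1 / 4 := lt_of_lt_of_le hx (min_le_left _ _)
      have t1 := dist_triangle p.val z.val q.val
      have t2 := dist_triangle z.val x.val q.val
      rw [dist_comm p.val z.val] at t1
      have hzx : δ1 / 4 ≤ ‖z.val - x.val‖ := by rw [← dist_eq_norm]; linarith
      have := hN (z.val - x.val)
      have e5 : c * (δ1 / 4) ≤ D.N q.val (z.val - x.val) :=
        (mul_le_mul_of_nonneg_left hzx hc.le).trans this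
      have := mul_le_mul_of_nonneg_left e5 ha0.le
      rw [hr]; linarith)
  have hle := hInf.le_dist y x
  have hxU : x.val ∈ ball q.val δ1 := by
    rw [mem_ball]; have : dist x.val q.val < δ1 / 4 := lt_of_lt_of_le hx (min_le_left _ _)
    linarith
  have hyU : y.val ∈ ball q.val δ1 := by
    rw [mem_ball]; have : dist y.val q.val < δ1 / 4 := lt_of_lt_of_le hy (min_le_left _ _)
    linarith
  simp only [if_pos hxU, if_pos hyU] at hle
  rw [sub_self, map_zero, mul_zero, min_eq_left hr0.le, sub_zero] at hle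
  have hsm : a * D.N q.val (y.val - x.val) ≤ r := by
    have e1 := hC q.val q.mem (y.val - x.val)
    have e2 : ‖y.val - x.val‖ ≤ 2 * δ := by
      rw [← dist_eq_norm]
      have := dist_triangle_right y.val x.val q.val
      linarith
    have e3 : δ ≤ r / (2 * a * (C + 1)) := min_le_right _ _
    rw [le_div_iff₀ (by positivity)] at e3
    have e4 : D.N q.val (y.val - x.val) ≤ (C + 1) * (2 * δ) := by
      refine e1.trans ?_
      have : C * ‖y.val - x.val‖ ≤ (C + 1) * ‖y.val - x.val‖ := by
        nlinarith [norm_nonneg (y.val - x.val)]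
      refine this.trans (mul_le_mul_of_nonneg_left e2 (by positivity))
    have := mul_le_mul_of_nonneg_left e4 ha0.le
    nlinarith
  rw [min_eq_left hsm, abs_of_nonneg (by positivity)] at hle
  rw [dist_comm x y]
  have hsymm : D.N q.val (x.val - y.val) = D.N q.val (y.val - x.val) := map_sub_rev _ _ _
  rw [hsymm]
  calc D.N q.val (y.val - x.val) = (a * (1 + ε)) * D.N q.val (y.val - x.val) := by rw [ha1, one_mul]
    _ = (1 + ε) * (a * D.N q.val (y.val - x.val)) := by ring
    _ ≤ (1 + ε) * dist y x := mul_le_mul_of_nonneg_left hle (by positivity)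

end Pt

end Pool.MP8e
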