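import Mathlib
import Pool.Agent.Work.MP_8e9dbb.A.Core

/-!
# Part A, file 2: the double of a pseudo-metric space along a subset
-/

open Filter Topology Metric Set

namespace Pool.MP8e

/-- the double of `M` along `S` (two copies of `M`, the points of `S` are at distance `0` from
their copies) -/
structure Dbl (M : Type) (S : Set M) where
  pt : M
  side : Bool

namespace Dbl

variable {M : Type} [PseudoMetricSpace M] {S : Set M}

/-- the crossing distance -/
noncomputable def cr (S : Set M) (x y : M) : ℝ := ⨅ z : S, (dist x z.1 + dist z.1 y)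

theorem bddBelow (x y : M) : BddBelow (range fun z : S => dist x z.1 + dist z.1 y) :=
  ⟨0, by rintro _ ⟨z, rfl⟩; positivity⟩

theorem cr_le {x y z : M} (hz : z ∈ S) : cr S x y ≤ dist x z + dist z y :=
  ciInf_le (bddBelow x y) (⟨z, hz⟩ : S)

theorem cr_comm (x y : M) : cr S x y = cr S y x := by
  unfold cr
  congr 1; ext z
  rw [dist_comm x z.1, dist_comm z.1 y, add_comm]

theorem cr_nonneg (x y : M) : 0 ≤ cr S x y := Real.iInf_nonneg fun z => by positivity

variable [Nonempty S]

theorem le_cr {x y : M} {C : ℝ} (h : ∀ z ∈ S, C ≤ dist x z + dist z y) : C ≤ cr S x y :=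
  le_ciInf fun z => h z.1 z.2

theorem dist_le_cr (x y : M) : dist x y ≤ cr S x y := le_cr fun z _ => dist_triangle x z y

theorem cr_tri (x y z : M) : cr S x z ≤ dist x y + cr S y z := by
  have : cr S x z - dist x y ≤ cr S y z := le_cr fun w hw => by
    have := cr_le (x := x) (y := z) hw
    linarith [dist_triangle x y w]
  linarith

theorem cr_tri' (x y z : M) : cr S x z ≤ cr S x y + dist y z := by
  rw [cr_comm x z, cr_comm x y, dist_comm y z]
  have := cr_tri (S := S) z y x
  linarith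

noncomputable instance : PseudoMetricSpace (Dbl M S) where
  dist x y := if x.side = y.side then dist x.pt y.pt else cr S x.pt y.pt
  dist_self x := by simp
  dist_comm x y := by
    by_cases h : x.side = y.side
    · rw [if_pos h, if_pos h.symm, dist_comm]
    · rw [if_neg h, if_neg (Ne.symm h), cr_comm]
  dist_triangle x y z := by
    by_cases h1 : x.side = y.side
    · by_cases h2 : y.side = z.side
      · rw [if_pos h1, if_pos h2, if_pos (h1.trans h2)]; exact dist_triangle _ _ _
      · rw [if_pos h1, if_neg h2, if_neg (by rw [h1]; exact h2)]; exact cr_tri _ _ _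
    · by_cases h2 : y.side = z.side
      · rw [if_neg h1, if_pos h2, if_neg (by rw [← h2]; exact h1)]; exact cr_tri' _ _ _
      · have h3 : x.side = z.side := by
          cases hx : x.side <;> cases hy : y.side <;> cases hz : z.side <;> simp_all
        rw [if_neg h1, if_neg h2, if_pos h3]
        have e1 := dist_le_cr (S := S) x.pt y.pt
        have e2 := dist_le_cr (S := S) y.pt z.pt
        linarith [dist_triangle x.pt y.pt z.pt]

theorem dist_same (x y : M) (i : Bool) : dist (⟨x, i⟩ : Dbl M S) ⟨y, i⟩ = dist x y := by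
  change (if i = i then _ else _) = _
  rw [if_pos rfl]

theorem dist_diff (x y : M) {i j : Bool} (h : i ≠ j) :
    dist (⟨x, i⟩ : Dbl M S) ⟨y, j⟩ = cr S x y := by
  change (if i = j then _ else _) = _
  rw [if_neg h]

/-- the folding map is 1-Lipschitz -/
theorem dist_pt_le (x y : Dbl M S) : dist x.pt y.pt ≤ dist x y := by
  obtain ⟨x, i⟩ := x
  obtain ⟨y, j⟩ := y
  by_cases h : i = j
  · subst h; rw [dist_same]
  · rw [dist_diff _ _ h]; exact dist_le_cr _ _

theorem dist_le_via (x y : Dbl M S) {z : M} (hz : z ∈ S) :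
    dist x y ≤ dist x.pt z + dist z y.pt := by
  obtain ⟨x, i⟩ := x
  obtain ⟨y, j⟩ := y
  by_cases h : i = j
  · subst h; rw [dist_same]; exact dist_triangle _ _ _
  · rw [dist_diff _ _ h]; exact cr_le hz

theorem dist_copy {z : M} (hz : z ∈ S) (i j : Bool) : dist (⟨z, i⟩ : Dbl M S) ⟨z, j⟩ = 0 :=
  le_antisymm (by simpa using dist_le_via (⟨z, i⟩ : Dbl M S) ⟨z, j⟩ hz) dist_nonneg

theorem dist_left_copy {z : M} (hz : z ∈ S) (i j : Bool) (y : Dbl M S) :
    dist (⟨z, i⟩ : Dbl M S) y = dist (⟨z, j⟩ : Dbl M S) y := by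
  have h1 := dist_triangle (⟨z, i⟩ : Dbl M S) ⟨z, j⟩ y
  have h2 := dist_triangle (⟨z, j⟩ : Dbl M S) ⟨z, i⟩ y
  rw [dist_copy hz] at h1 h2
  linarith

theorem isometry_mk (i : Bool) : Isometry (fun x : M => (⟨x, i⟩ : Dbl M S)) :=
  Isometry.of_dist_eq fun x y => dist_same x y i

/-- a map out of the double which is 1-Lipschitz (`Λ`) on both copies and compatible on `S` -/
theorem map_le {Z : Type*} [PseudoMetricSpace Z] (g : Dbl M S → Z) {Λ : ℝ} (hΛ : 0 ≤ Λ)
    (hg : ∀ i x y, dist (g ⟨x, i⟩) (g ⟨y, i⟩) ≤ Λ * dist x y)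
    (hS : ∀ z ∈ S, dist (g ⟨z, false⟩) (g ⟨z, true⟩) = 0) (x y : Dbl M S) :
    dist (g x) (g y) ≤ Λ * dist x y := by
  obtain ⟨x, i⟩ := x
  obtain ⟨y, j⟩ := y
  by_cases h : i = j
  · subst h; rw [dist_same]; exact hg _ _ _
  · rw [dist_diff _ _ h]
    have key : ∀ z ∈ S, dist (g ⟨x, i⟩) (g ⟨y, j⟩) ≤ Λ * (dist x z + dist z y) := by
      intro z hz
      have e0 : dist (g ⟨z, i⟩) (g ⟨z, j⟩) = 0 := by
        have := hS z hz
        cases i <;> cases j <;> simp_all [dist_comm]
      have e1 := hg i x z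
      have e2 := hg j z y
      have e3 := dist_triangle (g ⟨x, i⟩) (g ⟨z, i⟩) (g ⟨y, j⟩)
      have e4 := dist_triangle (g ⟨z, i⟩) (g ⟨z, j⟩) (g ⟨y, j⟩)
      rw [mul_add]; linarith
    rcases eq_or_lt_of_le hΛ with h0 | h0
    · obtain ⟨z, hz⟩ := ‹Nonempty S›
      have := key z hz
      rw [← h0] at this ⊢
      simpa using this
    · rw [mul_comm, ← div_le_iff₀ h0]
      exact le_cr fun z hz => by rw [div_le_iff₀ h0, mul_comm]; exact key z hz

variable {M' : Type} [PseudoMetricSpace M'] {S' : Set M'} [Nonempty S']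

/-- the induced map of doubles -/
def map (S : Set M) (S' : Set M') (f : M → M') (x : Dbl M S) : Dbl M' S' := ⟨f x.pt, x.side⟩

theorem dist_map_le (f : M → M') {Λ : ℝ} (hΛ : 0 ≤ Λ) (hf : ∀ x y, dist (f x) (f y) ≤ Λ * dist x y)
    (hS : ∀ z ∈ S, f z ∈ S') (x y : Dbl M S) :
    dist (map S S' f x) (map S S' f y) ≤ Λ * dist x y := by
  refine map_le (map S S' f) hΛ (fun i x y => ?_) (fun z hz => ?_) x y
  · simp only [map]; rw [dist_same]; exact hf _ _
  · simp only [map]; exact dist_copy (hS z hz) _ _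

/-- attained crossing distance -/
theorem exists_cr (hS : IsCompact S) (x y : M) : ∃ z ∈ S, cr S x y = dist x z + dist z y := by
  have hne : S.Nonempty := Set.nonempty_coe_sort.1 ‹_›
  obtain ⟨z, hz, hmin⟩ := hS.exists_isMinOn hne (f := fun z => dist x z + dist z y)
    ((continuous_const.dist continuous_id).add (continuous_id.dist continuous_const)).continuousOn
  exact ⟨z, hz, le_antisymm (cr_le hz) (le_cr fun w hw => hmin hw)⟩

theorem hasBet (hM : HasBet M) (hS : IsCompact S) : HasBet (Dbl M S) := by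
  rintro ⟨x, i⟩ ⟨y, j⟩ a ha ha'
  by_cases h : i = j
  · subst h
    rw [dist_same] at ha' ⊢
    obtain ⟨z, h1, h2⟩ := hM x y a ha ha'
    exact ⟨⟨z, i⟩, by rw [dist_same, h1], by rw [dist_same, h2]⟩
  · rw [dist_diff _ _ h] at ha' ⊢
    obtain ⟨z, hz, hcr⟩ := exists_cr hS x y
    rw [hcr] at ha' ⊢
    have htot : dist (⟨x, i⟩ : Dbl M S) ⟨y, j⟩ = dist x z + dist z y := by
      rw [dist_diff _ _ h, hcr]
    rcases le_total a (dist x z) with hc | hc
    · obtain ⟨w, h1, h2⟩ := hM x z a ha hc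
      refine ⟨⟨w, i⟩, by rw [dist_same, h1], ?_⟩
      have e1 := dist_le_via (⟨w, i⟩ : Dbl M S) ⟨y, j⟩ hz
      have e2 := dist_triangle (⟨x, i⟩ : Dbl M S) ⟨w, i⟩ ⟨y, j⟩
      rw [dist_same, htot] at e2
      simp only at e1
      linarith
    · obtain ⟨w, h1, h2⟩ := hM z y (a - dist x z) (by linarith) (by linarith)
      have e1 := dist_le_via (⟨x, i⟩ : Dbl M S) ⟨w, j⟩ hz
      have e2 := dist_triangle (⟨x, i⟩ : Dbl M S) ⟨w, j⟩ ⟨y, j⟩
      rw [dist_same, htot] at e2
      simp only at e1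
      exact ⟨⟨w, j⟩, by linarith, by rw [dist_same]; linarith⟩

instance [CompactSpace M] : CompactSpace (Dbl M S) := by
  refine ⟨?_⟩
  have : (univ : Set (Dbl M S)) = range (fun x : M => (⟨x, false⟩ : Dbl M S)) ∪
      range (fun x : M => (⟨x, true⟩ : Dbl M S)) := by
    ext ⟨x, i⟩
    cases i <;> simp
  rw [this]
  exact (isCompact_range (isometry_mk false).continuous).union
    (isCompact_range (isometry_mk true).continuous)

/-- near a point at distance `≥ r` from `S`, the double is just `M` -/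
theorem side_eq_of_dist_lt {p : M} {r : ℝ} (hr : ∀ z ∈ S, r ≤ dist p z) {i : Bool} {y : Dbl M S}
    (hy : dist y (⟨p, i⟩ : Dbl M S) < r) : y.side = i := by
  by_contra h
  obtain ⟨y, j⟩ := y
  simp only at h
  rw [dist_diff _ _ h, cr_comm] at hy
  have : r ≤ cr S p y := le_cr fun z hz => (hr z hz).trans (le_add_of_nonneg_right dist_nonneg)
  linarith

end Dbl

end Pool.MP8e
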