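import Mathlib
import Pool.Agent.Work.MP_8e9dbb.A.Double

/-!
# Part A, file 3: sectors, and their doubles
-/

open Filter Topology Metric Set

namespace Pool.MP8e

/-- law of cosines with the angle cut at `π` -/
noncomputable def lawc (r s φ : ℝ) : ℝ :=
  √(r ^ 2 + s ^ 2 - 2 * r * s * Real.cos (min φ Real.pi))

theorem coneDist_eq (θ : ℝ) (x y : ℝ × ℝ) :
    coneDist θ x y = lawc x.1 y.1 (angleGap θ x.2 y.2) := rfl

theorem lawc_comm (r s φ : ℝ) : lawc r s φ = lawc s r φ := by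
  unfold lawc; congr 1; ring

theorem lawc_nonneg (r s φ : ℝ) : 0 ≤ lawc r s φ := Real.sqrt_nonneg _

theorem lawc_ge_pi {r s φ : ℝ} (hr : 0 ≤ r) (hs : 0 ≤ s) (h : Real.pi ≤ φ) :
    lawc r s φ = r + s := by
  unfold lawc
  rw [min_eq_right h, Real.cos_pi, show r ^ 2 + s ^ 2 - 2 * r * s * (-1) = (r + s) ^ 2 by ring]
  exact Real.sqrt_sq (by positivity)

theorem lawc_le {r s φ : ℝ} (hr : 0 ≤ r) (hs : 0 ≤ s) : lawc r s φ ≤ r + s := by
  unfold lawc
  apply Real.sqrt_le_iff.2 ⟨by positivity, ?_⟩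
  nlinarith [Real.neg_one_le_cos (min φ Real.pi), mul_nonneg hr hs]

theorem abs_sub_le_lawc {r s φ : ℝ} (hr : 0 ≤ r) (hs : 0 ≤ s) : |r - s| ≤ lawc r s φ := by
  unfold lawc
  apply Real.le_sqrt_of_sq_le
  rw [sq_abs]
  nlinarith [Real.cos_le_one (min φ Real.pi), mul_nonneg hr hs]

theorem lawc_mono {r s φ φ' : ℝ} (hr : 0 ≤ r) (hs : 0 ≤ s) (h0 : 0 ≤ φ) (h : φ ≤ φ') :
    lawc r s φ ≤ lawc r s φ' := by
  unfold lawc
  apply Real.sqrt_le_sqrt
  have : Real.cos (min φ' Real.pi) ≤ Real.cos (min φ Real.pi) :=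
    Real.cos_le_cos_of_nonneg_of_le_pi (le_min h0 Real.pi_pos.le) (min_le_right _ _)
      (min_le_min_right _ h)
  nlinarith [mul_nonneg hr hs]

theorem lawc_zero_left (s φ : ℝ) (hs : 0 ≤ s) : lawc 0 s φ = s := by
  unfold lawc
  simp [Real.sqrt_sq hs]

theorem lawc_zero_right (s φ : ℝ) (hs : 0 ≤ s) : lawc s 0 φ = s := by
  rw [lawc_comm]; exact lawc_zero_left s φ hs

theorem lawc_zero_ang (r s : ℝ) : lawc r s 0 = |r - s| := by
  unfold lawc
  rw [min_eq_left Real.pi_pos.le, Real.cos_zero,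
    show r ^ 2 + s ^ 2 - 2 * r * s * 1 = (r - s) ^ 2 by ring, Real.sqrt_sq_eq_abs]

/-- the point of the plane with polar coordinates `(r, φ)` -/
noncomputable def pol (r φ : ℝ) : ℂ := ⟨r * Real.cos φ, r * Real.sin φ⟩

theorem norm_pol_sub (r s φ ψ : ℝ) :
    ‖pol r φ - pol s ψ‖ = √(r ^ 2 + s ^ 2 - 2 * r * s * Real.cos (φ - ψ)) := by
  rw [Complex.norm_def, Complex.normSq_apply]
  congr 1
  simp only [pol, Complex.sub_re, Complex.sub_im]
  rw [Real.cos_sub]
  have h1 := Real.sin_sq_add_cos_sq φ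
  have h2 := Real.sin_sq_add_cos_sq ψ
  linear_combination r ^ 2 * h1 + s ^ 2 * h2

theorem lawc_eq_norm {r s φ ψ : ℝ} (h0 : |φ - ψ| ≤ Real.pi) :
    lawc r s |φ - ψ| = ‖pol r φ - pol s ψ‖ := by
  rw [norm_pol_sub, lawc, min_eq_left h0, Real.cos_abs]

theorem lawc_eq_norm' {r s φ : ℝ} (h0 : 0 ≤ φ) (h1 : φ ≤ Real.pi) :
    lawc r s φ = ‖pol r φ - pol s 0‖ := by
  rw [← lawc_eq_norm (by rw [sub_zero, abs_of_nonneg h0]; exact h1), sub_zero, abs_of_nonneg h0]

theorem norm_pol {r : ℝ} (hr : 0 ≤ r) (φ : ℝ) : ‖pol r φ‖ = r := by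
  have := norm_pol_sub r 0 φ 0
  have h0 : pol 0 0 = 0 := by simp [pol]; rfl
  rw [h0, sub_zero] at this
  rw [this]; simp [Real.sqrt_sq hr]

/-- triangle inequality for adjacent angles -/
theorem lawc_triangle {a b s φ₁ φ₂ : ℝ} (ha : 0 ≤ a) (hb : 0 ≤ b) (hs : 0 ≤ s) (h1 : 0 ≤ φ₁)
    (h2 : 0 ≤ φ₂) : lawc a b (φ₁ + φ₂) ≤ lawc a s φ₁ + lawc s b φ₂ := by
  rcases le_total Real.pi φ₁ with hp1 | hp1
  · rw [lawc_ge_pi ha hs hp1]
    have := lawc_le (φ := φ₁ + φ₂) ha hb
    have e := abs_sub_le_lawc (φ := φ₂) hs hb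
    linarith [(abs_le.1 e).1]
  rcases le_total Real.pi φ₂ with hp2 | hp2
  · rw [lawc_ge_pi hs hb hp2]
    have := lawc_le (φ := φ₁ + φ₂) ha hb
    have e := abs_sub_le_lawc (φ := φ₁) ha hs
    linarith [(abs_le.1 e).2]
  rcases le_total (φ₁ + φ₂) Real.pi with hp | hp
  · have e1 : lawc a b (φ₁ + φ₂) = ‖pol a φ₁ - pol b (-φ₂)‖ := by
      rw [norm_pol_sub, lawc, min_eq_left hp]; congr 3; congr 1; ring
    have e2 : lawc a s φ₁ = ‖pol a φ₁ - pol s 0‖ := lawc_eq_norm' h1 hp1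
    have e3 : lawc s b φ₂ = ‖pol s 0 - pol b (-φ₂)‖ := by
      rw [norm_pol_sub, lawc, min_eq_left hp2]; congr 3; congr 1; ring
    rw [e1, e2, e3]
    exact norm_sub_le_norm_sub_add_norm_sub _ _ _
  · have e1 : lawc a b (φ₁ + φ₂) = ‖pol a φ₁ - pol b (φ₁ - Real.pi)‖ := by
      rw [lawc_ge_pi ha hb hp, norm_pol_sub, show φ₁ - (φ₁ - Real.pi) = Real.pi by ring,
        Real.cos_pi, show a ^ 2 + b ^ 2 - 2 * a * b * (-1) = (a + b) ^ 2 by ring]
      exact (Real.sqrt_sq (by positivity)).symm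
    have e2 : lawc a s φ₁ = ‖pol a φ₁ - pol s 0‖ := lawc_eq_norm' h1 hp1
    have e3 : lawc s b (Real.pi - φ₁) = ‖pol s 0 - pol b (φ₁ - Real.pi)‖ := by
      rw [norm_pol_sub, lawc, min_eq_left (by linarith)]; congr 3; congr 1; ring
    have e4 : lawc s b (Real.pi - φ₁) ≤ lawc s b φ₂ := lawc_mono hs hb (by linarith) (by linarith)
    rw [e1, e2]
    refine (norm_sub_le_norm_sub_add_norm_sub _ (pol s 0) _).trans ?_
    rw [← e3]; linarith

/-- the triangle inequality is sharp for a suitable point of the side -/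
theorem exists_lawc_eq {a b φ₁ φ₂ : ℝ} (ha : 0 ≤ a) (hb : 0 ≤ b) (h1 : 0 ≤ φ₁) (h2 : 0 ≤ φ₂) :
    ∃ s, 0 ≤ s ∧ s ≤ max a b ∧ lawc a s φ₁ + lawc s b φ₂ = lawc a b (φ₁ + φ₂) := by
  rcases le_total Real.pi (φ₁ + φ₂) with hp | hp
  · exact ⟨0, le_refl _, ha.trans (le_max_left _ _), by
      rw [lawc_zero_right _ _ ha, lawc_zero_left _ _ hb, lawc_ge_pi ha hb hp]⟩
  have hp1 : φ₁ ≤ Real.pi := by linarith
  have hp2 : φ₂ ≤ Real.pi := by linarith
  have s1 : 0 ≤ Real.sin φ₁ := Real.sin_nonneg_of_nonneg_of_le_pi h1 hp1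
  have s2 : 0 ≤ Real.sin φ₂ := Real.sin_nonneg_of_nonneg_of_le_pi h2 hp2
  have s3 : 0 ≤ Real.sin (φ₁ + φ₂) := Real.sin_nonneg_of_nonneg_of_le_pi (by linarith) hp
  set D := a * Real.sin φ₁ + b * Real.sin φ₂ with hD
  have hD0 : 0 ≤ D := by positivity
  rcases eq_or_lt_of_le hD0 with h0 | h0
  · have z1 : a * Real.sin φ₁ = 0 := by nlinarith [mul_nonneg ha s1, mul_nonneg hb s2]
    have z2 : b * Real.sin φ₂ = 0 := by nlinarith [mul_nonneg ha s1, mul_nonneg hb s2]
    rcases mul_eq_zero.1 z1 with ha0 | z1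
    · subst ha0
      exact ⟨0, le_refl _, le_max_left _ _, by
        rw [lawc_zero_left _ _ le_rfl, lawc_zero_left _ _ hb, lawc_zero_left _ _ hb, zero_add]⟩
    rcases mul_eq_zero.1 z2 with hb0 | z2
    · subst hb0
      exact ⟨0, le_refl _, le_max_right _ _, by
        rw [lawc_zero_right _ _ ha, lawc_zero_left _ _ le_rfl, lawc_zero_right _ _ ha, add_zero]⟩
    -- both sines vanish
    have c1 : φ₁ = 0 ∨ φ₁ = Real.pi := by
      by_contra hcon
      push Not at hcon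
      have : 0 < Real.sin φ₁ := Real.sin_pos_of_pos_of_lt_pi (lt_of_le_of_ne h1 (Ne.symm hcon.1))
        (lt_of_le_of_ne hp1 hcon.2)
      linarith
    have c2 : φ₂ = 0 ∨ φ₂ = Real.pi := by
      by_contra hcon
      push Not at hcon
      have : 0 < Real.sin φ₂ := Real.sin_pos_of_pos_of_lt_pi (lt_of_le_of_ne h2 (Ne.symm hcon.1))
        (lt_of_le_of_ne hp2 hcon.2)
      linarith
    rcases c1 with c1 | c1
    · rcases c2 with c2 | c2
      · exact ⟨b, hb, le_max_right _ _, by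
          rw [c1, c2, add_zero, lawc_zero_ang, lawc_zero_ang]; simp⟩
      · exact ⟨0, le_refl _, ha.trans (le_max_left _ _), by
          rw [lawc_zero_right _ _ ha, lawc_zero_left _ _ hb, lawc_ge_pi ha hb (by rw [c1, c2]; simp)]⟩
    · exact ⟨0, le_refl _, ha.trans (le_max_left _ _), by
        rw [lawc_zero_right _ _ ha, lawc_zero_left _ _ hb, lawc_ge_pi ha hb (by rw [c1]; linarith)]⟩
  · set s := a * b * Real.sin (φ₁ + φ₂) / D with hs
    have hs0 : 0 ≤ s := by positivity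
    set t := a * Real.sin φ₁ / D with ht
    have ht0 : 0 ≤ t := by positivity
    have ht1 : t ≤ 1 := by
      rw [ht, div_le_one h0, hD]; nlinarith [mul_nonneg hb s2]
    have hmem : pol s 0 = (1 - t) • pol a φ₁ + t • pol b (-φ₂) := by
      apply Complex.ext
      · simp only [pol, Complex.add_re, Complex.smul_re, Real.cos_zero, Real.cos_neg,
          smul_eq_mul, mul_one]
        rw [hs, ht]
        field_simp
        rw [hD, Real.sin_add]; ring
      · simp only [pol, Complex.add_im, Complex.smul_im, Real.sin_zero, Real.sin_neg,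
          smul_eq_mul, mul_zero]
        rw [ht]
        field_simp
        rw [hD]; ring
    have hseg : pol s 0 ∈ segment ℝ (pol a φ₁) (pol b (-φ₂)) :=
      ⟨1 - t, t, by linarith, ht0, by ring, hmem.symm⟩
    have hsm : s ≤ max a b := by
      have e1 := norm_pol hs0 0
      rw [hmem] at e1
      rw [← e1]
      refine (norm_add_le _ _).trans ?_
      rw [norm_smul, norm_smul, norm_pol ha, norm_pol hb, Real.norm_of_nonneg (by linarith),
        Real.norm_of_nonneg ht0]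
      have m1 : (1 - t) * a ≤ (1 - t) * max a b :=
        mul_le_mul_of_nonneg_left (le_max_left _ _) (by linarith)
      have m2 : t * b ≤ t * max a b := mul_le_mul_of_nonneg_left (le_max_right _ _) ht0
      linarith
    refine ⟨s, hs0, hsm, ?_⟩
    have e1 : lawc a b (φ₁ + φ₂) = ‖pol a φ₁ - pol b (-φ₂)‖ := by
      rw [norm_pol_sub, lawc, min_eq_left hp]; congr 3; congr 1; ring
    have e2 : lawc a s φ₁ = ‖pol a φ₁ - pol s 0‖ := lawc_eq_norm' h1 hp1
    have e3 : lawc s b φ₂ = ‖pol s 0 - pol b (-φ₂)‖ := by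
      rw [norm_pol_sub, lawc, min_eq_left hp2]; congr 3; congr 1; ring
    rw [e1, e2, e3, ← dist_eq_norm, ← dist_eq_norm, ← dist_eq_norm]
    exact dist_add_dist_of_mem_segment hseg

/-- `ball p r` is isometric to the ball around the apex of a sector of angle `α` -/
structure IsSector {M : Type} [PseudoMetricSpace M] (p : M) (α r : ℝ) (ψ : M → ℝ × ℝ) : Prop where
  rpos : 0 < r
  αpos : 0 < α
  rad : ∀ x ∈ ball p r, dist x p = (ψ x).1
  ang : ∀ x ∈ ball p r, 0 ≤ (ψ x).2 ∧ (ψ x).2 ≤ α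
  dist_eq : ∀ x ∈ ball p r, ∀ y ∈ ball p r,
    dist x y = lawc (ψ x).1 (ψ y).1 |(ψ x).2 - (ψ y).2|
  surj : ∀ s φ, 0 ≤ s → s < r → 0 ≤ φ → φ ≤ α → ∃ x ∈ ball p r, (ψ x).1 = s ∧ (s = 0 ∨ (ψ x).2 = φ)

/-- inside `ball p r` the set `S` contains the side with angle `φ₀` -/
def HasSide {M : Type} [PseudoMetricSpace M] (p : M) (r : ℝ) (ψ : M → ℝ × ℝ) (S : Set M)
    (φ₀ : ℝ) : Prop :=
  ∀ s, 0 ≤ s → s < r → ∃ x ∈ ball p r, x ∈ S ∧ (ψ x).1 = s ∧ (s = 0 ∨ (ψ x).2 = φ₀)

/-- a ball around `p` is isometric to a ball around the apex of the cone of angle `θ`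
(version for pseudo-metric spaces) -/
def ConePt {X : Type} [PseudoMetricSpace X] (p : X) (θ : ℝ) : Prop :=
  ∃ r > 0, ∃ ψ : X → ℝ × ℝ,
    (∀ x ∈ ball p r, 0 ≤ (ψ x).1 ∧ dist x p = (ψ x).1) ∧
    (∀ x ∈ ball p r, ∀ y ∈ ball p r, dist x y = coneDist θ (ψ x) (ψ y)) ∧
    (∀ s φ : ℝ, 0 ≤ s → s < r → ∃ x ∈ ball p r, coneDist θ (ψ x) (s, φ) = 0)

namespace IsSector

variable {M : Type} [PseudoMetricSpace M] {p : M} {α r : ℝ} {ψ : M → ℝ × ℝ}

theorem shrink (h : IsSector p α r ψ) {r' : ℝ} (h0 : 0 < r') (h1 : r' ≤ r) :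
    IsSector p α r' ψ where
  rpos := h0
  αpos := h.αpos
  rad x hx := h.rad x (ball_subset_ball h1 hx)
  ang x hx := h.ang x (ball_subset_ball h1 hx)
  dist_eq x hx y hy := h.dist_eq x (ball_subset_ball h1 hx) y (ball_subset_ball h1 hy)
  surj s φ hs hsr hφ hφα := by
    obtain ⟨x, hx, h2, h3⟩ := h.surj s φ hs (hsr.trans_le h1) hφ hφα
    refine ⟨x, ?_, h2, h3⟩
    rw [mem_ball, h.rad x hx, h2]; exact hsr

theorem _root_.Pool.MP8e.HasSide.shrink {S : Set M} {φ₀ : ℝ} (h : IsSector p α r ψ)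
    (hS : HasSide p r ψ S φ₀) {r' : ℝ} (h1 : r' ≤ r) : HasSide p r' ψ S φ₀ := by
  intro s hs hsr
  obtain ⟨x, hx, hxS, h2, h3⟩ := hS s hs (hsr.trans_le h1)
  refine ⟨x, ?_, hxS, h2, h3⟩
  rw [mem_ball, h.rad x hx, h2]; exact hsr

theorem rad_nonneg (h : IsSector p α r ψ) {x : M} (hx : x ∈ ball p r) : 0 ≤ (ψ x).1 := by
  rw [← h.rad x hx]; exact dist_nonneg

variable {S : Set M} [Nonempty S]

/-- upper bound of the crossing distance through a side -/
theorem cr_le_side (h : IsSector p α r ψ) {φ₀ : ℝ} (hS : HasSide p r ψ S φ₀) {x y : M}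
    (hx : x ∈ ball p r) (hy : y ∈ ball p r) :
    Dbl.cr S x y ≤ lawc (ψ x).1 (ψ y).1 (|(ψ x).2 - φ₀| + |(ψ y).2 - φ₀|) := by
  have hx0 := h.rad_nonneg hx
  have hy0 := h.rad_nonneg hy
  obtain ⟨s, hs0, hsm, heq⟩ := exists_lawc_eq hx0 hy0 (abs_nonneg ((ψ x).2 - φ₀))
    (abs_nonneg ((ψ y).2 - φ₀))
  have hsr : s < r := by
    refine lt_of_le_of_lt hsm (max_lt ?_ ?_)
    · rw [← h.rad x hx]; exact hx
    · rw [← h.rad y hy]; exact hy
  obtain ⟨z, hz, hzS, hz1, hz2⟩ := hS s hs0 hsr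
  refine (Dbl.cr_le hzS).trans ?_
  rw [← heq, h.dist_eq x hx z hz, h.dist_eq z hz y hy, hz1]
  rcases hz2 with hz2 | hz2
  · rw [hz2, lawc_zero_right _ _ hx0, lawc_zero_right _ _ hx0, lawc_zero_left _ _ hy0,
      lawc_zero_left _ _ hy0]
  · rw [hz2, abs_sub_comm φ₀ (ψ y).2]

/-- lower bound: the crossing distance inside the ball of radius `r/3` -/
theorem le_cr_side (h : IsSector p α r ψ) {x y : M} (hx : x ∈ ball p (r / 3))
    (hy : y ∈ ball p (r / 3)) {C : ℝ} (hC : C ≤ (ψ x).1 + (ψ y).1)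
    (hz : ∀ z ∈ S, z ∈ ball p r → C ≤ dist x z + dist z y) : C ≤ Dbl.cr S x y := by
  have hr := h.rpos
  have hx' : x ∈ ball p r := ball_subset_ball (by linarith) hx
  have hy' : y ∈ ball p r := ball_subset_ball (by linarith) hy
  refine Dbl.le_cr fun z hzS => ?_
  by_cases hzb : z ∈ ball p r
  · exact hz z hzS hzb
  · rw [mem_ball, not_lt] at hzb
    rw [mem_ball, h.rad x hx'] at hx
    rw [mem_ball, h.rad y hy'] at hy
    have e1 := dist_triangle_left z p x
    have e2 := dist_triangle z y p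
    rw [h.rad x hx'] at e1
    rw [h.rad y hy'] at e2
    linarith

theorem cr_eq_one (h : IsSector p α r ψ) (h0 : HasSide p r ψ S 0)
    (hS : ∀ x ∈ ball p r, x ∈ S → (ψ x).1 = 0 ∨ (ψ x).2 = 0) {x y : M}
    (hx : x ∈ ball p (r / 3)) (hy : y ∈ ball p (r / 3)) :
    Dbl.cr S x y = lawc (ψ x).1 (ψ y).1 ((ψ x).2 + (ψ y).2) := by
  have hr := h.rpos
  have hx' : x ∈ ball p r := ball_subset_ball (by linarith) hx
  have hy' : y ∈ ball p r := ball_subset_ball (by linarith) hy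
  have hx0 := h.rad_nonneg hx'
  have hy0 := h.rad_nonneg hy'
  have ax := (h.ang x hx').1
  have ay := (h.ang y hy').1
  apply le_antisymm
  · have := h.cr_le_side h0 hx' hy'
    rwa [sub_zero, sub_zero, abs_of_nonneg ax, abs_of_nonneg ay] at this
  · refine h.le_cr_side hx hy (lawc_le hx0 hy0) fun z hzS hz => ?_
    have hz0 := h.rad_nonneg hz
    rw [h.dist_eq x hx' z hz, h.dist_eq z hz y hy']
    rcases hS z hz hzS with hz1 | hz1
    · rw [hz1, lawc_zero_right _ _ hx0, lawc_zero_left _ _ hy0]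
      exact lawc_le hx0 hy0
    · rw [hz1, sub_zero, zero_sub, abs_neg, abs_of_nonneg ax, abs_of_nonneg ay]
      exact lawc_triangle hx0 hy0 hz0 ax ay

theorem cr_eq_two (h : IsSector p α r ψ) (h0 : HasSide p r ψ S 0) (h1 : HasSide p r ψ S α)
    (hS : ∀ x ∈ ball p r, x ∈ S → (ψ x).1 = 0 ∨ (ψ x).2 = 0 ∨ (ψ x).2 = α) {x y : M}
    (hx : x ∈ ball p (r / 3)) (hy : y ∈ ball p (r / 3)) :
    Dbl.cr S x y = lawc (ψ x).1 (ψ y).1
      (min ((ψ x).2 + (ψ y).2) ((α - (ψ x).2) + (α - (ψ y).2))) := by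
  have hr := h.rpos
  have hx' : x ∈ ball p r := ball_subset_ball (by linarith) hx
  have hy' : y ∈ ball p r := ball_subset_ball (by linarith) hy
  have hx0 := h.rad_nonneg hx'
  have hy0 := h.rad_nonneg hy'
  obtain ⟨ax, ax'⟩ := h.ang x hx'
  obtain ⟨ay, ay'⟩ := h.ang y hy'
  have bx : 0 ≤ α - (ψ x).2 := by linarith
  have bY : 0 ≤ α - (ψ y).2 := by linarith
  apply le_antisymm
  · rcases min_cases ((ψ x).2 + (ψ y).2) ((α - (ψ x).2) + (α - (ψ y).2)) with ⟨e, _⟩ | ⟨e, _⟩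
    · rw [e]
      have := h.cr_le_side h0 hx' hy'
      rwa [sub_zero, sub_zero, abs_of_nonneg ax, abs_of_nonneg ay] at this
    · rw [e]
      have := h.cr_le_side h1 hx' hy'
      rwa [abs_sub_comm, abs_of_nonneg bx, abs_sub_comm, abs_of_nonneg bY] at this
  · refine h.le_cr_side hx hy (lawc_le hx0 hy0) fun z hzS hz => ?_
    have hz0 := h.rad_nonneg hz
    rw [h.dist_eq x hx' z hz, h.dist_eq z hz y hy']
    rcases hS z hz hzS with hz1 | hz1 | hz1
    · rw [hz1, lawc_zero_right _ _ hx0, lawc_zero_left _ _ hy0]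
      exact lawc_le hx0 hy0
    · rw [hz1, sub_zero, zero_sub, abs_neg, abs_of_nonneg ax, abs_of_nonneg ay]
      exact (lawc_mono hx0 hy0 (by positivity) (min_le_left _ _)).trans
        (lawc_triangle hx0 hy0 hz0 ax ay)
    · rw [hz1, abs_sub_comm, abs_of_nonneg bx, abs_of_nonneg bY]
      exact (lawc_mono hx0 hy0 (by positivity) (min_le_right _ _)).trans
        (lawc_triangle hx0 hy0 hz0 bx bY)

/-- distance in the double from the apex -/
theorem dist_dbl_apex (h : IsSector p α r ψ) (h0 : HasSide p r ψ S 0 ∨ HasSide p r ψ S α)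
    (x : Dbl M S) (i : Bool) : dist x (⟨p, i⟩ : Dbl M S) = dist x.pt p := by
  obtain ⟨x, j⟩ := x
  have hz : ∃ z ∈ S, dist z p = 0 := by
    rcases h0 with h0 | h0
    all_goals
      obtain ⟨z, hz, hzS, hz1, _⟩ := h0 0 le_rfl h.rpos
      exact ⟨z, hzS, by rw [h.rad z hz, hz1]⟩
  obtain ⟨z, hzS, hz⟩ := hz
  apply le_antisymm
  · refine (Dbl.dist_le_via _ _ hzS).trans ?_
    simp only
    have := dist_triangle x p z
    rw [dist_comm p z] at this
    rw [hz] at this ⊢; linarith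
  · exact Dbl.dist_pt_le (⟨x, j⟩ : Dbl M S) ⟨p, i⟩

/-- **double along one side**: a sector of twice the angle -/
theorem double_one (h : IsSector p α r ψ) (h0 : HasSide p r ψ S 0)
    (hS : ∀ x ∈ ball p r, x ∈ S → (ψ x).1 = 0 ∨ (ψ x).2 = 0) (i : Bool) :
    IsSector (⟨p, i⟩ : Dbl M S) (2 * α) (r / 3)
      (fun x => ((ψ x.pt).1, if x.side then α - (ψ x.pt).2 else α + (ψ x.pt).2)) := by
  have hr := h.rpos
  have key : ∀ x : Dbl M S, x ∈ ball (⟨p, i⟩ : Dbl M S) (r / 3) → x.pt ∈ ball p (r / 3) := by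
    intro x hx
    rw [mem_ball, h.dist_dbl_apex (Or.inl h0)] at hx
    exact hx
  refine ⟨by positivity, by linarith [h.αpos], ?_, ?_, ?_, ?_⟩
  · intro x hx
    rw [h.dist_dbl_apex (Or.inl h0)]
    exact h.rad x.pt (ball_subset_ball (by linarith) (key x hx))
  · intro x hx
    obtain ⟨h1, h2⟩ := h.ang x.pt (ball_subset_ball (by linarith) (key x hx))
    rcases x with ⟨x, j⟩
    cases j <;> simp only [Bool.false_eq_true, if_false, if_true] <;>
      exact ⟨by simp only at h1 h2; linarith, by simp only at h1 h2; linarith⟩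
  · rintro ⟨x, j⟩ hx ⟨y, k⟩ hy
    have hx1 := key _ hx
    have hy1 := key _ hy
    simp only at hx1 hy1
    have hx2 : x ∈ ball p r := ball_subset_ball (by linarith) hx1
    have hy2 : y ∈ ball p r := ball_subset_ball (by linarith) hy1
    obtain ⟨ax, ax'⟩ := h.ang x hx2
    obtain ⟨ay, ay'⟩ := h.ang y hy2
    have hcr := h.cr_eq_one h0 hS hx1 hy1
    cases j <;> cases k <;> simp only [Bool.false_eq_true, if_false, if_true]
    · rw [Dbl.dist_same, h.dist_eq x hx2 y hy2]; congr 2; ring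
    · rw [Dbl.dist_diff _ _ (by simp), hcr]; congr 1
      rw [abs_of_nonneg (by linarith)]; ring
    · rw [Dbl.dist_diff _ _ (by simp), hcr]; congr 1
      rw [abs_of_nonpos (by linarith)]; ring
    · rw [Dbl.dist_same, h.dist_eq x hx2 y hy2]; congr 1
      rw [abs_sub_comm]; congr 1; ring
  · intro s φ hs hsr hφ hφα
    rcases le_total φ α with hc | hc
    · obtain ⟨x, hx, h1, h2⟩ := h.surj s (α - φ) hs (by linarith) (by linarith) (by linarith)
      refine ⟨⟨x, true⟩, ?_, ?_, ?_⟩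
      · rw [mem_ball, h.dist_dbl_apex (S := S) (Or.inl h0)]
        simp only
        rw [h.rad x hx, h1]; exact hsr
      · simpa using h1
      · simp only [if_true]
        rcases h2 with h2 | h2
        · exact Or.inl h2
        · right; rw [h2]; ring
    · obtain ⟨x, hx, h1, h2⟩ := h.surj s (φ - α) hs (by linarith) (by linarith) (by linarith)
      refine ⟨⟨x, false⟩, ?_, ?_, ?_⟩
      · rw [mem_ball, h.dist_dbl_apex (S := S) (Or.inl h0)]
        simp only
        rw [h.rad x hx, h1]; exact hsr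
      · simpa using h1
      · simp only [Bool.false_eq_true, if_false]
        rcases h2 with h2 | h2
        · exact Or.inl h2
        · right; rw [h2]; ring

theorem angleGap_same {α a b : ℝ} (hα : 0 < α) (h : |a - b| ≤ α) :
    angleGap (2 * α) a b = |a - b| := by
  unfold angleGap
  apply le_antisymm
  · have := ciInf_le (f := fun n : ℤ => |a - b + n * (2 * α)|)
      ⟨0, by rintro _ ⟨n, rfl⟩; positivity⟩ 0
    simpa using this
  · refine le_ciInf fun n => ?_
    rcases lt_trichotomy n 0 with hn | hn | hn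
    · have : (n : ℝ) ≤ -1 := by exact_mod_cast Int.le_sub_one_of_lt hn
      have e1 : n * (2 * α) ≤ -(2 * α) := by nlinarith
      have := (abs_le.1 h).2
      rw [abs_of_nonpos (by linarith : a - b + n * (2 * α) ≤ 0)]
      exact abs_le.2 ⟨by linarith, by linarith [(abs_le.1 h).1]⟩
    · subst hn; simp
    · have : (1 : ℝ) ≤ n := by exact_mod_cast hn
      have e1 : 2 * α ≤ n * (2 * α) := by nlinarith
      have := (abs_le.1 h).1
      rw [abs_of_nonneg (by linarith : 0 ≤ a - b + n * (2 * α))]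
      exact abs_le.2 ⟨by linarith, by linarith [(abs_le.1 h).2]⟩

theorem angleGap_cross {α c : ℝ} (hα : 0 < α) (h0 : 0 ≤ c) (h : c ≤ 2 * α) :
    (⨅ n : ℤ, |c + n * (2 * α)|) = min c (2 * α - c) := by
  have hb : BddBelow (range fun n : ℤ => |c + n * (2 * α)|) :=
    ⟨0, by rintro _ ⟨n, rfl⟩; positivity⟩
  apply le_antisymm
  · apply le_min
    · have := ciInf_le hb 0
      simpa [abs_of_nonneg h0] using this
    · have := ciInf_le hb (-1)
      refine this.trans (le_of_eq ?_)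
      push_cast
      rw [abs_of_nonpos (by linarith)]; ring
  · refine le_ciInf fun n => ?_
    rcases lt_or_ge n 0 with hn | hn
    · have : (n : ℝ) ≤ -1 := by exact_mod_cast Int.le_sub_one_of_lt hn
      have e1 : n * (2 * α) ≤ -(2 * α) := by nlinarith
      refine (min_le_right _ _).trans ?_
      rw [abs_of_nonpos (by linarith)]; linarith
    · have : (0 : ℝ) ≤ n := by exact_mod_cast hn
      have e1 : 0 ≤ n * (2 * α) := by positivity
      refine (min_le_left _ _).trans ?_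
      rw [abs_of_nonneg (by linarith)]; linarith

/-- **double along both sides**: a cone of twice the angle -/
theorem double_two (h : IsSector p α r ψ) (h0 : HasSide p r ψ S 0) (h1 : HasSide p r ψ S α)
    (hS : ∀ x ∈ ball p r, x ∈ S → (ψ x).1 = 0 ∨ (ψ x).2 = 0 ∨ (ψ x).2 = α) (i : Bool) :
    ConePt (⟨p, i⟩ : Dbl M S) (2 * α) := by
  have hr := h.rpos
  have hα := h.αpos
  have key : ∀ x : Dbl M S, x ∈ ball (⟨p, i⟩ : Dbl M S) (r / 3) → x.pt ∈ ball p (r / 3) := by
    intro x hx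
    rw [mem_ball, h.dist_dbl_apex (Or.inl h0)] at hx
    exact hx
  refine ⟨r / 3, by positivity,
    fun x => ((ψ x.pt).1, if x.side then -(ψ x.pt).2 else (ψ x.pt).2), ?_, ?_, ?_⟩
  · intro x hx
    have hx1 := ball_subset_ball (by linarith : r / 3 ≤ r) (key x hx)
    refine ⟨h.rad_nonneg hx1, ?_⟩
    rw [h.dist_dbl_apex (Or.inl h0)]
    exact h.rad x.pt hx1
  · rintro ⟨x, j⟩ hx ⟨y, k⟩ hy
    have hx1 := key _ hx
    have hy1 := key _ hy
    simp only at hx1 hy1
    have hx2 : x ∈ ball p r := ball_subset_ball (by linarith) hx1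
    have hy2 : y ∈ ball p r := ball_subset_ball (by linarith) hy1
    obtain ⟨ax, ax'⟩ := h.ang x hx2
    obtain ⟨ay, ay'⟩ := h.ang y hy2
    have hcr := h.cr_eq_two h0 h1 hS hx1 hy1
    have hle : |(ψ x).2 - (ψ y).2| ≤ α := abs_le.2 ⟨by linarith, by linarith⟩
    rw [coneDist_eq]
    cases j <;> cases k <;> simp only [Bool.false_eq_true, if_false, if_true]
    · rw [Dbl.dist_same, h.dist_eq x hx2 y hy2, angleGap_same hα hle]
    · rw [Dbl.dist_diff _ _ (by simp), hcr]; congr 1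
      unfold angleGap
      rw [sub_neg_eq_add, angleGap_cross hα (by linarith) (by linarith)]
      congr 1; ring
    · rw [Dbl.dist_diff _ _ (by simp), hcr]; congr 1
      have : angleGap (2 * α) (-(ψ x).2) ((ψ y).2) = ⨅ n : ℤ, |((ψ x).2 + (ψ y).2) + n * (2 * α)| := by
        unfold angleGap
        refine (Equiv.iInf_congr (Equiv.neg ℤ) fun n => ?_)
        rw [← abs_neg]; congr 1
        push_cast [Equiv.neg_apply]; ring
      rw [this, angleGap_cross hα (by linarith) (by linarith)]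
      congr 1; ring
    · rw [Dbl.dist_same, h.dist_eq x hx2 y hy2, angleGap_same hα (by
        rw [neg_sub_neg, abs_sub_comm]; exact hle), neg_sub_neg, abs_sub_comm]
  · intro s φ hs hsr
    -- reduce φ modulo 2α to (-α, α]
    obtain ⟨n, hn1, hn2⟩ : ∃ n : ℤ, -α < φ - n * (2 * α) ∧ φ - n * (2 * α) ≤ α := by
      refine ⟨⌈(φ - α) / (2 * α)⌉, ?_, ?_⟩
      · have := Int.ceil_lt_add_one ((φ - α) / (2 * α))
        have e : (φ - α) / (2 * α) * (2 * α) = φ - α := by field_simp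
        nlinarith
      · have := Int.le_ceil ((φ - α) / (2 * α))
        have e : (φ - α) / (2 * α) * (2 * α) = φ - α := by field_simp
        nlinarith
    set φ' := φ - n * (2 * α) with hφ'
    have hper : ∀ u : ℝ, angleGap (2 * α) u φ = angleGap (2 * α) u φ' := by
      intro u
      unfold angleGap
      refine (Equiv.iInf_congr (Equiv.subRight n) fun m => ?_)
      congr 1
      simp only [Equiv.subRight_apply]
      push_cast
      rw [hφ']; ring
    obtain ⟨x, hx, e1, e2⟩ := h.surj s |φ'| hs (by linarith) (abs_nonneg _)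
      (abs_le.2 ⟨hn1.le, hn2⟩)
    refine ⟨⟨x, decide (φ' < 0)⟩, ?_, ?_⟩
    · rw [mem_ball, h.dist_dbl_apex (S := S) (Or.inl h0)]
      simp only
      rw [h.rad x hx, e1]; exact hsr
    · rw [coneDist_eq]
      simp only
      rw [e1]
      rcases e2 with e2 | e2
      · rw [e2, lawc_zero_left _ _ le_rfl]
      · have : (if (decide (φ' < 0)) = true then -(ψ x).2 else (ψ x).2) = φ' := by
          by_cases hc : φ' < 0
          · rw [if_pos (by simpa using hc), e2, abs_of_neg hc, neg_neg]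
          · rw [if_neg (by simpa using hc), e2, abs_of_nonneg (not_lt.1 hc)]
        rw [this, hper, angleGap_same hα (by simp; exact hα.le)]
        simp [lawc_zero_ang]

/-- a ball of `M` away from `S` is unchanged in the double -/
theorem dbl_away (h : IsSector p α r ψ) {r' : ℝ} (h0 : 0 < r') (h1 : r' ≤ r)
    (hr' : ∀ z ∈ S, r' ≤ dist p z) (i : Bool) :
    IsSector (⟨p, i⟩ : Dbl M S) α r' (fun x => ψ x.pt) := by
  have h' := h.shrink h0 h1
  have key : ∀ x : Dbl M S, x ∈ ball (⟨p, i⟩ : Dbl M S) r' → x.side = i ∧ x.pt ∈ ball p r' := by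
    intro x hx
    exact ⟨Dbl.side_eq_of_dist_lt hr' hx, lt_of_le_of_lt (Dbl.dist_pt_le _ _) hx⟩
  refine ⟨h0, h.αpos, ?_, fun x hx => h'.ang _ (key x hx).2, ?_, ?_⟩
  · rintro ⟨x, j⟩ hx
    obtain ⟨rfl, h3⟩ := key _ hx
    rw [Dbl.dist_same]; exact h'.rad x h3
  · rintro ⟨x, j⟩ hx ⟨y, k⟩ hy
    obtain ⟨rfl, h3⟩ := key _ hx
    obtain ⟨h4, h5⟩ := key _ hy
    simp only at h4; subst h4
    rw [Dbl.dist_same]; exact h'.dist_eq x h3 y h5
  · intro s φ hs hsr hφ hφα
    obtain ⟨x, hx, h2, h3⟩ := h'.surj s φ hs hsr hφ hφα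
    exact ⟨⟨x, i⟩, by rw [mem_ball, Dbl.dist_same]; exact hx, h2, h3⟩

end IsSector

end Pool.MP8e
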