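import Mathlib
import Pool.Agent.Work.MP_8e9dbb.Iface
import Pool.Agent.Work.MP_8e9dbb.A.Sector

/-!
# Part A, file 4: basic facts about quarter domain data, and the rectangle
-/

open Filter Topology Metric Set

namespace Pool.MP8e

/-! ## the function `snk κ θ = sin (κ θ) / κ` -/

/-- `sin (κ θ) / κ`, with value `θ` for `κ = 0` -/
noncomputable def snk (κ θ : ℝ) : ℝ := if κ = 0 then θ else Real.sin (κ * θ) / κ

/-- `(cos (κ θ) - 1) / κ`, with value `0` for `κ = 0` -/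
noncomputable def csk (κ θ : ℝ) : ℝ := if κ = 0 then 0 else (Real.cos (κ * θ) - 1) / κ

theorem cdev_eq (κ θ : ℝ) : cdev κ θ = ⟨csk κ θ, snk κ θ⟩ := by
  unfold cdev csk snk
  by_cases h : κ = 0
  · simp only [if_pos h]
    apply Complex.ext <;> simp
  · simp only [if_neg h]
    apply Complex.ext
    · rw [Complex.div_ofReal_re, Complex.sub_re, Complex.exp_ofReal_mul_I_re, Complex.one_re]
    · rw [Complex.div_ofReal_im, Complex.sub_im, Complex.exp_ofReal_mul_I_im, Complex.one_im,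
        sub_zero]

theorem mul_snk (κ θ : ℝ) : κ * snk κ θ = Real.sin (κ * θ) := by
  unfold snk
  split_ifs with h
  · simp [h]
  · field_simp

theorem mul_csk (κ θ : ℝ) : κ * csk κ θ = Real.cos (κ * θ) - 1 := by
  unfold csk
  split_ifs with h
  · simp [h]
  · field_simp

@[simp] theorem snk_zero (κ : ℝ) : snk κ 0 = 0 := by unfold snk; split_ifs <;> simp

@[simp] theorem csk_zero (κ : ℝ) : csk κ 0 = 0 := by unfold csk; split_ifs <;> simp

@[simp] theorem cdev_zero (κ : ℝ) : cdev κ 0 = 0 := by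
  rw [cdev_eq]; apply Complex.ext <;> simp

theorem snk_neg (κ θ : ℝ) : snk κ (-θ) = -snk κ θ := by
  unfold snk; split_ifs
  · rfl
  · rw [mul_neg, Real.sin_neg, neg_div]

theorem csk_neg (κ θ : ℝ) : csk κ (-θ) = csk κ θ := by
  unfold csk; split_ifs
  · rfl
  · rw [mul_neg, Real.cos_neg]

theorem exp_eq (κ θ : ℝ) : Complex.exp ((κ * θ : ℝ) * Complex.I) =
    ⟨Real.cos (κ * θ), Real.sin (κ * θ)⟩ := by
  apply Complex.ext
  · rw [Complex.exp_ofReal_mul_I_re]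
  · rw [Complex.exp_ofReal_mul_I_im]

theorem cdev_add (κ a b : ℝ) : cdev κ (a + b) =
    cdev κ a * Complex.exp ((κ * b : ℝ) * Complex.I) + cdev κ b := by
  unfold cdev
  split_ifs with h
  · subst h; push_cast; simp; ring
  · have hκ : (κ : ℂ) ≠ 0 := by exact_mod_cast h
    rw [mul_add]
    push_cast
    rw [add_mul, Complex.exp_add]
    field_simp
    ring

theorem snk_sq_add (κ θ : ℝ) : snk κ θ ^ 2 + csk κ θ ^ 2 = -(2 * csk κ θ) / κ ∨ κ = 0 := by
  by_cases h : κ = 0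
  · exact Or.inr h
  left
  unfold snk csk
  rw [if_neg h, if_neg h]
  field_simp
  have := Real.sin_sq_add_cos_sq (κ * θ)
  linear_combination this

theorem csk_half (κ θ : ℝ) : csk κ θ = -(2 * κ * snk κ (θ / 2) ^ 2) := by
  unfold csk snk
  split_ifs with h
  · simp [h]
  · have h1 : Real.cos (κ * θ) = 1 - 2 * Real.sin (κ * (θ / 2)) ^ 2 := by
      have := Real.cos_two_mul (κ * (θ / 2))
      have h2 := Real.sin_sq_add_cos_sq (κ * (θ / 2))
      rw [show κ * θ = 2 * (κ * (θ / 2)) by ring, this]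
      linear_combination 2 * h2
    rw [h1]
    field_simp
    ring

theorem hasDerivAt_snk (κ θ : ℝ) : HasDerivAt (snk κ) (Real.cos (κ * θ)) θ := by
  unfold snk
  by_cases h : κ = 0
  · subst h
    simp only [if_true, zero_mul, Real.cos_zero]
    exact hasDerivAt_id' θ
  · simp only [if_neg h]
    have h1 : HasDerivAt (fun x => Real.sin (κ * x)) (Real.cos (κ * θ) * κ) θ :=
      (Real.hasDerivAt_sin (κ * θ)).comp θ (by simpa using (hasDerivAt_id θ).const_mul κ)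
    have := h1.div_const κ
    rwa [mul_div_assoc, div_self h, mul_one] at this

theorem hasDerivAt_csk (κ θ : ℝ) : HasDerivAt (csk κ) (-Real.sin (κ * θ)) θ := by
  unfold csk
  by_cases h : κ = 0
  · subst h; simpa using hasDerivAt_const θ (0:ℝ)
  · simp only [if_neg h]
    have h1 : HasDerivAt (fun x => Real.cos (κ * x)) (-Real.sin (κ * θ) * κ) θ :=
      (Real.hasDerivAt_cos (κ * θ)).comp θ (by simpa using (hasDerivAt_id θ).const_mul κ)
    have := (h1.sub_const 1).div_const κ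
    rwa [mul_div_assoc, div_self h, mul_one] at this

theorem snk_pos {κ θ : ℝ} (h : |κ * θ| < Real.pi) (hθ : 0 < θ) : 0 < snk κ θ := by
  unfold snk
  split_ifs with h0
  · exact hθ
  · rcases lt_or_gt_of_ne h0 with hk | hk
    · apply div_pos_of_neg_of_neg _ hk
      have h1 : κ * θ < 0 := mul_neg_of_neg_of_pos hk hθ
      exact Real.sin_neg_of_neg_of_neg_pi_lt h1 (abs_lt.1 h).1
    · apply div_pos _ hk
      exact Real.sin_pos_of_pos_of_lt_pi (mul_pos hk hθ) (abs_lt.1 h).2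

/-- lower bound `|snk κ θ| ≥ (2/π) |θ|` for `|κ θ| ≤ π/2` -/
theorem abs_snk_ge {κ θ : ℝ} (h : |κ * θ| ≤ Real.pi / 2) : 2 / Real.pi * |θ| ≤ |snk κ θ| := by
  unfold snk
  split_ifs with h0
  · have : 2 / Real.pi ≤ 1 := by
      rw [div_le_one Real.pi_pos]; linarith [Real.pi_gt_three]
    nlinarith [abs_nonneg θ]
  · rw [abs_div, le_div_iff₀ (abs_pos.2 h0)]
    have h1 := Real.mul_abs_le_abs_sin h
    rw [abs_mul] at h1
    linarith

namespace QD

variable (D : QD)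

theorem pf_pos : 0 < D.pf := D.e₀_pos.trans D.e₀_lt

theorem half_pi_mem : Real.pi / 2 ∈ Icc (0:ℝ) (Real.pi / 2) :=
  ⟨by positivity, le_refl _⟩

theorem zero_mem : (0:ℝ) ∈ Icc (0:ℝ) (Real.pi / 2) :=
  ⟨le_refl _, by positivity⟩

theorem θf_mem : D.θf ∈ Icc (0:ℝ) (Real.pi / 2) := by
  rcases D.cls with ⟨_, _, h1, h2⟩ | ⟨_, _, h⟩
  · exact ⟨by linarith [Real.pi_pos], h2.le⟩
  · rw [h]; exact half_pi_mem

theorem θf_ge : Real.pi / 4 ≤ D.θf := by
  rcases D.cls with ⟨_, _, h1, h2⟩ | ⟨_, _, h⟩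
  · exact h1
  · rw [h]; linarith [Real.pi_pos]

theorem pf_lt_ℓ : D.pf < D.ℓ := by
  have := D.β_mem 0 zero_mem
  linarith

theorem abs_κ_le : |D.κ| ≤ 1 := by
  rcases D.cls with ⟨h0, h1, _, _⟩ | ⟨h0, h1, _⟩
  · exact abs_le.2 ⟨h1, by linarith⟩
  · exact abs_le.2 ⟨by linarith, by linarith⟩

/-- differences of two angles of the quarter, with factor `κ` -/
theorem abs_κ_mul_sub {θ θ' : ℝ} (h : θ ∈ Icc (0:ℝ) (Real.pi / 2))
    (h' : θ' ∈ Icc (0:ℝ) (Real.pi / 2)) : |D.κ * (θ - θ')| ≤ Real.pi / 2 := by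
  rw [abs_mul]
  have h1 : |θ - θ'| ≤ Real.pi / 2 := abs_le.2 ⟨by linarith [h.1, h'.2], by linarith [h.2, h'.1]⟩
  have h2 := D.abs_κ_le
  have := abs_nonneg D.κ
  have := abs_nonneg (θ - θ')
  nlinarith [Real.pi_pos]

/-- strict bound for differences with the foot -/
theorem abs_κ_mul_sub_θf {θ : ℝ} (h : θ ∈ Icc (0:ℝ) (Real.pi / 2)) :
    |D.κ * (θ - D.θf)| < Real.pi / 2 := by
  rw [abs_mul]
  have hp := Real.pi_pos
  rcases D.cls with ⟨h0, h1, h2, h3⟩ | ⟨h0, h1, h2⟩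
  · have e1 : |D.κ| ≤ 1 := D.abs_κ_le
    have e2 : |θ - D.θf| < Real.pi / 2 :=
      abs_lt.2 ⟨by linarith [h.1], by linarith [h.2]⟩
    have := abs_nonneg (θ - D.θf)
    nlinarith [abs_nonneg D.κ]
  · have e1 : |D.κ| ≤ 1 / 3 := by rw [abs_of_nonneg h0]; exact h1
    have e2 : |θ - D.θf| ≤ Real.pi / 2 :=
      abs_le.2 ⟨by linarith [h.1], by linarith [h.2]⟩
    have := abs_nonneg (θ - D.θf)
    nlinarith [abs_nonneg D.κ]

theorem cos_foot_pos {θ : ℝ} (h : θ ∈ Icc (0:ℝ) (Real.pi / 2)) :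
    0 < Real.cos (D.κ * (θ - D.θf)) := by
  have := abs_lt.1 (D.abs_κ_mul_sub_θf h)
  exact Real.cos_pos_of_mem_Ioo ⟨this.1, this.2⟩

theorem cont_A : Continuous D.A := D.smA.continuous

theorem cont_R : Continuous D.R := D.smR.continuous

theorem hasDerivAt_R (p : ℝ) : HasDerivAt D.R (deriv D.R p) p :=
  (D.smR.differentiable (by simp) p).hasDerivAt

theorem cont_deriv_R : Continuous (deriv D.R) := D.smR.continuous_deriv (by simp)

/-- `A > 0` slightly beyond `[0, ℓ]` -/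
theorem posA' : ∃ δ > 0, ∀ p ∈ Ioo (-δ) (D.ℓ + δ), 0 < D.A p := by
  have hopen : IsOpen {p | 0 < D.A p} := isOpen_lt continuous_const D.cont_A
  obtain ⟨δ, hδ, h⟩ := (isCompact_Icc (a := (0:ℝ)) (b := D.ℓ)).exists_thickening_subset_open hopen
    (fun p hp => D.posA p hp)
  have hℓ : 0 < D.ℓ := D.pf_pos.trans D.pf_lt_ℓ
  refine ⟨δ, hδ, fun p hp => h ?_⟩
  rw [mem_thickening_iff]
  rcases lt_or_ge p 0 with h0 | h0
  · exact ⟨0, ⟨le_refl _, hℓ.le⟩, by rw [Real.dist_eq, sub_zero, abs_of_neg h0]; linarith [hp.1]⟩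
  rcases le_or_gt p D.ℓ with h1 | h1
  · exact ⟨p, ⟨h0, h1⟩, by simpa using hδ⟩
  · exact ⟨D.ℓ, ⟨hℓ.le, le_refl _⟩, by
      rw [Real.dist_eq, abs_of_pos (by linarith)]; linarith [hp.2]⟩

theorem hasDerivAt_σ (p : ℝ) : HasDerivAt D.σ (D.A p) p := by
  unfold σ
  exact intervalIntegral.integral_hasDerivAt_right (D.cont_A.intervalIntegrable _ _)
    (D.cont_A.stronglyMeasurableAtFilter _ _) D.cont_A.continuousAt

theorem cont_σ : Continuous D.σ :=
  continuous_iff_continuousAt.2 fun p => (D.hasDerivAt_σ p).continuousAt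

theorem σ_foot : D.σ (D.β D.θf) = 0 := by unfold σ; simp

theorem σ_strictMonoOn : ∃ δ > 0, StrictMonoOn D.σ (Ioo (-δ) (D.ℓ + δ)) := by
  obtain ⟨δ, hδ, h⟩ := D.posA'
  refine ⟨δ, hδ, strictMonoOn_of_deriv_pos (convex_Ioo _ _) D.cont_σ.continuousOn ?_⟩
  intro p hp
  rw [interior_Ioo] at hp
  rw [(D.hasDerivAt_σ p).deriv]
  exact h p hp

theorem σ_strictMonoOn' : StrictMonoOn D.σ (Icc 0 D.ℓ) := by
  obtain ⟨δ, hδ, h⟩ := D.σ_strictMonoOn
  exact h.mono fun p hp => ⟨by linarith [hp.1], by linarith [hp.2]⟩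

theorem R_foot : D.R (D.β D.θf) = D.ρf := by
  have := D.floor D.θf D.θf_mem
  rwa [sub_self, mul_zero, Real.cos_zero, mul_one] at this

/-- `R = κ σ + ρf` in the flat part -/
theorem R_flat {p : ℝ} (hp : p ∈ Icc D.pf D.ℓ) : D.R p = D.κ * D.σ p + D.ρf := by
  have hd : ∀ x ∈ Icc D.pf D.ℓ, HasDerivWithinAt (fun p => D.R p - D.κ * D.σ p) 0 (Icc D.pf D.ℓ) x := by
    intro x hx
    have h1 := (D.hasDerivAt_R x).sub ((D.hasDerivAt_σ x).const_mul D.κ)
    rw [D.flat x hx, sub_self] at h1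
    exact h1.hasDerivWithinAt
  have hc : ∀ x ∈ Icc D.pf D.ℓ, ∀ y ∈ Icc D.pf D.ℓ, D.R x - D.κ * D.σ x = D.R y - D.κ * D.σ y := by
    intro x hx y hy
    have := (convex_Icc D.pf D.ℓ).norm_image_sub_le_of_norm_hasDerivWithin_le (C := 0)
      (f' := fun _ => 0) hd (by simp) hx hy
    simp only [zero_mul, norm_le_zero_iff] at this
    linarith
  have hβ := D.β_mem D.θf D.θf_mem
  have := hc p hp (D.β D.θf) ⟨hβ.1.le, hβ.2⟩
  rw [D.σ_foot, D.R_foot] at this
  linarith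

theorem β_mem' {θ : ℝ} (h : θ ∈ Icc (0:ℝ) (Real.pi / 2)) : D.β θ ∈ Icc D.pf D.ℓ :=
  ⟨(D.β_mem θ h).1.le, (D.β_mem θ h).2⟩

/-- height of the floor in terms of `σ` -/
theorem σ_floor {θ : ℝ} (h : θ ∈ Icc (0:ℝ) (Real.pi / 2)) :
    D.σ (D.β θ) * Real.cos (D.κ * (θ - D.θf)) + D.ρf * csk D.κ (θ - D.θf) = 0 := by
  by_cases hκ : D.κ = 0
  · rw [D.β_const hκ θ h, D.σ_foot, hκ]
    simp [csk]
  · have h1 := D.floor θ h
    rw [D.R_flat (D.β_mem' h)] at h1
    have h2 := mul_csk D.κ (θ - D.θf)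
    have : D.κ * (D.σ (D.β θ) * Real.cos (D.κ * (θ - D.θf)) + D.ρf * csk D.κ (θ - D.θf)) = 0 := by
      linear_combination h1 + D.ρf * h2
    exact (mul_eq_zero.1 this).resolve_left hκ

theorem Z_eq (c p θ : ℝ) : D.Z c p θ =
    ⟨D.σ p * Real.cos (D.κ * (θ - c)) + D.ρf * csk D.κ (θ - c),
      D.σ p * Real.sin (D.κ * (θ - c)) + D.ρf * snk D.κ (θ - c)⟩ := by
  unfold Z
  rw [cdev_eq, exp_eq]
  apply Complex.ext <;> simp

theorem Z_re (c p θ : ℝ) : (D.Z c p θ).re =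
    D.σ p * Real.cos (D.κ * (θ - c)) + D.ρf * csk D.κ (θ - c) := by rw [Z_eq]

theorem Z_im (c p θ : ℝ) : (D.Z c p θ).im =
    (D.κ * D.σ p + D.ρf) * snk D.κ (θ - c) := by
  rw [Z_eq]
  simp only
  rw [← mul_snk]; ring

/-- change of the base angle: a rigid motion -/
theorem Z_shift (c c' p θ : ℝ) : D.Z c p θ =
    D.Z c' p θ * Complex.exp ((D.κ * (c' - c) : ℝ) * Complex.I) + D.ρf * cdev D.κ (c' - c) := by
  unfold Z
  rw [show θ - c = (θ - c') + (c' - c) by ring, cdev_add, mul_add, Complex.ofReal_add, add_mul,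
    Complex.exp_add]
  ring

/-- the floor is `Re Z = 0` -/
theorem Z_re_floor {θ : ℝ} (h : θ ∈ Icc (0:ℝ) (Real.pi / 2)) : (D.Z D.θf (D.β θ) θ).re = 0 := by
  rw [Z_re]; exact D.σ_floor h

/-- `E = {Re Z ≤ 0}` -/
theorem Z_re_iff : ∃ δ > 0, ∀ θ ∈ Icc (0:ℝ) (Real.pi / 2), ∀ p ∈ Ioo (-δ) (D.ℓ + δ),
    ((D.Z D.θf p θ).re ≤ 0 ↔ p ≤ D.β θ) ∧ ((D.Z D.θf p θ).re = 0 ↔ p = D.β θ) := by
  obtain ⟨δ, hδ, h⟩ := D.σ_strictMonoOn
  refine ⟨δ, hδ, fun θ hθ p hp => ?_⟩
  have hc := D.cos_foot_pos hθ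
  have hf := D.σ_floor hθ
  have hβ := D.β_mem' hθ
  have hβ' : D.β θ ∈ Ioo (-δ) (D.ℓ + δ) := ⟨by linarith [hβ.1, D.pf_pos], by linarith [hβ.2]⟩
  have e : (D.Z D.θf p θ).re = (D.σ p - D.σ (D.β θ)) * Real.cos (D.κ * (θ - D.θf)) := by
    rw [Z_re]; linear_combination hf
  rw [e]
  constructor
  · rw [← h.le_iff_le hp hβ', ← sub_nonpos (a := D.σ p)]
    constructor
    · intro h1
      by_contra h2
      push Not at h2
      have := mul_pos h2 hc
      linarith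
    · intro h1
      exact mul_nonpos_of_nonpos_of_nonneg h1 hc.le
  · rw [mul_eq_zero, sub_eq_zero]
    constructor
    · rintro (h1 | h1)
      · exact h.injOn hp hβ' h1
      · exact absurd h1 hc.ne'
    · intro h1; left; rw [h1]

/-- top of the rectangle -/
noncomputable def top : ℝ := if D.κ < 0 then D.β D.θf else D.β 0

theorem top_mem : D.top ∈ Icc D.pf D.ℓ := by
  unfold top
  split_ifs
  · exact D.β_mem' D.θf_mem
  · exact D.β_mem' zero_mem

theorem top_pos : 0 < D.top := D.pf_pos.trans_le D.top_mem.1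

/-- cosines at two angles -/
theorem β_le_top {θ : ℝ} (h : θ ∈ Icc (0:ℝ) (Real.pi / 2)) : D.β θ ≤ D.top := by
  have hmono := D.σ_strictMonoOn'
  have hβ := D.β_mem' h
  have hpf := D.pf_pos
  have hI : ∀ {x}, x ∈ Icc D.pf D.ℓ → x ∈ Icc 0 D.ℓ := fun hx => ⟨hpf.le.trans hx.1, hx.2⟩
  unfold top
  split_ifs with hκ
  · rw [← hmono.le_iff_le (hI hβ) (hI (D.β_mem' D.θf_mem)), D.σ_foot]
    have hf := D.σ_floor h
    have hc := D.cos_foot_pos h
    have h2 := csk_half D.κ (θ - D.θf)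
    have h3 : 0 ≤ csk D.κ (θ - D.θf) := by
      rw [h2]; nlinarith [sq_nonneg (snk D.κ ((θ - D.θf) / 2))]
    by_contra hcon
    push Not at hcon
    have := mul_pos hcon hc
    have := mul_nonneg D.ρf_pos.le h3
    linarith
  · rcases D.cls with ⟨h0, _⟩ | ⟨h0, h1, h2⟩
    · exact absurd h0 hκ
    by_cases hκ0 : D.κ = 0
    · rw [D.β_const hκ0 θ h, D.β_const hκ0 0 zero_mem]
    have hκ' : 0 < D.κ := lt_of_le_of_ne h0 (Ne.symm hκ0)
    rw [← hmono.le_iff_le (hI hβ) (hI (D.β_mem' zero_mem))]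
    -- R is increasing
    have e1 := D.floor θ h
    have e2 := D.floor 0 zero_mem
    rw [D.R_flat hβ] at e1
    rw [D.R_flat (D.β_mem' zero_mem)] at e2
    have hR0 : 0 < D.κ * D.σ (D.β 0) + D.ρf := by
      rw [← D.R_flat (D.β_mem' zero_mem)]
      exact D.posR _ ⟨hpf.trans_le (D.β_mem' zero_mem).1, (D.β_mem' zero_mem).2⟩
    have hcos : Real.cos (D.κ * (0 - D.θf)) ≤ Real.cos (D.κ * (θ - D.θf)) := by
      rw [← Real.cos_abs (D.κ * (0 - D.θf)), ← Real.cos_abs (D.κ * (θ - D.θf))]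
      apply Real.cos_le_cos_of_nonneg_of_le_pi (abs_nonneg _)
      · have := D.abs_κ_mul_sub_θf zero_mem
        linarith [Real.pi_pos]
      · rw [abs_mul, abs_mul]
        apply mul_le_mul_of_nonneg_left _ (abs_nonneg _)
        rw [h2, abs_of_nonpos (by linarith [h.2]), abs_of_nonpos (by linarith [Real.pi_pos])]
        linarith [h.1]
    have hc := D.cos_foot_pos h
    by_contra hcon
    push Not at hcon
    have h5 : D.κ * D.σ (D.β 0) + D.ρf < D.κ * D.σ (D.β θ) + D.ρf := by nlinarith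
    have h6 : (D.κ * D.σ (D.β 0) + D.ρf) * Real.cos (D.κ * (0 - D.θf)) ≤
        (D.κ * D.σ (D.β 0) + D.ρf) * Real.cos (D.κ * (θ - D.θf)) :=
      mul_le_mul_of_nonneg_left hcos hR0.le
    have h7 : (D.κ * D.σ (D.β 0) + D.ρf) * Real.cos (D.κ * (θ - D.θf)) <
        (D.κ * D.σ (D.β θ) + D.ρf) * Real.cos (D.κ * (θ - D.θf)) :=
      mul_lt_mul_of_pos_right h5 hc
    linarith

/-- `β` is continuous on the quarter -/
theorem cont_β : ContinuousOn D.β (Icc 0 (Real.pi / 2)) := by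
  -- σ (β θ) is continuous, σ is strictly monotone on the compact [0, ℓ]
  have h1 : ContinuousOn (fun θ => D.σ (D.β θ)) (Icc 0 (Real.pi / 2)) := by
    have e : EqOn (fun θ => D.σ (D.β θ))
        (fun θ => -(D.ρf * csk D.κ (θ - D.θf)) / Real.cos (D.κ * (θ - D.θf)))
        (Icc 0 (Real.pi / 2)) := by
      intro θ hθ
      have := D.σ_floor hθ
      have hc := D.cos_foot_pos hθ
      simp only
      rw [eq_div_iff hc.ne']; linarith
    refine ContinuousOn.congr ?_ e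
    have hcsk : Continuous (csk D.κ) :=
      continuous_iff_continuousAt.2 fun x => (hasDerivAt_csk D.κ x).continuousAt
    apply ContinuousOn.div
    · exact ((continuous_const.mul (hcsk.comp (continuous_id.sub continuous_const))).neg).continuousOn
    · fun_prop
    · intro θ hθ; exact (D.cos_foot_pos hθ).ne'
  have hmono := D.σ_strictMonoOn'
  intro θ hθ
  rw [Metric.continuousWithinAt_iff]
  intro ε hε
  have hI : ∀ {x}, x ∈ Icc D.pf D.ℓ → x ∈ Icc 0 D.ℓ := fun hx => ⟨D.pf_pos.le.trans hx.1, hx.2⟩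
  have hbθ := D.β_mem θ hθ
  -- choose the values of σ at β θ ± ε/2 (cut)
  set b := D.β θ with hb
  set lo := max (b - ε / 2) 0 with hlo
  set hi := min (b + ε / 2) D.ℓ with hhi
  have hb0 : 0 < b := D.pf_pos.trans hbθ.1
  have hlo1 : lo < b := max_lt (by linarith) hb0
  have hloI : lo ∈ Icc 0 D.ℓ := ⟨le_max_right _ _, hlo1.le.trans hbθ.2⟩
  have hbI : b ∈ Icc 0 D.ℓ := ⟨hb0.le, hbθ.2⟩
  have hσlo : D.σ lo < D.σ b := hmono hloI hbI hlo1
  -- upper side
  rcases lt_or_eq_of_le hbθ.2 with hlt | heq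
  · have hhi1 : b < hi := lt_min (by linarith) hlt
    have hhiI : hi ∈ Icc 0 D.ℓ := ⟨hb0.le.trans hhi1.le, min_le_right _ _⟩
    have hσhi : D.σ b < D.σ hi := hmono hbI hhiI hhi1
    obtain ⟨δ, hδ, H⟩ := Metric.continuousWithinAt_iff.1 (h1 θ hθ)
      (min (D.σ b - D.σ lo) (D.σ hi - D.σ b)) (lt_min (by linarith) (by linarith))
    refine ⟨δ, hδ, fun {x} hx hxd => ?_⟩
    have := H hx hxd
    rw [Real.dist_eq, abs_lt] at this
    have hxI := hI (D.β_mem' hx)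
    have e1 : D.σ lo < D.σ (D.β x) := by
      have := min_le_left (D.σ b - D.σ lo) (D.σ hi - D.σ b); linarith
    have e2 : D.σ (D.β x) < D.σ hi := by
      have := min_le_right (D.σ b - D.σ lo) (D.σ hi - D.σ b); linarith
    rw [hmono.lt_iff_lt hloI hxI] at e1
    rw [hmono.lt_iff_lt hxI hhiI] at e2
    rw [Real.dist_eq, abs_lt]
    constructor
    · have := le_max_left (b - ε / 2) 0; linarith
    · have := min_le_left (b + ε / 2) D.ℓ; linarith
  · obtain ⟨δ, hδ, H⟩ := Metric.continuousWithinAt_iff.1 (h1 θ hθ)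
      (D.σ b - D.σ lo) (by linarith)
    refine ⟨δ, hδ, fun {x} hx hxd => ?_⟩
    have := H hx hxd
    rw [Real.dist_eq, abs_lt] at this
    have hxI := hI (D.β_mem' hx)
    have e1 : D.σ lo < D.σ (D.β x) := by linarith
    rw [hmono.lt_iff_lt hloI hxI] at e1
    have e2 := (D.β_mem x hx).2
    rw [Real.dist_eq, abs_lt]
    constructor
    · have := le_max_left (b - ε / 2) 0; linarith
    · linarith

end QD

end Pool.MP8e
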