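import Mathlib
import Pool.Agent.Work.MP_8e9dbb.A.Rect

/-!
# Part A, file 5: the rectangle with its length distance, the quarter domain, and the space `X`
-/

open Filter Topology Metric Set

namespace Pool.MP8e

/-- the linear map `u ↦ a u₁ + i b u₂` -/
noncomputable def diagC (a b : ℝ) : (ℝ × ℝ) →ₗ[ℝ] ℂ where
  toFun u := ⟨a * u.1, b * u.2⟩
  map_add' u v := by apply Complex.ext <;> simp [mul_add]
  map_smul' c u := by apply Complex.ext <;> simp <;> ring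

theorem diagC_apply (a b : ℝ) (u : ℝ × ℝ) : diagC a b u = ⟨a * u.1, b * u.2⟩ := rfl

theorem norm_mk (a b : ℝ) : ‖(⟨a, b⟩ : ℂ)‖ = √(a ^ 2 + b ^ 2) := by
  rw [Complex.norm_def, Complex.normSq_apply]
  congr 1; ring

theorem norm_mk_le (a b : ℝ) : ‖(⟨a, b⟩ : ℂ)‖ ≤ |a| + |b| := Complex.norm_le_abs_re_add_abs_im _

theorem abs_fst_le (u : ℝ × ℝ) : |u.1| ≤ ‖u‖ := norm_fst_le u

theorem abs_snd_le (u : ℝ × ℝ) : |u.2| ≤ ‖u‖ := norm_snd_le u

theorem norm_diagC_le (a b : ℝ) (u : ℝ × ℝ) : ‖diagC a b u‖ ≤ (|a| + |b|) * ‖u‖ := by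
  rw [diagC_apply]
  refine (norm_mk_le _ _).trans ?_
  rw [abs_mul, abs_mul, add_mul]
  exact add_le_add (mul_le_mul_of_nonneg_left (abs_fst_le u) (abs_nonneg _))
    (mul_le_mul_of_nonneg_left (abs_snd_le u) (abs_nonneg _))

theorem norm_diagC_ge {a b c : ℝ} (ha : c ≤ |a|) (hb : c ≤ |b|) (hc : 0 ≤ c) (u : ℝ × ℝ) :
    c * ‖u‖ ≤ ‖diagC a b u‖ := by
  rw [diagC_apply, norm_mk]
  apply Real.le_sqrt_of_sq_le
  rw [mul_pow, Prod.norm_def]
  rcases max_cases ‖u.1‖ ‖u.2‖ with ⟨h, _⟩ | ⟨h, _⟩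
  · rw [h, Real.norm_eq_abs, sq_abs, mul_pow]
    have : c ^ 2 ≤ a ^ 2 := by rw [← sq_abs a]; exact pow_le_pow_left₀ hc ha 2
    nlinarith [sq_nonneg u.1, sq_nonneg (b * u.2)]
  · rw [h, Real.norm_eq_abs, sq_abs, mul_pow b]
    have : c ^ 2 ≤ b ^ 2 := by rw [← sq_abs b]; exact pow_le_pow_left₀ hc hb 2
    nlinarith [sq_nonneg u.2, sq_nonneg (a * u.1)]

namespace QD

variable (D : QD)

/-- the norm of the metric at height `p`, as a seminorm -/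
noncomputable def nms (p : ℝ) : Seminorm ℝ (ℝ × ℝ) :=
  (normSeminorm ℝ ℂ).comp (diagC (D.A p) (D.R p))

theorem nms_apply (p : ℝ) (u : ℝ × ℝ) : D.nms p u = ‖diagC (D.A p) (D.R p) u‖ := rfl

theorem nms_eq (p : ℝ) (u : ℝ × ℝ) : D.nms p u = D.nm p u := by
  rw [nms_apply, diagC_apply, norm_mk]; rfl

theorem nms_le (p : ℝ) (u : ℝ × ℝ) : D.nms p u ≤ (|D.A p| + |D.R p|) * ‖u‖ :=
  norm_diagC_le _ _ _

theorem nms_sub (p q : ℝ) (u : ℝ × ℝ) :
    |D.nms p u - D.nms q u| ≤ (|D.A p - D.A q| + |D.R p - D.R q|) * ‖u‖ := by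
  rw [nms_apply, nms_apply]
  refine (abs_norm_sub_norm_le _ _).trans ?_
  have : diagC (D.A p) (D.R p) u - diagC (D.A q) (D.R q) u =
      diagC (D.A p - D.A q) (D.R p - D.R q) u := by
    rw [diagC_apply, diagC_apply, diagC_apply]
    apply Complex.ext <;> simp [sub_mul]
  rw [this]
  exact norm_diagC_le _ _ _

/-- continuity of the norm field -/
theorem nms_cont (q : ℝ) {ε : ℝ} (hε : 0 < ε) : ∃ δ > 0, ∀ p, |p - q| < δ → ∀ u : ℝ × ℝ,
    |D.nms p u - D.nms q u| ≤ ε * ‖u‖ := by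
  obtain ⟨δ1, hδ1, H1⟩ := Metric.continuous_iff.1 D.cont_A q (ε / 2) (by positivity)
  obtain ⟨δ2, hδ2, H2⟩ := Metric.continuous_iff.1 D.cont_R q (ε / 2) (by positivity)
  refine ⟨min δ1 δ2, lt_min hδ1 hδ2, fun p hp u => (D.nms_sub p q u).trans ?_⟩
  apply mul_le_mul_of_nonneg_right _ (norm_nonneg _)
  have h1 := H1 p (by rw [Real.dist_eq]; exact lt_of_lt_of_le hp (min_le_left _ _))
  have h2 := H2 p (by rw [Real.dist_eq]; exact lt_of_lt_of_le hp (min_le_right _ _))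
  rw [Real.dist_eq] at h1 h2
  linarith

/-- `A` and `R` are bounded below by a positive constant near a height `q ∈ (0, ℓ]` -/
theorem nms_ge {q : ℝ} (hq : q ∈ Ioc 0 D.ℓ) : ∃ c > 0, ∃ δ > 0, ∀ p, |p - q| < δ →
    ∀ u : ℝ × ℝ, c * ‖u‖ ≤ D.nms p u := by
  have hA := D.posA q ⟨hq.1.le, hq.2⟩
  have hR := D.posR q hq
  set c := min (D.A q) (D.R q) / 2 with hc
  have hc0 : 0 < c := by rw [hc]; have := lt_min hA hR; linarith
  obtain ⟨δ1, hδ1, H1⟩ := Metric.continuous_iff.1 D.cont_A q c hc0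
  obtain ⟨δ2, hδ2, H2⟩ := Metric.continuous_iff.1 D.cont_R q c hc0
  refine ⟨c, hc0, min δ1 δ2, lt_min hδ1 hδ2, fun p hp u => ?_⟩
  have h1 := H1 p (by rw [Real.dist_eq]; exact lt_of_lt_of_le hp (min_le_left _ _))
  have h2 := H2 p (by rw [Real.dist_eq]; exact lt_of_lt_of_le hp (min_le_right _ _))
  rw [Real.dist_eq, abs_lt] at h1 h2
  have e1 := min_le_left (D.A q) (D.R q)
  have e2 := min_le_right (D.A q) (D.R q)
  rw [nms_apply]
  apply norm_diagC_ge _ _ hc0.le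
  · refine le_trans ?_ (le_abs_self _); linarith
  · refine le_trans ?_ (le_abs_self _); linarith

/-- the rectangle -/
def rect : Set (ℝ × ℝ) := Icc 0 D.top ×ˢ Icc 0 (Real.pi / 2)

/-- the norm field of the rectangle -/
noncomputable def nf : NField (ℝ × ℝ) where
  K := D.rect
  N q := D.nms q.1
  conv := (convex_Icc _ _).prod (convex_Icc _ _)
  cpt := isCompact_Icc.prod isCompact_Icc
  nonempty := ⟨(0, 0), ⟨⟨le_refl _, D.top_pos.le⟩, zero_mem⟩⟩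
  cont q _ ε hε := by
    obtain ⟨δ, hδ, H⟩ := D.nms_cont q.1 hε
    refine ⟨δ, hδ, fun z _ hz v => H z.1 ?_ v⟩
    rw [← Real.dist_eq]
    exact lt_of_le_of_lt (by rw [Prod.dist_eq]; exact le_max_left _ _) hz
  bdd := by
    obtain ⟨C1, hC1⟩ := (isCompact_Icc (a := (0:ℝ)) (b := D.top)).exists_bound_of_continuousOn
      D.cont_A.continuousOn
    obtain ⟨C2, hC2⟩ := (isCompact_Icc (a := (0:ℝ)) (b := D.top)).exists_bound_of_continuousOn
      D.cont_R.continuousOn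
    have h0 : (0:ℝ) ∈ Icc 0 D.top := ⟨le_refl _, D.top_pos.le⟩
    have e1 := (norm_nonneg _).trans (hC1 0 h0)
    have e2 := (norm_nonneg _).trans (hC2 0 h0)
    refine ⟨C1 + C2, by positivity, fun q hq v => (D.nms_le _ _).trans ?_⟩
    exact mul_le_mul_of_nonneg_right (add_le_add (hC1 _ hq.1) (hC2 _ hq.1)) (norm_nonneg _)

/-- the points of the rectangle, with the length distance -/
abbrev RPt := Pt D.nf

/-- the quarter domain, as a subspace of the rectangle -/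
def EPt := {x : Pt D.nf // x.val.1 ≤ D.β x.val.2}

noncomputable instance : PseudoMetricSpace D.EPt :=
  inferInstanceAs (PseudoMetricSpace {x : Pt D.nf // x.val.1 ≤ D.β x.val.2})

variable {D}

/-- the coordinates of a point of the quarter domain -/
def EPt.c (x : D.EPt) : ℝ × ℝ := x.1.val

theorem EPt.dist_def (x y : D.EPt) : dist x y = dist x.1 y.1 := rfl

theorem EPt.c1 (x : D.EPt) : x.c.1 ∈ Icc 0 D.top := x.1.mem.1

theorem EPt.c2 (x : D.EPt) : x.c.2 ∈ Icc 0 (Real.pi / 2) := x.1.mem.2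

theorem EPt.c_le (x : D.EPt) : x.c.1 ≤ D.β x.c.2 := x.2

theorem EPt.ext' {x y : D.EPt} (h : x.c = y.c) : x = y := Subtype.ext (Pt.ext' h)

/-- the point of the quarter domain with coordinates `(p, θ)` (cut to the quarter domain) -/
noncomputable def EPt.mk (p θ : ℝ) (hp : 0 ≤ p) (hp' : p ≤ D.β θ) (hθ : θ ∈ Icc 0 (Real.pi / 2)) :
    D.EPt :=
  ⟨⟨(p, θ), ⟨⟨hp, hp'.trans (D.β_le_top hθ)⟩, hθ⟩⟩, hp'⟩

@[simp] theorem EPt.mk_c (p θ : ℝ) (hp : 0 ≤ p) (hp' : p ≤ D.β θ) (hθ : θ ∈ Icc 0 (Real.pi / 2)) :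
    (EPt.mk p θ hp hp' hθ : D.EPt).c = (p, θ) := rfl

variable (D)

/-- the apex -/
noncomputable def eP : D.EPt :=
  EPt.mk 0 0 le_rfl (D.pf_pos.le.trans (D.β_mem' zero_mem).1) zero_mem

/-- `B` -/
noncomputable def eB : D.EPt :=
  EPt.mk (D.β 0) 0 (D.pf_pos.le.trans (D.β_mem' zero_mem).1) le_rfl zero_mem

/-- `Q` -/
noncomputable def eQ : D.EPt :=
  EPt.mk (D.β (Real.pi / 2)) (Real.pi / 2) (D.pf_pos.le.trans (D.β_mem' half_pi_mem).1) le_rfl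
    half_pi_mem

/-- the axis `θ = π/2` -/
def axis : Set D.EPt := {x | x.c.2 = Real.pi / 2}

/-- leg and floor -/
def bd : Set D.EPt := {x | x.c.2 = 0 ∨ x.c.1 = D.β x.c.2}

instance : Nonempty D.axis := ⟨⟨D.eQ, rfl⟩⟩

/-- the half surface -/
abbrev D1 := Dbl D.EPt D.axis

/-- leg and floor of the half surface -/
def bd1 : Set D.D1 := {x | x.pt ∈ D.bd}

instance : Nonempty D.bd1 := ⟨⟨⟨D.eP, false⟩, Or.inl rfl⟩⟩

/-- the surface, as a pseudo-metric space -/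
abbrev XX := Dbl D.D1 D.bd1

/-- the surface -/
abbrev X := SeparationQuotient D.XX

theorem fold_mem (θ : ℝ) : fold θ ∈ Icc (0:ℝ) (Real.pi / 2) :=
  ⟨Real.arccos_nonneg _, Real.arccos_le_pi_div_two.2 (abs_nonneg _)⟩

/-- cut `p` to `[0, β (fold θ)]` -/
noncomputable def cut (p θ : ℝ) : ℝ := max 0 (min p (D.βh θ))

theorem βh_pos (θ : ℝ) : 0 < D.βh θ := D.pf_pos.trans (D.β_mem _ (fold_mem θ)).1

theorem cut_eq {p θ : ℝ} (h : 0 ≤ p) (h' : p ≤ D.βh θ) : D.cut p θ = p := by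
  unfold cut; rw [min_eq_left h', max_eq_right h]

theorem cut_nonneg (p θ : ℝ) : 0 ≤ D.cut p θ := le_max_left _ _

theorem cut_le (p θ : ℝ) : D.cut p θ ≤ D.βh θ := max_le (D.βh_pos θ).le (min_le_right _ _)

/-- the point of the quarter domain under `(p, θ)` -/
noncomputable def ept (x : ℝ × ℝ) : D.EPt :=
  EPt.mk (D.cut x.1 x.2) (fold x.2) (D.cut_nonneg _ _) (D.cut_le _ _) (fold_mem _)

/-- the map `(p, θ) ↦ X`, before passing to the quotient -/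
noncomputable def pr (x : ℝ × ℝ) : D.XX :=
  ⟨⟨D.ept x, decide (Real.cos x.2 < 0)⟩, decide (Real.sin x.2 < 0)⟩

/-- the map `(p, θ) ↦ X` -/
noncomputable def Pr (x : ℝ × ℝ) : D.X := SeparationQuotient.mk (D.pr x)

theorem dist_Pr (x y : ℝ × ℝ) : dist (D.Pr x) (D.Pr y) = dist (D.pr x) (D.pr y) :=
  SeparationQuotient.dist_mk _ _

/-! ## the general developing map -/

/-- planar coordinates for `dσ² + (κσ+ρ)² dθ²` -/
noncomputable def ZZ (κ ρ c s θ : ℝ) : ℂ :=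
  (s : ℂ) * Complex.exp ((κ * (θ - c) : ℝ) * Complex.I) + (ρ : ℂ) * cdev κ (θ - c)

theorem Z_eq_ZZ (c p θ : ℝ) : D.Z c p θ = ZZ D.κ D.ρf c (D.σ p) θ := rfl

theorem ZZ_shift (κ ρ c c' s θ : ℝ) : ZZ κ ρ c s θ =
    ZZ κ ρ c' s θ * Complex.exp ((κ * (c' - c) : ℝ) * Complex.I) + ρ * cdev κ (c' - c) := by
  unfold ZZ
  rw [show θ - c = (θ - c') + (c' - c) by ring, cdev_add, mul_add, Complex.ofReal_add, add_mul,
    Complex.exp_add]
  ring

theorem norm_ZZ_sub_shift (κ ρ c c' s θ s' θ' : ℝ) :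
    ‖ZZ κ ρ c s θ - ZZ κ ρ c s' θ'‖ = ‖ZZ κ ρ c' s θ - ZZ κ ρ c' s' θ'‖ := by
  rw [ZZ_shift κ ρ c c' s θ, ZZ_shift κ ρ c c' s' θ', add_sub_add_right_eq_sub, ← sub_mul, norm_mul,
    Complex.norm_exp_ofReal_mul_I, mul_one]

/-- **chord formula** -/
theorem norm_ZZ_sub_sq (κ ρ c s θ s' θ' : ℝ) :
    ‖ZZ κ ρ c s θ - ZZ κ ρ c s' θ'‖ ^ 2 =
      (s - s') ^ 2 + 4 * (κ * s + ρ) * (κ * s' + ρ) * snk κ ((θ - θ') / 2) ^ 2 := by
  rw [norm_ZZ_sub_shift κ ρ c θ']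
  have e1 : ZZ κ ρ θ' s' θ' = s' := by
    unfold ZZ; simp
  rw [e1]
  have e2 : ZZ κ ρ θ' s θ = ⟨s * Real.cos (κ * (θ - θ')) + ρ * csk κ (θ - θ'),
      s * Real.sin (κ * (θ - θ')) + ρ * snk κ (θ - θ')⟩ := by
    unfold ZZ
    rw [cdev_eq, exp_eq]
    apply Complex.ext <;> simp
  rw [e2, ← Complex.normSq_eq_norm_sq, Complex.normSq_apply]
  simp only [Complex.sub_re, Complex.sub_im, Complex.ofReal_re, Complex.ofReal_im, sub_zero]
  set ϑ := θ - θ' with hϑ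
  have h1 := mul_snk κ ϑ
  have h2 := mul_csk κ ϑ
  have h3 := csk_half κ ϑ
  have h4 := Real.sin_sq_add_cos_sq (κ * ϑ)
  have hsn := snk_sq_add κ ϑ
  rw [← h1] at h4 ⊢
  have h5 : Real.cos (κ * ϑ) = 1 + κ * csk κ ϑ := by linarith
  rw [h5] at h4 ⊢
  set S := snk κ ϑ
  set C := csk κ ϑ
  set T := snk κ (ϑ / 2) with hT
  -- S² + C² = 4 T²
  have key : S ^ 2 + C ^ 2 = 4 * T ^ 2 := by
    by_cases hκ : κ = 0
    · have hS : S = ϑ := by simp only [S]; unfold snk; rw [if_pos hκ]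
      have hC : C = 0 := by simp only [C]; unfold csk; rw [if_pos hκ]
      have hT' : T = ϑ / 2 := by rw [hT]; unfold snk; rw [if_pos hκ]
      rw [hS, hC, hT']; ring
    · have : κ ^ 2 * (S ^ 2 + C ^ 2 - 4 * T ^ 2) = 0 := by
        rw [h3] at h4 ⊢
        linear_combination h4
      have h6 := (mul_eq_zero.1 this).resolve_left (pow_ne_zero 2 hκ)
      linarith
  have hC2 : C = -(2 * κ * T ^ 2) := h3
  have : (s * (1 + κ * C) + ρ * C - s') * (s * (1 + κ * C) + ρ * C - s') +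
      (s * (κ * S) + ρ * S) * (s * (κ * S) + ρ * S) =
      (s - s') ^ 2 + (κ * s + ρ) ^ 2 * (S ^ 2 + C ^ 2) + 2 * (κ * s + ρ) * C * (s - s') := by ring
  rw [this, key, hC2]; ring

theorem abs_sub_le_norm_ZZ {κ ρ c s θ s' θ' : ℝ} (h : 0 ≤ κ * s + ρ) (h' : 0 ≤ κ * s' + ρ) :
    |s - s'| ≤ ‖ZZ κ ρ c s θ - ZZ κ ρ c s' θ'‖ := by
  apply abs_le_of_sq_le_sq _ (norm_nonneg _)
  rw [norm_ZZ_sub_sq]
  have := mul_nonneg h h'
  nlinarith [sq_nonneg (snk κ ((θ - θ') / 2))]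

end QD

end Pool.MP8e
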