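import Mathlib
import Pool.Agent.Work.MP_8e9dbb.A.Space

/-!
# Part A, file 6: planar charts
-/

open Filter Topology Metric Set

namespace Pool.MP8e
namespace QD

theorem hasDerivAt_cdev (κ θ : ℝ) :
    HasDerivAt (cdev κ) (Complex.I * Complex.exp ((κ * θ : ℝ) * Complex.I)) θ := by
  by_cases h : κ = 0
  · subst h
    have : cdev 0 = fun t : ℝ => (t : ℂ) * Complex.I := by ext t; simp [cdev]
    rw [this]
    simpa using (Complex.ofRealCLM.hasDerivAt (x := θ)).mul_const Complex.I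
  · have hκ : (κ : ℂ) ≠ 0 := by exact_mod_cast h
    have : cdev κ = fun t : ℝ => (Complex.exp ((κ * t : ℝ) * Complex.I) - 1) / κ := by
      ext t; simp [cdev, h]
    rw [this]
    have h1 : HasDerivAt (fun t : ℝ => ((κ * t : ℝ) : ℂ) * Complex.I) (κ * Complex.I) θ := by
      have := (Complex.ofRealCLM.hasDerivAt (x := κ * θ)).scomp θ
        ((hasDerivAt_id θ).const_mul κ)
      simpa [Function.comp_def] using this.mul_const Complex.I
    have h2 := ((h1.cexp).sub_const 1).div_const (κ : ℂ)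
    refine h2.congr_deriv ?_
    field_simp

theorem hasDerivAt_expκ (κ c θ : ℝ) :
    HasDerivAt (fun θ : ℝ => Complex.exp ((κ * (θ - c) : ℝ) * Complex.I))
      (κ * Complex.I * Complex.exp ((κ * (θ - c) : ℝ) * Complex.I)) θ := by
  have h1 : HasDerivAt (fun t : ℝ => ((κ * (t - c) : ℝ) : ℂ) * Complex.I) (κ * Complex.I) θ := by
    have := (Complex.ofRealCLM.hasDerivAt (x := κ * (θ - c))).scomp θ
      (((hasDerivAt_id θ).sub_const c).const_mul κ)
    simpa [Function.comp_def] using this.mul_const Complex.I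
  refine h1.cexp.congr_deriv ?_
  ring

theorem cont_expκ (κ c : ℝ) :
    Continuous (fun θ : ℝ => Complex.exp ((κ * (θ - c) : ℝ) * Complex.I)) :=
  continuous_iff_continuousAt.2 fun θ => (hasDerivAt_expκ κ c θ).continuousAt

/-- strict derivative of the planar coordinates -/
theorem hasStrictFDerivAt_ZZ {σ A : ℝ → ℝ} (hσ : ∀ p, HasDerivAt σ (A p) p) (hA : Continuous A)
    (κ ρ c : ℝ) (q : ℝ × ℝ) :
    HasStrictFDerivAt (fun x : ℝ × ℝ => ZZ κ ρ c (σ x.1) x.2)
      (LinearMap.toContinuousLinearMap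
        (((Complex.exp ((κ * (q.2 - c) : ℝ) * Complex.I)) • (LinearMap.id : ℂ →ₗ[ℝ] ℂ)).comp
          (diagC (A q.1) (κ * σ q.1 + ρ)))) q := by
  have hs : HasStrictDerivAt σ (A q.1) q.1 :=
    hasStrictDerivAt_of_hasDerivAt_of_continuousAt (Eventually.of_forall hσ) hA.continuousAt
  have h1 : HasStrictFDerivAt (fun x : ℝ × ℝ => ((σ x.1 : ℝ) : ℂ))
      (Complex.ofRealCLM.comp ((A q.1) • ContinuousLinearMap.fst ℝ ℝ ℝ)) q :=
    Complex.ofRealCLM.hasStrictFDerivAt.comp q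
      (hs.comp_hasStrictFDerivAt q hasStrictFDerivAt_fst)
  have h2 : HasStrictDerivAt (fun θ : ℝ => Complex.exp ((κ * (θ - c) : ℝ) * Complex.I))
      (κ * Complex.I * Complex.exp ((κ * (q.2 - c) : ℝ) * Complex.I)) q.2 :=
    hasStrictDerivAt_of_hasDerivAt_of_continuousAt
      (Eventually.of_forall fun θ => hasDerivAt_expκ κ c θ)
      (continuous_const.mul (cont_expκ κ c)).continuousAt
  have h3 : HasStrictDerivAt (fun θ : ℝ => (ρ : ℂ) * cdev κ (θ - c))
      ((ρ : ℂ) * (Complex.I * Complex.exp ((κ * (q.2 - c) : ℝ) * Complex.I))) q.2 := by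
    refine hasStrictDerivAt_of_hasDerivAt_of_continuousAt
      (f' := fun θ : ℝ => (ρ : ℂ) * (Complex.I * Complex.exp ((κ * (θ - c) : ℝ) * Complex.I)))
      (Eventually.of_forall fun θ => ?_)
      (continuous_const.mul (continuous_const.mul (cont_expκ κ c))).continuousAt
    have := (hasDerivAt_cdev κ (θ - c)).scomp θ ((hasDerivAt_id θ).sub_const c)
    simpa using this.const_mul (ρ : ℂ)
  have h2' := h2.hasStrictFDerivAt.comp q (hasStrictFDerivAt_snd (𝕜 := ℝ) (E := ℝ) (F := ℝ))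
  have h3' := h3.hasStrictFDerivAt.comp q (hasStrictFDerivAt_snd (𝕜 := ℝ) (E := ℝ) (F := ℝ))
  have h4 := (h1.mul h2').add h3'
  refine h4.congr_fderiv ?_
  have e1 : (⟨A q.1, 0⟩ : ℂ) = (A q.1 : ℂ) := rfl
  have e2 : (⟨0, κ * σ q.1 + ρ⟩ : ℂ) = ((κ * σ q.1 + ρ : ℝ) : ℂ) * Complex.I := by
    apply Complex.ext <;> simp
  ext
  · simp [diagC_apply, e1]
  · simp [diagC_apply, e2]
    ring

/-- infinitesimal isometry -/
theorem inf_ZZ {σ A : ℝ → ℝ} (hσ : ∀ p, HasDerivAt σ (A p) p) (hA : Continuous A)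
    (κ ρ c : ℝ) (q : ℝ × ℝ) {ε : ℝ} (hε : 0 < ε) : ∃ δ > 0, ∀ x y : ℝ × ℝ, dist x q < δ →
      dist y q < δ → |‖ZZ κ ρ c (σ x.1) x.2 - ZZ κ ρ c (σ y.1) y.2‖ -
        ‖diagC (A q.1) (κ * σ q.1 + ρ) (x - y)‖| ≤ ε * ‖x - y‖ := by
  have h := (hasStrictFDerivAt_ZZ hσ hA κ ρ c q).isLittleO
  rw [Asymptotics.isLittleO_iff] at h
  have h1 := h hε
  rw [Filter.eventually_iff_exists_mem] at h1
  obtain ⟨s, hs, H⟩ := h1
  obtain ⟨δ, hδ, hsub⟩ := Metric.mem_nhds_iff.1 hs
  refine ⟨δ, hδ, fun x y hx hy => ?_⟩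
  have := H (x, y) (hsub (by rw [mem_ball, Prod.dist_eq]; exact max_lt hx hy))
  simp only at this
  refine le_trans ?_ this
  have hn : ∀ u : ℝ × ℝ, ‖(LinearMap.toContinuousLinearMap
        (((Complex.exp ((κ * (q.2 - c) : ℝ) * Complex.I)) • (LinearMap.id : ℂ →ₗ[ℝ] ℂ)).comp
          (diagC (A q.1) (κ * σ q.1 + ρ)))) u‖ = ‖diagC (A q.1) (κ * σ q.1 + ρ) u‖ := by
    intro u
    simp only [LinearMap.coe_toContinuousLinearMap', LinearMap.comp_apply, LinearMap.smul_apply,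
      LinearMap.id_apply, smul_eq_mul, norm_mul, Complex.norm_exp_ofReal_mul_I, one_mul]
  rw [← hn (x - y)]
  exact abs_norm_sub_norm_le _ _

/-- a continuous injection on a compact set has a continuous inverse -/
theorem inj_cont {V W : Type*} [PseudoMetricSpace V] [MetricSpace W] {T : Set V} (hT : IsCompact T)
    {φ : V → W} (hφ : ContinuousOn φ T) {q : V} (hinj : ∀ x ∈ T, φ x = φ q → dist x q = 0)
    {η : ℝ} (hη : 0 < η) : ∃ δ > 0, ∀ x ∈ T, dist (φ x) (φ q) < δ → dist x q < η := by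
  classical
  set T' := T ∩ {x | η ≤ dist x q} with hT'
  have hcpt : IsCompact T' := hT.inter_right (isClosed_le continuous_const
    (continuous_id.dist continuous_const))
  by_cases hne : T'.Nonempty
  · obtain ⟨z, hz, hmin⟩ := hcpt.exists_isMinOn hne (f := fun x => dist (φ x) (φ q))
      (Continuous.comp_continuousOn (g := fun w : W => dist w (φ q))
        (continuous_id.dist continuous_const) (ContinuousOn.mono hφ inter_subset_left))
    refine ⟨dist (φ z) (φ q), ?_, fun x hx hxd => ?_⟩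
    · apply dist_pos.2
      intro h
      have := hinj z hz.1 h
      have h2 : η ≤ dist z q := hz.2
      linarith
    · by_contra hcon
      push Not at hcon
      have := hmin (show x ∈ T' from ⟨hx, hcon⟩)
      have this' : dist (φ z) (φ q) ≤ dist (φ x) (φ q) := this
      linarith
  · refine ⟨1, one_pos, fun x hx _ => ?_⟩
    by_contra hcon
    push Not at hcon
    exact hne ⟨x, hx, hcon⟩

variable (D : QD)

theorem R_nonneg {p : ℝ} (hp : p ∈ Icc 0 D.top) : 0 ≤ D.R p := by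
  rcases eq_or_lt_of_le hp.1 with h | h
  · rw [← h, D.R0]
  · exact (D.posR p ⟨h, hp.2.trans D.top_mem.2⟩).le

/-- **lower bound** of the distance by the planar distance -/
theorem lowerZ {σ : ℝ → ℝ} (hσ : ∀ p, HasDerivAt σ (D.A p) p) {κ ρ : ℝ} (c : ℝ) {O : Set ℝ}
    (hO : IsOpen O) (hR : ∀ p ∈ O, p ∈ Icc 0 D.top → D.R p = κ * σ p + ρ) {r : ℝ} (hr : 0 < r)
    (x : D.RPt) (hx : x.val.1 ∈ O) (hgap : ∀ p ∈ Icc 0 D.top, p ∉ O → r < |σ p - σ x.val.1|)
    (y : D.RPt) : (y.val.1 ∈ O →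
      min ‖ZZ κ ρ c (σ x.val.1) x.val.2 - ZZ κ ρ c (σ y.val.1) y.val.2‖ r ≤ dist x y) ∧
      (y.val.1 ∉ O → r ≤ dist x y) := by
  classical
  have hcσ : Continuous σ := continuous_iff_continuousAt.2 fun p => (hσ p).continuousAt
  set φ : ℝ × ℝ → ℂ := fun x => ZZ κ ρ c (σ x.1) x.2 with hφ
  have hInf := Pt.infLip_trunc (D := D.nf) {z | z.1 ∈ O} (fun z => ‖φ z.val - φ x.val‖) r
    (by
      intro q hq ε hε
      obtain ⟨δ1, hδ1, H1⟩ := inf_ZZ hσ D.cont_A κ ρ c q.val hε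
      obtain ⟨δ2, hδ2, H2⟩ := Metric.isOpen_iff.1 (hO.preimage continuous_fst) q.val hq
      refine ⟨min δ1 δ2, lt_min hδ1 hδ2, fun z w hz hw =>
        ⟨H2 (lt_of_lt_of_le hz (min_le_right _ _)), H2 (lt_of_lt_of_le hw (min_le_right _ _)), ?_⟩⟩
      have h1 := H1 z.val w.val (lt_of_lt_of_le hz (min_le_left _ _))
        (lt_of_lt_of_le hw (min_le_left _ _))
      rw [← hR q.val.1 hq q.mem.1] at h1
      have h2 := abs_norm_sub_norm_le (φ z.val - φ x.val) (φ w.val - φ x.val)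
      rw [sub_sub_sub_cancel_right] at h2
      have h3 := (abs_le.1 h1).2
      have h4 : D.nf.N q.val (z.val - w.val) = ‖diagC (D.A q.val.1) (D.R q.val.1) (z.val - w.val)‖ := rfl
      rw [h4]
      simp only [hφ] at h2 ⊢
      linarith)
    (by
      intro q hq
      have hq' : r < |σ q.val.1 - σ x.val.1| := hgap _ q.mem.1 hq
      have hc : Continuous (fun z : ℝ × ℝ => |σ z.1 - σ x.val.1|) :=
        ((hcσ.comp continuous_fst).sub continuous_const).abs
      obtain ⟨δ, hδ, H⟩ := Metric.isOpen_iff.1 (isOpen_lt continuous_const hc) q.val hq'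
      refine ⟨δ, hδ, fun z hzO hz => ?_⟩
      have h1 : r < |σ z.val.1 - σ x.val.1| := H hz
      have h2 := abs_sub_le_norm_ZZ (κ := κ) (ρ := ρ) (c := c) (s := σ z.val.1) (θ := z.val.2)
        (s' := σ x.val.1) (θ' := x.val.2) (by rw [← hR _ hzO z.mem.1]; exact D.R_nonneg z.mem.1)
        (by rw [← hR _ hx x.mem.1]; exact D.R_nonneg x.mem.1)
      simp only [hφ]
      linarith)
  have hle := hInf.le_dist y x
  have hxU : x.val ∈ {z : ℝ × ℝ | z.1 ∈ O} := hx
  simp only [if_pos hxU] at hle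
  rw [sub_self, norm_zero, min_eq_left hr.le, sub_zero] at hle
  constructor
  · intro hy
    have hyU : y.val ∈ {z : ℝ × ℝ | z.1 ∈ O} := hy
    rw [if_pos hyU, abs_of_nonneg (le_min (norm_nonneg _) hr.le), norm_sub_rev] at hle
    rw [dist_comm x y]; exact hle
  · intro hy
    have hyU : y.val ∉ {z : ℝ × ℝ | z.1 ∈ O} := hy
    rw [if_neg hyU, abs_of_pos hr] at hle
    rw [dist_comm x y]; exact hle

/-- **upper bound** of the distance by the planar distance -/
theorem upperZ {σ : ℝ → ℝ} (hσ : ∀ p, HasDerivAt σ (D.A p) p) {κ ρ : ℝ} (c : ℝ)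
    {T : Set (ℝ × ℝ)} (hT : IsCompact T) (hTK : T ⊆ D.rect) (hT0 : ∀ x ∈ T, 0 < x.1)
    (hR : ∀ x ∈ T, D.R x.1 = κ * σ x.1 + ρ)
    (hinj : InjOn (fun x : ℝ × ℝ => ZZ κ ρ c (σ x.1) x.2) T)
    (x y : D.RPt) (hx : x.val ∈ T) (hy : y.val ∈ T)
    (hseg : segment ℝ (ZZ κ ρ c (σ x.val.1) x.val.2) (ZZ κ ρ c (σ y.val.1) y.val.2) ⊆
      (fun x : ℝ × ℝ => ZZ κ ρ c (σ x.1) x.2) '' T) :
    dist x y ≤ ‖ZZ κ ρ c (σ x.val.1) x.val.2 - ZZ κ ρ c (σ y.val.1) y.val.2‖ := by
  classical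
  set φ : ℝ × ℝ → ℂ := fun x => ZZ κ ρ c (σ x.1) x.2 with hφ
  have hφc : Continuous φ := continuous_iff_continuousAt.2 fun q =>
    (hasStrictFDerivAt_ZZ hσ D.cont_A κ ρ c q).continuousAt
  have hxφ : ZZ κ ρ c (σ x.val.1) x.val.2 = φ x.val := rfl
  have hyφ : ZZ κ ρ c (σ y.val.1) y.val.2 = φ y.val := rfl
  rw [hxφ, hyφ] at hseg ⊢
  have hex : ∀ t ∈ Icc (0:ℝ) 1, ∃ z ∈ T, φ z = φ x.val + t • (φ y.val - φ x.val) := by
    intro t ht
    have := hseg (show φ x.val + t • (φ y.val - φ x.val) ∈ segment ℝ (φ x.val) (φ y.val) by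
      rw [segment_eq_image']; exact ⟨t, ht, rfl⟩)
    obtain ⟨z, hz, hz'⟩ := this
    exact ⟨z, hz, hz'⟩
  choose! γ hγT hγ using hex
  set h : ℝ → D.RPt := fun t => if ht : t ∈ Icc (0:ℝ) 1 then ⟨γ t, hTK (hγT t ht)⟩ else x with hh
  have hval : ∀ t ∈ Icc (0:ℝ) 1, (h t).val = γ t := by
    intro t ht; simp only [hh]; rw [dif_pos ht]
  have h0 : h 0 = x := by
    apply Pt.ext'
    rw [hval 0 (by simp)]
    apply hinj (hγT 0 (by simp)) hx
    have := hγ 0 (by simp)
    rw [zero_smul, add_zero] at this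
    exact this
  have h1 : h 1 = y := by
    apply Pt.ext'
    rw [hval 1 (by simp)]
    apply hinj (hγT 1 (by simp)) hy
    have := hγ 1 (by simp)
    rw [one_smul, add_sub_cancel] at this
    exact this
  rw [← h0, ← h1, h0, h1]
  set C := ‖φ x.val - φ y.val‖ with hC
  have hC0 : 0 ≤ C := norm_nonneg _
  have main : dist (h 0) (h 1) ≤ C := by
    apply path_lip
    intro t ht ε hε
    set q := γ t with hq
    have hqT : q ∈ T := hγT t ht
    have hqK := hTK hqT
    obtain ⟨c0, hc0, _, _, hge0⟩ := D.nms_ge (q := q.1) ⟨hT0 q hqT, hqK.1.2.trans D.top_mem.2⟩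
    have hge : ∀ u : ℝ × ℝ, c0 * ‖u‖ ≤ D.nms q.1 u := fun u => hge0 q.1 (by simpa) u
    set ε1 := min (c0 / 2) (ε * c0 / (4 * (C + 1))) with hε1
    have hε1pos : 0 < ε1 := by
      rw [hε1]; apply lt_min <;> positivity
    obtain ⟨δ1, hδ1, H1⟩ := Pt.dist_upper (D := D.nf) ⟨q, hqK⟩ hε1pos
    obtain ⟨δ2, hδ2, H2⟩ := inf_ZZ hσ D.cont_A κ ρ c q hε1pos
    obtain ⟨δ3, hδ3, H3⟩ := inj_cont hT hφc.continuousOn (q := q)
      (fun x hx hxq => by rw [hinj hx hqT hxq, dist_self]) (lt_min hδ1 hδ2)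
    refine ⟨δ3 / (C + 1), by positivity, fun u hu v hv hut hvt => ?_⟩
    have hdiff : ∀ u ∈ Icc (0:ℝ) 1, ∀ v ∈ Icc (0:ℝ) 1, ‖φ (γ u) - φ (γ v)‖ = C * |u - v| := by
      intro u hu v hv
      rw [hγ u hu, hγ v hv]
      have : φ x.val + u • (φ y.val - φ x.val) - (φ x.val + v • (φ y.val - φ x.val)) =
          (u - v) • (φ y.val - φ x.val) := by module
      rw [this, norm_smul, Real.norm_eq_abs, mul_comm, hC, norm_sub_rev]
    have hnear : ∀ u ∈ Icc (0:ℝ) 1, |u - t| < δ3 / (C + 1) → dist (γ u) q < min δ1 δ2 := by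
      intro u hu hut
      apply H3 _ (hγT u hu)
      rw [dist_eq_norm, hq, hdiff u hu t ht]
      rw [lt_div_iff₀ (by positivity)] at hut
      nlinarith [abs_nonneg (u - t)]
    have nu := hnear u hu hut
    have nv := hnear v hv hvt
    have e1 := H1 (h u) (h v) (by rw [hval u hu]; exact lt_of_lt_of_le nu (min_le_left _ _))
      (by rw [hval v hv]; exact lt_of_lt_of_le nv (min_le_left _ _))
    have e2 := H2 (γ u) (γ v) (lt_of_lt_of_le nu (min_le_right _ _))
      (lt_of_lt_of_le nv (min_le_right _ _))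
    rw [hval u hu, hval v hv] at e1
    have e3 : D.nf.N (⟨q, hqK⟩ : D.RPt).val (γ u - γ v) = D.nms q.1 (γ u - γ v) := rfl
    rw [e3] at e1
    rw [← hR q hqT] at e2
    have e4 : ‖diagC (D.A q.1) (D.R q.1) (γ u - γ v)‖ = D.nms q.1 (γ u - γ v) := rfl
    rw [e4] at e2
    have e5 : ‖ZZ κ ρ c (σ (γ u).1) (γ u).2 - ZZ κ ρ c (σ (γ v).1) (γ v).2‖ = C * |u - v| :=
      hdiff u hu v hv
    rw [e5] at e2
    have e6 := hge (γ u - γ v)
    have e7 := (abs_le.1 e2).1
    set m := ‖γ u - γ v‖ with hm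
    have hm0 : 0 ≤ m := norm_nonneg _
    have f1 : ε1 ≤ c0 / 2 := min_le_left _ _
    have f2 : ε1 ≤ ε * c0 / (4 * (C + 1)) := min_le_right _ _
    rw [le_div_iff₀ (by positivity)] at f2
    -- (c0/2) m ≤ C |u-v|
    have f3 : c0 / 2 * m ≤ C * |u - v| := by nlinarith
    -- 2 ε1 m ≤ ε |u - v|
    have f4 : 2 * ε1 * m ≤ ε * |u - v| := by
      have g1 : 4 * (C + 1) * ε1 * m ≤ ε * c0 * m := by nlinarith
      have g2 : ε * c0 * m ≤ 2 * ε * (C * |u - v|) := by nlinarith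
      have g3 : (C + 1) * (2 * ε1 * m) ≤ (C + 1) * (ε * |u - v|) := by
        have : 0 ≤ ε * |u - v| := by positivity
        nlinarith
      exact le_of_mul_le_mul_left g3 (by positivity)
    nlinarith
  rw [h0, h1] at main
  exact main

/-- **NEAR**: a small distance implies near coordinates -/
theorem near (q : D.RPt) (hq : 0 < q.val.1) {η : ℝ} (hη : 0 < η) :
    ∃ r > 0, ∀ x : D.RPt, dist x q < r → dist x.val q.val < η := by
  classical
  obtain ⟨c0, hc0, δ, hδ, hge⟩ := D.nms_ge (q := q.val.1) ⟨hq, q.mem.1.2.trans D.top_mem.2⟩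
  obtain ⟨μ, hμ0, hμη, hμδ⟩ : ∃ μ > 0, μ ≤ η ∧ μ ≤ δ :=
    ⟨min η δ, lt_min hη hδ, min_le_left _ _, min_le_right _ _⟩
  set η' := μ / 2 with hη'
  have hη'0 : 0 < η' := by rw [hη']; linarith
  have hle : η' < μ := by rw [hη']; linarith
  have hInf := Pt.infLip_trunc (D := D.nf) (ball q.val (μ))
    (fun z => c0 * ‖z.val - q.val‖) (c0 * η')
    (by
      intro p hp ε hε
      obtain ⟨δ2, hδ2, hsub⟩ := Metric.isOpen_iff.1 (isOpen_ball (x := q.val) (ε := μ)) p.val hp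
      refine ⟨δ2, hδ2, fun z w hz hw => ⟨hsub hz, hsub hw, ?_⟩⟩
      have e1 := abs_norm_sub_norm_le (z.val - q.val) (w.val - q.val)
      rw [sub_sub_sub_cancel_right] at e1
      have e2 := hge p.val.1 (by
        rw [← Real.dist_eq]
        refine lt_of_le_of_lt ?_ (lt_of_lt_of_le hp hμδ)
        rw [Prod.dist_eq]; exact le_max_left _ _) (z.val - w.val)
      rw [← mul_sub, abs_mul, abs_of_pos hc0]
      have e3 := mul_le_mul_of_nonneg_left e1 hc0.le
      have : 0 ≤ ε * ‖z.val - w.val‖ := by positivity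
      have e4 : D.nf.N p.val (z.val - w.val) = D.nms p.val.1 (z.val - w.val) := rfl
      rw [e4]
      linarith)
    (by
      intro p hp
      refine ⟨μ - η', by linarith, fun z _ hz => ?_⟩
      have hp' : μ ≤ dist p.val q.val := by simpa using hp
      have t1 := dist_triangle p.val z.val q.val
      rw [dist_comm p.val z.val] at t1
      apply mul_le_mul_of_nonneg_left _ hc0.le
      rw [← dist_eq_norm]; linarith)
  refine ⟨c0 * η', by positivity, fun x hx => ?_⟩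
  have hle2 := hInf.le_dist x q
  have hqU : q.val ∈ ball q.val (μ) := mem_ball_self hμ0
  simp only [if_pos hqU] at hle2
  rw [sub_self, norm_zero, mul_zero, min_eq_left (a := (0:ℝ)) (b := c0 * η') (by positivity),
    sub_zero] at hle2
  by_cases hxU : x.val ∈ ball q.val (μ)
  · exact lt_of_lt_of_le hxU hμη
  · rw [if_neg hxU, abs_of_nonneg (by positivity)] at hle2
    linarith

end QD
end Pool.MP8e
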