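import Mathlib
import Pool.Agent.Work.MP_8e9dbb.A.Planar

/-!
# Part A, file 7: balls in the flat part and at the pole are planar
-/

open Filter Topology Metric Set

namespace Pool.MP8e
namespace QD

theorem open_ZZ {σ A : ℝ → ℝ} (hσ : ∀ p, HasDerivAt σ (A p) p) (hA : Continuous A)
    (κ ρ c : ℝ) (q : ℝ × ℝ) (hA0 : A q.1 ≠ 0) (hr0 : κ * σ q.1 + ρ ≠ 0) {η : ℝ} (hη : 0 < η) :
    ∃ δ > 0, ∀ z : ℂ, ‖z - ZZ κ ρ c (σ q.1) q.2‖ < δ →
      ∃ x : ℝ × ℝ, dist x q < η ∧ ZZ κ ρ c (σ x.1) x.2 = z := by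
  have h := (hasStrictFDerivAt_ZZ hσ hA κ ρ c q).map_nhds_eq_of_surj (by
    rw [LinearMap.range_eq_top]
    intro z
    set e := Complex.exp ((κ * (q.2 - c) : ℝ) * Complex.I) with he
    have he0 : e ≠ 0 := Complex.exp_ne_zero _
    refine ⟨((z / e).re / A q.1, (z / e).im / (κ * σ q.1 + ρ)), ?_⟩
    simp only [ContinuousLinearMap.coe_coe, LinearMap.coe_toContinuousLinearMap',
      LinearMap.comp_apply, LinearMap.smul_apply, LinearMap.id_apply, smul_eq_mul, diagC_apply]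
    have : (⟨A q.1 * ((z / e).re / A q.1), (κ * σ q.1 + ρ) * ((z / e).im / (κ * σ q.1 + ρ))⟩ : ℂ)
        = z / e := by
      apply Complex.ext
      · simp only; field_simp
      · simp only; field_simp
    rw [this]
    field_simp)
  have h1 : (fun x : ℝ × ℝ => ZZ κ ρ c (σ x.1) x.2) '' ball q η ∈
      𝓝 (ZZ κ ρ c (σ q.1) q.2) := by
    have := image_mem_map (f := 𝓝 q) (m := fun x : ℝ × ℝ => ZZ κ ρ c (σ x.1) x.2)
      (ball_mem_nhds q hη)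
    rw [h] at this
    exact this
  obtain ⟨δ, hδ, H⟩ := Metric.mem_nhds_iff.1 h1
  refine ⟨δ, hδ, fun z hz => ?_⟩
  obtain ⟨x, hx, hxz⟩ := H (show z ∈ ball (ZZ κ ρ c (σ q.1) q.2) δ by
    rw [mem_ball, dist_eq_norm]; exact hz)
  exact ⟨x, hx, hxz⟩

variable (D : QD)

theorem strictMonoOn_of_deriv {σ : ℝ → ℝ} (hσ : ∀ p, HasDerivAt σ (D.A p) p) :
    StrictMonoOn σ (Icc 0 D.ℓ) := by
  refine strictMonoOn_of_deriv_pos (convex_Icc _ _)
    (fun p _ => (hσ p).continuousAt.continuousWithinAt) ?_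
  intro p hp
  rw [interior_Icc] at hp
  rw [(hσ p).deriv]
  exact D.posA p ⟨hp.1.le, hp.2.le⟩

/-- injectivity of planar coordinates -/
theorem inj_ZZ {σ : ℝ → ℝ} (hσ : ∀ p, HasDerivAt σ (D.A p) p) {κ ρ : ℝ} (hκ : |κ| ≤ 1) (c : ℝ)
    {T : Set (ℝ × ℝ)} (hTK : T ⊆ D.rect) (hR : ∀ x ∈ T, 0 < κ * σ x.1 + ρ) :
    InjOn (fun x : ℝ × ℝ => ZZ κ ρ c (σ x.1) x.2) T := by
  intro x hx y hy hxy
  simp only at hxy
  have h1 := norm_ZZ_sub_sq κ ρ c (σ x.1) x.2 (σ y.1) y.2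
  rw [hxy, sub_self, norm_zero] at h1
  have h2 := mul_pos (hR x hx) (hR y hy)
  have hs1 := sq_nonneg (σ x.1 - σ y.1)
  have hs2 := sq_nonneg (snk κ ((x.2 - y.2) / 2))
  have e1 : (σ x.1 - σ y.1) ^ 2 = 0 := by nlinarith
  have e2 : snk κ ((x.2 - y.2) / 2) ^ 2 = 0 := by nlinarith
  have e1' : σ x.1 = σ y.1 := by
    have := pow_eq_zero_iff (two_ne_zero) |>.1 e1; linarith
  have e2' : snk κ ((x.2 - y.2) / 2) = 0 := pow_eq_zero_iff (two_ne_zero) |>.1 e2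
  have hx2 := (hTK hx).2
  have hy2 := (hTK hy).2
  have h3 : |κ * ((x.2 - y.2) / 2)| ≤ Real.pi / 2 := by
    rw [abs_mul, abs_div, abs_two]
    have : |x.2 - y.2| ≤ Real.pi / 2 := abs_le.2 ⟨by linarith [hx2.1, hy2.2], by linarith [hx2.2, hy2.1]⟩
    have h5 := abs_nonneg (x.2 - y.2)
    have : |κ| * (|x.2 - y.2| / 2) ≤ 1 * (|x.2 - y.2| / 2) :=
      mul_le_mul_of_nonneg_right hκ (by positivity)
    linarith [Real.pi_pos]
  have h4 := abs_snk_ge h3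
  rw [e2', abs_zero] at h4
  have h5 : |(x.2 - y.2) / 2| ≤ 0 := by
    have : 0 < 2 / Real.pi := by positivity
    by_contra hcon
    push Not at hcon
    have := mul_pos this hcon
    linarith
  have h6 : x.2 = y.2 := by
    have := abs_nonpos_iff.1 h5; linarith
  have hI : ∀ {z : ℝ × ℝ}, z ∈ T → z.1 ∈ Icc 0 D.ℓ := fun hz =>
    ⟨(hTK hz).1.1, (hTK hz).1.2.trans D.top_mem.2⟩
  exact Prod.ext ((D.strictMonoOn_of_deriv hσ).injOn (hI hx) (hI hy) e1') h6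

/-- the flat part of the quarter domain -/
def Tf : Set (ℝ × ℝ) := {x | x ∈ D.rect ∧ D.pf ≤ x.1 ∧ x.1 ≤ D.β x.2}

theorem isCompact_E : IsCompact {x : ℝ × ℝ | x ∈ D.rect ∧ x.1 ≤ D.β x.2} := by
  have hrect : IsCompact D.rect := isCompact_Icc.prod isCompact_Icc
  have hc : ContinuousOn (fun x : ℝ × ℝ => D.β x.2 - x.1) D.rect :=
    (D.cont_β.comp continuous_snd.continuousOn (fun x hx => hx.2)).sub continuous_fst.continuousOn
  have := hc.preimage_isClosed_of_isClosed hrect.isClosed (isClosed_Ici (a := (0:ℝ)))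
  refine hrect.of_isClosed_subset ?_ (fun x hx => hx.1)
  convert this using 1
  ext x
  simp only [mem_inter_iff, mem_preimage, mem_Ici, sub_nonneg]
  rfl

theorem isCompact_Tf : IsCompact D.Tf := by
  have : D.Tf = {x : ℝ × ℝ | x ∈ D.rect ∧ x.1 ≤ D.β x.2} ∩ {x | D.pf ≤ x.1} := by
    ext x; exact ⟨fun h => ⟨⟨h.1, h.2.2⟩, h.2.1⟩, fun h => ⟨h.1.1, h.2, h.1.2⟩⟩
  rw [this]
  exact D.isCompact_E.inter_right (isClosed_le continuous_const continuous_fst)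

theorem Tf_R {x : ℝ × ℝ} (hx : x ∈ D.Tf) : D.R x.1 = D.κ * D.σ x.1 + D.ρf :=
  D.R_flat ⟨hx.2.1, hx.1.1.2.trans D.top_mem.2⟩

theorem Tf_pos {x : ℝ × ℝ} (hx : x ∈ D.Tf) : 0 < D.κ * D.σ x.1 + D.ρf := by
  rw [← D.Tf_R hx]
  exact D.posR _ ⟨D.pf_pos.trans_le hx.2.1, hx.1.1.2.trans D.top_mem.2⟩

theorem inj_Tf (c : ℝ) : InjOn (fun x : ℝ × ℝ => D.Z c x.1 x.2) D.Tf :=
  D.inj_ZZ D.hasDerivAt_σ D.abs_κ_le c (fun _ hx => hx.1) (fun _ hx => D.Tf_pos hx)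

/-- the change of coordinates from `Z θf` to `Z c` -/
noncomputable def tau (c : ℝ) (z : ℂ) : ℂ :=
  z * Complex.exp ((D.κ * (D.θf - c) : ℝ) * Complex.I) + D.ρf * cdev D.κ (D.θf - c)

theorem tau_Z (c p θ : ℝ) : D.tau c (D.Z D.θf p θ) = D.Z c p θ := (D.Z_shift c D.θf p θ).symm

theorem norm_tau_sub (c : ℝ) (z w : ℂ) : ‖D.tau c z - D.tau c w‖ = ‖z - w‖ := by
  unfold tau
  rw [add_sub_add_right_eq_sub, ← sub_mul, norm_mul, Complex.norm_exp_ofReal_mul_I, mul_one]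

theorem tau_comb (c : ℝ) (z w : ℂ) (a b : ℝ) (hab : a + b = 1) :
    D.tau c (a • z + b • w) = a • D.tau c z + b • D.tau c w := by
  unfold tau
  simp only [Complex.real_smul]
  have hb : b = 1 - a := by linarith
  rw [hb]; push_cast; ring

/-- the three half planes -/
def WW : Set ℂ := {z | z.re ≤ 0 ∧ 0 ≤ (D.tau 0 z).im ∧ (D.tau (Real.pi / 2) z).im ≤ 0}

theorem convex_WW : Convex ℝ D.WW := by
  intro z hz w hw a b ha hb hab
  refine ⟨?_, ?_, ?_⟩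
  · have := add_nonpos (mul_nonpos_of_nonneg_of_nonpos ha hz.1) (mul_nonpos_of_nonneg_of_nonpos hb hw.1)
    simpa using this
  · rw [D.tau_comb 0 z w a b hab]
    have := add_nonneg (mul_nonneg ha hz.2.1) (mul_nonneg hb hw.2.1)
    simpa using this
  · rw [D.tau_comb _ z w a b hab]
    have := add_nonpos (mul_nonpos_of_nonneg_of_nonpos ha hz.2.2) (mul_nonpos_of_nonneg_of_nonpos hb hw.2.2)
    simpa using this

theorem snk_nonneg {κ θ : ℝ} (h : |κ * θ| < Real.pi) (hθ : 0 ≤ θ) : 0 ≤ snk κ θ := by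
  rcases eq_or_lt_of_le hθ with h0 | h0
  · rw [← h0]; simp
  · exact (snk_pos h h0).le

theorem snk_nonpos {κ θ : ℝ} (h : |κ * θ| < Real.pi) (hθ : θ ≤ 0) : snk κ θ ≤ 0 := by
  have := snk_nonneg (κ := κ) (θ := -θ) (by rwa [mul_neg, abs_neg]) (by linarith)
  rw [snk_neg] at this; linarith

theorem snk_neg' {κ θ : ℝ} (h : |κ * θ| < Real.pi) (hθ : θ < 0) : snk κ θ < 0 := by
  have := snk_pos (κ := κ) (θ := -θ) (by rwa [mul_neg, abs_neg]) (by linarith)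
  rw [snk_neg] at this; linarith

theorem Tf_WW {x : ℝ × ℝ} (hx : x ∈ D.Tf) : D.Z D.θf x.1 x.2 ∈ D.WW := by
  have hpos := D.Tf_pos hx
  have hx2 := hx.1.2
  refine ⟨?_, ?_, ?_⟩
  · obtain ⟨δ, hδ, H⟩ := D.Z_re_iff
    refine ((H x.2 hx2 x.1 ⟨?_, ?_⟩).1).2 hx.2.2
    · linarith [hx.1.1.1]
    · linarith [hx.1.1.2, D.top_mem.2]
  · rw [tau_Z, Z_im, sub_zero]
    apply mul_nonneg hpos.le (snk_nonneg _ hx2.1)
    have := D.abs_κ_mul_sub hx2 zero_mem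
    rw [sub_zero] at this
    linarith [Real.pi_pos]
  · rw [tau_Z, Z_im]
    apply mul_nonpos_of_nonneg_of_nonpos hpos.le (snk_nonpos _ (by linarith [hx2.2]))
    have := D.abs_κ_mul_sub hx2 half_pi_mem
    linarith [Real.pi_pos]

/-- near a point of the flat part, the half planes describe the quarter domain -/
theorem WW_Tf {q : ℝ × ℝ} (hq : q ∈ D.Tf) (hq1 : D.pf < q.1) : ∃ η > 0, ∀ x : ℝ × ℝ,
    dist x q < η → D.Z D.θf x.1 x.2 ∈ D.WW → x ∈ D.Tf := by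
  obtain ⟨δ, hδ, H⟩ := D.Z_re_iff
  have hq2 := hq.1.2
  have hπ := Real.pi_pos
  have hopen : IsOpen {x : ℝ × ℝ | D.pf < x.1 ∧ x.1 < D.ℓ + δ ∧ 0 < D.κ * D.σ x.1 + D.ρf ∧
      |D.κ * x.2| < Real.pi ∧ |D.κ * (x.2 - Real.pi / 2)| < Real.pi} := by
    have hσc := D.cont_σ
    refine (isOpen_lt continuous_const continuous_fst).and
      ((isOpen_lt continuous_fst continuous_const).and
      ((isOpen_lt continuous_const ?_).and
      ((isOpen_lt ?_ continuous_const).and (isOpen_lt ?_ continuous_const))))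
    · exact (continuous_const.mul (hσc.comp continuous_fst)).add continuous_const
    · exact (continuous_const.mul continuous_snd).abs
    · exact (continuous_const.mul (continuous_snd.sub continuous_const)).abs
  obtain ⟨η, hη, hsub⟩ := Metric.isOpen_iff.1 hopen q (by
    refine ⟨hq1, ?_, D.Tf_pos hq, ?_, ?_⟩
    · linarith [hq.1.1.2, D.top_mem.2]
    · have := D.abs_κ_mul_sub hq2 zero_mem
      rw [sub_zero] at this
      linarith
    · have := D.abs_κ_mul_sub hq2 half_pi_mem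
      linarith)
  refine ⟨η, hη, fun x hx hW => ?_⟩
  obtain ⟨h1, h2, h3, h4, h5⟩ := hsub hx
  have hθ0 : 0 ≤ x.2 := by
    by_contra hcon
    push Not at hcon
    have hW2 := hW.2.1
    rw [tau_Z, Z_im, sub_zero] at hW2
    have := snk_neg' h4 hcon
    have := mul_neg_of_pos_of_neg h3 this
    linarith
  have hθ1 : x.2 ≤ Real.pi / 2 := by
    by_contra hcon
    push Not at hcon
    have hW2 := hW.2.2
    rw [tau_Z, Z_im] at hW2
    have := snk_pos h5 (by linarith : 0 < x.2 - Real.pi / 2)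
    have := mul_pos h3 this
    linarith
  have hle := ((H x.2 ⟨hθ0, hθ1⟩ x.1 ⟨by linarith [D.pf_pos], h2⟩).1).1 hW.1
  exact ⟨⟨⟨by linarith [D.pf_pos], hle.trans (D.β_le_top ⟨hθ0, hθ1⟩)⟩, ⟨hθ0, hθ1⟩⟩, h1.le, hle⟩

variable {D}

theorem EPt.mem_Tf (x : D.EPt) (h : D.pf ≤ x.c.1) : x.c ∈ D.Tf := ⟨x.1.mem, h, x.c_le⟩

/-- the point of the quarter domain with given coordinates in `Tf` -/
noncomputable def EPt.ofTf (x : ℝ × ℝ) (hx : x ∈ D.Tf) : D.EPt :=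
  ⟨⟨x, hx.1⟩, hx.2.2⟩

@[simp] theorem EPt.ofTf_c (x : ℝ × ℝ) (hx : x ∈ D.Tf) : (EPt.ofTf x hx : D.EPt).c = x := rfl

/-- **planar balls in the flat part** -/
theorem flat_ball (q : D.EPt) (hq : D.pf < q.c.1) : ∃ r₀ > 0,
    (∀ x ∈ ball q r₀, D.pf < x.c.1) ∧
    (∀ x ∈ ball q r₀, ∀ y ∈ ball q r₀,
      dist x y = ‖D.Z D.θf x.c.1 x.c.2 - D.Z D.θf y.c.1 y.c.2‖) ∧
    (∀ z ∈ D.WW, ‖z - D.Z D.θf q.c.1 q.c.2‖ < r₀ → ∃ x ∈ ball q r₀,
      D.Z D.θf x.c.1 x.c.2 = z) := by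
  have hqT := q.mem_Tf hq.le
  obtain ⟨η, hη, hW⟩ := D.WW_Tf hqT hq
  obtain ⟨δ1, hδ1, hopen⟩ := open_ZZ D.hasDerivAt_σ D.cont_A D.κ D.ρf D.θf q.c
    (D.posA _ ⟨q.c1.1, q.c1.2.trans D.top_mem.2⟩).ne' (D.Tf_pos hqT).ne' hη
  have hmono := D.σ_strictMonoOn'
  have hpfI : D.pf ∈ Icc 0 D.ℓ := ⟨D.pf_pos.le, D.pf_lt_ℓ.le⟩
  have hI : ∀ {p : ℝ}, p ∈ Icc 0 D.top → p ∈ Icc 0 D.ℓ := fun hp =>
    ⟨hp.1, hp.2.trans D.top_mem.2⟩
  have hg : 0 < D.σ q.c.1 - D.σ D.pf := by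
    have := hmono hpfI (hI q.c1) hq; linarith
  set g := (D.σ q.c.1 - D.σ D.pf) / 4 with hgdef
  have hg0 : 0 < g := by rw [hgdef]; linarith
  set r₀ := min δ1 g with hr₀
  have hr0 : 0 < r₀ := lt_min hδ1 hg0
  -- lower bound around a point x with σ x close to σ q
  have hR : ∀ p ∈ Ioi D.pf, p ∈ Icc 0 D.top → D.R p = D.κ * D.σ p + D.ρf := fun p hp hp' =>
    D.R_flat ⟨(le_of_lt hp), (hI hp').2⟩
  have lower : ∀ x : D.EPt, D.pf < x.c.1 → D.σ q.c.1 - g ≤ D.σ x.c.1 → ∀ y : D.EPt,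
      (D.pf < y.c.1 → min ‖D.Z D.θf x.c.1 x.c.2 - D.Z D.θf y.c.1 y.c.2‖ (2 * g) ≤ dist x y) ∧
      (¬ D.pf < y.c.1 → 2 * g ≤ dist x y) := by
    intro x hx hxσ y
    have := D.lowerZ D.hasDerivAt_σ D.θf isOpen_Ioi hR (r := 2 * g) (by positivity) x.1 hx
      (by
        intro p hp hpO
        have hp1 : p ≤ D.pf := not_lt.1 hpO
        have h1 : D.σ p ≤ D.σ D.pf := hmono.monotoneOn (hI hp) hpfI hp1
        have hxσ' : D.σ q.c.1 - g ≤ D.σ x.1.val.1 := hxσ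
        rw [abs_of_nonpos (by linarith)]
        linarith) y.1
    exact this
  have nearq : ∀ x ∈ ball q r₀, D.pf < x.c.1 ∧
      ‖D.Z D.θf x.c.1 x.c.2 - D.Z D.θf q.c.1 q.c.2‖ < r₀ := by
    intro x hx
    rw [mem_ball, dist_comm] at hx
    have hx2 : r₀ ≤ g := min_le_right _ _
    obtain ⟨h1, h2⟩ := lower q hq (by linarith) x
    by_cases hxp : D.pf < x.c.1
    · refine ⟨hxp, ?_⟩
      have := h1 hxp
      rw [norm_sub_rev]
      rcases min_cases ‖D.Z D.θf q.c.1 q.c.2 - D.Z D.θf x.c.1 x.c.2‖ (2 * g) with ⟨e, _⟩ | ⟨e, _⟩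
      · rw [e] at this; linarith
      · rw [e] at this; linarith
    · have := h2 hxp; linarith
  have hseg : ∀ z ∈ D.WW, ‖z - D.Z D.θf q.c.1 q.c.2‖ < r₀ → ∃ x ∈ D.Tf, D.Z D.θf x.1 x.2 = z := by
    intro z hz hzq
    obtain ⟨x, hx, hxz⟩ := hopen z (lt_of_lt_of_le hzq (min_le_left _ _))
    exact ⟨x, hW x hx (by rw [Z_eq_ZZ, hxz]; exact hz), hxz⟩
  have upper : ∀ x y : D.EPt, D.pf < x.c.1 → D.pf < y.c.1 →
      ‖D.Z D.θf x.c.1 x.c.2 - D.Z D.θf q.c.1 q.c.2‖ < r₀ →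
      ‖D.Z D.θf y.c.1 y.c.2 - D.Z D.θf q.c.1 q.c.2‖ < r₀ →
      dist x y ≤ ‖D.Z D.θf x.c.1 x.c.2 - D.Z D.θf y.c.1 y.c.2‖ := by
    intro x y hx hy hxq hyq
    have hxT := x.mem_Tf hx.le
    have hyT := y.mem_Tf hy.le
    refine D.upperZ D.hasDerivAt_σ D.θf D.isCompact_Tf (fun _ hx => hx.1)
      (fun x hx => D.pf_pos.trans_le hx.2.1) (fun x hx => D.Tf_R hx) (D.inj_Tf D.θf) x.1 y.1 hxT hyT ?_
    intro z hz
    have hzW : z ∈ D.WW := D.convex_WW.segment_subset (D.Tf_WW hxT) (D.Tf_WW hyT) hz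
    have hzb : z ∈ ball (D.Z D.θf q.c.1 q.c.2) r₀ :=
      (convex_ball _ _).segment_subset (by rw [mem_ball, dist_eq_norm]; exact hxq)
        (by rw [mem_ball, dist_eq_norm]; exact hyq) hz
    rw [mem_ball, dist_eq_norm] at hzb
    obtain ⟨w, hw, hwz⟩ := hseg z hzW hzb
    exact ⟨w, hw, hwz⟩
  refine ⟨r₀, hr0, fun x hx => (nearq x hx).1, ?_, ?_⟩
  · intro x hx y hy
    obtain ⟨hx1, hx2⟩ := nearq x hx
    obtain ⟨hy1, hy2⟩ := nearq y hy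
    refine le_antisymm (upper x y hx1 hy1 hx2 hy2) ?_
    have hxσ : D.σ q.c.1 - g ≤ D.σ x.c.1 := by
      have h1 := abs_sub_le_norm_ZZ (κ := D.κ) (ρ := D.ρf) (c := D.θf) (s := D.σ x.c.1)
        (θ := x.c.2) (s' := D.σ q.c.1) (θ' := q.c.2) (D.Tf_pos (x.mem_Tf hx1.le)).le
        (D.Tf_pos hqT).le
      have h2 : |D.σ x.c.1 - D.σ q.c.1| < g := by
        refine lt_of_le_of_lt h1 (lt_of_lt_of_le hx2 (min_le_right _ _))
      linarith [(abs_lt.1 h2).1]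
    have h3 := (lower x hx1 hxσ y).1 hy1
    have h4 : ‖D.Z D.θf x.c.1 x.c.2 - D.Z D.θf y.c.1 y.c.2‖ < 2 * g := by
      have e1 := norm_sub_le_norm_sub_add_norm_sub (D.Z D.θf x.c.1 x.c.2)
        (D.Z D.θf q.c.1 q.c.2) (D.Z D.θf y.c.1 y.c.2)
      rw [norm_sub_rev (D.Z D.θf q.c.1 q.c.2)] at e1
      have e2 : r₀ ≤ g := min_le_right _ _
      linarith
    rwa [min_eq_left h4.le] at h3
  · intro z hz hzq
    obtain ⟨x, hxT, hxz⟩ := hseg z hz hzq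
    -- p > pf because σ is close to σ q
    have hxp : D.pf < x.1 := by
      rcases lt_or_eq_of_le hxT.2.1 with h | h
      · exact h
      · exfalso
        have h1 := abs_sub_le_norm_ZZ (κ := D.κ) (ρ := D.ρf) (c := D.θf) (s := D.σ x.1)
          (θ := x.2) (s' := D.σ q.c.1) (θ' := q.c.2) (D.Tf_pos hxT).le (D.Tf_pos hqT).le
        have h2 : |D.σ x.1 - D.σ q.c.1| < g := by
          have e3 : ‖D.Z D.θf x.1 x.2 - D.Z D.θf q.c.1 q.c.2‖ < r₀ := by rw [hxz]; exact hzq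
          exact lt_of_le_of_lt h1 (lt_of_lt_of_le e3 (min_le_right _ _))
        rw [← h] at h2
        have := (abs_lt.1 h2).1
        linarith
    refine ⟨EPt.ofTf x hxT, ?_, by simpa using hxz⟩
    rw [mem_ball]
    have := upper (EPt.ofTf x hxT) q (by simpa using hxp) hq (by simp [hxz, hzq]) (by simpa using hr0)
    refine lt_of_le_of_lt this ?_
    simp [hxz, hzq]

end QD
end Pool.MP8e
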