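import Mathlib
import Pool.Agent.Work.MP_8e9dbb.A.Flat

/-!
# Part A, file 8: the ball at the pole `P` is a sector
-/

open Filter Topology Metric Set

namespace Pool.MP8e

theorem ZZ_zero (κ s θ : ℝ) : QD.ZZ κ 0 0 s θ = pol s (κ * θ) := by
  unfold QD.ZZ pol
  rw [sub_zero, exp_eq]
  apply Complex.ext <;> simp

theorem mul_exp_neg_im (z : ℂ) (α : ℝ) :
    (z * Complex.exp (((-α : ℝ) : ℂ) * Complex.I)).im = ‖z‖ * Real.sin (Complex.arg z - α) := by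
  have h4 := Complex.norm_mul_cos_arg z
  have h5 := Complex.norm_mul_sin_arg z
  rw [Complex.mul_im, Complex.exp_ofReal_mul_I_re, Complex.exp_ofReal_mul_I_im, Real.cos_neg,
    Real.sin_neg, Real.sin_sub, ← h4, ← h5]
  ring

theorem norm_pol_arg (z : ℂ) : z = pol ‖z‖ (Complex.arg z) := by
  apply Complex.ext
  · simp [pol, Complex.norm_mul_cos_arg]
  · simp [pol, Complex.norm_mul_sin_arg]

/-- polar coordinates in a sector of angle `< π/2` -/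
theorem exists_pol {α : ℝ} (hα0 : 0 ≤ α) (hα : α < Real.pi / 2) (z : ℂ) (h1 : 0 < z.re)
    (h2 : 0 ≤ z.im) (h3 : (z * Complex.exp (((-α : ℝ) : ℂ) * Complex.I)).im ≤ 0) :
    ∃ φ, 0 ≤ φ ∧ φ ≤ α ∧ z = pol ‖z‖ φ := by
  have hz : z ≠ 0 := by rintro rfl; simp at h1
  refine ⟨Complex.arg z, Complex.arg_nonneg_iff.2 h2, ?_, norm_pol_arg z⟩
  by_contra hcon
  push Not at hcon
  have hlt : Complex.arg z < Real.pi / 2 := by
    have := Complex.abs_arg_lt_pi_div_two_iff.2 (Or.inl h1)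
    exact (abs_lt.1 this).2
  have hge : 0 ≤ Complex.arg z := Complex.arg_nonneg_iff.2 h2
  have hn : 0 < ‖z‖ := norm_pos_iff.2 hz
  have hs : 0 < Real.sin (Complex.arg z - α) := by
    apply Real.sin_pos_of_pos_of_lt_pi <;> linarith [Real.pi_pos]
  rw [mul_exp_neg_im] at h3
  have := mul_pos hn hs
  linarith

theorem pol_mul_exp (s φ α : ℝ) :
    (pol s φ * Complex.exp (((-α : ℝ) : ℂ) * Complex.I)).im = s * Real.sin (φ - α) := by
  rw [Complex.mul_im, Complex.exp_ofReal_mul_I_re, Complex.exp_ofReal_mul_I_im, Real.cos_neg,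
    Real.sin_neg, Real.sin_sub]
  simp only [pol]
  ring

namespace QD

variable (D : QD)

/-- arc length from the pole -/
noncomputable def sP (p : ℝ) : ℝ := ∫ u in (0:ℝ)..p, D.A u

theorem hasDerivAt_sP (p : ℝ) : HasDerivAt D.sP (D.A p) p := by
  unfold sP
  exact intervalIntegral.integral_hasDerivAt_right (D.cont_A.intervalIntegrable _ _)
    (D.cont_A.stronglyMeasurableAtFilter _ _) D.cont_A.continuousAt

theorem cont_sP : Continuous D.sP :=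
  continuous_iff_continuousAt.2 fun p => (D.hasDerivAt_sP p).continuousAt

theorem sP_zero : D.sP 0 = 0 := by unfold sP; simp

theorem sP_strictMonoOn : StrictMonoOn D.sP (Icc 0 D.ℓ) := D.strictMonoOn_of_deriv D.hasDerivAt_sP

theorem e₀_lt_ℓ : D.e₀ < D.ℓ := D.e₀_lt.trans D.pf_lt_ℓ

theorem e₀_lt_top : D.e₀ < D.top := D.e₀_lt.trans_le D.top_mem.1

/-- `R = kN s` near the pole -/
theorem R_cone {p : ℝ} (hp : p ∈ Icc 0 D.e₀) : D.R p = D.kN * D.sP p + 0 := by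
  have hd : ∀ x ∈ Icc 0 D.e₀, HasDerivWithinAt (fun p => D.R p - D.kN * D.sP p) 0 (Icc 0 D.e₀) x := by
    intro x hx
    have h1 := (D.hasDerivAt_R x).sub ((D.hasDerivAt_sP x).const_mul D.kN)
    rw [D.cone0 x hx, sub_self] at h1
    exact h1.hasDerivWithinAt
  have := (convex_Icc 0 D.e₀).norm_image_sub_le_of_norm_hasDerivWithin_le (C := 0)
      (f' := fun _ => 0) hd (by simp) (⟨le_refl _, D.e₀_pos.le⟩ : (0:ℝ) ∈ Icc 0 D.e₀) hp
  simp only [zero_mul, norm_le_zero_iff] at this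
  rw [D.R0, D.sP_zero] at this
  linarith

/-- planar coordinates at the pole -/
noncomputable def ZP (x : ℝ × ℝ) : ℂ := ZZ D.kN 0 0 (D.sP x.1) x.2

theorem ZP_eq (x : ℝ × ℝ) : D.ZP x = pol (D.sP x.1) (D.kN * x.2) := ZZ_zero _ _ _

theorem sP_nonneg {p : ℝ} (hp : p ∈ Icc 0 D.ℓ) : 0 ≤ D.sP p := by
  have := D.sP_strictMonoOn.monotoneOn (⟨le_refl _, hp.1.trans hp.2⟩ : (0:ℝ) ∈ Icc 0 D.ℓ) hp hp.1
  rwa [D.sP_zero] at this

theorem norm_ZP {x : ℝ × ℝ} (h : x.1 ∈ Icc 0 D.ℓ) : ‖D.ZP x‖ = D.sP x.1 := by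
  rw [ZP_eq, norm_pol (D.sP_nonneg h)]

/-- the angle of the quarter domain at the pole -/
noncomputable def αP : ℝ := D.kN * (Real.pi / 2)

theorem αP_pos : 0 < D.αP := mul_pos D.kN_pos (by positivity)

theorem αP_lt : D.αP < Real.pi / 2 := by
  unfold αP; nlinarith [D.kN_lt, Real.pi_pos]

theorem kN_mul_mem {θ : ℝ} (h : θ ∈ Icc 0 (Real.pi / 2)) : 0 ≤ D.kN * θ ∧ D.kN * θ ≤ D.αP :=
  ⟨mul_nonneg D.kN_pos.le h.1, mul_le_mul_of_nonneg_left h.2 D.kN_pos.le⟩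

variable {D}

/-- points at height `0` are at distance `0` -/
theorem dist_pole (x y : D.EPt) (hx : x.c.1 = 0) (hy : y.c.1 = 0) : dist x y = 0 := by
  refine le_antisymm ?_ dist_nonneg
  refine Pt.dist_le_seg (x := x.1) (y := y.1) fun z hz => ?_
  have hz1 : z.1 = 0 := by
    have h1 : z.1 ∈ segment ℝ x.1.val.1 y.1.val.1 := by
      obtain ⟨a, b, ha, hb, hab, rfl⟩ := hz
      exact ⟨a, b, ha, hb, hab, rfl⟩
    have hx' : x.1.val.1 = 0 := hx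
    have hy' : y.1.val.1 = 0 := hy
    rw [hx', hy', segment_same] at h1
    exact h1
  change D.nms z.1 (x.1.val - y.1.val) ≤ 0
  rw [nms_apply, diagC_apply, hz1, D.R0]
  have hx' : x.1.val.1 = 0 := hx
  have hy' : y.1.val.1 = 0 := hy
  rw [Prod.fst_sub, hx', hy', sub_self, mul_zero, zero_mul, norm_mk]
  simp

/-- upper bound near the pole, away from the pole -/
theorem upperP' (x y : D.EPt) (hx : x.c.1 ∈ Ioc 0 D.e₀) (hy : y.c.1 ∈ Ioc 0 D.e₀) :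
    dist x y ≤ ‖D.ZP x.c - D.ZP y.c‖ := by
  have hmono := D.sP_strictMonoOn
  have hI : ∀ {p : ℝ}, p ∈ Icc 0 D.e₀ → p ∈ Icc 0 D.ℓ := fun hp =>
    ⟨hp.1, hp.2.trans D.e₀_lt_ℓ.le⟩
  have h0I : (0:ℝ) ∈ Icc 0 D.ℓ := ⟨le_refl _, D.e₀_pos.le.trans D.e₀_lt_ℓ.le⟩
  have hsx : 0 < D.sP x.c.1 := by
    have := hmono h0I (hI ⟨hx.1.le, hx.2⟩) hx.1; rwa [D.sP_zero] at this
  have hsy : 0 < D.sP y.c.1 := by
    have := hmono h0I (hI ⟨hy.1.le, hy.2⟩) hy.1; rwa [D.sP_zero] at this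
  have hcos : 0 < Real.cos D.αP :=
    Real.cos_pos_of_mem_Ioo ⟨by linarith [D.αP_pos, Real.pi_pos], D.αP_lt⟩
  set m := min (D.sP x.c.1) (D.sP y.c.1) * Real.cos D.αP with hm
  have hm0 : 0 < m := mul_pos (lt_min hsx hsy) hcos
  set T : Set (ℝ × ℝ) := {z | z ∈ D.rect ∧ m ≤ D.sP z.1 ∧ z.1 ≤ D.e₀} with hT
  have hrect : IsCompact D.rect := isCompact_Icc.prod isCompact_Icc
  have hTc : IsCompact T := by
    have : T = D.rect ∩ {z | m ≤ D.sP z.1 ∧ z.1 ≤ D.e₀} := rfl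
    rw [this]
    exact hrect.inter_right ((isClosed_le continuous_const (D.cont_sP.comp continuous_fst)).inter
      (isClosed_le continuous_fst continuous_const))
  have hT0 : ∀ z ∈ T, 0 < z.1 := by
    intro z hz
    rcases eq_or_lt_of_le hz.1.1.1 with h | h
    · have h2 := hz.2.1
      rw [← h, D.sP_zero] at h2
      linarith
    · exact h
  have hRT : ∀ z ∈ T, D.R z.1 = D.kN * D.sP z.1 + 0 := fun z hz => D.R_cone ⟨hz.1.1.1, hz.2.2⟩
  have hinj : InjOn (fun x : ℝ × ℝ => ZZ D.kN 0 0 (D.sP x.1) x.2) T :=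
    D.inj_ZZ D.hasDerivAt_sP (by rw [abs_of_pos D.kN_pos]; exact D.kN_lt.le) 0 (fun _ hx => hx.1)
      (fun z hz => by
        rw [add_zero]; exact mul_pos D.kN_pos (hm0.trans_le hz.2.1))
  have key : ∀ z : D.EPt, z.c.1 ∈ Ioc 0 D.e₀ → m ≤ D.sP z.c.1 * Real.cos D.αP → z.c ∈ T := by
    intro z hz hmz
    refine ⟨z.1.mem, ?_, hz.2⟩
    have h1 := D.sP_nonneg (hI ⟨hz.1.le, hz.2⟩)
    nlinarith [Real.cos_le_one D.αP]
  have hxm : m ≤ D.sP x.c.1 * Real.cos D.αP := mul_le_mul_of_nonneg_right (min_le_left _ _) hcos.le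
  have hym : m ≤ D.sP y.c.1 * Real.cos D.αP := mul_le_mul_of_nonneg_right (min_le_right _ _) hcos.le
  refine D.upperZ D.hasDerivAt_sP 0 hTc (fun _ hx => hx.1) hT0 hRT hinj x.1 y.1 (key x hx hxm)
    (key y hy hym) ?_
  -- the convex set
  set S : Set ℂ := {z | m ≤ z.re ∧ 0 ≤ z.im ∧
    (z * Complex.exp (((-D.αP : ℝ) : ℂ) * Complex.I)).im ≤ 0 ∧ ‖z‖ ≤ D.sP D.e₀} with hS
  have hSconv : Convex ℝ S := by
    intro z hz w hw a b ha hb hab
    refine ⟨?_, ?_, ?_, ?_⟩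
    · have e1 := mul_le_mul_of_nonneg_left hz.1 ha
      have e2 := mul_le_mul_of_nonneg_left hw.1 hb
      have : (a • z + b • w).re = a * z.re + b * w.re := by simp
      rw [this]
      have : m = a * m + b * m := by rw [← add_mul, hab, one_mul]
      linarith
    · have e1 := mul_nonneg ha hz.2.1
      have e2 := mul_nonneg hb hw.2.1
      have : (a • z + b • w).im = a * z.im + b * w.im := by simp
      rw [this]; linarith
    · have e1 := mul_nonpos_of_nonneg_of_nonpos ha hz.2.2.1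
      have e2 := mul_nonpos_of_nonneg_of_nonpos hb hw.2.2.1
      have : ((a • z + b • w) * Complex.exp (((-D.αP : ℝ) : ℂ) * Complex.I)).im =
          a * (z * Complex.exp (((-D.αP : ℝ) : ℂ) * Complex.I)).im +
          b * (w * Complex.exp (((-D.αP : ℝ) : ℂ) * Complex.I)).im := by
        rw [add_mul, smul_mul_assoc, smul_mul_assoc]; simp
      rw [this]; linarith
    · have := (convex_closedBall (0:ℂ) (D.sP D.e₀)) (x := z) (by simpa using hz.2.2.2)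
        (y := w) (by simpa using hw.2.2.2) ha hb hab
      simpa using this
  have hmemS : ∀ z : D.EPt, z.c.1 ∈ Ioc 0 D.e₀ → m ≤ D.sP z.c.1 * Real.cos D.αP → D.ZP z.c ∈ S := by
    intro z hz hmz
    have h1 := D.sP_nonneg (hI ⟨hz.1.le, hz.2⟩)
    obtain ⟨h2, h3⟩ := D.kN_mul_mem z.c2
    have h4 : Real.cos D.αP ≤ Real.cos (D.kN * z.c.2) :=
      Real.cos_le_cos_of_nonneg_of_le_pi h2 (by linarith [D.αP_lt, Real.pi_pos]) h3
    refine ⟨?_, ?_, ?_, ?_⟩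
    · rw [ZP_eq]
      have := mul_le_mul_of_nonneg_left h4 h1
      simp only [pol]; linarith
    · rw [ZP_eq]
      simp only [pol]
      exact mul_nonneg h1 (Real.sin_nonneg_of_nonneg_of_le_pi h2 (by linarith [D.αP_lt, Real.pi_pos]))
    · rw [ZP_eq, pol_mul_exp]
      apply mul_nonpos_of_nonneg_of_nonpos h1
      apply Real.sin_nonpos_of_nonpos_of_neg_pi_le (by linarith)
      linarith [D.αP_lt, Real.pi_pos]
    · rw [D.norm_ZP (hI ⟨hz.1.le, hz.2⟩)]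
      exact hmono.monotoneOn (hI ⟨hz.1.le, hz.2⟩) (hI ⟨D.e₀_pos.le, le_refl _⟩) hz.2
  intro z hz
  have hzS : z ∈ S := hSconv.segment_subset (hmemS x hx hxm) (hmemS y hy hym) hz
  obtain ⟨φ, hφ0, hφ1, hφ⟩ := exists_pol D.αP_pos.le D.αP_lt z (hm0.trans_le hzS.1) hzS.2.1 hzS.2.2.1
  have hzm : m ≤ ‖z‖ := hzS.1.trans (Complex.re_le_norm z)
  obtain ⟨p, hp, hps⟩ := intermediate_value_Icc D.e₀_pos.le D.cont_sP.continuousOn
    (show ‖z‖ ∈ Icc (D.sP 0) (D.sP D.e₀) by rw [D.sP_zero]; exact ⟨norm_nonneg _, hzS.2.2.2⟩)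
  refine ⟨(p, φ / D.kN), ⟨⟨⟨hp.1, hp.2.trans D.e₀_lt_top.le⟩, ?_, ?_⟩, ?_, hp.2⟩, ?_⟩
  · exact div_nonneg hφ0 D.kN_pos.le
  · change φ / D.kN ≤ Real.pi / 2
    rw [div_le_iff₀ D.kN_pos]; unfold αP at hφ1; linarith
  · change m ≤ D.sP p; rw [hps]; exact hzm
  · change ZZ D.kN 0 0 (D.sP p) (φ / D.kN) = z
    rw [ZZ_zero, hps, mul_div_cancel₀ _ D.kN_pos.ne', ← hφ]

/-- upper bound near the pole -/
theorem upperP (x y : D.EPt) (hx : x.c.1 ≤ D.e₀) (hy : y.c.1 ≤ D.e₀) :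
    dist x y ≤ ‖D.ZP x.c - D.ZP y.c‖ := by
  have hI : ∀ {p : ℝ}, p ∈ Icc 0 D.e₀ → p ∈ Icc 0 D.ℓ := fun hp =>
    ⟨hp.1, hp.2.trans D.e₀_lt_ℓ.le⟩
  -- apex to a point
  have apex : ∀ x y : D.EPt, x.c.1 = 0 → y.c.1 ∈ Ioc 0 D.e₀ → dist x y ≤ ‖D.ZP x.c - D.ZP y.c‖ := by
    intro x y hx hy
    have hx0 : D.ZP x.c = 0 := by
      rw [ZP_eq, hx, D.sP_zero]
      apply Complex.ext <;> simp [pol]
    rw [hx0, zero_sub, norm_neg, D.norm_ZP (hI ⟨hy.1.le, hy.2⟩)]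
    obtain ⟨C, hC0, hC⟩ := D.nf.bdd
    have hle : ∀ ε, 0 < ε → ε ≤ y.c.1 → dist x y ≤ C * ε + D.sP y.c.1 := by
      intro ε hε hεy
      set x0 : D.EPt := EPt.mk 0 y.c.2 le_rfl (hy.1.le.trans y.c_le) y.c2 with hx0
      set x1 : D.EPt := EPt.mk ε y.c.2 hε.le (hεy.trans y.c_le) y.c2 with hx1
      have e1 : dist x x0 = 0 := dist_pole x x0 hx rfl
      have e2 : dist x0 x1 ≤ C * ε := by
        have := Pt.dist_le_norm hC x0.1 x1.1
        refine this.trans ?_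
        apply mul_le_mul_of_nonneg_left _ hC0
        have h1 : x0.1.val = (0, y.c.2) := rfl
        have h2 : x1.1.val = (ε, y.c.2) := rfl
        rw [h1, h2, Prod.mk_sub_mk, sub_self, zero_sub, Prod.norm_def]
        simp only [norm_zero, norm_neg, Real.norm_eq_abs, abs_of_pos hε]
        exact max_le le_rfl hε.le
      have e3 := upperP' x1 y ⟨hε, hεy.trans hy.2⟩ hy
      have e4 : ‖D.ZP x1.c - D.ZP y.c‖ = D.sP y.c.1 - D.sP ε := by
        have h1 : x1.c = (ε, y.c.2) := rfl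
        rw [h1, ZP_eq, ZP_eq, norm_pol_sub]
        simp only
        rw [sub_self, Real.cos_zero]
        have hmon := D.sP_strictMonoOn.monotoneOn (hI ⟨hε.le, hεy.trans hy.2⟩)
          (hI ⟨hy.1.le, hy.2⟩) hεy
        rw [show D.sP ε ^ 2 + D.sP y.c.1 ^ 2 - 2 * D.sP ε * D.sP y.c.1 * 1 =
          (D.sP y.c.1 - D.sP ε) ^ 2 by ring, Real.sqrt_sq (by linarith)]
      have e5 := D.sP_nonneg (hI ⟨hε.le, hεy.trans hy.2⟩)
      have e6 := dist_triangle x x0 x1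
      have e7 := dist_triangle x x1 y
      linarith
    refine le_of_forall_pos_le_add fun ε hε => ?_
    have h1 := hle (min (ε / (C + 1)) y.c.1) (lt_min (by positivity) hy.1) (min_le_right _ _)
    have h2 : C * min (ε / (C + 1)) y.c.1 ≤ ε := by
      have h3 : min (ε / (C + 1)) y.c.1 ≤ ε / (C + 1) := min_le_left _ _
      rw [le_div_iff₀ (by positivity)] at h3
      have h4 : 0 < min (ε / (C + 1)) y.c.1 := lt_min (by positivity) hy.1
      nlinarith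
    linarith
  rcases eq_or_lt_of_le x.c1.1 with h0 | h0
  · rcases eq_or_lt_of_le y.c1.1 with h1 | h1
    · rw [dist_pole x y h0.symm h1.symm]; exact norm_nonneg _
    · exact apex x y h0.symm ⟨h1, hy⟩
  · rcases eq_or_lt_of_le y.c1.1 with h1 | h1
    · rw [dist_comm, norm_sub_rev]; exact apex y x h1.symm ⟨h0, hx⟩
    · exact upperP' x y ⟨h0, hx⟩ ⟨h1, hy⟩

/-- **planar ball at the pole** -/
theorem pole_ball : ∃ r₀ > 0, (∀ x ∈ ball D.eP r₀, x.c.1 < D.e₀) ∧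
    (∀ x ∈ ball D.eP r₀, dist x D.eP = D.sP x.c.1) ∧
    (∀ x ∈ ball D.eP r₀, ∀ y ∈ ball D.eP r₀, dist x y = ‖D.ZP x.c - D.ZP y.c‖) ∧
    (∀ s θ, 0 ≤ s → s < r₀ → θ ∈ Icc 0 (Real.pi / 2) → ∃ x ∈ ball D.eP r₀,
      D.sP x.c.1 = s ∧ x.c.2 = θ) := by
  have hmono := D.sP_strictMonoOn
  have hI : ∀ {p : ℝ}, p ∈ Icc 0 D.top → p ∈ Icc 0 D.ℓ := fun hp =>
    ⟨hp.1, hp.2.trans D.top_mem.2⟩
  have he : D.e₀ ∈ Icc 0 D.ℓ := ⟨D.e₀_pos.le, D.e₀_lt_ℓ.le⟩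
  have hse : 0 < D.sP D.e₀ := by
    have := hmono (⟨le_refl _, he.1.trans he.2⟩ : (0:ℝ) ∈ Icc 0 D.ℓ) he D.e₀_pos
    rwa [D.sP_zero] at this
  set g := D.sP D.e₀ / 4 with hg
  have hg0 : 0 < g := by rw [hg]; linarith
  have hR : ∀ p ∈ Iio D.e₀, p ∈ Icc 0 D.top → D.R p = D.kN * D.sP p + 0 := fun p hp hp' =>
    D.R_cone ⟨hp'.1, le_of_lt hp⟩
  have lower : ∀ x : D.EPt, x.c.1 < D.e₀ → D.sP x.c.1 ≤ g → ∀ y : D.EPt,
      (y.c.1 < D.e₀ → min ‖D.ZP x.c - D.ZP y.c‖ (2 * g) ≤ dist x y) ∧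
      (¬ y.c.1 < D.e₀ → 2 * g ≤ dist x y) := by
    intro x hx hxg y
    exact D.lowerZ D.hasDerivAt_sP 0 isOpen_Iio hR (r := 2 * g) (by positivity) x.1 hx
      (by
        intro p hp hpO
        have hp1 : D.e₀ ≤ p := not_lt.1 hpO
        have h1 : D.sP D.e₀ ≤ D.sP p := hmono.monotoneOn he (hI hp) hp1
        have hxg' : D.sP x.1.val.1 ≤ g := hxg
        rw [abs_of_nonneg (by linarith)]
        linarith) y.1
  have hZ0 : D.ZP (D.eP).c = 0 := by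
    have : (D.eP).c = (0, 0) := rfl
    rw [this, ZP_eq, D.sP_zero]
    apply Complex.ext <;> simp [pol]
  have hP1 : (D.eP).c.1 = 0 := rfl
  have near0 : ∀ x ∈ ball D.eP g, x.c.1 < D.e₀ ∧ D.sP x.c.1 < g := by
    intro x hx
    rw [mem_ball, dist_comm] at hx
    obtain ⟨h1, h2⟩ := lower D.eP (by rw [hP1]; exact D.e₀_pos) (by rw [hP1, D.sP_zero]; exact hg0.le) x
    by_cases hxp : x.c.1 < D.e₀
    · refine ⟨hxp, ?_⟩
      have := h1 hxp
      rw [hZ0, zero_sub, norm_neg, D.norm_ZP (hI x.c1)] at this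
      rcases min_cases (D.sP x.c.1) (2 * g) with ⟨e, _⟩ | ⟨e, _⟩
      · rw [e] at this; linarith
      · rw [e] at this; linarith
    · have := h2 hxp; linarith
  refine ⟨g, hg0, fun x hx => (near0 x hx).1, ?_, ?_, ?_⟩
  · intro x hx
    obtain ⟨h1, h2⟩ := near0 x hx
    apply le_antisymm
    · have := upperP x D.eP h1.le (by rw [hP1]; exact D.e₀_pos.le)
      rwa [hZ0, sub_zero, D.norm_ZP (hI x.c1)] at this
    · have := (lower x h1 h2.le D.eP).1 (by rw [hP1]; exact D.e₀_pos)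
      rw [hZ0, sub_zero, D.norm_ZP (hI x.c1), min_eq_left (by linarith)] at this
      exact this
  · intro x hx y hy
    obtain ⟨h1, h2⟩ := near0 x hx
    obtain ⟨h3, h4⟩ := near0 y hy
    refine le_antisymm (upperP x y h1.le h3.le) ?_
    have := (lower x h1 h2.le y).1 h3
    have e1 : ‖D.ZP x.c - D.ZP y.c‖ ≤ 2 * g := by
      refine (norm_sub_le _ _).trans ?_
      rw [D.norm_ZP (hI x.c1), D.norm_ZP (hI y.c1)]; linarith
    rwa [min_eq_left e1] at this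
  · intro s θ hs hsg hθ
    obtain ⟨p, hp, hps⟩ := intermediate_value_Icc D.e₀_pos.le D.cont_sP.continuousOn
      (show s ∈ Icc (D.sP 0) (D.sP D.e₀) by rw [D.sP_zero]; exact ⟨hs, by linarith⟩)
    have hpβ : p ≤ D.β θ := hp.2.trans (D.e₀_lt.le.trans (D.β_mem' hθ).1)
    refine ⟨EPt.mk p θ hp.1 hpβ hθ, ?_, hps, rfl⟩
    rw [mem_ball]
    have := upperP (EPt.mk p θ hp.1 hpβ hθ) D.eP hp.2 (by rw [hP1]; exact D.e₀_pos.le)
    rw [hZ0, sub_zero, EPt.mk_c, D.norm_ZP (x := (p, θ)) ⟨hp.1, hp.2.trans D.e₀_lt_ℓ.le⟩] at this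
    simp only at this
    rw [hps] at this
    linarith

/-- **sector at the pole** -/
theorem sector_P : ∃ r, IsSector D.eP D.αP r (fun x => (D.sP x.c.1, D.kN * x.c.2)) ∧
    (∀ x ∈ ball D.eP r, x.c.1 < D.e₀) ∧
    HasSide D.eP r (fun x => (D.sP x.c.1, D.kN * x.c.2)) D.axis D.αP ∧
    HasSide D.eP r (fun x => (D.sP x.c.1, D.kN * x.c.2)) D.bd 0 := by
  obtain ⟨r₀, hr₀, h1, h2, h3, h4⟩ := pole_ball (D := D)
  refine ⟨r₀, ⟨hr₀, D.αP_pos, h2, fun x _ => D.kN_mul_mem x.c2, ?_, ?_⟩, h1, ?_, ?_⟩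
  · intro x hx y hy
    rw [h3 x hx y hy, ZP_eq, ZP_eq]
    rw [lawc_eq_norm]
    obtain ⟨a, b⟩ := D.kN_mul_mem x.c2
    obtain ⟨c, d⟩ := D.kN_mul_mem y.c2
    exact abs_le.2 ⟨by linarith [D.αP_lt, Real.pi_pos], by linarith [D.αP_lt, Real.pi_pos]⟩
  · intro s φ hs hsr hφ hφα
    obtain ⟨x, hx, e1, e2⟩ := h4 s (φ / D.kN) hs hsr ⟨div_nonneg hφ D.kN_pos.le, by
      rw [div_le_iff₀ D.kN_pos]; unfold αP at hφα; linarith⟩
    exact ⟨x, hx, e1, Or.inr (by simp only [e2]; rw [mul_div_cancel₀ _ D.kN_pos.ne'])⟩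
  · intro s hs hsr
    obtain ⟨x, hx, e1, e2⟩ := h4 s (Real.pi / 2) hs hsr half_pi_mem
    exact ⟨x, hx, e2, e1, Or.inr (by simp only [e2]; rfl)⟩
  · intro s hs hsr
    obtain ⟨x, hx, e1, e2⟩ := h4 s 0 hs hsr zero_mem
    exact ⟨x, hx, Or.inl e2, e1, Or.inr (by simp only [e2, mul_zero])⟩

end QD
end Pool.MP8e
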