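import Mathlib
import Pool.Agent.Work.MP_8e9dbb.A.Pole

/-!
# Part A, file 9: planar sectors, flips, explicit double along two sides, reflections
-/

open Filter Topology Metric Set

namespace Pool.MP8e

theorem mul_exp_neg_im' (w : ℂ) (a : ℝ) :
    (w * Complex.exp (((-a : ℝ) : ℂ) * Complex.I)).im =
      ‖w‖ * Real.sin (Complex.arg (w * Complex.exp (((-a : ℝ) : ℂ) * Complex.I))) := by
  have h := Complex.norm_mul_sin_arg (w * Complex.exp (((-a : ℝ) : ℂ) * Complex.I))
  rw [norm_mul, Complex.norm_exp_ofReal_mul_I, mul_one] at h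
  exact h.symm

theorem pol_eq (s φ : ℝ) : pol s φ = s * Complex.exp ((φ : ℂ) * Complex.I) := by
  apply Complex.ext
  · rw [Complex.re_ofReal_mul, Complex.exp_ofReal_mul_I_re]; rfl
  · rw [Complex.im_ofReal_mul, Complex.exp_ofReal_mul_I_im]; rfl

theorem pol_arg (w : ℂ) (a : ℝ) :
    w = pol ‖w‖ (a + Complex.arg (w * Complex.exp (((-a : ℝ) : ℂ) * Complex.I))) := by
  set v := w * Complex.exp (((-a : ℝ) : ℂ) * Complex.I) with hv
  have h1 : ‖v‖ = ‖w‖ := by rw [hv, norm_mul, Complex.norm_exp_ofReal_mul_I, mul_one]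
  have h2 := Complex.norm_mul_exp_arg_mul_I v
  rw [pol_eq, Complex.ofReal_add, add_mul, Complex.exp_add, ← h1]
  have h3 : w = v * Complex.exp ((a : ℂ) * Complex.I) := by
    rw [hv, mul_assoc, ← Complex.exp_add]
    simp
  rw [h3]
  conv_lhs => rw [← h2]
  ring

theorem arg_pol {s φ : ℝ} (a : ℝ) (hs : 0 < s) (h0 : -Real.pi < φ) (h1 : φ ≤ Real.pi) :
    Complex.arg (pol s (a + φ) * Complex.exp (((-a : ℝ) : ℂ) * Complex.I)) = φ := by
  have : pol s (a + φ) * Complex.exp (((-a : ℝ) : ℂ) * Complex.I) =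
      (s : ℂ) * (Complex.cos φ + Complex.sin φ * Complex.I) := by
    rw [pol_eq, mul_assoc, ← Complex.exp_add, ← Complex.exp_mul_I]
    congr 2
    push_cast; ring
  rw [this, Complex.arg_mul_cos_add_sin_mul_I hs ⟨h0, h1⟩]

theorem pol_mul_exp_neg (s φ a : ℝ) :
    (pol s φ * Complex.exp (((-a : ℝ) : ℂ) * Complex.I)).im = s * Real.sin (φ - a) :=
  pol_mul_exp s φ a

/-- polar coordinates of the planar chart `f` around `p` with base direction `a` -/
noncomputable def psi {M : Type} (f : M → ℂ) (p : M) (a : ℝ) (x : M) : ℝ × ℝ :=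
  (‖f x - f p‖, Complex.arg ((f x - f p) * Complex.exp (((-a : ℝ) : ℂ) * Complex.I)))

/-- a planar chart onto a sector -/
structure PlanarSec {M : Type} [PseudoMetricSpace M] (p : M) (f : M → ℂ) (a α r : ℝ) : Prop where
  rpos : 0 < r
  αpos : 0 < α
  αle : α ≤ Real.pi
  iso : ∀ x ∈ ball p r, ∀ y ∈ ball p r, dist x y = ‖f x - f y‖
  half1 : ∀ x ∈ ball p r, 0 ≤ ((f x - f p) * Complex.exp (((-a : ℝ) : ℂ) * Complex.I)).im
  half2 : ∀ x ∈ ball p r, ((f x - f p) * Complex.exp (((-(a + α) : ℝ) : ℂ) * Complex.I)).im ≤ 0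
  surj : ∀ w : ℂ, ‖w‖ < r → 0 ≤ (w * Complex.exp (((-a : ℝ) : ℂ) * Complex.I)).im →
    (w * Complex.exp (((-(a + α) : ℝ) : ℂ) * Complex.I)).im ≤ 0 → ∃ x ∈ ball p r, f x = f p + w

namespace PlanarSec

variable {M : Type} [PseudoMetricSpace M] {p : M} {f : M → ℂ} {a α r : ℝ}

theorem eq_pol (x : M) : f x - f p = pol (psi f p a x).1 (a + (psi f p a x).2) :=
  pol_arg _ _

theorem ang (h : PlanarSec p f a α r) {x : M} (hx : x ∈ ball p r) :
    0 ≤ (psi f p a x).2 ∧ (psi f p a x).2 ≤ α := by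
  have h1 := h.half1 x hx
  have h2 := h.half2 x hx
  have h0 : 0 ≤ (psi f p a x).2 := Complex.arg_nonneg_iff.2 h1
  refine ⟨h0, ?_⟩
  by_contra hcon
  push Not at hcon
  have hle : (psi f p a x).2 ≤ Real.pi := Complex.arg_le_pi _
  rw [eq_pol (p := p) (f := f) (a := a) x, pol_mul_exp_neg] at h2
  rw [show a + (psi f p a x).2 - (a + α) = (psi f p a x).2 - α by ring] at h2
  have hs : 0 < Real.sin ((psi f p a x).2 - α) := by
    apply Real.sin_pos_of_pos_of_lt_pi <;> linarith [h.αpos]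
  have hn : 0 ≤ (psi f p a x).1 := norm_nonneg _
  rcases eq_or_lt_of_le hn with h5 | h5
  · -- w = 0 : arg 0 = 0
    have h6 : f x - f p = 0 := norm_eq_zero.1 h5.symm
    have h7 : (psi f p a x).2 = 0 := by unfold psi; simp [h6]
    rw [h7] at hcon
    linarith [h.αpos]
  · have := mul_pos h5 hs
    linarith

theorem isSector (h : PlanarSec p f a α r) : IsSector p α r (psi f p a) where
  rpos := h.rpos
  αpos := h.αpos
  rad x hx := h.iso x hx p (mem_ball_self h.rpos)
  ang x hx := h.ang hx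
  dist_eq x hx y hy := by
    rw [h.iso x hx y hy]
    have e1 := eq_pol (p := p) (f := f) (a := a) x
    have e2 := eq_pol (p := p) (f := f) (a := a) y
    have : f x - f y = pol (psi f p a x).1 (a + (psi f p a x).2) -
        pol (psi f p a y).1 (a + (psi f p a y).2) := by rw [← e1, ← e2]; ring
    rw [this, ← lawc_eq_norm]
    · congr 2; ring
    · obtain ⟨a1, a2⟩ := h.ang hx
      obtain ⟨b1, b2⟩ := h.ang hy
      have := h.αle
      exact abs_le.2 ⟨by linarith, by linarith⟩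
  surj s φ hs hsr hφ hφα := by
    obtain ⟨x, hx, hxw⟩ := h.surj (pol s (a + φ)) (by rw [norm_pol hs]; exact hsr)
      (by
        rw [pol_mul_exp_neg, add_sub_cancel_left]
        exact mul_nonneg hs (Real.sin_nonneg_of_nonneg_of_le_pi hφ (hφα.trans h.αle)))
      (by
        rw [pol_mul_exp_neg, show a + φ - (a + α) = φ - α by ring]
        apply mul_nonpos_of_nonneg_of_nonpos hs
        apply Real.sin_nonpos_of_nonpos_of_neg_pi_le (by linarith)
        linarith [h.αle])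
    have e : f x - f p = pol s (a + φ) := by rw [hxw]; ring
    refine ⟨x, hx, ?_, ?_⟩
    · unfold psi; simp only; rw [e, norm_pol hs]
    · rcases eq_or_lt_of_le hs with h0 | h0
      · exact Or.inl h0.symm
      · right
        unfold psi
        simp only
        rw [e, arg_pol a h0 (by linarith [Real.pi_pos]) (hφα.trans h.αle)]

theorem eq_zero_or (h : PlanarSec p f a α r) {x : M} (hx : x ∈ ball p r)
    (h0 : ((f x - f p) * Complex.exp (((-a : ℝ) : ℂ) * Complex.I)).im = 0) :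
    (psi f p a x).1 = 0 ∨ (psi f p a x).2 = 0 ∨ (α = Real.pi ∧ (psi f p a x).2 = α) := by
  obtain ⟨a1, a2⟩ := h.ang hx
  rw [eq_pol (p := p) (f := f) (a := a) x, pol_mul_exp_neg, add_sub_cancel_left] at h0
  rcases mul_eq_zero.1 h0 with h1 | h1
  · exact Or.inl h1
  right
  rcases eq_or_lt_of_le a1 with h2 | h2
  · exact Or.inl h2.symm
  · right
    have hge : Real.pi ≤ (psi f p a x).2 := by
      by_contra hcon
      push Not at hcon
      have := Real.sin_pos_of_pos_of_lt_pi h2 hcon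
      linarith
    have := h.αle
    exact ⟨by linarith, by linarith⟩

theorem eq_alpha_or (h : PlanarSec p f a α r) {x : M} (hx : x ∈ ball p r)
    (h0 : ((f x - f p) * Complex.exp (((-(a + α) : ℝ) : ℂ) * Complex.I)).im = 0) :
    (psi f p a x).1 = 0 ∨ (psi f p a x).2 = α ∨ (α = Real.pi ∧ (psi f p a x).2 = 0) := by
  obtain ⟨a1, a2⟩ := h.ang hx
  rw [eq_pol (p := p) (f := f) (a := a) x, pol_mul_exp_neg,
    show a + (psi f p a x).2 - (a + α) = (psi f p a x).2 - α by ring] at h0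
  rcases mul_eq_zero.1 h0 with h1 | h1
  · exact Or.inl h1
  right
  rcases eq_or_lt_of_le a2 with h2 | h2
  · exact Or.inl h2
  · right
    have hge : (psi f p a x).2 - α ≤ -Real.pi := by
      by_contra hcon
      push Not at hcon
      have := Real.sin_neg_of_neg_of_neg_pi_lt (by linarith : (psi f p a x).2 - α < 0) hcon
      linarith
    have := h.αle
    exact ⟨by linarith, by linarith⟩

/-- the side with angle `φ₀` -/
theorem hasSide (h : PlanarSec p f a α r) {S : Set M} {φ₀ : ℝ} (h0 : 0 ≤ φ₀) (h1 : φ₀ ≤ α)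
    (hS : ∀ x ∈ ball p r, (∃ s, 0 ≤ s ∧ f x - f p = pol s (a + φ₀)) → x ∈ S) :
    HasSide p r (psi f p a) S φ₀ := by
  intro s hs hsr
  obtain ⟨x, hx, e1, e2⟩ := h.isSector.surj s φ₀ hs hsr h0 h1
  refine ⟨x, hx, hS x hx ⟨s, hs, ?_⟩, e1, e2⟩
  rw [eq_pol (p := p) (f := f) (a := a) x, e1]
  rcases e2 with e2 | e2
  · rw [e2]; apply Complex.ext <;> simp [pol]
  · rw [e2]

end PlanarSec

namespace IsSector

variable {M : Type} [PseudoMetricSpace M] {p : M} {α r : ℝ} {ψ : M → ℝ × ℝ}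

theorem flip (h : IsSector p α r ψ) : IsSector p α r (fun x => ((ψ x).1, α - (ψ x).2)) where
  rpos := h.rpos
  αpos := h.αpos
  rad := h.rad
  ang x hx := by
    have := h.ang x hx
    exact ⟨by simp only; linarith, by simp only; linarith⟩
  dist_eq x hx y hy := by
    rw [h.dist_eq x hx y hy, abs_sub_comm]
    simp only
    congr 2; ring
  surj s φ hs hsr hφ hφα := by
    obtain ⟨x, hx, h1, h2⟩ := h.surj s (α - φ) hs hsr (by linarith) (by linarith)
    exact ⟨x, hx, h1, h2.imp id fun h3 => by simp only; rw [h3]; ring⟩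

theorem _root_.Pool.MP8e.HasSide.flip {S : Set M} {φ₀ : ℝ} (hS : HasSide p r ψ S φ₀) :
    HasSide p r (fun x => ((ψ x).1, α - (ψ x).2)) S (α - φ₀) := by
  intro s hs hsr
  obtain ⟨x, hx, hxS, h2, h3⟩ := hS s hs hsr
  exact ⟨x, hx, hxS, h2, h3.imp id fun h4 => by simp only; rw [h4]⟩

variable {S : Set M} [Nonempty S]

/-- explicit polar coordinates on the double along both sides -/
def psi2 (ψ : M → ℝ × ℝ) (x : Dbl M S) : ℝ × ℝ :=
  ((ψ x.pt).1, if x.side then -(ψ x.pt).2 else (ψ x.pt).2)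

/-- **double along both sides**, explicit version -/
theorem double_two' (h : IsSector p α r ψ) (h0 : HasSide p r ψ S 0) (h1 : HasSide p r ψ S α)
    (hS : ∀ x ∈ ball p r, x ∈ S → (ψ x).1 = 0 ∨ (ψ x).2 = 0 ∨ (ψ x).2 = α) (i : Bool) :
    (∀ x : Dbl M S, x ∈ ball (⟨p, i⟩ : Dbl M S) (r / 3) ↔ x.pt ∈ ball p (r / 3)) ∧
    (∀ x ∈ ball (⟨p, i⟩ : Dbl M S) (r / 3), 0 ≤ (psi2 ψ x).1 ∧
      dist x (⟨p, i⟩ : Dbl M S) = (psi2 ψ x).1) ∧
    (∀ x ∈ ball (⟨p, i⟩ : Dbl M S) (r / 3), ∀ y ∈ ball (⟨p, i⟩ : Dbl M S) (r / 3),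
      dist x y = coneDist (2 * α) (psi2 ψ x) (psi2 ψ y)) ∧
    (∀ s φ : ℝ, 0 ≤ s → s < r / 3 → ∃ x ∈ ball (⟨p, i⟩ : Dbl M S) (r / 3),
      coneDist (2 * α) (psi2 ψ x) (s, φ) = 0) := by
  have hr := h.rpos
  have hα := h.αpos
  have key0 : ∀ x : Dbl M S, x ∈ ball (⟨p, i⟩ : Dbl M S) (r / 3) ↔ x.pt ∈ ball p (r / 3) := by
    intro x
    rw [mem_ball, h.dist_dbl_apex (Or.inl h0), mem_ball]
  have key : ∀ x : Dbl M S, x ∈ ball (⟨p, i⟩ : Dbl M S) (r / 3) → x.pt ∈ ball p (r / 3) :=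
    fun x hx => (key0 x).1 hx
  refine ⟨key0, ?_, ?_, ?_⟩
  · intro x hx
    have hx1 := ball_subset_ball (by linarith : r / 3 ≤ r) (key x hx)
    refine ⟨h.rad_nonneg hx1, ?_⟩
    rw [h.dist_dbl_apex (Or.inl h0)]
    exact h.rad x.pt hx1
  · rintro ⟨x, j⟩ hx ⟨y, k⟩ hy
    have hx1 := key _ hx
    have hy1 := key _ hy
    simp only at hx1 hy1
    have hx2 : x ∈ ball p r := ball_subset_ball (by linarith) hx1
    have hy2 : y ∈ ball p r := ball_subset_ball (by linarith) hy1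
    obtain ⟨ax, ax'⟩ := h.ang x hx2
    obtain ⟨ay, ay'⟩ := h.ang y hy2
    have hcr := h.cr_eq_two h0 h1 hS hx1 hy1
    have hle : |(ψ x).2 - (ψ y).2| ≤ α := abs_le.2 ⟨by linarith, by linarith⟩
    rw [coneDist_eq]
    unfold psi2
    cases j <;> cases k <;> simp only [Bool.false_eq_true, if_false, if_true]
    · rw [Dbl.dist_same, h.dist_eq x hx2 y hy2, angleGap_same hα hle]
    · rw [Dbl.dist_diff _ _ (by simp), hcr]; congr 1
      unfold angleGap
      rw [sub_neg_eq_add, angleGap_cross hα (by linarith) (by linarith)]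
      congr 1; ring
    · rw [Dbl.dist_diff _ _ (by simp), hcr]; congr 1
      have : angleGap (2 * α) (-(ψ x).2) ((ψ y).2) = ⨅ n : ℤ, |((ψ x).2 + (ψ y).2) + n * (2 * α)| := by
        unfold angleGap
        refine (Equiv.iInf_congr (Equiv.neg ℤ) fun n => ?_)
        rw [← abs_neg]; congr 1
        push_cast [Equiv.neg_apply]; ring
      rw [this, angleGap_cross hα (by linarith) (by linarith)]
      congr 1; ring
    · rw [Dbl.dist_same, h.dist_eq x hx2 y hy2, angleGap_same hα (by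
        rw [neg_sub_neg, abs_sub_comm]; exact hle), neg_sub_neg, abs_sub_comm]
  · intro s φ hs hsr
    -- reduce φ modulo 2α to (-α, α]
    obtain ⟨n, hn1, hn2⟩ : ∃ n : ℤ, -α < φ - n * (2 * α) ∧ φ - n * (2 * α) ≤ α := by
      refine ⟨⌈(φ - α) / (2 * α)⌉, ?_, ?_⟩
      · have := Int.ceil_lt_add_one ((φ - α) / (2 * α))
        have e : (φ - α) / (2 * α) * (2 * α) = φ - α := by field_simp
        nlinarith
      · have := Int.le_ceil ((φ - α) / (2 * α))
        have e : (φ - α) / (2 * α) * (2 * α) = φ - α := by field_simp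
        nlinarith
    set φ' := φ - n * (2 * α) with hφ'
    have hper : ∀ u : ℝ, angleGap (2 * α) u φ = angleGap (2 * α) u φ' := by
      intro u
      unfold angleGap
      refine (Equiv.iInf_congr (Equiv.subRight n) fun m => ?_)
      congr 1
      simp only [Equiv.subRight_apply]
      push_cast
      rw [hφ']; ring
    obtain ⟨x, hx, e1, e2⟩ := h.surj s |φ'| hs (by linarith) (abs_nonneg _)
      (abs_le.2 ⟨hn1.le, hn2⟩)
    refine ⟨⟨x, decide (φ' < 0)⟩, ?_, ?_⟩
    · rw [key0, mem_ball, h.rad x hx, e1]; exact hsr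
    · rw [coneDist_eq]
      unfold psi2
      simp only
      rw [e1]
      rcases e2 with e2 | e2
      · rw [e2, lawc_zero_left _ _ le_rfl]
      · have : (if (decide (φ' < 0)) = true then -(ψ x).2 else (ψ x).2) = φ' := by
          by_cases hc : φ' < 0
          · rw [if_pos (by simpa using hc), e2, abs_of_neg hc, neg_neg]
          · rw [if_neg (by simpa using hc), e2, abs_of_nonneg (not_lt.1 hc)]
        rw [this, hper, angleGap_same hα (by simp; exact hα.le)]
        simp [lawc_zero_ang]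

end IsSector

/-- the reflected chart on a double -/
noncomputable def zeta {M : Type} {S : Set M} (f : M → ℂ) (ρ : ℂ → ℂ) (x : Dbl M S) : ℂ :=
  if x.side then ρ (f x.pt) else f x.pt

/-- **double along a straight side**: a reflected planar chart. -/
theorem double_refl {M : Type} [PseudoMetricSpace M] {S : Set M} [Nonempty S] {p : M} {f : M → ℂ}
    {r : ℝ} (hr : 0 < r) (ρ : ℂ → ℂ) (hρ : ∀ z w, ‖ρ z - ρ w‖ = ‖z - w‖) (hρ2 : ∀ z, ρ (ρ z) = z)
    (h1 : ∀ x ∈ ball p r, ∀ y ∈ ball p r, dist x y = ‖f x - f y‖)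
    (hfix : ∀ z ∈ ball p r, z ∈ S → ρ (f z) = f z)
    (hcross : ∀ x ∈ ball p r, ∀ y ∈ ball p r, ∃ z ∈ ball p r, z ∈ S ∧
      ‖f x - f z‖ + ‖f z - ρ (f y)‖ ≤ ‖f x - ρ (f y)‖)
    (hp : ∃ z ∈ S, dist z p = 0) (i : Bool) :
    (∀ x : Dbl M S, x ∈ ball (⟨p, i⟩ : Dbl M S) (r / 3) ↔ x.pt ∈ ball p (r / 3)) ∧
    (∀ x ∈ ball (⟨p, i⟩ : Dbl M S) (r / 3), ∀ y ∈ ball (⟨p, i⟩ : Dbl M S) (r / 3),
      dist x y = ‖zeta f ρ x - zeta f ρ y‖) := by
  obtain ⟨z0, hz0S, hz0⟩ := hp
  have hapex : ∀ x : Dbl M S, dist x (⟨p, i⟩ : Dbl M S) = dist x.pt p := by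
    intro x
    obtain ⟨x, j⟩ := x
    apply le_antisymm
    · refine (Dbl.dist_le_via _ _ hz0S).trans ?_
      simp only
      have := dist_triangle x p z0
      rw [dist_comm p z0] at this
      rw [hz0] at this ⊢; linarith
    · exact Dbl.dist_pt_le (⟨x, j⟩ : Dbl M S) ⟨p, i⟩
  have key0 : ∀ x : Dbl M S, x ∈ ball (⟨p, i⟩ : Dbl M S) (r / 3) ↔ x.pt ∈ ball p (r / 3) := by
    intro x; rw [mem_ball, hapex, mem_ball]
  refine ⟨key0, ?_⟩
  have hcr : ∀ x ∈ ball p (r / 3), ∀ y ∈ ball p (r / 3), Dbl.cr S x y = ‖f x - ρ (f y)‖ := by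
    intro x hx y hy
    have hx' : x ∈ ball p r := ball_subset_ball (by linarith) hx
    have hy' : y ∈ ball p r := ball_subset_ball (by linarith) hy
    have hp' : p ∈ ball p r := mem_ball_self hr
    have hswap : ∀ z ∈ ball p r, z ∈ S → ‖f z - ρ (f y)‖ = dist z y := by
      intro z hz hzS
      rw [h1 z hz y hy', ← hρ (f z) (f y), hfix z hz hzS]
    apply le_antisymm
    · obtain ⟨z, hz, hzS, hle⟩ := hcross x hx' y hy'
      refine (Dbl.cr_le hzS).trans ?_
      rw [h1 x hx' z hz, ← hswap z hz hzS]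
      exact hle
    · refine Dbl.le_cr fun z hzS => ?_
      by_cases hz : z ∈ ball p r
      · rw [h1 x hx' z hz, ← hswap z hz hzS]
        exact norm_sub_le_norm_sub_add_norm_sub _ _ _
      · rw [mem_ball, not_lt] at hz
        -- z far: r - r/3 ≤ dist x z
        rw [mem_ball] at hx hy
        have e1 := dist_triangle_left z p x
        have e2 := dist_triangle z y p
        -- ‖f x - ρ (f y)‖ ≤ dist x p + dist p y
        have hz0' : z0 ∈ ball p r := by rw [mem_ball, hz0]; exact hr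
        have e3 : ‖f x - ρ (f y)‖ ≤ dist x z0 + dist z0 y := by
          rw [h1 x hx' z0 hz0', ← hswap z0 hz0' hz0S]
          exact norm_sub_le_norm_sub_add_norm_sub _ _ _
        have e4 := dist_triangle x p z0
        have e5 := dist_triangle z0 p y
        rw [dist_comm p z0, hz0] at e4
        rw [hz0, dist_comm p y] at e5
        linarith
  rintro ⟨x, j⟩ hx ⟨y, k⟩ hy
  have hx1 := (key0 _).1 hx
  have hy1 := (key0 _).1 hy
  simp only at hx1 hy1
  have hx2 : x ∈ ball p r := ball_subset_ball (by linarith) hx1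
  have hy2 : y ∈ ball p r := ball_subset_ball (by linarith) hy1
  unfold zeta
  cases j <;> cases k <;> simp only [Bool.false_eq_true, if_false, if_true]
  · rw [Dbl.dist_same, h1 x hx2 y hy2]
  · rw [Dbl.dist_diff _ _ (by simp), hcr x hx1 y hy1]
  · rw [Dbl.dist_diff _ _ (by simp), hcr x hx1 y hy1, ← hρ (f x) (ρ (f y)), hρ2]
  · rw [Dbl.dist_same, h1 x hx2 y hy2, hρ]

end Pool.MP8e
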