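import Mathlib
import Pool.Agent.Work.MP_8e9dbb.A.SecPl

/-!
# Part A, file 10: the sectors at `Q`, `B` and at floor points of the quarter domain
-/

open Filter Topology Metric Set

namespace Pool.MP8e
namespace QD

variable (D : QD)

/-- the planar chart of the flat part -/
noncomputable def fE (x : D.EPt) : ℂ := D.Z D.θf x.c.1 x.c.2

theorem tau_sub (c : ℝ) (z w : ℂ) : D.tau c z - D.tau c w =
    (z - w) * Complex.exp ((D.κ * (D.θf - c) : ℝ) * Complex.I) := by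
  unfold tau; ring

/-- the angle of the quarter domain at `B` -/
noncomputable def αB : ℝ := Real.pi / 2 - D.κ * D.θf

theorem angAB_eq : D.angAB = 2 * D.αB := by unfold angAB αB; ring

theorem abs_u : |D.κ * (Real.pi / 2 - D.θf)| < Real.pi / 2 := D.abs_κ_mul_sub_θf half_pi_mem

theorem abs_κθf : |D.κ * D.θf| < Real.pi / 2 := by
  have := D.abs_κ_mul_sub_θf zero_mem
  rwa [zero_sub, mul_neg, abs_neg] at this

theorem αQ_pos : 0 < D.αQ := by
  have := (abs_lt.1 D.abs_u).2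
  unfold αQ; linarith

theorem αQ_lt : D.αQ < Real.pi := by
  have := (abs_lt.1 D.abs_u).1
  unfold αQ; linarith

theorem αB_pos : 0 < D.αB := by
  have := (abs_lt.1 D.abs_κθf).2
  unfold αB; linarith

theorem αB_lt : D.αB < Real.pi := by
  have := (abs_lt.1 D.abs_κθf).1
  unfold αB; linarith

theorem snk_ne {κ θ : ℝ} (h : |κ * θ| < Real.pi) (hθ : θ ≠ 0) : snk κ θ ≠ 0 := by
  rcases lt_or_gt_of_ne hθ with h1 | h1
  · exact (snk_neg' h h1).ne
  · exact (snk_pos h h1).ne'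

variable {D}

theorem κ_lt_pi {θ θ' : ℝ} (h : θ ∈ Icc (0:ℝ) (Real.pi / 2)) (h' : θ' ∈ Icc (0:ℝ) (Real.pi / 2)) :
    |D.κ * (θ - θ')| < Real.pi := by
  have := D.abs_κ_mul_sub h h'
  linarith [Real.pi_pos]

theorem tau0_im (x : D.EPt) : (D.tau 0 (D.fE x)).im = (D.κ * D.σ x.c.1 + D.ρf) * snk D.κ x.c.2 := by
  unfold fE; rw [tau_Z, Z_im, sub_zero]

theorem tauh_im (x : D.EPt) : (D.tau (Real.pi / 2) (D.fE x)).im =
    (D.κ * D.σ x.c.1 + D.ρf) * snk D.κ (x.c.2 - Real.pi / 2) := by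
  unfold fE; rw [tau_Z, Z_im]

theorem leg_iff (x : D.EPt) (hx : D.pf ≤ x.c.1) : x.c.2 = 0 ↔ (D.tau 0 (D.fE x)).im = 0 := by
  rw [tau0_im]
  constructor
  · intro h; rw [h]; simp
  · intro h
    have h1 := D.Tf_pos (x.mem_Tf hx)
    by_contra hcon
    have h2 := κ_lt_pi (D := D) x.c2 zero_mem
    rw [sub_zero] at h2
    exact snk_ne h2 hcon ((mul_eq_zero.1 h).resolve_left h1.ne')

theorem axis_iff (x : D.EPt) (hx : D.pf ≤ x.c.1) :
    x.c.2 = Real.pi / 2 ↔ (D.tau (Real.pi / 2) (D.fE x)).im = 0 := by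
  rw [tauh_im]
  constructor
  · intro h; rw [h]; simp
  · intro h
    have h1 := D.Tf_pos (x.mem_Tf hx)
    by_contra hcon
    have h2 := κ_lt_pi (D := D) x.c2 half_pi_mem
    exact snk_ne h2 (sub_ne_zero.2 hcon) ((mul_eq_zero.1 h).resolve_left h1.ne')

theorem floor_iff (x : D.EPt) : x.c.1 = D.β x.c.2 ↔ (D.fE x).re = 0 := by
  obtain ⟨δ, hδ, H⟩ := D.Z_re_iff
  have := (H x.c.2 x.c2 x.c.1 ⟨by linarith [x.c1.1], by linarith [x.c1.2, D.top_mem.2]⟩).2
  exact this.symm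

theorem fE_mem (x : D.EPt) (hx : D.pf ≤ x.c.1) : D.fE x ∈ D.WW := D.Tf_WW (x.mem_Tf hx)

/-- the planar sector at a point of the flat part, from the description of the half planes -/
theorem planar_at (q : D.EPt) (hq : D.pf < q.c.1) {a α r1 : ℝ} (hα : 0 < α) (hα' : α ≤ Real.pi)
    (hr1 : 0 < r1) (hW : ∀ w : ℂ, ‖w‖ < r1 → (D.fE q + w ∈ D.WW ↔
      (0 ≤ (w * Complex.exp (((-a : ℝ) : ℂ) * Complex.I)).im ∧
        (w * Complex.exp (((-(a + α) : ℝ) : ℂ) * Complex.I)).im ≤ 0))) :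
    ∃ r, PlanarSec q D.fE a α r ∧ r ≤ r1 ∧ ∀ x ∈ ball q r, D.pf < x.c.1 := by
  obtain ⟨r₀, hr₀, h1, h2, h3⟩ := flat_ball q hq
  have hle1 : min r₀ r1 ≤ r₀ := min_le_left _ _
  have hle2 : min r₀ r1 ≤ r1 := min_le_right _ _
  have hsub := ball_subset_ball (x := q) hle1
  have hmem : ∀ x ∈ ball q (min r₀ r1), (0 ≤ ((D.fE x - D.fE q) *
      Complex.exp (((-a : ℝ) : ℂ) * Complex.I)).im ∧
        ((D.fE x - D.fE q) * Complex.exp (((-(a + α) : ℝ) : ℂ) * Complex.I)).im ≤ 0) := by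
    intro x hx
    rw [← hW]
    · rw [add_sub_cancel]; exact fE_mem x (h1 x (hsub hx)).le
    · have := h2 x (hsub hx) q (mem_ball_self hr₀)
      rw [mem_ball, this] at hx
      exact lt_of_lt_of_le hx hle2
  refine ⟨min r₀ r1, ⟨lt_min hr₀ hr1, hα, hα', ?_, ?_, ?_, ?_⟩, hle2, fun x hx => h1 x (hsub hx)⟩
  · intro x hx y hy
    exact h2 x (hsub hx) y (hsub hy)
  · exact fun x hx => (hmem x hx).1
  · exact fun x hx => (hmem x hx).2
  · intro w hw hw1 hw2
    have hz : D.fE q + w ∈ D.WW := (hW w (lt_of_lt_of_le hw hle2)).2 ⟨hw1, hw2⟩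
    obtain ⟨x, hx, hxz⟩ := h3 _ hz (by
      change ‖D.fE q + w - D.fE q‖ < r₀
      rw [add_sub_cancel_left]; exact lt_of_lt_of_le hw hle1)
    refine ⟨x, ?_, hxz⟩
    rw [mem_ball, h2 x hx q (mem_ball_self hr₀)]
    change ‖D.fE x - D.fE q‖ < _
    rw [show D.fE x = D.fE q + w from hxz, add_sub_cancel_left]
    exact hw

theorem exp_neg_half_pi (w : ℂ) :
    (w * Complex.exp (((-(Real.pi / 2) : ℝ) : ℂ) * Complex.I)).im = -w.re := by
  rw [Complex.mul_im, Complex.exp_ofReal_mul_I_re, Complex.exp_ofReal_mul_I_im, Real.cos_neg,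
    Real.sin_neg, Real.cos_pi_div_two, Real.sin_pi_div_two]
  ring

theorem exp_neg_three_half_pi (w : ℂ) :
    (w * Complex.exp (((-(3 * Real.pi / 2) : ℝ) : ℂ) * Complex.I)).im = w.re := by
  have h1 : Real.cos (3 * Real.pi / 2) = 0 := by
    rw [show 3 * Real.pi / 2 = Real.pi / 2 + Real.pi by ring, Real.cos_add_pi,
      Real.cos_pi_div_two, neg_zero]
  have h2 : Real.sin (3 * Real.pi / 2) = -1 := by
    rw [show 3 * Real.pi / 2 = Real.pi / 2 + Real.pi by ring, Real.sin_add_pi,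
      Real.sin_pi_div_two]
  rw [Complex.mul_im, Complex.exp_ofReal_mul_I_re, Complex.exp_ofReal_mul_I_im, Real.cos_neg,
    Real.sin_neg, h1, h2]
  ring

theorem exp_neg_pi_add (w : ℂ) (u : ℝ) :
    (w * Complex.exp (((-(Real.pi + u) : ℝ) : ℂ) * Complex.I)).im =
      -(w * Complex.exp (((-u : ℝ) : ℂ) * Complex.I)).im := by
  rw [Complex.mul_im, Complex.mul_im, Complex.exp_ofReal_mul_I_re, Complex.exp_ofReal_mul_I_im,
    Complex.exp_ofReal_mul_I_re, Complex.exp_ofReal_mul_I_im, Real.cos_neg, Real.sin_neg,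
    Real.cos_neg, Real.sin_neg, add_comm Real.pi u, Real.cos_add_pi, Real.sin_add_pi]
  ring

/-- imaginary part of `tau` around a point -/
theorem tau_im_add (c : ℝ) (z w : ℂ) : (D.tau c (z + w)).im = (D.tau c z).im +
    (w * Complex.exp (((-(D.κ * (c - D.θf)) : ℝ) : ℂ) * Complex.I)).im := by
  have := D.tau_sub c (z + w) z
  rw [add_sub_cancel_left] at this
  have h2 : -(D.κ * (c - D.θf)) = D.κ * (D.θf - c) := by ring
  rw [h2, ← this, Complex.sub_im]; ring

theorem abs_im_le (w : ℂ) (a : ℝ) :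
    |(w * Complex.exp (((-a : ℝ) : ℂ) * Complex.I)).im| ≤ ‖w‖ := by
  refine (Complex.abs_im_le_norm _).trans ?_
  rw [norm_mul, Complex.norm_exp_ofReal_mul_I, mul_one]

theorem eQ_c : (D.eQ).c = (D.β (Real.pi / 2), Real.pi / 2) := rfl

theorem eB_c : (D.eB).c = (D.β 0, 0) := rfl

theorem eP_c : (D.eP).c = (0, 0) := rfl

/-- **sector at `Q`** -/
theorem planar_Q : ∃ r, PlanarSec D.eQ D.fE (Real.pi + D.κ * (Real.pi / 2 - D.θf)) D.αQ r ∧
    (∀ x ∈ ball D.eQ r, D.pf < x.c.1 ∧ x.c.2 ≠ 0) := by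
  have hq : D.pf < (D.eQ).c.1 := (D.β_mem _ half_pi_mem).1
  have hpos : 0 < (D.tau 0 (D.fE D.eQ)).im := by
    rw [tau0_im]
    apply mul_pos (D.Tf_pos ((D.eQ).mem_Tf hq.le))
    apply snk_pos
    · have := κ_lt_pi (D := D) half_pi_mem zero_mem
      rwa [sub_zero] at this
    · exact Real.pi_div_two_pos
  have hre : (D.fE D.eQ).re = 0 := (floor_iff _).1 rfl
  have hax : (D.tau (Real.pi / 2) (D.fE D.eQ)).im = 0 := (axis_iff _ hq.le).1 rfl
  obtain ⟨r, hr, hr1, hr2⟩ := planar_at D.eQ hq (a := Real.pi + D.κ * (Real.pi / 2 - D.θf))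
    (α := D.αQ) D.αQ_pos D.αQ_lt.le hpos (by
      intro w hw
      have e1 : Real.pi + D.κ * (Real.pi / 2 - D.θf) + D.αQ = 3 * Real.pi / 2 := by
        unfold αQ; ring
      rw [e1, exp_neg_three_half_pi, exp_neg_pi_add]
      constructor
      · rintro ⟨h1, h2, h3⟩
        rw [tau_im_add, hax, zero_add] at h3
        rw [Complex.add_re, hre, zero_add] at h1
        exact ⟨by linarith, h1⟩
      · rintro ⟨h1, h2⟩
        refine ⟨by rw [Complex.add_re, hre, zero_add]; exact h2, ?_, ?_⟩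
        · rw [tau_im_add]
          have := (abs_le.1 (abs_im_le w (D.κ * (0 - D.θf)))).1
          linarith
        · rw [tau_im_add, hax, zero_add]; linarith)
  refine ⟨r, hr, fun x hx => ⟨hr2 x hx, fun h0 => ?_⟩⟩
  have h1 := (leg_iff x (hr2 x hx).le).1 h0
  have h2 : D.fE x = D.fE D.eQ + (D.fE x - D.fE D.eQ) := by ring
  rw [h2, tau_im_add] at h1
  have h3 := (abs_le.1 (abs_im_le (D.fE x - D.fE D.eQ) (D.κ * (0 - D.θf)))).1
  have h4 := hr.iso x hx D.eQ (mem_ball_self hr.rpos)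
  rw [mem_ball, h4] at hx
  linarith

/-- **sector at `B`** -/
theorem planar_B : ∃ r, PlanarSec D.eB D.fE (Real.pi / 2) D.αB r ∧
    (∀ x ∈ ball D.eB r, D.pf < x.c.1 ∧ x.c.2 ≠ Real.pi / 2) := by
  have hq : D.pf < (D.eB).c.1 := (D.β_mem _ zero_mem).1
  have hneg : (D.tau (Real.pi / 2) (D.fE D.eB)).im < 0 := by
    rw [tauh_im]
    apply mul_neg_of_pos_of_neg (D.Tf_pos ((D.eB).mem_Tf hq.le))
    apply snk_neg'
    · exact κ_lt_pi (D := D) zero_mem half_pi_mem
    · rw [eB_c]; simp only; linarith [Real.pi_pos]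
  have hre : (D.fE D.eB).re = 0 := (floor_iff _).1 rfl
  have hleg : (D.tau 0 (D.fE D.eB)).im = 0 := (leg_iff _ hq.le).1 rfl
  obtain ⟨r, hr, hr1, hr2⟩ := planar_at D.eB hq (a := Real.pi / 2)
    (α := D.αB) D.αB_pos D.αB_lt.le (neg_pos.2 hneg) (by
      intro w hw
      have e1 : Real.pi / 2 + D.αB = Real.pi + D.κ * (0 - D.θf) := by
        unfold αB; ring
      rw [e1, exp_neg_pi_add, exp_neg_half_pi]
      constructor
      · rintro ⟨h1, h2, h3⟩
        rw [tau_im_add, hleg, zero_add] at h2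
        rw [Complex.add_re, hre, zero_add] at h1
        exact ⟨by linarith, by linarith⟩
      · rintro ⟨h1, h2⟩
        refine ⟨by rw [Complex.add_re, hre, zero_add]; linarith, ?_, ?_⟩
        · rw [tau_im_add, hleg, zero_add]; linarith
        · rw [tau_im_add]
          have := (abs_le.1 (abs_im_le w (D.κ * (Real.pi / 2 - D.θf)))).2
          linarith)
  refine ⟨r, hr, fun x hx => ⟨hr2 x hx, fun h0 => ?_⟩⟩
  have h1 := (axis_iff x (hr2 x hx).le).1 h0
  have h2 : D.fE x = D.fE D.eB + (D.fE x - D.fE D.eB) := by ring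
  rw [h2, tau_im_add] at h1
  have h3 := (abs_le.1 (abs_im_le (D.fE x - D.fE D.eB) (D.κ * (Real.pi / 2 - D.θf)))).2
  have h4 := hr.iso x hx D.eB (mem_ball_self hr.rpos)
  rw [mem_ball, h4] at hx
  linarith

/-- **half plane at a floor point** -/
theorem planar_F (q : D.EPt) (hqf : q.c.1 = D.β q.c.2) (hq1 : q.c.2 ≠ 0) (hq2 : q.c.2 ≠ Real.pi / 2) :
    ∃ r, PlanarSec q D.fE (Real.pi / 2) Real.pi r ∧
    (∀ x ∈ ball q r, D.pf < x.c.1 ∧ x.c.2 ≠ 0 ∧ x.c.2 ≠ Real.pi / 2) := by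
  have hq : D.pf < q.c.1 := by rw [hqf]; exact (D.β_mem _ q.c2).1
  have hneg : (D.tau (Real.pi / 2) (D.fE q)).im < 0 := by
    rw [tauh_im]
    apply mul_neg_of_pos_of_neg (D.Tf_pos (q.mem_Tf hq.le))
    apply snk_neg' (κ_lt_pi (D := D) q.c2 half_pi_mem)
    have := lt_of_le_of_ne q.c2.2 hq2
    linarith
  have hpos : 0 < (D.tau 0 (D.fE q)).im := by
    rw [tau0_im]
    apply mul_pos (D.Tf_pos (q.mem_Tf hq.le))
    apply snk_pos
    · have := κ_lt_pi (D := D) q.c2 zero_mem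
      rwa [sub_zero] at this
    · exact lt_of_le_of_ne q.c2.1 (Ne.symm hq1)
  have hre : (D.fE q).re = 0 := (floor_iff _).1 hqf
  obtain ⟨r, hr, hr1, hr2⟩ := planar_at q hq (a := Real.pi / 2)
    (α := Real.pi) Real.pi_pos le_rfl (lt_min hpos (neg_pos.2 hneg)) (by
      intro w hw
      have e1 : Real.pi / 2 + Real.pi = 3 * Real.pi / 2 := by ring
      rw [e1, exp_neg_three_half_pi, exp_neg_half_pi]
      have g1 := lt_of_lt_of_le hw (min_le_left _ _)
      have g2 := lt_of_lt_of_le hw (min_le_right _ _)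
      constructor
      · rintro ⟨h1, h2, h3⟩
        rw [Complex.add_re, hre, zero_add] at h1
        exact ⟨by linarith, by linarith⟩
      · rintro ⟨h1, h2⟩
        refine ⟨by rw [Complex.add_re, hre, zero_add]; linarith, ?_, ?_⟩
        · rw [tau_im_add]
          have := (abs_le.1 (abs_im_le w (D.κ * (0 - D.θf)))).1
          linarith
        · rw [tau_im_add]
          have := (abs_le.1 (abs_im_le w (D.κ * (Real.pi / 2 - D.θf)))).2
          linarith)
  have hlt : ∀ x ∈ ball q r, ‖D.fE x - D.fE q‖ < r := by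
    intro x hx
    have h4 := hr.iso x hx q (mem_ball_self hr.rpos)
    rwa [mem_ball, h4] at hx
  refine ⟨r, hr, fun x hx => ⟨hr2 x hx, fun h0 => ?_, fun h0 => ?_⟩⟩
  · have h1 := (leg_iff x (hr2 x hx).le).1 h0
    have h2 : D.fE x = D.fE q + (D.fE x - D.fE q) := by ring
    rw [h2, tau_im_add] at h1
    have h3 := (abs_le.1 (abs_im_le (D.fE x - D.fE q) (D.κ * (0 - D.θf)))).1
    have h4 := hlt x hx
    have := min_le_left (D.tau 0 (D.fE q)).im (-(D.tau (Real.pi / 2) (D.fE q)).im)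
    linarith
  · have h1 := (axis_iff x (hr2 x hx).le).1 h0
    have h2 : D.fE x = D.fE q + (D.fE x - D.fE q) := by ring
    rw [h2, tau_im_add] at h1
    have h3 := (abs_le.1 (abs_im_le (D.fE x - D.fE q) (D.κ * (Real.pi / 2 - D.θf)))).2
    have h4 := hlt x hx
    have := min_le_right (D.tau 0 (D.fE q)).im (-(D.tau (Real.pi / 2) (D.fE q)).im)
    linarith

end QD
end Pool.MP8e
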