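import Mathlib
import Pool.Agent.Work.MP_8e9dbb.A.FlatSec

/-!
# Part A, file 11: the map `Pr`, representatives of the points of `X`
-/

open Filter Topology Metric Set

namespace Pool.MP8e
namespace QD

variable (D : QD)

theorem fold_of_mem {θ : ℝ} (h : θ ∈ Icc (0:ℝ) (Real.pi / 2)) : fold θ = θ := by
  unfold fold
  rw [abs_of_nonneg (Real.cos_nonneg_of_mem_Icc ⟨by linarith [h.1, Real.pi_pos], h.2⟩)]
  exact Real.arccos_cos h.1 (by linarith [h.2, Real.pi_pos])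

theorem fold_neg (θ : ℝ) : fold (-θ) = fold θ := by unfold fold; rw [Real.cos_neg]

theorem fold_add_pi (θ : ℝ) : fold (θ + Real.pi) = fold θ := by
  unfold fold; rw [Real.cos_add_pi, abs_neg]

theorem fold_pi_sub (θ : ℝ) : fold (Real.pi - θ) = fold θ := by
  unfold fold; rw [Real.cos_pi_sub, abs_neg]

theorem fold_sub_pi (θ : ℝ) : fold (θ - Real.pi) = fold θ := by
  unfold fold; rw [Real.cos_sub_pi, abs_neg]

theorem fold_add_two_pi (θ : ℝ) : fold (θ + 2 * Real.pi) = fold θ := by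
  unfold fold; rw [Real.cos_add_two_pi]

theorem cos_fold (θ : ℝ) : Real.cos (fold θ) = |Real.cos θ| := by
  unfold fold
  exact Real.cos_arccos (by linarith [abs_nonneg (Real.cos θ)]) (Real.abs_cos_le_one θ)

theorem sin_fold (θ : ℝ) : Real.sin (fold θ) = |Real.sin θ| := by
  unfold fold
  rw [Real.sin_arccos, sq_abs, ← Real.abs_sin_eq_sqrt_one_sub_cos_sq]

theorem continuous_fold : Continuous fold := by
  unfold fold
  exact Real.continuous_arccos.comp Real.continuous_cos.abs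

theorem βh_neg (θ : ℝ) : D.βh (-θ) = D.βh θ := by unfold βh; rw [fold_neg]

theorem βh_of_mem {θ : ℝ} (h : θ ∈ Icc (0:ℝ) (Real.pi / 2)) : D.βh θ = D.β θ := by
  unfold βh; rw [fold_of_mem h]

theorem continuous_βh : Continuous D.βh := by
  rw [← continuousOn_univ]
  exact D.cont_β.comp continuous_fold.continuousOn (fun x _ => fold_mem x)

/-- the angle with given sides -/
noncomputable def ang (s1 s2 : Bool) (θ : ℝ) : ℝ :=
  if s2 then (if s1 then θ - Real.pi else -θ) else (if s1 then Real.pi - θ else θ)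

theorem fold_ang (s1 s2 : Bool) (θ : ℝ) : fold (ang s1 s2 θ) = fold θ := by
  unfold ang
  cases s1 <;> cases s2 <;> simp [fold_neg, fold_pi_sub, fold_sub_pi]

theorem cos_ang (s1 s2 : Bool) (θ : ℝ) : Real.cos (ang s1 s2 θ) =
    if s1 then -Real.cos θ else Real.cos θ := by
  unfold ang
  cases s1 <;> cases s2 <;> simp [Real.cos_pi_sub, Real.cos_sub_pi]

theorem sin_ang (s1 s2 : Bool) (θ : ℝ) : Real.sin (ang s1 s2 θ) =
    if s2 then -Real.sin θ else Real.sin θ := by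
  unfold ang
  cases s1 <;> cases s2 <;> simp [Real.sin_pi_sub, Real.sin_sub_pi]

/-- the sides of an angle -/
noncomputable def sd1 (θ : ℝ) : Bool := decide (Real.cos θ < 0)

/-- the sides of an angle -/
noncomputable def sd2 (θ : ℝ) : Bool := decide (Real.sin θ < 0)

theorem pr_eq (x : ℝ × ℝ) : D.pr x = ⟨⟨D.ept x, sd1 x.2⟩, sd2 x.2⟩ := rfl

/-- every angle is `ang s1 s2 (fold θ)` modulo `2π` -/
theorem exists_ang (θ : ℝ) : ∃ n : ℤ, θ = ang (sd1 θ) (sd2 θ) (fold θ) + n * (2 * Real.pi) := by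
  have hc : Real.cos (ang (sd1 θ) (sd2 θ) (fold θ)) = Real.cos θ := by
    rw [cos_ang, cos_fold]
    unfold sd1
    by_cases h : Real.cos θ < 0
    · simp [h, abs_of_neg h]
    · simp [h, abs_of_nonneg (not_lt.1 h)]
  have hs : Real.sin (ang (sd1 θ) (sd2 θ) (fold θ)) = Real.sin θ := by
    rw [sin_ang, sin_fold]
    unfold sd2
    by_cases h : Real.sin θ < 0
    · simp [h, abs_of_neg h]
    · simp [h, abs_of_nonneg (not_lt.1 h)]
  have := Real.Angle.cos_sin_inj hc hs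
  rw [Real.Angle.angle_eq_iff_two_pi_dvd_sub] at this
  obtain ⟨k, hk⟩ := this
  exact ⟨-k, by push_cast; linarith⟩

theorem cos_sin_inj {a b : ℝ} (hc : Real.cos a = Real.cos b) (hs : Real.sin a = Real.sin b) :
    ∃ n : ℤ, a = b + n * (2 * Real.pi) := by
  have := Real.Angle.cos_sin_inj hc hs
  rw [Real.Angle.angle_eq_iff_two_pi_dvd_sub] at this
  obtain ⟨k, hk⟩ := this
  exact ⟨k, by linarith⟩

variable {D}

theorem ept_c {x : ℝ × ℝ} (h0 : 0 ≤ x.1) (h1 : x.1 ≤ D.βh x.2) :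
    (D.ept x).c = (x.1, fold x.2) := by
  change (D.cut x.1 x.2, fold x.2) = _
  rw [D.cut_eq h0 h1]

theorem ept_c2 (x : ℝ × ℝ) : (D.ept x).c.2 = fold x.2 := rfl

theorem ept_c1 (x : ℝ × ℝ) : (D.ept x).c.1 = D.cut x.1 x.2 := rfl

theorem ept_ang (e : D.EPt) (s1 s2 : Bool) : D.ept (e.c.1, ang s1 s2 e.c.2) = e := by
  have h1 : fold (ang s1 s2 e.c.2) = e.c.2 := by rw [fold_ang, fold_of_mem e.c2]
  apply EPt.ext'
  rw [ept_c (x := (e.c.1, ang s1 s2 e.c.2)) e.c1.1 (by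
    simp only; unfold βh; rw [h1]; exact e.c_le)]
  simp only [h1]

/-- equal sides or on the axis: distance `0` in the half surface -/
theorem dist_D1 (e : D.EPt) {i j : Bool} (h : i = j ∨ e.c.2 = Real.pi / 2) :
    dist (⟨e, i⟩ : D.D1) ⟨e, j⟩ = 0 := by
  rcases h with h | h
  · rw [h, dist_self]
  · exact Dbl.dist_copy (S := D.axis) h i j

/-- every point of `XX` is represented by a point `(p, θ)` -/
theorem dist_pr_ang (e : D.EPt) (s1 s2 : Bool) :
    dist (⟨⟨e, s1⟩, s2⟩ : D.XX) (D.pr (e.c.1, ang s1 s2 e.c.2)) = 0 := by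
  rw [pr_eq, ept_ang]
  simp only
  set j1 := sd1 (ang s1 s2 e.c.2) with hj1
  set j2 := sd2 (ang s1 s2 e.c.2) with hj2
  have hcos : 0 ≤ Real.cos e.c.2 :=
    Real.cos_nonneg_of_mem_Icc ⟨by linarith [e.c2.1, Real.pi_pos], e.c2.2⟩
  have hsin : 0 ≤ Real.sin e.c.2 :=
    Real.sin_nonneg_of_nonneg_of_le_pi e.c2.1 (by linarith [e.c2.2, Real.pi_pos])
  have h1 : s1 = j1 ∨ e.c.2 = Real.pi / 2 := by
    by_cases hc : e.c.2 = Real.pi / 2
    · exact Or.inr hc
    · left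
      have hc' : 0 < Real.cos e.c.2 := Real.cos_pos_of_mem_Ioo
        ⟨by linarith [e.c2.1, Real.pi_pos], lt_of_le_of_ne e.c2.2 hc⟩
      rw [hj1]; unfold sd1; rw [cos_ang]
      cases s1 <;> simp [hc', hc'.le]
  have h2 : s2 = j2 ∨ e.c.2 = 0 := by
    by_cases hc : e.c.2 = 0
    · exact Or.inr hc
    · left
      have hc' : 0 < Real.sin e.c.2 := Real.sin_pos_of_pos_of_lt_pi
        (lt_of_le_of_ne e.c2.1 (Ne.symm hc)) (by linarith [e.c2.2, Real.pi_pos])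
      rw [hj2]; unfold sd2; rw [sin_ang]
      cases s2 <;> simp [hc', hc'.le]
  have e1 : dist (⟨⟨e, s1⟩, s2⟩ : D.XX) ⟨⟨e, j1⟩, s2⟩ = 0 := by
    rw [Dbl.dist_same]; exact dist_D1 e h1
  have e2 : dist (⟨⟨e, j1⟩, s2⟩ : D.XX) ⟨⟨e, j1⟩, j2⟩ = 0 := by
    rcases h2 with h2 | h2
    · rw [← h2, dist_self]
    · exact Dbl.dist_copy (S := D.bd1) (show e.c.2 = 0 ∨ _ from Or.inl h2) s2 j2
  have e3 := dist_triangle (⟨⟨e, s1⟩, s2⟩ : D.XX) ⟨⟨e, j1⟩, s2⟩ ⟨⟨e, j1⟩, j2⟩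
  rw [e1, e2, add_zero] at e3
  exact le_antisymm e3 dist_nonneg

theorem mk_eq_Pr (e : D.EPt) (s1 s2 : Bool) :
    (SeparationQuotient.mk (⟨⟨e, s1⟩, s2⟩ : D.XX) : D.X) = D.Pr (e.c.1, ang s1 s2 e.c.2) := by
  unfold Pr
  rw [SeparationQuotient.mk_eq_mk, Metric.inseparable_iff]
  exact dist_pr_ang e s1 s2

/-- two lifts of the same point -/
theorem mk_eq_mk_iff (x y : D.XX) :
    (SeparationQuotient.mk x : D.X) = SeparationQuotient.mk y ↔ dist x y = 0 := by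
  rw [SeparationQuotient.mk_eq_mk, Metric.inseparable_iff]

/-- NEAR for the quarter domain -/
theorem near' (q : D.EPt) (hq : 0 < q.c.1) {η : ℝ} (hη : 0 < η) :
    ∃ r > 0, ∀ x : D.EPt, dist x q < r → dist x.c q.c < η := by
  obtain ⟨r, hr, H⟩ := D.near q.1 hq hη
  exact ⟨r, hr, fun x hx => H x.1 hx⟩

/-- a point off the axis has positive distance from the axis -/
theorem axis_away (q : D.EPt) (hq : 0 < q.c.1) (h : q.c.2 ≠ Real.pi / 2) :
    ∃ r > 0, ∀ z ∈ D.axis, r ≤ dist q z := by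
  have hη : 0 < Real.pi / 2 - q.c.2 := by
    have := lt_of_le_of_ne q.c2.2 h; linarith
  obtain ⟨r, hr, H⟩ := near' q hq hη
  refine ⟨r, hr, fun z hz => ?_⟩
  by_contra hcon
  push Not at hcon
  have h1 := H z (by rwa [dist_comm])
  rw [Prod.dist_eq] at h1
  have h2 := lt_of_le_of_lt (le_max_right _ _) h1
  rw [Real.dist_eq, show z.c.2 = Real.pi / 2 from hz, abs_of_pos hη] at h2
  linarith

/-- a point off leg and floor has positive distance from leg and floor -/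
theorem bd_away (q : D.EPt) (hq : 0 < q.c.1) (h1 : q.c.2 ≠ 0) (h2 : q.c.1 ≠ D.β q.c.2) :
    ∃ r > 0, ∀ z ∈ D.bd, r ≤ dist q z := by
  have hθ : 0 < q.c.2 := lt_of_le_of_ne q.c2.1 (Ne.symm h1)
  have hβ : 0 < D.β q.c.2 - q.c.1 := by
    have := lt_of_le_of_ne q.c_le h2; linarith
  obtain ⟨δ, hδ, H⟩ := Metric.continuousWithinAt_iff.1 (D.cont_β q.c.2 q.c2)
    ((D.β q.c.2 - q.c.1) / 2) (by linarith)
  obtain ⟨r, hr, H2⟩ := near' q hq (lt_min hδ (lt_min hθ (half_pos hβ)))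
  refine ⟨r, hr, fun z hz => ?_⟩
  by_contra hcon
  push Not at hcon
  have h3 := H2 z (by rwa [dist_comm])
  rw [Prod.dist_eq] at h3
  have h4 := lt_of_le_of_lt (le_max_right _ _) h3
  have h5 := lt_of_le_of_lt (le_max_left _ _) h3
  have h6 := lt_of_lt_of_le h4 (min_le_left _ _)
  have h7 := lt_of_lt_of_le h4 ((min_le_right _ _).trans (min_le_left _ _))
  have h8 := lt_of_lt_of_le h5 ((min_le_right _ _).trans (min_le_right _ _))
  have h9 := H z.c2 h6
  rcases hz with hz | hz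
  · rw [hz, Real.dist_eq, zero_sub, abs_neg, abs_of_pos hθ] at h7
    linarith
  · rw [Real.dist_eq, abs_lt] at h8 h9
    rw [hz] at h8
    linarith [h8.2, h9.1]

theorem bd1_away (q : D.EPt) (hq : 0 < q.c.1) (h1 : q.c.2 ≠ 0) (h2 : q.c.1 ≠ D.β q.c.2) (i : Bool) :
    ∃ r > 0, ∀ z ∈ D.bd1, r ≤ dist (⟨q, i⟩ : D.D1) z := by
  obtain ⟨r, hr, H⟩ := bd_away q hq h1 h2
  exact ⟨r, hr, fun z hz => (H z.pt hz).trans (Dbl.dist_pt_le (⟨q, i⟩ : D.D1) z)⟩

end QD
end Pool.MP8e
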