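import Mathlib
import Pool.Agent.Work.MP_8e9dbb.A.Repr

/-!
# Part A, file 12: the cone points of `X`
-/

open Filter Topology Metric Set

namespace Pool.MP8e

/-- a representative of a point of the separation quotient -/
noncomputable def rep {Y : Type} [PseudoMetricSpace Y] (x : SeparationQuotient Y) : Y :=
  Function.surjInv SeparationQuotient.surjective_mk x

theorem mk_rep {Y : Type} [PseudoMetricSpace Y] (x : SeparationQuotient Y) :
    SeparationQuotient.mk (rep x) = x := Function.surjInv_eq _ x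

theorem dist_rep {Y : Type} [PseudoMetricSpace Y] (x y : SeparationQuotient Y) :
    dist x y = dist (rep x) (rep y) := by
  conv_lhs => rw [← mk_rep x, ← mk_rep y]
  exact SeparationQuotient.dist_mk _ _

theorem dist_mk_rep {Y : Type} [PseudoMetricSpace Y] (x : SeparationQuotient Y) (p : Y) :
    dist x (SeparationQuotient.mk p) = dist (rep x) p := by
  conv_lhs => rw [← mk_rep x]
  exact SeparationQuotient.dist_mk _ _

theorem dist_rep_mk {Y : Type} [PseudoMetricSpace Y] (p : Y) :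
    dist (rep (SeparationQuotient.mk p)) p = 0 := by
  rw [← dist_mk_rep, dist_self]

theorem rep_mem_ball {Y : Type} [PseudoMetricSpace Y] {x p : Y} {r : ℝ} (hx : x ∈ ball p r) :
    rep (SeparationQuotient.mk x) ∈ ball p r := by
  have := dist_triangle (rep (SeparationQuotient.mk x)) x p
  rw [dist_rep_mk, zero_add] at this
  exact lt_of_le_of_lt this hx

theorem angleGap_bdd (θ a b : ℝ) : BddBelow (range fun n : ℤ => |a - b + n * θ|) :=
  ⟨0, by rintro _ ⟨n, rfl⟩; positivity⟩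

theorem angleGap_nonneg (θ a b : ℝ) : 0 ≤ angleGap θ a b :=
  Real.iInf_nonneg fun _ => abs_nonneg _

theorem angleGap_le (θ a b : ℝ) (n : ℤ) : angleGap θ a b ≤ |a - b + n * θ| :=
  ciInf_le (angleGap_bdd θ a b) n

theorem angleGap_triangle (θ a b c : ℝ) : angleGap θ a c ≤ angleGap θ a b + angleGap θ b c := by
  refine le_of_forall_pos_le_add fun ε hε => ?_
  obtain ⟨n, hn⟩ := exists_lt_of_ciInf_lt (show (⨅ n : ℤ, |a - b + n * θ|) <
    angleGap θ a b + ε / 2 by unfold angleGap; linarith)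
  obtain ⟨m, hm⟩ := exists_lt_of_ciInf_lt (show (⨅ n : ℤ, |b - c + n * θ|) <
    angleGap θ b c + ε / 2 by unfold angleGap; linarith)
  refine (angleGap_le θ a c (n + m)).trans ?_
  have : a - c + ((n + m : ℤ) : ℝ) * θ = (a - b + n * θ) + (b - c + m * θ) := by
    push_cast; ring
  rw [this]
  refine (abs_add_le _ _).trans ?_
  linarith

theorem coneDist_eq_zero_iff {θ : ℝ} {x y : ℝ × ℝ} (hx : 0 ≤ x.1) (hy : 0 ≤ y.1) :
    coneDist θ x y = 0 ↔ x.1 = y.1 ∧ (x.1 = 0 ∨ angleGap θ x.2 y.2 = 0) := by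
  constructor
  · intro h
    rw [coneDist_eq] at h
    have h1 := abs_sub_le_lawc (φ := angleGap θ x.2 y.2) hx hy
    rw [h] at h1
    have h2 : x.1 = y.1 := by
      have := abs_nonpos_iff.1 h1; linarith
    refine ⟨h2, ?_⟩
    rcases eq_or_lt_of_le hx with h0 | h0
    · exact Or.inl h0.symm
    right
    unfold lawc at h
    rw [← h2] at h
    have h3 : x.1 ^ 2 + x.1 ^ 2 - 2 * x.1 * x.1 * Real.cos (min (angleGap θ x.2 y.2) Real.pi) ≤ 0 :=
      Real.sqrt_eq_zero'.1 h
    have h4 : 1 ≤ Real.cos (min (angleGap θ x.2 y.2) Real.pi) := by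
      have : 0 < x.1 ^ 2 := by positivity
      nlinarith
    have h5 := le_antisymm (Real.cos_le_one _) h4
    have hm0 : 0 ≤ min (angleGap θ x.2 y.2) Real.pi := le_min (angleGap_nonneg _ _ _) Real.pi_pos.le
    have hm1 : min (angleGap θ x.2 y.2) Real.pi ≤ Real.pi := min_le_right _ _
    have h6 : min (angleGap θ x.2 y.2) Real.pi = 0 := by
      rw [Real.cos_eq_one_iff_of_lt_of_lt (by linarith [Real.pi_pos]) (by linarith [Real.pi_pos])] at h5
      exact h5
    rcases min_cases (angleGap θ x.2 y.2) Real.pi with ⟨e, _⟩ | ⟨e, _⟩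
    · rw [← e, h6]
    · rw [e] at h6; linarith [Real.pi_pos]
  · rintro ⟨h1, h2⟩
    rw [coneDist_eq]
    rcases h2 with h2 | h2
    · rw [← h1, h2, lawc_zero_left _ _ le_rfl]
    · rw [h2, lawc_zero_ang, h1]; simp

theorem coneDist_zero_trans {θ : ℝ} {x y z : ℝ × ℝ} (hx : 0 ≤ x.1) (hy : 0 ≤ y.1) (hz : 0 ≤ z.1)
    (h1 : coneDist θ x y = 0) (h2 : coneDist θ y z = 0) : coneDist θ x z = 0 := by
  rw [coneDist_eq_zero_iff hx hy] at h1
  rw [coneDist_eq_zero_iff hy hz] at h2
  rw [coneDist_eq_zero_iff hx hz]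
  refine ⟨h1.1.trans h2.1, ?_⟩
  rcases h1.2 with h3 | h3
  · exact Or.inl h3
  rcases h2.2 with h4 | h4
  · exact Or.inl (by rw [h1.1, h4])
  right
  have := angleGap_triangle θ x.2 y.2 z.2
  rw [h3, h4, add_zero] at this
  exact le_antisymm this (angleGap_nonneg _ _ _)

theorem ConePt.mk {Y : Type} [PseudoMetricSpace Y] {p : Y} {θ : ℝ} (h : ConePt p θ) :
    IsConePoint (SeparationQuotient.mk p) θ := by
  obtain ⟨r, hr, ψ, h1, h2, h3⟩ := h
  have key : ∀ x : SeparationQuotient Y, x ∈ ball (SeparationQuotient.mk p) r → rep x ∈ ball p r := by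
    intro x hx
    rwa [mem_ball, dist_mk_rep] at hx
  refine ⟨r, hr, fun x => ψ (rep x), fun x hx => ?_, fun x hx y hy => ?_, fun s φ hs hsr => ?_⟩
  · rw [dist_mk_rep]; exact h1 _ (key x hx)
  · rw [dist_rep]; exact h2 _ (key x hx) _ (key y hy)
  · obtain ⟨x, hx, hx2⟩ := h3 s φ hs hsr
    have hx' := rep_mem_ball hx
    refine ⟨SeparationQuotient.mk x, by rw [mem_ball, dist_mk_rep]; exact hx', ?_⟩
    have e0 := h2 _ hx' _ hx
    rw [dist_rep_mk] at e0
    exact coneDist_zero_trans (h1 _ hx').1 (h1 _ hx).1 hs e0.symm hx2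

namespace IsSector

variable {M : Type} [PseudoMetricSpace M] {p : M} {α r : ℝ} {ψ : M → ℝ × ℝ}

/-- polar coordinates on the double along one side -/
def psi1 (α : ℝ) (ψ : M → ℝ × ℝ) {S : Set M} (x : Dbl M S) : ℝ × ℝ :=
  ((ψ x.pt).1, if x.side then α - (ψ x.pt).2 else α + (ψ x.pt).2)

variable {S T : Set M} [Nonempty S]

theorem sides_double_one (h : IsSector p α r ψ) (h0 : HasSide p r ψ S 0)
    (hT : HasSide p r ψ T α) (i : Bool) :
    HasSide (⟨p, i⟩ : Dbl M S) (r / 3) (psi1 α ψ) {x | x.pt ∈ T} 0 ∧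
      HasSide (⟨p, i⟩ : Dbl M S) (r / 3) (psi1 α ψ) {x | x.pt ∈ T} (2 * α) := by
  have hr := h.rpos
  constructor
  · intro s hs hsr
    obtain ⟨x, hx, hxT, e1, e2⟩ := hT s hs (by linarith)
    refine ⟨⟨x, true⟩, ?_, hxT, e1, ?_⟩
    · rw [mem_ball, h.dist_dbl_apex (S := S) (Or.inl h0)]
      simp only
      rw [h.rad x hx, e1]; exact hsr
    · refine e2.imp id fun e3 => ?_
      unfold psi1
      simp [e3]
  · intro s hs hsr
    obtain ⟨x, hx, hxT, e1, e2⟩ := hT s hs (by linarith)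
    refine ⟨⟨x, false⟩, ?_, hxT, e1, ?_⟩
    · rw [mem_ball, h.dist_dbl_apex (S := S) (Or.inl h0)]
      simp only
      rw [h.rad x hx, e1]; exact hsr
    · refine e2.imp id fun e3 => ?_
      unfold psi1
      simp [e3]; ring

theorem sides_double_one' (h : IsSector p α r ψ) (h0 : HasSide p r ψ S 0)
    (hT : ∀ x ∈ ball p r, x ∈ T → (ψ x).1 = 0 ∨ (ψ x).2 = α) (i : Bool) :
    ∀ x ∈ ball (⟨p, i⟩ : Dbl M S) (r / 3), x ∈ {x : Dbl M S | x.pt ∈ T} →
      (psi1 α ψ x).1 = 0 ∨ (psi1 α ψ x).2 = 0 ∨ (psi1 α ψ x).2 = 2 * α := by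
  have hr := h.rpos
  rintro ⟨x, j⟩ hx hxT
  have hx' : x ∈ ball p r := by
    rw [mem_ball, h.dist_dbl_apex (S := S) (Or.inl h0)] at hx
    rw [mem_ball]; simp only at hx; linarith
  rcases hT x hx' hxT with h1 | h1
  · exact Or.inl h1
  · right
    unfold psi1
    cases j
    · right; simp [h1]; ring
    · left; simp [h1]

end IsSector

namespace QD

variable {D : QD}

/-- the pole is a cone point -/
theorem cone_P (i j : Bool) : ConePt (⟨⟨D.eP, i⟩, j⟩ : D.XX) (2 * Real.pi * D.kN) := by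
  obtain ⟨r, h, he, hax, hbd⟩ := sector_P (D := D)
  have hf := h.flip
  have hax' : HasSide D.eP r (fun x : D.EPt => (D.sP x.c.1, D.αP - D.kN * x.c.2)) D.axis 0 := by
    have := hax.flip (α := D.αP)
    rwa [sub_self] at this
  have hbd' : HasSide D.eP r (fun x : D.EPt => (D.sP x.c.1, D.αP - D.kN * x.c.2)) D.bd D.αP := by
    have := hbd.flip (α := D.αP)
    rwa [sub_zero] at this
  have h1 := IsSector.double_one (S := D.axis) hf hax' (fun x _ hxS => Or.inr (by
    simp only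
    rw [show x.c.2 = Real.pi / 2 from hxS]
    unfold αP; ring)) i
  obtain ⟨s1, s2⟩ := IsSector.sides_double_one (S := D.axis) hf hax' hbd' i
  have s3 := IsSector.sides_double_one' (S := D.axis) (T := D.bd) hf hax' (fun x hx hxS => Or.inr (by
    simp only
    rcases hxS with h2 | h2
    · rw [h2]; ring
    · exfalso
      have := he x hx
      rw [h2] at this
      have := (D.β_mem' x.c2).1
      linarith [D.e₀_lt])) i
  have h2 := IsSector.double_two (S := D.bd1) h1 s1 s2 s3 j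
  have e : 2 * (2 * D.αP) = 2 * Real.pi * D.kN := by unfold αP; ring
  rwa [e] at h2

/-- `A`, `B` are cone points -/
theorem cone_B (i j : Bool) : ConePt (⟨⟨D.eB, i⟩, j⟩ : D.XX) D.angAB := by
  obtain ⟨r, h, hx⟩ := planar_B (D := D)
  have hs := h.isSector
  obtain ⟨r', hr', hax⟩ := axis_away D.eB (D.pf_pos.trans (D.β_mem _ zero_mem).1)
    (by rw [eB_c]; exact (Real.pi_div_two_pos).ne)
  have e1 : Real.pi / 2 + D.αB = Real.pi + D.κ * (0 - D.θf) := by unfold αB; ring
  -- membership in `bd`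
  have hbd : ∀ x ∈ ball D.eB r, x ∈ D.bd → (psi D.fE D.eB (Real.pi / 2) x).1 = 0 ∨
      (psi D.fE D.eB (Real.pi / 2) x).2 = 0 ∨ (psi D.fE D.eB (Real.pi / 2) x).2 = D.αB := by
    intro x hxb hxS
    have hne := D.αB_lt.ne
    have hre : (D.fE D.eB).re = 0 := (floor_iff _).1 rfl
    have hleg : (D.tau 0 (D.fE D.eB)).im = 0 := (leg_iff _ (D.β_mem _ zero_mem).1.le).1 rfl
    rcases hxS with h2 | h2
    · have h3 := (leg_iff x (hx x hxb).1.le).1 h2
      have h4 : D.fE x = D.fE D.eB + (D.fE x - D.fE D.eB) := by ring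
      rw [h4, tau_im_add, hleg, zero_add] at h3
      rcases h.eq_alpha_or hxb (by rw [e1, exp_neg_pi_add, h3, neg_zero]) with h5 | h5 | h5
      · exact Or.inl h5
      · exact Or.inr (Or.inr h5)
      · exact absurd h5.1 hne
    · have h3 := (floor_iff x).1 h2
      rcases h.eq_zero_or hxb (by rw [exp_neg_half_pi, Complex.sub_re, h3, hre]; simp) with h5 | h5 | h5
      · exact Or.inl h5
      · exact Or.inr (Or.inl h5)
      · exact absurd h5.1 hne
  have side0 : HasSide D.eB r (psi D.fE D.eB (Real.pi / 2)) D.bd 0 := by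
    refine h.hasSide le_rfl D.αB_pos.le fun x hxb => ?_
    rintro ⟨s, hs, hsx⟩
    right
    rw [floor_iff]
    have hre : (D.fE D.eB).re = 0 := (floor_iff _).1 rfl
    have : (D.fE x - D.fE D.eB).re = 0 := by
      rw [hsx, add_zero]; simp [pol]
    rw [Complex.sub_re, hre] at this
    linarith
  have sideα : HasSide D.eB r (psi D.fE D.eB (Real.pi / 2)) D.bd D.αB := by
    refine h.hasSide D.αB_pos.le le_rfl fun x hxb => ?_
    rintro ⟨s, hs, hsx⟩
    left
    rw [leg_iff x (hx x hxb).1.le]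
    have hleg : (D.tau 0 (D.fE D.eB)).im = 0 := (leg_iff _ (D.β_mem _ zero_mem).1.le).1 rfl
    have h4 : D.fE x = D.fE D.eB + (D.fE x - D.fE D.eB) := by ring
    rw [h4, tau_im_add, hleg, zero_add, hsx, e1, pol_mul_exp_neg, add_sub_cancel_right,
      Real.sin_pi, mul_zero]
  set r1 := min r r' with hr1
  have hr10 : 0 < r1 := lt_min h.rpos hr'
  have hle : r1 ≤ r := min_le_left _ _
  have ha := hs.dbl_away (S := D.axis) hr10 hle
    (fun z hz => (min_le_right _ _).trans (hax z hz)) i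
  have key : ∀ x : D.D1, x ∈ ball (⟨D.eB, i⟩ : D.D1) r1 → x.pt ∈ ball D.eB r := fun x hxb =>
    lt_of_le_of_lt (Dbl.dist_pt_le _ _) (lt_of_lt_of_le hxb hle)
  have lift : ∀ {φ : ℝ}, HasSide D.eB r (psi D.fE D.eB (Real.pi / 2)) D.bd φ →
      HasSide (⟨D.eB, i⟩ : D.D1) r1 (fun x => psi D.fE D.eB (Real.pi / 2) x.pt) D.bd1 φ := by
    intro φ hφ s hs hsr
    obtain ⟨x, hxb, hxS, e2, e3⟩ := hφ s hs (hsr.trans_le hle)
    exact ⟨⟨x, i⟩, by rw [mem_ball, Dbl.dist_same, h.isSector.rad x hxb, e2]; exact hsr, hxS, e2, e3⟩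
  have h2 := IsSector.double_two (S := D.bd1) ha (lift side0) (lift sideα)
    (fun x hxb hxS => hbd x.pt (key x hxb) hxS) j
  rwa [angAB_eq]

end QD
end Pool.MP8e
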