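import Mathlib
import Pool.Agent.Work.MP_8e9dbb.A.Cones

/-!
# Part A, file 13: the cone point `Q` with explicit polar coordinates
-/

open Filter Topology Metric Set

namespace Pool.MP8e

theorem angleGap_neg (θ a b c : ℝ) : angleGap θ (c - a) (c - b) = angleGap θ a b := by
  unfold angleGap
  refine (Equiv.iInf_congr (Equiv.neg ℤ) fun n => ?_)
  rw [← abs_neg]; congr 1
  push_cast [Equiv.neg_apply]; ring

theorem coneDist_neg (θ c : ℝ) (x y : ℝ × ℝ) :
    coneDist θ (x.1, c - x.2) (y.1, c - y.2) = coneDist θ x y := by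
  rw [coneDist_eq, coneDist_eq]; simp only; rw [angleGap_neg]

namespace QD

variable {D : QD}

theorem Pr_Q : D.pr (D.β (Real.pi / 2), Real.pi / 2) = ⟨⟨D.eQ, false⟩, false⟩ := by
  rw [pr_eq]
  have h1 : D.ept (D.β (Real.pi / 2), Real.pi / 2) = D.eQ := by
    apply EPt.ext'
    rw [ept_c (x := (D.β (Real.pi / 2), Real.pi / 2)) (D.pf_pos.le.trans (D.β_mem' half_pi_mem).1)
      (by simp only; rw [D.βh_of_mem half_pi_mem])]
    rw [eQ_c]; simp only; rw [fold_of_mem half_pi_mem]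
  rw [h1]
  simp [sd1, sd2]

theorem Pr_P : D.pr (0, 0) = ⟨⟨D.eP, false⟩, false⟩ := by
  rw [pr_eq]
  have h1 : D.ept (0, 0) = D.eP := by
    apply EPt.ext'
    rw [ept_c (x := ((0:ℝ), (0:ℝ))) le_rfl (D.βh_pos 0).le]
    rw [eP_c]; simp only; rw [fold_of_mem zero_mem]
  rw [h1]
  simp [sd1, sd2]

theorem Pr_B : D.pr (D.β 0, 0) = ⟨⟨D.eB, false⟩, false⟩ := by
  rw [pr_eq]
  have h1 : D.ept (D.β 0, 0) = D.eB := by
    apply EPt.ext'
    rw [ept_c (x := (D.β 0, (0:ℝ))) (D.pf_pos.le.trans (D.β_mem' zero_mem).1)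
      (by simp only; rw [D.βh_of_mem zero_mem])]
    rw [eB_c]; simp only; rw [fold_of_mem zero_mem]
  rw [h1]
  simp [sd1, sd2]

theorem Pr_A : D.pr (D.β 0, Real.pi) = ⟨⟨D.eB, true⟩, false⟩ := by
  rw [pr_eq]
  have hf : fold Real.pi = 0 := by
    have := fold_pi_sub 0
    rw [sub_zero, fold_of_mem zero_mem] at this
    exact this
  have h1 : D.ept (D.β 0, Real.pi) = D.eB := by
    apply EPt.ext'
    rw [ept_c (x := (D.β 0, Real.pi)) (D.pf_pos.le.trans (D.β_mem' zero_mem).1)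
      (by simp only; unfold βh; rw [hf])]
    rw [eB_c]; simp only; rw [hf]
  rw [h1]
  simp [sd1, sd2]

theorem fact_coneP : IsConePoint (D.Pr (0, 0)) (2 * Real.pi * D.kN) := by
  unfold Pr; rw [Pr_P]; exact (cone_P false false).mk

theorem fact_coneB : IsConePoint (D.Pr (D.β 0, 0)) D.angAB := by
  unfold Pr; rw [Pr_B]; exact (cone_B false false).mk

theorem fact_coneA : IsConePoint (D.Pr (D.β 0, Real.pi)) D.angAB := by
  unfold Pr; rw [Pr_A]; exact (cone_B true false).mk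

/-- sides of the sector at `Q` -/
theorem sides_Q {r : ℝ} (h : PlanarSec D.eQ D.fE (Real.pi + D.κ * (Real.pi / 2 - D.θf)) D.αQ r)
    (hx : ∀ x ∈ ball D.eQ r, D.pf < x.c.1 ∧ x.c.2 ≠ 0) :
    (∀ x ∈ ball D.eQ r, x ∈ D.axis →
      (psi D.fE D.eQ (Real.pi + D.κ * (Real.pi / 2 - D.θf)) x).1 = 0 ∨
      (psi D.fE D.eQ (Real.pi + D.κ * (Real.pi / 2 - D.θf)) x).2 = 0) ∧
    (∀ x ∈ ball D.eQ r, x ∈ D.bd →
      (psi D.fE D.eQ (Real.pi + D.κ * (Real.pi / 2 - D.θf)) x).1 = 0 ∨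
      (psi D.fE D.eQ (Real.pi + D.κ * (Real.pi / 2 - D.θf)) x).2 = D.αQ) ∧
    HasSide D.eQ r (psi D.fE D.eQ (Real.pi + D.κ * (Real.pi / 2 - D.θf))) D.axis 0 ∧
    HasSide D.eQ r (psi D.fE D.eQ (Real.pi + D.κ * (Real.pi / 2 - D.θf))) D.bd D.αQ := by
  have hne := D.αQ_lt.ne
  have hre : (D.fE D.eQ).re = 0 := (floor_iff _).1 rfl
  have hax : (D.tau (Real.pi / 2) (D.fE D.eQ)).im = 0 :=
    (axis_iff _ (D.β_mem _ half_pi_mem).1.le).1 rfl
  have e1 : Real.pi + D.κ * (Real.pi / 2 - D.θf) + D.αQ = 3 * Real.pi / 2 := by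
    unfold αQ; ring
  have hsplit : ∀ x, D.fE x = D.fE D.eQ + (D.fE x - D.fE D.eQ) := fun x => by ring
  refine ⟨fun x hxb hxS => ?_, fun x hxb hxS => ?_, ?_, ?_⟩
  · have h3 := (axis_iff x (hx x hxb).1.le).1 hxS
    rw [hsplit x, tau_im_add, hax, zero_add] at h3
    rcases h.eq_zero_or hxb (by rw [exp_neg_pi_add, h3, neg_zero]) with h5 | h5 | h5
    · exact Or.inl h5
    · exact Or.inr h5
    · exact absurd h5.1 hne
  · have h2 := hxS.resolve_left (hx x hxb).2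
    have h3 := (floor_iff x).1 h2
    rcases h.eq_alpha_or hxb (by rw [e1, exp_neg_three_half_pi, Complex.sub_re, h3, hre]; simp)
      with h5 | h5 | h5
    · exact Or.inl h5
    · exact Or.inr h5
    · exact absurd h5.1 hne
  · refine h.hasSide le_rfl D.αQ_pos.le fun x hxb => ?_
    rintro ⟨s, hs, hsx⟩
    change x.c.2 = Real.pi / 2
    rw [axis_iff x (hx x hxb).1.le, hsplit x, tau_im_add, hax, zero_add, hsx, pol_mul_exp_neg,
      add_zero, add_sub_cancel_right, Real.sin_pi, mul_zero]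
  · refine h.hasSide D.αQ_pos.le le_rfl fun x hxb => ?_
    rintro ⟨s, hs, hsx⟩
    right
    rw [floor_iff, hsplit x, Complex.add_re, hre, zero_add, hsx, e1]
    have : Real.cos (3 * Real.pi / 2) = 0 := by
      rw [show 3 * Real.pi / 2 = Real.pi / 2 + Real.pi by ring, Real.cos_add_pi,
        Real.cos_pi_div_two, neg_zero]
    simp [pol, this]

/-- the cone point `Q` -/
theorem fact_coneQ : ∀ η > 0, ∃ r > 0, ∃ ψ : D.X → ℝ × ℝ,
    (∀ x ∈ ball (D.Pr (D.β (Real.pi / 2), Real.pi / 2)) r, 0 ≤ (ψ x).1 ∧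
      dist x (D.Pr (D.β (Real.pi / 2), Real.pi / 2)) = (ψ x).1) ∧
    (∀ x ∈ ball (D.Pr (D.β (Real.pi / 2), Real.pi / 2)) r,
      ∀ y ∈ ball (D.Pr (D.β (Real.pi / 2), Real.pi / 2)) r,
        dist x y = coneDist (4 * D.αQ) (ψ x) (ψ y)) ∧
    (∀ s φ : ℝ, 0 ≤ s → s < r → ∃ x ∈ ball (D.Pr (D.β (Real.pi / 2), Real.pi / 2)) r,
      coneDist (4 * D.αQ) (ψ x) (s, φ) = 0) ∧
    (∀ x ∈ ball (D.Pr (D.β (Real.pi / 2), Real.pi / 2)) r, ∃ p θ ξ,
      |p - D.β (Real.pi / 2)| < η ∧ Real.pi / 2 - η < θ ∧ θ ≤ Real.pi / 2 ∧ p ≤ D.β θ ∧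
      D.IsAngQ p θ ξ ∧
      (ψ x).1 = ‖D.Z D.θf p θ - D.Z D.θf (D.β (Real.pi / 2)) (Real.pi / 2)‖ ∧
      ((x = D.Pr (p, θ) ∧ (ψ x).2 = -ξ) ∨ (x = D.Pr (p, Real.pi - θ) ∧ (ψ x).2 = ξ) ∨
        (x = D.Pr (p, θ - Real.pi) ∧ (ψ x).2 = 2 * D.αQ - ξ) ∨
        (x = D.Pr (p, -θ) ∧ (ψ x).2 = 2 * D.αQ + ξ))) := by
  intro η hη
  obtain ⟨r, h, hx⟩ := planar_Q (D := D)
  obtain ⟨hS1, hS2, side0, sideα⟩ := sides_Q h hx
  obtain ⟨r', hr', hnear⟩ := near' D.eQ (D.pf_pos.trans (D.β_mem _ half_pi_mem).1) hη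
  set a := Real.pi + D.κ * (Real.pi / 2 - D.θf) with ha
  set r1 := min r r' with hr1
  have hr10 : 0 < r1 := lt_min h.rpos hr'
  have hle : r1 ≤ r := min_le_left _ _
  have hsub := ball_subset_ball (x := D.eQ) hle
  have hs := h.isSector.shrink hr10 hle
  have hs0 := side0.shrink h.isSector hle
  have hsα := sideα.shrink h.isSector hle
  have h1 := IsSector.double_one (S := D.axis) hs hs0 (fun x hxb hxS => hS1 x (hsub hxb) hxS) false
  obtain ⟨s1, s2⟩ := IsSector.sides_double_one (S := D.axis) hs hs0 hsα false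
  have s3 := IsSector.sides_double_one' (S := D.axis) (T := D.bd) hs hs0
    (fun x hxb hxS => hS2 x (hsub hxb) hxS) false
  obtain ⟨g0, g1, g2, g3⟩ := IsSector.double_two' (S := D.bd1) h1 s1 s2 s3 false
  set r3 := r1 / 3 / 3 with hr3
  have hr30 : 0 < r3 := by positivity
  have hPr : D.Pr (D.β (Real.pi / 2), Real.pi / 2) =
      SeparationQuotient.mk (⟨⟨D.eQ, false⟩, false⟩ : D.XX) := by unfold Pr; rw [Pr_Q]
  set c0 : D.XX := ⟨⟨D.eQ, false⟩, false⟩ with hc0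
  set Ψ : D.XX → ℝ × ℝ := fun x => IsSector.psi2 (fun x : D.D1 => ((psi D.fE D.eQ a x.pt).1,
    if x.side then D.αQ - (psi D.fE D.eQ a x.pt).2 else D.αQ + (psi D.fE D.eQ a x.pt).2)) x with hΨ
  have e4 : 4 * D.αQ = 2 * (2 * D.αQ) := by ring
  refine ⟨r3, hr30, fun x => ((Ψ (rep x)).1, D.αQ - (Ψ (rep x)).2), ?_, ?_, ?_, ?_⟩
  · intro x hxb
    rw [hPr] at hxb ⊢
    rw [mem_ball, dist_mk_rep] at hxb
    rw [dist_mk_rep]
    exact g1 _ hxb
  · intro x hxb y hyb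
    rw [hPr, mem_ball, dist_mk_rep] at hxb hyb
    rw [dist_rep, coneDist_neg, e4]
    exact g2 _ hxb _ hyb
  · intro s φ hs' hsr
    rw [hPr]
    obtain ⟨x, hxb, hx0⟩ := g3 s (D.αQ - φ) hs' hsr
    have hx' := rep_mem_ball hxb
    refine ⟨SeparationQuotient.mk x, by rw [mem_ball, dist_mk_rep]; exact hx', ?_⟩
    have e0 := g2 _ hx' _ hxb
    rw [dist_rep_mk] at e0
    have e1 := coneDist_zero_trans (g1 _ hx').1 (g1 _ hxb).1 hs' e0.symm hx0
    have e2 := coneDist_neg (4 * D.αQ) D.αQ (Ψ (rep (SeparationQuotient.mk x))) (s, D.αQ - φ)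
    simp only [sub_sub_cancel] at e2
    rw [e2, e4]
    exact e1
  · intro x hxb
    rw [hPr, mem_ball, dist_mk_rep] at hxb
    have hb := (g0 (rep x)).1 hxb
    have hE : (rep x).pt.pt ∈ ball D.eQ r1 := by
      have := lt_of_le_of_lt (Dbl.dist_pt_le _ _) hb
      simp only at this
      rw [mem_ball]
      linarith
    set e := (rep x).pt.pt with he
    set t1 := (rep x).pt.side with ht1
    set t2 := (rep x).side with ht2
    have hrep : rep x = (⟨⟨e, t1⟩, t2⟩ : D.XX) := rfl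
    have hn := hnear e (lt_of_lt_of_le hE (min_le_right _ _))
    rw [Prod.dist_eq] at hn
    have hn1 := lt_of_le_of_lt (le_max_left _ _) hn
    have hn2 := lt_of_le_of_lt (le_max_right _ _) hn
    rw [Real.dist_eq] at hn1 hn2
    have hang := h.ang (hsub hE)
    have hxPr : x = D.Pr (e.c.1, ang t1 t2 e.c.2) := by
      rw [← mk_eq_Pr, ← hrep, mk_rep]
    refine ⟨e.c.1, e.c.2, (psi D.fE D.eQ a e).2, hn1, ?_, e.c2.2, e.c_le, ⟨hang.1, hang.2, ?_⟩,
      rfl, ?_⟩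
    · have := (abs_lt.1 hn2).1
      rw [eQ_c] at this
      simp only at this
      linarith
    · have := PlanarSec.eq_pol (p := D.eQ) (f := D.fE) (a := a) e
      rw [pol_eq] at this
      exact this
    · cases hc1 : t1 <;> cases hc2 : t2
      · left
        rw [hc1, hc2] at hxPr hrep
        refine ⟨hxPr, ?_⟩
        beta_reduce
        rw [hrep]
        simp [hΨ, IsSector.psi2]
      · right; right; right
        rw [hc1, hc2] at hxPr hrep
        refine ⟨hxPr, ?_⟩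
        beta_reduce
        rw [hrep]
        simp [hΨ, IsSector.psi2]; ring
      · right; left
        rw [hc1, hc2] at hxPr hrep
        refine ⟨hxPr, ?_⟩
        beta_reduce
        rw [hrep]
        simp [hΨ, IsSector.psi2]
      · right; right; left
        rw [hc1, hc2] at hxPr hrep
        refine ⟨hxPr, ?_⟩
        beta_reduce
        rw [hrep]
        simp [hΨ, IsSector.psi2]; ring

end QD
end Pool.MP8e
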