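import Mathlib
import Pool.Agent.Work.MP_8e9dbb.A.ConeQ

/-!
# Part A, file 14: floor points have Euclidean balls
-/

open Filter Topology Metric Set

namespace Pool.MP8e

/-- a planar chart onto a half disc -/
structure HalfDisc {M : Type} [PseudoMetricSpace M] (p : M) (f : M → ℂ) (S : Set M) (r : ℝ) :
    Prop where
  rpos : 0 < r
  iso : ∀ x ∈ ball p r, ∀ y ∈ ball p r, dist x y = ‖f x - f y‖
  re_le : ∀ x ∈ ball p r, (f x).re ≤ 0
  mem_iff : ∀ x ∈ ball p r, (x ∈ S ↔ (f x).re = 0)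
  re0 : (f p).re = 0
  surj : ∀ z : ℂ, z.re ≤ 0 → ‖z - f p‖ < r → ∃ x ∈ ball p r, f x = z

/-- reflection `z ↦ -conj z` -/
noncomputable def rfl1 (z : ℂ) : ℂ := -(starRingEnd ℂ) z

theorem rfl1_re (z : ℂ) : (rfl1 z).re = -z.re := by simp [rfl1]

theorem rfl1_im (z : ℂ) : (rfl1 z).im = z.im := by simp [rfl1]

theorem norm_conj_sub (z w : ℂ) : ‖(starRingEnd ℂ) z - (starRingEnd ℂ) w‖ = ‖z - w‖ := by
  rw [← map_sub, RCLike.norm_conj]

theorem norm_rfl1_sub (z w : ℂ) : ‖rfl1 z - rfl1 w‖ = ‖z - w‖ := by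
  unfold rfl1
  rw [show -(starRingEnd ℂ) z - -(starRingEnd ℂ) w = -((starRingEnd ℂ) z - (starRingEnd ℂ) w) by ring,
    norm_neg, norm_conj_sub]

theorem rfl1_rfl1 (z : ℂ) : rfl1 (rfl1 z) = z := by simp [rfl1]

theorem rfl1_fix {z : ℂ} (h : z.re = 0) : rfl1 z = z := by
  apply Complex.ext
  · rw [rfl1_re, h, neg_zero]
  · rw [rfl1_im]

theorem conj_fix {z : ℂ} (h : z.im = 0) : (starRingEnd ℂ) z = z := by
  apply Complex.ext <;> simp [h]

/-- crossing of a segment with a level set of a real linear function -/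
theorem exists_cross (l : ℂ → ℝ) (hl : ∀ (a b : ℂ) (t : ℝ), l (a + t • (b - a)) = l a + t * (l b - l a))
    {a b : ℂ} (ha : l a ≤ 0) (hb : 0 ≤ l b) : ∃ w ∈ segment ℝ a b, l w = 0 := by
  by_cases h : l b - l a = 0
  · exact ⟨a, left_mem_segment ℝ a b, by linarith⟩
  · have hpos : 0 < l b - l a := lt_of_le_of_ne (by linarith) (Ne.symm h)
    refine ⟨a + (-l a / (l b - l a)) • (b - a), ?_, ?_⟩
    · rw [segment_eq_image']
      refine ⟨-l a / (l b - l a), ⟨div_nonneg (by linarith) hpos.le, ?_⟩, rfl⟩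
      rw [div_le_one hpos]; linarith
    · rw [hl]; field_simp; ring

theorem norm_add_of_mem_segment {a b w : ℂ} (h : w ∈ segment ℝ a b) : ‖a - w‖ + ‖w - b‖ = ‖a - b‖ := by
  rw [← dist_eq_norm, ← dist_eq_norm, ← dist_eq_norm]
  exact dist_add_dist_of_mem_segment h

namespace HalfDisc

variable {M : Type} [PseudoMetricSpace M] {p : M} {f : M → ℂ} {S : Set M} {r : ℝ}

theorem shrink (h : HalfDisc p f S r) {r' : ℝ} (h0 : 0 < r') (h1 : r' ≤ r) : HalfDisc p f S r' where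
  rpos := h0
  iso x hx y hy := h.iso x (ball_subset_ball h1 hx) y (ball_subset_ball h1 hy)
  re_le x hx := h.re_le x (ball_subset_ball h1 hx)
  mem_iff x hx := h.mem_iff x (ball_subset_ball h1 hx)
  re0 := h.re0
  surj z hz hzr := by
    obtain ⟨x, hx, hxz⟩ := h.surj z hz (hzr.trans_le h1)
    refine ⟨x, ?_, hxz⟩
    rw [mem_ball, h.iso x hx p (mem_ball_self h.rpos), hxz]; exact hzr

theorem double [Nonempty S] (h : HalfDisc p f S r) (i : Bool) :
    (∀ x : Dbl M S, x ∈ ball (⟨p, i⟩ : Dbl M S) (r / 3) ↔ x.pt ∈ ball p (r / 3)) ∧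
    (∀ x ∈ ball (⟨p, i⟩ : Dbl M S) (r / 3), ∀ y ∈ ball (⟨p, i⟩ : Dbl M S) (r / 3),
      dist x y = ‖zeta f rfl1 x - zeta f rfl1 y‖) ∧
    (∀ z : ℂ, ‖z - f p‖ < r / 3 → ∃ x ∈ ball (⟨p, i⟩ : Dbl M S) (r / 3), zeta f rfl1 x = z) := by
  have hr := h.rpos
  obtain ⟨g1, g2⟩ := double_refl (S := S) (p := p) (f := f) hr rfl1 norm_rfl1_sub rfl1_rfl1 h.iso
    (fun z hz hzS => rfl1_fix ((h.mem_iff z hz).1 hzS))
    (by
      intro x hx y hy
      obtain ⟨w, hw, hw0⟩ := exists_cross (fun z => z.re) (by intro a b t; simp)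
        (a := f x) (b := rfl1 (f y)) (h.re_le x hx) (by
          change 0 ≤ (rfl1 (f y)).re
          rw [rfl1_re]; linarith [h.re_le y hy])
      have hp := mem_ball_self (x := p) hr
      have hwb : w ∈ ball (f p) r := (convex_ball (f p) r).segment_subset
        (by rw [mem_ball, dist_eq_norm, ← h.iso x hx p hp]; exact hx)
        (by
          rw [mem_ball, dist_eq_norm]
          conv_lhs => rw [← rfl1_fix h.re0]
          rw [norm_rfl1_sub, ← h.iso y hy p hp]; exact hy) hw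
      rw [mem_ball, dist_eq_norm] at hwb
      obtain ⟨z, hz, hzw⟩ := h.surj w (le_of_eq hw0) hwb
      refine ⟨z, hz, (h.mem_iff z hz).2 (by rw [hzw]; exact hw0), ?_⟩
      rw [hzw]
      exact (norm_add_of_mem_segment hw).le)
    ⟨p, (h.mem_iff p (mem_ball_self hr)).2 h.re0, dist_self p⟩ i
  refine ⟨g1, g2, fun z hz => ?_⟩
  have hmem : ∀ x ∈ ball p r, ∀ w : ℂ, f x = w → ‖w - f p‖ < r / 3 → x ∈ ball p (r / 3) := by
    intro x hx w hxw hw
    rw [mem_ball, h.iso x hx p (mem_ball_self hr), hxw]; exact hw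
  rcases le_total z.re 0 with h0 | h0
  · obtain ⟨x, hx, hxz⟩ := h.surj z h0 (by linarith)
    exact ⟨⟨x, false⟩, (g1 _).2 (hmem x hx z hxz hz), by simp [zeta, hxz]⟩
  · have e1 : ‖rfl1 z - f p‖ < r / 3 := by
      conv_lhs => rw [← rfl1_fix h.re0]
      rw [norm_rfl1_sub]; exact hz
    obtain ⟨x, hx, hxz⟩ := h.surj (rfl1 z) (by rw [rfl1_re]; linarith) (by linarith)
    exact ⟨⟨x, true⟩, (g1 _).2 (hmem x hx _ hxz e1), by simp [zeta, hxz, rfl1_rfl1]⟩

end HalfDisc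

namespace QD

variable {D : QD}

/-- the planar chart of the half surface -/
noncomputable def f1 (D : QD) : D.D1 → ℂ := zeta D.fE (starRingEnd ℂ)

/-- floor points which are not corners -/
theorem half_I (e : D.EPt) (hef : e.c.1 = D.β e.c.2) (h1 : e.c.2 ≠ 0) (h2 : e.c.2 ≠ Real.pi / 2)
    (s1 : Bool) : ∃ r, HalfDisc (⟨e, s1⟩ : D.D1) D.f1 D.bd1 r ∧
      ∀ x ∈ ball (⟨e, s1⟩ : D.D1) r, x.side = s1 := by
  obtain ⟨r, h, hx⟩ := planar_F e hef h1 h2
  have hpos : 0 < e.c.1 := by rw [hef]; exact D.pf_pos.trans (D.β_mem _ e.c2).1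
  obtain ⟨r', hr', hax⟩ := axis_away e hpos h2
  have hre : (D.fE e).re = 0 := (floor_iff _).1 hef
  have h3 : Real.pi / 2 + Real.pi = 3 * Real.pi / 2 := by ring
  set r1 := min r r' with hr1
  have hr10 : 0 < r1 := lt_min h.rpos hr'
  have hle : r1 ≤ r := min_le_left _ _
  have key : ∀ x : D.D1, x ∈ ball (⟨e, s1⟩ : D.D1) r1 → x.side = s1 ∧ x.pt ∈ ball e r := fun x hxb =>
    ⟨Dbl.side_eq_of_dist_lt (r := r1) (fun z hz => (min_le_right _ _).trans (hax z hz)) hxb,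
      lt_of_le_of_lt (Dbl.dist_pt_le _ _) (lt_of_lt_of_le hxb hle)⟩
  have hf : ∀ x : D.D1, x ∈ ball (⟨e, s1⟩ : D.D1) r1 →
      D.f1 x = if s1 then (starRingEnd ℂ) (D.fE x.pt) else D.fE x.pt := by
    intro x hxb
    unfold f1 zeta
    rw [(key x hxb).1]
  have hfp : D.f1 (⟨e, s1⟩ : D.D1) = if s1 then (starRingEnd ℂ) (D.fE e) else D.fE e := rfl
  refine ⟨r1, ⟨hr10, ?_, ?_, ?_, ?_, ?_⟩, fun x hxb => (key x hxb).1⟩
  · intro x hxb y hyb
    obtain ⟨a1, a2⟩ := key x hxb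
    obtain ⟨b1, b2⟩ := key y hyb
    rw [hf x hxb, hf y hyb]
    have : dist x y = dist x.pt y.pt := by
      obtain ⟨x, i⟩ := x
      obtain ⟨y, j⟩ := y
      simp only at a1 b1
      subst a1; subst b1
      exact Dbl.dist_same _ _ _
    rw [this, h.iso _ a2 _ b2]
    cases s1
    · simp
    · simp only [if_true]; rw [norm_conj_sub]
  · intro x hxb
    obtain ⟨a1, a2⟩ := key x hxb
    have := h.half1 _ a2
    rw [exp_neg_half_pi, Complex.sub_re, hre] at this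
    rw [hf x hxb]
    cases s1
    · simp only [Bool.false_eq_true, if_false]; linarith
    · simp only [if_true, Complex.conj_re]; linarith
  · intro x hxb
    obtain ⟨a1, a2⟩ := key x hxb
    have e1 : x ∈ D.bd1 ↔ (D.fE x.pt).re = 0 := by
      rw [← floor_iff]
      constructor
      · intro hS
        exact hS.resolve_left (hx _ a2).2.1
      · intro hS
        exact Or.inr hS
    rw [e1, hf x hxb]
    cases s1 <;> simp
  · rw [hfp]; cases s1 <;> simp [hre]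
  · intro z hz hzr
    -- the point of the quarter domain
    have hz' : ∃ x ∈ ball e r1, D.fE x = if s1 then (starRingEnd ℂ) z else z := by
      set z' := (if s1 then (starRingEnd ℂ) z else z) with hz'
      have e1 : z'.re ≤ 0 := by rw [hz']; cases s1 <;> simpa using hz
      have e2 : ‖z' - D.fE e‖ < r1 := by
        rw [hfp] at hzr
        rw [hz']
        cases s1
        · simpa using hzr
        · simp only [if_true] at hzr ⊢
          rw [← norm_conj_sub, Complex.conj_conj]; exact hzr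
      obtain ⟨x, hxb, hxw⟩ := h.surj (z' - D.fE e) (lt_of_lt_of_le e2 hle)
        (by rw [exp_neg_half_pi, Complex.sub_re, hre]; linarith)
        (by rw [h3, exp_neg_three_half_pi, Complex.sub_re, hre]; linarith)
      have e3 : D.fE x = z' := by rw [hxw]; ring
      refine ⟨x, ?_, e3⟩
      rw [mem_ball, h.iso x hxb e (mem_ball_self h.rpos), e3]; exact e2
    obtain ⟨x, hxb, hxz⟩ := hz'
    have hxb' : (⟨x, s1⟩ : D.D1) ∈ ball (⟨e, s1⟩ : D.D1) r1 := by
      rw [mem_ball, Dbl.dist_same]; exact hxb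
    refine ⟨⟨x, s1⟩, hxb', ?_⟩
    rw [hf _ hxb']
    simp only
    rw [hxz]
    cases s1 <;> simp

/-- the point `Q`, if it is a foot -/
theorem half_II (hθ : D.θf = Real.pi / 2) (s1 : Bool) :
    ∃ r, HalfDisc (⟨D.eQ, s1⟩ : D.D1) D.f1 D.bd1 r := by
  obtain ⟨r, h, hx⟩ := planar_Q (D := D)
  have ha : Real.pi + D.κ * (Real.pi / 2 - D.θf) = Real.pi := by rw [hθ]; ring
  have hα : D.αQ = Real.pi / 2 := by unfold αQ; rw [hθ]; ring
  rw [ha, hα] at h
  have h3 : Real.pi + Real.pi / 2 = 3 * Real.pi / 2 := by ring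
  have hf0 : D.fE D.eQ = 0 := by
    unfold fE
    rw [eQ_c, ← hθ]
    simp only
    unfold Z
    rw [D.σ_foot]; simp
  have him : ∀ w : ℂ, (w * Complex.exp (((-Real.pi : ℝ) : ℂ) * Complex.I)).im = -w.im := by
    intro w
    have := exp_neg_pi_add w 0
    rw [add_zero] at this
    rw [this]; simp
  have htau : ∀ z : ℂ, D.tau (Real.pi / 2) z = z := by
    intro z; unfold tau; rw [hθ]; simp
  have him_le : ∀ x ∈ ball D.eQ r, (D.fE x).im ≤ 0 := by
    intro x hxb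
    have := h.half1 x hxb
    rw [him, hf0, sub_zero] at this; linarith
  have hre_le : ∀ x ∈ ball D.eQ r, (D.fE x).re ≤ 0 := by
    intro x hxb
    have := h.half2 x hxb
    rw [h3, exp_neg_three_half_pi, hf0, sub_zero] at this; exact this
  have hsurj : ∀ z : ℂ, z.re ≤ 0 → z.im ≤ 0 → ‖z‖ < r → ∃ x ∈ ball D.eQ r, D.fE x = z := by
    intro z h1 h2 h4
    obtain ⟨x, hxb, hxz⟩ := h.surj z h4 (by rw [him]; linarith)
      (by rw [h3, exp_neg_three_half_pi]; exact h1)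
    exact ⟨x, hxb, by rw [hxz, hf0, zero_add]⟩
  have haxis : ∀ x ∈ ball D.eQ r, (x ∈ D.axis ↔ (D.fE x).im = 0) := by
    intro x hxb
    have := axis_iff x (hx x hxb).1.le
    rw [htau] at this
    exact this
  have hfloor : ∀ x ∈ ball D.eQ r, (x ∈ D.bd ↔ (D.fE x).re = 0) := by
    intro x hxb
    rw [← floor_iff]
    exact ⟨fun hS => hS.resolve_left (hx x hxb).2, fun hS => Or.inr hS⟩
  have hnorm : ∀ x ∈ ball D.eQ r, ‖D.fE x‖ < r := by
    intro x hxb
    have := h.iso x hxb D.eQ (mem_ball_self h.rpos)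
    rw [mem_ball, this, hf0, sub_zero] at hxb
    exact hxb
  obtain ⟨g1, g2⟩ := double_refl (S := D.axis) (p := D.eQ) (f := D.fE) h.rpos (starRingEnd ℂ)
    norm_conj_sub Complex.conj_conj h.iso
    (fun z hz hzS => conj_fix ((haxis z hz).1 hzS))
    (by
      intro x hxb y hyb
      obtain ⟨w, hw, hw0⟩ := exists_cross (fun z => z.im) (by intro a b t; simp)
        (a := D.fE x) (b := (starRingEnd ℂ) (D.fE y)) (him_le x hxb) (by
          change 0 ≤ ((starRingEnd ℂ) (D.fE y)).im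
          rw [Complex.conj_im]; linarith [him_le y hyb])
      have hwb : w ∈ ball (0:ℂ) r := (convex_ball (0:ℂ) r).segment_subset
        (by rw [mem_ball, dist_zero_right]; exact hnorm x hxb)
        (by rw [mem_ball, dist_zero_right, RCLike.norm_conj]; exact hnorm y hyb) hw
      rw [mem_ball, dist_zero_right] at hwb
      have hconv : Convex ℝ {z : ℂ | z.re ≤ 0} := convex_halfSpace_re_le 0
      have hwre : w.re ≤ 0 := hconv.segment_subset (show D.fE x ∈ {z : ℂ | z.re ≤ 0} from hre_le x hxb)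
        (show (starRingEnd ℂ) (D.fE y) ∈ {z : ℂ | z.re ≤ 0} by
          change ((starRingEnd ℂ) (D.fE y)).re ≤ 0
          rw [Complex.conj_re]; exact hre_le y hyb) hw
      obtain ⟨z, hz, hzw⟩ := hsurj w hwre (le_of_eq hw0) hwb
      refine ⟨z, hz, (haxis z hz).2 (by rw [hzw]; exact hw0), ?_⟩
      rw [hzw]
      exact (norm_add_of_mem_segment hw).le)
    ⟨D.eQ, rfl, dist_self _⟩ s1
  have hr := h.rpos
  have hsub : ball D.eQ (r / 3) ⊆ ball D.eQ r := ball_subset_ball (by linarith)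
  have hf1 : ∀ x : D.D1, D.f1 x = if x.side then (starRingEnd ℂ) (D.fE x.pt) else D.fE x.pt :=
    fun x => rfl
  have hf1p : D.f1 (⟨D.eQ, s1⟩ : D.D1) = 0 := by
    rw [hf1]; simp only; rw [hf0]; cases s1 <;> simp
  refine ⟨r / 3, ⟨by positivity, g2, ?_, ?_, ?_, ?_⟩⟩
  · intro x hxb
    have h1 := hre_le _ (hsub ((g1 x).1 hxb))
    rw [hf1]
    cases x.side
    · simpa using h1
    · simpa using h1
  · intro x hxb
    have h1 := hfloor _ (hsub ((g1 x).1 hxb))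
    have e1 : x ∈ D.bd1 ↔ x.pt ∈ D.bd := Iff.rfl
    rw [e1, h1, hf1]
    cases x.side <;> simp
  · rw [hf1p]; simp
  · intro z hz hzr
    rw [hf1p, sub_zero] at hzr
    rcases le_total z.im 0 with h0 | h0
    · obtain ⟨x, hxb, hxz⟩ := hsurj z hz h0 (by linarith)
      refine ⟨⟨x, false⟩, (g1 _).2 ?_, by rw [hf1]; simp [hxz]⟩
      rw [mem_ball, h.iso x hxb D.eQ (mem_ball_self hr), hxz, hf0, sub_zero]; exact hzr
    · obtain ⟨x, hxb, hxz⟩ := hsurj ((starRingEnd ℂ) z) (by simpa using hz) (by simpa using h0)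
        (by rw [RCLike.norm_conj]; linarith)
      refine ⟨⟨x, true⟩, (g1 _).2 ?_, by rw [hf1]; simp [hxz]⟩
      rw [mem_ball, h.iso x hxb D.eQ (mem_ball_self hr), hxz, hf0, sub_zero, RCLike.norm_conj]
      exact hzr

theorem cdev_neg (κ θ : ℝ) : cdev κ (-θ) = (starRingEnd ℂ) (cdev κ θ) := by
  rw [cdev_eq, cdev_eq, csk_neg, snk_neg]
  apply Complex.ext <;> simp

theorem Z_conj (c c' p θ θ' : ℝ) (h : θ' - c' = -(θ - c)) :
    D.Z c' p θ' = (starRingEnd ℂ) (D.Z c p θ) := by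
  rw [Z_eq, Z_eq, h, mul_neg, Real.cos_neg, Real.sin_neg, csk_neg, snk_neg]
  apply Complex.ext
  · simp
  · simp; ring

theorem Z_congr (c c' p θ θ' : ℝ) (h : θ' - c' = θ - c) : D.Z c' p θ' = D.Z c p θ := by
  rw [Z_eq, Z_eq, h]

theorem neg_ang (s1 s2 : Bool) (θ : ℝ) : -ang s1 s2 θ = ang s1 (!s2) θ := by
  unfold ang
  cases s1 <;> cases s2 <;> simp

theorem Pr_add_int (p θ : ℝ) (n : ℤ) : D.Pr (p, θ + n * (2 * Real.pi)) = D.Pr (p, θ) := by
  have h1 : fold (θ + n * (2 * Real.pi)) = fold θ := by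
    unfold fold; rw [Real.cos_add_int_mul_two_pi]
  unfold Pr
  congr 1
  rw [pr_eq, pr_eq]
  have h2 : D.ept (p, θ + n * (2 * Real.pi)) = D.ept (p, θ) := by
    apply EPt.ext'
    change (D.cut p (θ + n * (2 * Real.pi)), fold (θ + n * (2 * Real.pi))) = (D.cut p θ, fold θ)
    unfold cut βh
    rw [h1]
  have h3 : sd1 (θ + n * (2 * Real.pi)) = sd1 θ := by
    unfold sd1; rw [Real.cos_add_int_mul_two_pi]
  have h4 : sd2 (θ + n * (2 * Real.pi)) = sd2 θ := by
    unfold sd2; rw [Real.sin_add_int_mul_two_pi]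
  simp only [h2, h3, h4]

/-- conjugation if `b` -/
noncomputable def cj (b : Bool) (z : ℂ) : ℂ := if b then (starRingEnd ℂ) z else z

theorem cj_re (b : Bool) (z : ℂ) : (cj b z).re = z.re := by
  unfold cj; cases b <;> simp

theorem bool_ne {a b : Bool} (h : a ≠ b) : a = !b := by
  cases a <;> cases b <;> simp_all

/-- **the floor statement**, from a half disc -/
theorem floor_gen {e0 : D.EPt} {s1 s2 : Bool} {n : ℤ} {θ₀ c r : ℝ}
    (hef : e0.c.1 = D.β e0.c.2)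
    (hθ₀ : θ₀ = ang s1 s2 e0.c.2 + n * (2 * Real.pi)) (hc : c = ang s1 s2 D.θf + n * (2 * Real.pi))
    (h : HalfDisc (⟨e0, s1⟩ : D.D1) D.f1 D.bd1 r)
    (hside : (∀ x ∈ ball (⟨e0, s1⟩ : D.D1) r, x.side = s1) ∨
      (D.θf = Real.pi / 2 ∧ e0.c.2 = Real.pi / 2)) :
    ∀ η > 0, ∃ r > 0, ∃ ζ : D.X → ℂ,
    ζ (D.Pr (D.βh θ₀, θ₀)) = D.Z c (D.βh θ₀) θ₀ ∧
    (∀ x ∈ ball (D.Pr (D.βh θ₀, θ₀)) r, ∀ y ∈ ball (D.Pr (D.βh θ₀, θ₀)) r,
      dist x y = ‖ζ x - ζ y‖) ∧
    (∀ x ∈ ball (D.Pr (D.βh θ₀, θ₀)) r, ∃ p θ, |p - D.βh θ₀| < η ∧ |θ - θ₀| < η ∧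
      p ≤ D.βh θ ∧ (D.Z c p θ).re ≤ 0 ∧
      ((x = D.Pr (p, θ) ∧ ζ x = D.Z c p θ) ∨
        (x = D.Pr (p, -θ) ∧ ζ x = -(starRingEnd ℂ) (D.Z c p θ)))) ∧
    (∀ z : ℂ, ‖z - D.Z c (D.βh θ₀) θ₀‖ < r → ∃ x ∈ ball (D.Pr (D.βh θ₀, θ₀)) r, ζ x = z) := by
  intro η hη
  have hepos : 0 < e0.c.1 := by rw [hef]; exact D.pf_pos.trans (D.β_mem _ e0.c2).1
  obtain ⟨r', hr', hnear⟩ := near' e0 hepos hη
  set r1 := min r r' with hr1
  have hr10 : 0 < r1 := lt_min h.rpos hr'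
  have hle : r1 ≤ r := min_le_left _ _
  have h1 := h.shrink hr10 hle
  obtain ⟨g1, g2, g3⟩ := h1.double s2
  have hfold : fold θ₀ = e0.c.2 := by
    rw [hθ₀]
    have : fold (ang s1 s2 e0.c.2 + n * (2 * Real.pi)) = fold (ang s1 s2 e0.c.2) := by
      unfold fold; rw [Real.cos_add_int_mul_two_pi]
    rw [this, fold_ang, fold_of_mem e0.c2]
  have hβ : D.βh θ₀ = e0.c.1 := by unfold βh; rw [hfold, hef]
  -- the centre
  have hcen : D.Pr (D.βh θ₀, θ₀) = SeparationQuotient.mk (⟨⟨e0, s1⟩, s2⟩ : D.XX) := by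
    rw [mk_eq_Pr, hβ, hθ₀, Pr_add_int]
  -- the sign
  set ζ : D.X → ℂ := fun x => if s2 then -zeta D.f1 rfl1 (rep x) else zeta D.f1 rfl1 (rep x) with hζ
  have hiso : ∀ x ∈ ball (D.Pr (D.βh θ₀, θ₀)) (r1 / 3), ∀ y ∈ ball (D.Pr (D.βh θ₀, θ₀)) (r1 / 3),
      dist x y = ‖ζ x - ζ y‖ := by
    intro x hx y hy
    rw [hcen, mem_ball, dist_mk_rep] at hx hy
    rw [dist_rep, g2 _ hx _ hy, hζ]
    cases s2
    · simp
    · simp only [if_true]
      rw [show -zeta D.f1 rfl1 (rep x) - -zeta D.f1 rfl1 (rep y) =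
        -(zeta D.f1 rfl1 (rep x) - zeta D.f1 rfl1 (rep y)) by ring, norm_neg]
  -- the local description
  have hdesc : ∀ x ∈ ball (D.Pr (D.βh θ₀, θ₀)) (r1 / 3), ∃ p θ, |p - D.βh θ₀| < η ∧ |θ - θ₀| < η ∧
      p ≤ D.βh θ ∧ (D.Z c p θ).re ≤ 0 ∧
      ((x = D.Pr (p, θ) ∧ ζ x = D.Z c p θ) ∨
        (x = D.Pr (p, -θ) ∧ ζ x = -(starRingEnd ℂ) (D.Z c p θ))) ∧
      ((p, θ) = ((rep x).pt.pt.c.1, ang (rep x).pt.side s2 (rep x).pt.pt.c.2 + n * (2 * Real.pi)) ∧
        D.Z c p θ = cj (xor (rep x).pt.side s2) (D.fE (rep x).pt.pt)) := by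
    intro x hx
    rw [hcen, mem_ball, dist_mk_rep] at hx
    have hb := (g1 (rep x)).1 hx
    set e := (rep x).pt.pt with he
    set t1 := (rep x).pt.side with ht1
    set t2 := (rep x).side with ht2
    have hrep : rep x = (⟨⟨e, t1⟩, t2⟩ : D.XX) := rfl
    have hb1 : (rep x).pt ∈ ball (⟨e0, s1⟩ : D.D1) r := by
      refine ball_subset_ball ?_ hb; linarith
    have hE : dist e e0 < r' := by
      have := lt_of_le_of_lt (Dbl.dist_pt_le _ _) hb
      simp only at this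
      have h5 : r1 ≤ r' := min_le_right _ _
      linarith
    have hn := hnear e hE
    rw [Prod.dist_eq] at hn
    have hn1 := lt_of_le_of_lt (le_max_left _ _) hn
    have hn2 := lt_of_le_of_lt (le_max_right _ _) hn
    rw [Real.dist_eq] at hn1 hn2
    have hs : t1 = s1 ∨ (D.θf = Real.pi / 2 ∧ e0.c.2 = Real.pi / 2) := by
      rcases hside with h5 | h5
      · exact Or.inl (h5 _ hb1)
      · exact Or.inr h5
    -- difference of angles
    have hdiff : |ang t1 s2 e.c.2 + n * (2 * Real.pi) - θ₀| = |e.c.2 - e0.c.2| := by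
      rw [hθ₀]
      rcases hs with h5 | ⟨_, h5⟩
      · rw [h5]
        unfold ang
        cases s1 <;> cases s2 <;> simp
        · rw [abs_sub_comm]; congr 1; ring
        · rw [abs_sub_comm]
      · rw [h5]
        unfold ang
        cases t1 <;> cases s1 <;> cases s2 <;> simp
        · rw [abs_sub_comm]; congr 1; ring
        · congr 1; ring
        · rw [← abs_neg]; congr 1; ring
        · rw [← abs_neg]; congr 1; ring
        · congr 1; ring
        · rw [← abs_neg]; congr 1; ring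
    have hZ : D.Z c e.c.1 (ang t1 s2 e.c.2 + n * (2 * Real.pi)) = cj (xor t1 s2) (D.fE e) := by
      have hcase : ang t1 s2 e.c.2 + n * (2 * Real.pi) - c =
          if xor t1 s2 then -(e.c.2 - D.θf) else e.c.2 - D.θf := by
        rw [hc]
        rcases hs with h5 | ⟨h6, h5⟩
        · rw [h5]
          unfold ang
          cases s1 <;> cases s2 <;> simp
          ring
        · rw [h6]
          unfold ang
          cases t1 <;> cases s1 <;> cases s2 <;> simp <;> ring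
      unfold cj fE
      cases hxor : xor t1 s2
      · rw [hxor] at hcase
        simp only [Bool.false_eq_true, if_false] at hcase ⊢
        exact Z_congr _ _ _ _ _ hcase
      · rw [hxor] at hcase
        simp only [if_true] at hcase ⊢
        exact Z_conj _ _ _ _ _ hcase
    have hfoldθ : fold (ang t1 s2 e.c.2 + n * (2 * Real.pi)) = e.c.2 := by
      have : fold (ang t1 s2 e.c.2 + n * (2 * Real.pi)) = fold (ang t1 s2 e.c.2) := by
        unfold fold; rw [Real.cos_add_int_mul_two_pi]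
      rw [this, fold_ang, fold_of_mem e.c2]
    have hf1v : D.f1 (⟨e, t1⟩ : D.D1) = cj t1 (D.fE e) := rfl
    refine ⟨e.c.1, ang t1 s2 e.c.2 + n * (2 * Real.pi), by rw [hβ]; exact hn1,
      by rw [hdiff]; exact hn2, ?_, ?_, ?_, rfl, hZ⟩
    · unfold βh; rw [hfoldθ]; exact e.c_le
    · rw [hZ]
      have hre := h.re_le _ hb1
      have h6 : (rep x).pt = (⟨e, t1⟩ : D.D1) := rfl
      rw [h6, hf1v, cj_re] at hre
      rw [cj_re]; exact hre
    · have hx1 : x = D.Pr (e.c.1, ang t1 t2 e.c.2) := by rw [← mk_eq_Pr, ← hrep, mk_rep]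
      have hζx : ζ x = if s2 then -zeta D.f1 rfl1 (⟨⟨e, t1⟩, t2⟩ : D.XX)
          else zeta D.f1 rfl1 (⟨⟨e, t1⟩, t2⟩ : D.XX) := rfl
      by_cases h7 : t2 = s2
      · left
        refine ⟨by rw [Pr_add_int, ← h7]; exact hx1, ?_⟩
        rw [hZ, hζx, h7]
        unfold zeta
        simp only
        rw [hf1v]
        unfold rfl1 cj
        cases t1 <;> cases s2 <;> simp
      · right
        have h8 : t2 = !s2 := bool_ne h7
        refine ⟨?_, ?_⟩
        · rw [hx1, h8]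
          have h9 : -(ang t1 s2 e.c.2 + n * (2 * Real.pi)) =
              ang t1 (!s2) e.c.2 + ((-n : ℤ) : ℝ) * (2 * Real.pi) := by
            rw [← neg_ang]; push_cast; ring
          rw [h9, Pr_add_int]
        · rw [hZ, hζx, h8]
          unfold zeta
          simp only
          rw [hf1v]
          unfold rfl1 cj
          cases t1 <;> cases s2 <;> simp
  have hζc : ζ (D.Pr (D.βh θ₀, θ₀)) = D.Z c (D.βh θ₀) θ₀ := by
    -- the representative of the centre has distance 0 from the centre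
    have hmem : D.Pr (D.βh θ₀, θ₀) ∈ ball (D.Pr (D.βh θ₀, θ₀)) (r1 / 3) :=
      mem_ball_self (by positivity)
    -- compare with the point ⟨⟨e0, s1⟩, s2⟩
    have hc1 : (⟨⟨e0, s1⟩, s2⟩ : D.XX) ∈ ball (⟨⟨e0, s1⟩, s2⟩ : D.XX) (r1 / 3) :=
      mem_ball_self (by positivity)
    have hc2 : rep (D.Pr (D.βh θ₀, θ₀)) ∈ ball (⟨⟨e0, s1⟩, s2⟩ : D.XX) (r1 / 3) := by
      rw [hcen]; exact rep_mem_ball hc1
    have hd := g2 _ hc2 _ hc1
    have hd0 : dist (rep (D.Pr (D.βh θ₀, θ₀))) (⟨⟨e0, s1⟩, s2⟩ : D.XX) = 0 := by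
      rw [hcen]; exact dist_rep_mk _
    rw [hd0] at hd
    have hz : zeta D.f1 rfl1 (rep (D.Pr (D.βh θ₀, θ₀))) = zeta D.f1 rfl1 (⟨⟨e0, s1⟩, s2⟩ : D.XX) :=
      sub_eq_zero.1 (norm_eq_zero.1 hd.symm)
    have hf1v : D.f1 (⟨e0, s1⟩ : D.D1) = cj s1 (D.fE e0) := rfl
    have hZ : D.Z c e0.c.1 θ₀ = cj (xor s1 s2) (D.fE e0) := by
      have hcase : θ₀ - c = if xor s1 s2 then -(e0.c.2 - D.θf) else e0.c.2 - D.θf := by
        rw [hc, hθ₀]
        unfold ang
        cases s1 <;> cases s2 <;> simp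
        ring
      unfold cj fE
      cases hxor : xor s1 s2
      · rw [hxor] at hcase
        simp only [Bool.false_eq_true, if_false] at hcase ⊢
        exact Z_congr _ _ _ _ _ hcase
      · rw [hxor] at hcase
        simp only [if_true] at hcase ⊢
        exact Z_conj _ _ _ _ _ hcase
    rw [hβ, hZ]
    have : ζ (D.Pr (e0.c.1, θ₀)) = if s2 then -zeta D.f1 rfl1 (⟨⟨e0, s1⟩, s2⟩ : D.XX)
        else zeta D.f1 rfl1 (⟨⟨e0, s1⟩, s2⟩ : D.XX) := by
      rw [hζ]; simp only; rw [← hβ, hz]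
    rw [this]
    unfold zeta
    simp only
    rw [hf1v]
    unfold rfl1 cj
    cases s1 <;> cases s2 <;> simp
  refine ⟨r1 / 3, by positivity, ζ, hζc, hiso, ?_, ?_⟩
  · intro x hx
    obtain ⟨p, θ, a1, a2, a3, a4, a5, _⟩ := hdesc x hx
    exact ⟨p, θ, a1, a2, a3, a4, a5⟩
  · intro z hz
    -- the target for the base chart
    have hζc' : D.Z c (D.βh θ₀) θ₀ = if s2 then -D.f1 (⟨e0, s1⟩ : D.D1) else D.f1 (⟨e0, s1⟩ : D.D1) := by
      rw [← hζc]
      have hmem : D.Pr (D.βh θ₀, θ₀) ∈ ball (D.Pr (D.βh θ₀, θ₀)) (r1 / 3) :=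
        mem_ball_self (by positivity)
      have hc1 : (⟨⟨e0, s1⟩, s2⟩ : D.XX) ∈ ball (⟨⟨e0, s1⟩, s2⟩ : D.XX) (r1 / 3) :=
        mem_ball_self (by positivity)
      have hc2 : rep (D.Pr (D.βh θ₀, θ₀)) ∈ ball (⟨⟨e0, s1⟩, s2⟩ : D.XX) (r1 / 3) := by
        rw [hcen]; exact rep_mem_ball hc1
      have hd := g2 _ hc2 _ hc1
      have hd0 : dist (rep (D.Pr (D.βh θ₀, θ₀))) (⟨⟨e0, s1⟩, s2⟩ : D.XX) = 0 := by
        rw [hcen]; exact dist_rep_mk _
      rw [hd0] at hd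
      have hz : zeta D.f1 rfl1 (rep (D.Pr (D.βh θ₀, θ₀))) = zeta D.f1 rfl1 (⟨⟨e0, s1⟩, s2⟩ : D.XX) :=
        sub_eq_zero.1 (norm_eq_zero.1 hd.symm)
      have hfix : rfl1 (D.f1 (⟨e0, s1⟩ : D.D1)) = D.f1 (⟨e0, s1⟩ : D.D1) := rfl1_fix h.re0
      rw [hζ]; simp only; rw [hz]
      unfold zeta
      simp only
      rw [hfix]
      cases s2 <;> simp
    obtain ⟨x, hx, hxz⟩ := g3 (if s2 then -z else z) (by
      rw [hζc'] at hz
      cases s2
      · simpa using hz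
      · simp only [if_true] at hz ⊢
        rw [← norm_neg]
        rw [show -(-z - D.f1 (⟨e0, s1⟩ : D.D1)) = z - -D.f1 (⟨e0, s1⟩ : D.D1) by ring]
        exact hz)
    have hx' := rep_mem_ball hx
    refine ⟨SeparationQuotient.mk x, by rw [hcen, mem_ball, dist_mk_rep]; exact hx', ?_⟩
    have hd := g2 _ hx' _ hx
    rw [dist_rep_mk] at hd
    have hz' : zeta D.f1 rfl1 (rep (SeparationQuotient.mk x)) = zeta D.f1 rfl1 x :=
      sub_eq_zero.1 (norm_eq_zero.1 hd.symm)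
    rw [hζ]; simp only; rw [hz', hxz]
    cases s2 <;> simp

end QD
end Pool.MP8e
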