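import Mathlib
import Pool.Agent.Work.MP_8e9dbb.A.FloorFact

/-!
# Part A, file 15: topological facts about `Pr`
-/

open Filter Topology Metric Set

namespace Pool.MP8e
namespace QD

variable {D : QD}

theorem fact_floor : ∀ θ₀ c, D.IsFoot θ₀ c → ∀ η > 0, ∃ r > 0, ∃ ζ : D.X → ℂ,
    ζ (D.Pr (D.βh θ₀, θ₀)) = D.Z c (D.βh θ₀) θ₀ ∧
    (∀ x ∈ ball (D.Pr (D.βh θ₀, θ₀)) r, ∀ y ∈ ball (D.Pr (D.βh θ₀, θ₀)) r,
      dist x y = ‖ζ x - ζ y‖) ∧
    (∀ x ∈ ball (D.Pr (D.βh θ₀, θ₀)) r, ∃ p θ, |p - D.βh θ₀| < η ∧ |θ - θ₀| < η ∧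
      p ≤ D.βh θ ∧ (D.Z c p θ).re ≤ 0 ∧
      ((x = D.Pr (p, θ) ∧ ζ x = D.Z c p θ) ∨
        (x = D.Pr (p, -θ) ∧ ζ x = -(starRingEnd ℂ) (D.Z c p θ)))) ∧
    (∀ z : ℂ, ‖z - D.Z c (D.βh θ₀) θ₀‖ < r → ∃ x ∈ ball (D.Pr (D.βh θ₀, θ₀)) r, ζ x = z) := by
  rintro θ₀ c ⟨j, hj⟩
  obtain ⟨k, hk⟩ := Int.even_or_odd' j
  have hj2 : (j : ℝ) = 2 * k ∨ (j : ℝ) = 2 * k + 1 := by
    rcases hk with h | h
    · left; rw [h]; push_cast; ring
    · right; rw [h]; push_cast; ring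
  rcases hj with ⟨hc, h1, h2⟩ | ⟨hc, h1, h2⟩ | ⟨hθ, hc, h1⟩
  · have hmem : θ₀ - j * Real.pi ∈ Icc (0:ℝ) (Real.pi / 2) := ⟨by linarith, by linarith⟩
    set e0 : D.EPt := EPt.mk (D.β (θ₀ - j * Real.pi)) (θ₀ - j * Real.pi)
      (D.pf_pos.le.trans (D.β_mem' hmem).1) le_rfl hmem with he0
    have hef : e0.c.1 = D.β e0.c.2 := rfl
    have hne0 : e0.c.2 ≠ 0 := by change θ₀ - j * Real.pi ≠ 0; linarith
    have hneh : e0.c.2 ≠ Real.pi / 2 := by change θ₀ - j * Real.pi ≠ Real.pi / 2; linarith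
    have hec : e0.c.2 = θ₀ - j * Real.pi := rfl
    rcases hj2 with h3 | h3
    · obtain ⟨r, h, hs⟩ := half_I e0 hef hne0 hneh false
      refine floor_gen (s2 := false) (n := k) hef ?_ ?_ h (Or.inl hs)
      · rw [hec, h3]; unfold ang; simp; ring
      · rw [hc, h3]; unfold ang; simp; ring
    · obtain ⟨r, h, hs⟩ := half_I e0 hef hne0 hneh true
      refine floor_gen (s2 := true) (n := k + 1) hef ?_ ?_ h (Or.inl hs)
      · rw [hec, h3]; unfold ang; push_cast; simp; ring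
      · rw [hc, h3]; unfold ang; push_cast; simp; ring
  · have hmem : j * Real.pi - θ₀ ∈ Icc (0:ℝ) (Real.pi / 2) := ⟨by linarith, by linarith⟩
    set e0 : D.EPt := EPt.mk (D.β (j * Real.pi - θ₀)) (j * Real.pi - θ₀)
      (D.pf_pos.le.trans (D.β_mem' hmem).1) le_rfl hmem with he0
    have hef : e0.c.1 = D.β e0.c.2 := rfl
    have hne0 : e0.c.2 ≠ 0 := by change j * Real.pi - θ₀ ≠ 0; linarith
    have hneh : e0.c.2 ≠ Real.pi / 2 := by change j * Real.pi - θ₀ ≠ Real.pi / 2; linarith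
    have hec : e0.c.2 = j * Real.pi - θ₀ := rfl
    rcases hj2 with h3 | h3
    · obtain ⟨r, h, hs⟩ := half_I e0 hef hne0 hneh false
      refine floor_gen (s2 := true) (n := k) hef ?_ ?_ h (Or.inl hs)
      · rw [hec, h3]; unfold ang; simp; ring
      · rw [hc, h3]; unfold ang; simp; ring
    · obtain ⟨r, h, hs⟩ := half_I e0 hef hne0 hneh true
      refine floor_gen (s2 := false) (n := k) hef ?_ ?_ h (Or.inl hs)
      · rw [hec, h3]; unfold ang; simp; ring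
      · rw [hc, h3]; unfold ang; simp; ring
  · have hef : (D.eQ).c.1 = D.β (D.eQ).c.2 := rfl
    have hec : (D.eQ).c.2 = Real.pi / 2 := rfl
    obtain ⟨r, h⟩ := half_II hθ false
    rcases hj2 with h3 | h3
    · refine floor_gen (s2 := false) (n := k) hef ?_ ?_ h (Or.inr ⟨hθ, rfl⟩)
      · rw [hec, h1, hc, h3]; unfold ang; simp; ring
      · rw [hθ, hc, h3]; unfold ang; simp; ring
    · refine floor_gen (s2 := true) (n := k + 1) hef ?_ ?_ h (Or.inr ⟨hθ, rfl⟩)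
      · rw [hec, h1, hc, h3]; unfold ang; push_cast; simp; ring
      · rw [hθ, hc, h3]; unfold ang; push_cast; simp; ring

theorem fact_per (p θ : ℝ) : D.Pr (p, θ + 2 * Real.pi) = D.Pr (p, θ) := by
  have := Pr_add_int (D := D) p θ 1
  rwa [Int.cast_one, one_mul] at this

theorem Pr_eq_iff (x y : ℝ × ℝ) : D.Pr x = D.Pr y ↔ dist (D.pr x) (D.pr y) = 0 := mk_eq_mk_iff _ _

theorem ept_neg (p θ : ℝ) : D.ept (p, -θ) = D.ept (p, θ) := by
  apply EPt.ext'
  change (D.cut p (-θ), fold (-θ)) = (D.cut p θ, fold θ)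
  unfold cut
  rw [βh_neg, fold_neg]

theorem sd1_neg (θ : ℝ) : sd1 (-θ) = sd1 θ := by unfold sd1; rw [Real.cos_neg]

theorem fact_flr (θ : ℝ) : D.Pr (D.βh θ, -θ) = D.Pr (D.βh θ, θ) := by
  rw [Pr_eq_iff, pr_eq, pr_eq]
  simp only
  rw [ept_neg, sd1_neg]
  refine Dbl.dist_copy (S := D.bd1) (z := ⟨D.ept (D.βh θ, θ), sd1 θ⟩) ?_ _ _
  change (D.ept (D.βh θ, θ)).c.2 = 0 ∨ (D.ept (D.βh θ, θ)).c.1 = D.β (D.ept (D.βh θ, θ)).c.2
  right
  rw [ept_c (x := (D.βh θ, θ)) (D.βh_pos θ).le le_rfl]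
  rfl

theorem fact_surj (x : D.X) : ∃ p θ, 0 ≤ p ∧ p ≤ D.βh θ ∧ D.Pr (p, θ) = x := by
  set e := (rep x).pt.pt
  set t1 := (rep x).pt.side
  set t2 := (rep x).side
  have hrep : rep x = (⟨⟨e, t1⟩, t2⟩ : D.XX) := rfl
  refine ⟨e.c.1, ang t1 t2 e.c.2, e.c1.1, ?_, ?_⟩
  · unfold βh; rw [fold_ang, fold_of_mem e.c2]; exact e.c_le
  · rw [← mk_eq_Pr, ← hrep, mk_rep]

/-- distance in `XX` is bounded by the distance in `EPt` when the base point lies on the sides -/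
theorem dist_XX_le (x y : D.XX) (h1 : x.pt.side = y.pt.side ∨ ∃ z ∈ D.axis, dist y.pt.pt z = 0)
    (h2 : x.side = y.side ∨ ∃ z ∈ D.bd, dist y.pt.pt z = 0) :
    dist x y ≤ dist x.pt.pt y.pt.pt := by
  obtain ⟨⟨e, s1⟩, s2⟩ := x
  obtain ⟨⟨e', s1'⟩, s2'⟩ := y
  simp only at h1 h2 ⊢
  have k1 : dist (⟨e, s1⟩ : D.D1) ⟨e', s1'⟩ ≤ dist e e' := by
    rcases h1 with h1 | ⟨z, hz, hz0⟩
    · rw [h1, Dbl.dist_same]
    · refine (Dbl.dist_le_via _ _ hz).trans ?_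
      simp only
      have := dist_triangle e e' z
      rw [dist_comm z e', hz0]
      rw [hz0] at this
      linarith
  rcases h2 with h2 | ⟨z, hz, hz0⟩
  · rw [h2, Dbl.dist_same]; exact k1
  · refine (Dbl.dist_le_via (z := (⟨z, s1'⟩ : D.D1)) _ _ (show z ∈ D.bd from hz)).trans ?_
    simp only
    have e1 : dist (⟨z, s1'⟩ : D.D1) ⟨e', s1'⟩ = 0 := by rw [Dbl.dist_same, dist_comm]; exact hz0
    have e2 : dist (⟨e', s1'⟩ : D.D1) ⟨z, s1'⟩ = 0 := by rw [dist_comm]; exact e1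
    have := dist_triangle (⟨e, s1⟩ : D.D1) ⟨e', s1'⟩ ⟨z, s1'⟩
    rw [e1, add_zero]
    rw [e2, add_zero] at this
    exact this.trans k1

theorem fact_pole (θ : ℝ) : D.Pr (0, θ) = D.Pr (0, 0) := by
  rw [Pr_eq_iff]
  refine le_antisymm ?_ dist_nonneg
  have hc0 : ∀ θ, (D.ept (0, θ)).c.1 = 0 := fun θ => by
    rw [ept_c (x := ((0:ℝ), θ)) le_rfl (D.βh_pos θ).le]
  refine (dist_XX_le (D.pr (0, θ)) (D.pr (0, 0)) (Or.inr ?_) (Or.inr ?_)).trans ?_
  · exact ⟨EPt.mk 0 (Real.pi / 2) le_rfl (D.pf_pos.le.trans (D.β_mem' half_pi_mem).1) half_pi_mem,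
      rfl, dist_pole _ _ (hc0 0) rfl⟩
  · exact ⟨D.eP, Or.inl rfl, dist_pole _ _ (hc0 0) rfl⟩
  · exact (dist_pole _ _ (hc0 θ) (hc0 0)).le

/-- `ept` is continuous -/
theorem continuous_ept : Continuous D.ept := by
  obtain ⟨C, hC0, hC⟩ := D.nf.bdd
  have hcut : Continuous (fun x : ℝ × ℝ => D.cut x.1 x.2) := by
    unfold cut
    exact continuous_const.max (continuous_fst.min (D.continuous_βh.comp continuous_snd))
  have hc : Continuous (fun x : ℝ × ℝ => (D.ept x).c) :=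
    hcut.prodMk (continuous_fold.comp continuous_snd)
  rw [Metric.continuous_iff] at hc ⊢
  intro b ε hε
  obtain ⟨δ, hδ, H⟩ := hc b (ε / (C + 1)) (by positivity)
  refine ⟨δ, hδ, fun a hab => ?_⟩
  have h1 := H a hab
  have h2 := Pt.dist_le_norm hC (D.ept a).1 (D.ept b).1
  rw [← dist_eq_norm] at h2
  rw [lt_div_iff₀ (by positivity)] at h1
  have h3 : dist (D.ept a) (D.ept b) = dist (D.ept a).1 (D.ept b).1 := rfl
  have h4 : dist (D.ept a).1.val (D.ept b).1.val = dist (D.ept a).c (D.ept b).c := rfl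
  rw [h3]
  rw [h4] at h2
  have := dist_nonneg (x := (D.ept a).c) (y := (D.ept b).c)
  nlinarith

/-- near an angle, the sides agree unless we are on the axis / the leg -/
theorem sides_near (θ : ℝ) : ∃ δ > 0, ∀ θ', |θ' - θ| < δ →
    (sd1 θ' = sd1 θ ∨ Real.cos θ = 0) ∧ (sd2 θ' = sd2 θ ∨ Real.sin θ = 0) := by
  have gen : ∀ f : ℝ → ℝ, Continuous f → ∃ δ > 0, ∀ θ', |θ' - θ| < δ →
      (decide (f θ' < 0) = decide (f θ < 0) ∨ f θ = 0) := by
    intro f hf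
    rcases lt_trichotomy (f θ) 0 with h | h | h
    · obtain ⟨δ, hδ, H⟩ := Metric.isOpen_iff.1 (isOpen_lt hf continuous_const) θ h
      refine ⟨δ, hδ, fun θ' hθ' => Or.inl ?_⟩
      have : f θ' < 0 := H (by rw [mem_ball, Real.dist_eq]; exact hθ')
      simp [h, this]
    · exact ⟨1, one_pos, fun _ _ => Or.inr h⟩
    · obtain ⟨δ, hδ, H⟩ := Metric.isOpen_iff.1 (isOpen_lt continuous_const hf) θ h
      refine ⟨δ, hδ, fun θ' hθ' => Or.inl ?_⟩
      have : 0 < f θ' := H (by rw [mem_ball, Real.dist_eq]; exact hθ')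
      simp [not_lt.2 h.le, not_lt.2 this.le]
  obtain ⟨δ1, hδ1, H1⟩ := gen Real.cos Real.continuous_cos
  obtain ⟨δ2, hδ2, H2⟩ := gen Real.sin Real.continuous_sin
  exact ⟨min δ1 δ2, lt_min hδ1 hδ2, fun θ' hθ' =>
    ⟨H1 θ' (lt_of_lt_of_le hθ' (min_le_left _ _)), H2 θ' (lt_of_lt_of_le hθ' (min_le_right _ _))⟩⟩

theorem fold_of_cos_zero {θ : ℝ} (h : Real.cos θ = 0) : fold θ = Real.pi / 2 := by
  unfold fold; rw [h, abs_zero, Real.arccos_zero]

theorem fold_of_sin_zero {θ : ℝ} (h : Real.sin θ = 0) : fold θ = 0 := by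
  have h1 : |Real.cos θ| = 1 := by
    have := Real.sin_sq_add_cos_sq θ
    rw [h] at this
    have h2 : Real.cos θ ^ 2 = 1 := by linarith
    rw [← sq_abs] at h2
    nlinarith [abs_nonneg (Real.cos θ)]
  unfold fold; rw [h1, Real.arccos_one]

/-- `Pr` is continuous -/
theorem continuous_Pr : Continuous D.Pr := by
  rw [Metric.continuous_iff]
  intro b ε hε
  obtain ⟨δ1, hδ1, H1⟩ := Metric.continuous_iff.1 (continuous_ept (D := D)) b ε hε
  obtain ⟨δ2, hδ2, H2⟩ := sides_near b.2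
  refine ⟨min δ1 δ2, lt_min hδ1 hδ2, fun a hab => ?_⟩
  have h1 := H1 a (lt_of_lt_of_le hab (min_le_left _ _))
  have h2 := H2 a.2 (by
    rw [← Real.dist_eq]
    exact lt_of_le_of_lt (by rw [Prod.dist_eq]; exact le_max_right _ _)
      (lt_of_lt_of_le hab (min_le_right _ _)))
  rw [dist_Pr]
  refine lt_of_le_of_lt (dist_XX_le (D.pr a) (D.pr b) ?_ ?_) h1
  · rcases h2.1 with h3 | h3
    · exact Or.inl h3
    · exact Or.inr ⟨D.ept b, fold_of_cos_zero h3, dist_self _⟩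
  · rcases h2.2 with h3 | h3
    · exact Or.inl h3
    · exact Or.inr ⟨D.ept b, Or.inl (fold_of_sin_zero h3), dist_self _⟩

/-- distance zero in `XX` above a point of positive height -/
theorem eq_of_dist_zero {x y : D.XX} (hx : 0 < x.pt.pt.c.1) (h : dist x y = 0) :
    y.pt.pt.c = x.pt.pt.c ∧ (x.pt.side = y.pt.side ∨ x.pt.pt.c.2 = Real.pi / 2) ∧
      (x.side = y.side ∨ x.pt.pt.c.2 = 0 ∨ x.pt.pt.c.1 = D.β x.pt.pt.c.2) := by
  have h1 : dist x.pt y.pt = 0 := le_antisymm ((Dbl.dist_pt_le x y).trans h.le) dist_nonneg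
  have h2 : dist x.pt.pt y.pt.pt = 0 :=
    le_antisymm ((Dbl.dist_pt_le x.pt y.pt).trans h1.le) dist_nonneg
  refine ⟨?_, ?_, ?_⟩
  · by_contra hcon
    have hpos : 0 < dist y.pt.pt.c x.pt.pt.c := dist_pos.2 hcon
    obtain ⟨r, hr, H⟩ := near' x.pt.pt hx hpos
    exact lt_irrefl _ (H y.pt.pt (by rw [dist_comm, h2]; exact hr))
  · by_contra hcon
    push Not at hcon
    obtain ⟨r, hr, H⟩ := axis_away x.pt.pt hx hcon.2
    exact hcon.1 (Dbl.side_eq_of_dist_lt (p := x.pt.pt) (i := x.pt.side) (y := y.pt) H (by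
      rw [dist_comm]; exact lt_of_eq_of_lt h1 hr)).symm
  · by_contra hcon
    push Not at hcon
    obtain ⟨r, hr, H⟩ := bd1_away x.pt.pt hx hcon.2.1 hcon.2.2 x.pt.side
    exact hcon.1 (Dbl.side_eq_of_dist_lt (p := x.pt) (i := x.side) (y := y) H (by
      rw [dist_comm]; exact lt_of_eq_of_lt h hr)).symm

theorem cos_eq_of_sides {θ θ' : ℝ} (h : fold θ' = fold θ) (hs : sd1 θ = sd1 θ' ∨ fold θ = Real.pi / 2) :
    Real.cos θ' = Real.cos θ := by
  have h1 : |Real.cos θ'| = |Real.cos θ| := by rw [← cos_fold, ← cos_fold, h]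
  rcases hs with hs | hs
  · unfold sd1 at hs
    rcases abs_eq_abs.1 h1 with h2 | h2
    · exact h2
    · by_cases h3 : Real.cos θ < 0
      · simp only [h3, decide_true] at hs
        have : Real.cos θ' < 0 := by simpa using hs.symm
        linarith
      · simp only [h3, decide_false] at hs
        have : ¬ Real.cos θ' < 0 := by simpa using hs.symm
        linarith
  · have h2 : Real.cos θ = 0 := by
      have := cos_fold θ
      rw [hs, Real.cos_pi_div_two] at this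
      exact abs_eq_zero.1 this.symm
    rw [h2, abs_zero] at h1
    rw [h2, abs_eq_zero.1 h1]

theorem sin_eq_of_sides {θ θ' : ℝ} (h : fold θ' = fold θ) (hs : sd2 θ = sd2 θ' ∨ fold θ = 0) :
    Real.sin θ' = Real.sin θ := by
  have h1 : |Real.sin θ'| = |Real.sin θ| := by rw [← sin_fold, ← sin_fold, h]
  rcases hs with hs | hs
  · unfold sd2 at hs
    rcases abs_eq_abs.1 h1 with h2 | h2
    · exact h2
    · by_cases h3 : Real.sin θ < 0
      · simp only [h3, decide_true] at hs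
        have : Real.sin θ' < 0 := by simpa using hs.symm
        linarith
      · simp only [h3, decide_false] at hs
        have : ¬ Real.sin θ' < 0 := by simpa using hs.symm
        linarith
  · have h2 : Real.sin θ = 0 := by
      have := sin_fold θ
      rw [hs, Real.sin_zero] at this
      exact abs_eq_zero.1 this.symm
    rw [h2, abs_zero] at h1
    rw [h2, abs_eq_zero.1 h1]

theorem fact_inj : ∀ p θ p' θ', 0 < p → p < D.βh θ → 0 ≤ p' → p' ≤ D.βh θ' →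
    D.Pr (p, θ) = D.Pr (p', θ') → p' = p ∧ ∃ n : ℤ, θ' = θ + n * (2 * Real.pi) := by
  intro p θ p' θ' hp hpβ hp' hp'β h
  rw [Pr_eq_iff] at h
  have hc := ept_c (D := D) (x := (p, θ)) hp.le hpβ.le
  have hc' := ept_c (D := D) (x := (p', θ')) hp' hp'β
  obtain ⟨h1, h2, h3⟩ := eq_of_dist_zero (x := D.pr (p, θ)) (y := D.pr (p', θ'))
    (by change 0 < (D.ept (p, θ)).c.1; rw [hc]; exact hp) h
  change (D.ept (p', θ')).c = (D.ept (p, θ)).c at h1
  rw [hc, hc'] at h1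
  have e1 : p' = p := congrArg Prod.fst h1
  have e2 : fold θ' = fold θ := congrArg Prod.snd h1
  have h3' : (D.pr (p, θ)).side = (D.pr (p', θ')).side ∨ fold θ = 0 := by
    rcases h3 with h3 | h3 | h3
    · exact Or.inl h3
    · exact Or.inr h3
    · exfalso
      change (D.ept (p, θ)).c.1 = D.β (D.ept (p, θ)).c.2 at h3
      rw [hc] at h3
      simp only at h3
      unfold βh at hpβ
      linarith
  exact ⟨e1, cos_sin_inj (cos_eq_of_sides e2 h2) (sin_eq_of_sides e2 h3')⟩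

theorem fact_injF : ∀ θ p' θ', 0 ≤ p' → p' ≤ D.βh θ' → D.Pr (D.βh θ, θ) = D.Pr (p', θ') →
    p' = D.βh θ ∧ ∃ n : ℤ, θ' = θ + n * (2 * Real.pi) ∨ θ' = -θ + n * (2 * Real.pi) := by
  intro θ p' θ' hp' hp'β h
  rw [Pr_eq_iff] at h
  have hc := ept_c (D := D) (x := (D.βh θ, θ)) (D.βh_pos θ).le le_rfl
  have hc' := ept_c (D := D) (x := (p', θ')) hp' hp'β
  obtain ⟨h1, h2, _⟩ := eq_of_dist_zero (x := D.pr (D.βh θ, θ)) (y := D.pr (p', θ'))
    (by change 0 < (D.ept (D.βh θ, θ)).c.1; rw [hc]; exact D.βh_pos θ) h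
  change (D.ept (p', θ')).c = (D.ept (D.βh θ, θ)).c at h1
  rw [hc, hc'] at h1
  have e1 : p' = D.βh θ := congrArg Prod.fst h1
  have e2 : fold θ' = fold θ := congrArg Prod.snd h1
  refine ⟨e1, ?_⟩
  have h4 := cos_eq_of_sides e2 h2
  rw [Real.cos_eq_cos_iff] at h4
  obtain ⟨k, hk | hk⟩ := h4
  · exact ⟨-k, Or.inl (by push_cast; linarith)⟩
  · exact ⟨k, Or.inr (by linarith)⟩

/-- `opn` -/
theorem fact_opn : ∀ q : ℝ × ℝ, 0 < q.1 → q.1 < D.βh q.2 → ∀ δ > 0, ∃ r > 0,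
    ball (D.Pr q) r ⊆ D.Pr '' ball q δ := by
  intro q hq0 hq1 δ hδ
  have hc := ept_c (D := D) (x := q) hq0.le hq1.le
  set e0 := D.ept q with he0
  have he1 : 0 < e0.c.1 := by rw [hc]; exact hq0
  have hnf : e0.c.1 ≠ D.β e0.c.2 := by rw [hc]; exact hq1.ne
  obtain ⟨r1, hr1, H1⟩ := near' e0 he1 hδ
  -- sides
  have hax : ∃ r2 > 0, ∀ x : D.D1, dist x (⟨e0, sd1 q.2⟩ : D.D1) < r2 →
      x.side = sd1 q.2 ∨ e0.c.2 = Real.pi / 2 := by
    by_cases h : e0.c.2 = Real.pi / 2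
    · exact ⟨1, one_pos, fun _ _ => Or.inr h⟩
    · obtain ⟨r2, hr2, H2⟩ := axis_away e0 he1 h
      exact ⟨r2, hr2, fun x hx => Or.inl (Dbl.side_eq_of_dist_lt H2 hx)⟩
  have hbd : ∃ r3 > 0, ∀ x : D.XX, dist x (D.pr q) < r3 → x.side = sd2 q.2 ∨ e0.c.2 = 0 := by
    by_cases h : e0.c.2 = 0
    · exact ⟨1, one_pos, fun _ _ => Or.inr h⟩
    · obtain ⟨r3, hr3, H3⟩ := bd1_away e0 he1 h hnf (sd1 q.2)
      exact ⟨r3, hr3, fun x hx => Or.inl (Dbl.side_eq_of_dist_lt H3 hx)⟩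
  obtain ⟨r2, hr2, H2⟩ := hax
  obtain ⟨r3, hr3, H3⟩ := hbd
  refine ⟨min r1 (min r2 r3), lt_min hr1 (lt_min hr2 hr3), fun x hx => ?_⟩
  have hxr : dist (rep x) (D.pr q) < min r1 (min r2 r3) := by
    have : D.Pr q = SeparationQuotient.mk (D.pr q) := rfl
    rwa [this, mem_ball, dist_mk_rep] at hx
  set e := (rep x).pt.pt with he
  set t1 := (rep x).pt.side with ht1
  set t2 := (rep x).side with ht2
  have hrep : rep x = (⟨⟨e, t1⟩, t2⟩ : D.XX) := rfl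
  have d1 : dist (rep x).pt (⟨e0, sd1 q.2⟩ : D.D1) < min r1 (min r2 r3) :=
    lt_of_le_of_lt (Dbl.dist_pt_le (rep x) (D.pr q)) hxr
  have d2 : dist e e0 < min r1 (min r2 r3) :=
    lt_of_le_of_lt (Dbl.dist_pt_le (rep x).pt (⟨e0, sd1 q.2⟩ : D.D1)) d1
  have k1 := H1 e (lt_of_lt_of_le d2 (min_le_left _ _))
  have k2 := H2 _ (lt_of_lt_of_le d1 ((min_le_right _ _).trans (min_le_left _ _)))
  have k3 := H3 _ (lt_of_lt_of_le hxr ((min_le_right _ _).trans (min_le_right _ _)))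
  have hx1 : x = D.Pr (e.c.1, ang t1 t2 e.c.2) := by rw [← mk_eq_Pr, ← hrep, mk_rep]
  -- q.2 = ang t1 t2 (fold q.2) mod 2π
  have hfq : fold (ang t1 t2 (fold q.2)) = fold q.2 := by rw [fold_ang, fold_of_mem (fold_mem _)]
  have hcq : e0.c.2 = fold q.2 := by rw [hc]
  have hcos : Real.cos (ang t1 t2 (fold q.2)) = Real.cos q.2 := by
    rcases k2 with h | h
    · rw [cos_ang, cos_fold, show t1 = sd1 q.2 from h]
      unfold sd1
      by_cases h5 : Real.cos q.2 < 0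
      · simp [h5, abs_of_neg h5]
      · simp [h5, abs_of_nonneg (not_lt.1 h5)]
    · rw [hcq] at h
      have h6 : Real.cos q.2 = 0 := by
        have := cos_fold q.2
        rw [h, Real.cos_pi_div_two] at this
        exact abs_eq_zero.1 this.symm
      rw [cos_ang, cos_fold, h6, abs_zero]; cases t1 <;> simp
  have hsin : Real.sin (ang t1 t2 (fold q.2)) = Real.sin q.2 := by
    rcases k3 with h | h
    · rw [sin_ang, sin_fold, show t2 = sd2 q.2 from h]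
      unfold sd2
      by_cases h5 : Real.sin q.2 < 0
      · simp [h5, abs_of_neg h5]
      · simp [h5, abs_of_nonneg (not_lt.1 h5)]
    · rw [hcq] at h
      have h6 : Real.sin q.2 = 0 := by
        have := sin_fold q.2
        rw [h, Real.sin_zero] at this
        exact abs_eq_zero.1 this.symm
      rw [sin_ang, sin_fold, h6, abs_zero]; cases t2 <;> simp
  obtain ⟨n, hn⟩ := cos_sin_inj hcos hsin
  refine ⟨(e.c.1, ang t1 t2 e.c.2 + ((-n : ℤ) : ℝ) * (2 * Real.pi)), ?_, ?_⟩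
  · rw [mem_ball]
    have h7 : dist (e.c.1, ang t1 t2 e.c.2 + ((-n : ℤ) : ℝ) * (2 * Real.pi)) q = dist e.c e0.c := by
      have hA : |ang t1 t2 e.c.2 + ((-n : ℤ) : ℝ) * (2 * Real.pi) - q.2| = |e.c.2 - fold q.2| := by
        have : ang t1 t2 e.c.2 + ((-n : ℤ) : ℝ) * (2 * Real.pi) - q.2 =
            ang t1 t2 e.c.2 - ang t1 t2 (fold q.2) := by rw [hn]; push_cast; ring
        rw [this]
        unfold ang
        cases t1 <;> cases t2 <;> simp
        · rw [abs_sub_comm]; congr 1; ring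
        · rw [abs_sub_comm]
      rw [Prod.dist_eq, Prod.dist_eq, hc]
      simp only
      rw [Real.dist_eq, Real.dist_eq, Real.dist_eq, hA]
    rw [h7]; exact k1
  · rw [Pr_add_int]; exact hx1.symm

end QD
end Pool.MP8e
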