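import Mathlib
import Pool.Agent.Work.MP_8e9dbb.A.Top
import Pool.Agent.Work.MP_8e9dbb.C.CompDef

/-!
# Part A: statements of the construction blocks
-/

open Filter Topology Metric Set

namespace Pool.MP8e

/-- **Block RET** (betweenness of the quarter domain).  The rectangle `D.RPt` has it
(`Pt.hasBet`); `D.EPt` is a 1-Lipschitz retract of the rectangle.  Retraction: points with
`p ≤ β θ` are fixed; a point beyond the floor goes to the floor point with the same `Im Z`
(`Z = D.Z D.θf`), i.e. the orthogonal projection to `Re Z = 0`; explicit (for `κ ≠ 0`)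
`θ' = θf + arctan (R p * sin (κ (θ - θf)) / ρf) / κ`, `p' = β θ'`; for `κ = 0` nothing lies beyond
the floor (`top = β θ`).  `θ' ∈ [0, π/2]` because `p ≤ top`.  1-Lipschitz by `Pt.map_le` with
`Λ = 1`: at each `q`, upper bound `Pt.dist_upper` at the image point, `inf_ZZ` at `q` and at the
image point, `nms_ge`, and `|Im Δ| ≤ |Δ|`. -/
def StmtBet : Prop := ∀ D : QD, HasBet D.EPt

/-- **Block LIP**: comparison of the surfaces from `QComp`. On `EPt`: `Φ (p, θ) = (φ (p, θ), θ)` is a
bijection `D.EPt → D'.EPt` (up to nothing: it is a bijection of coordinates), continuous, locally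
`(e^ε + small)`-Lipschitz at every point of positive height (`Pt.dist_upper` for `D'` at the image,
strict derivative, `Pt.dist_lower` for `D`), then global by `lip_off` below; same for the inverse;
then `Dbl.dist_map_le` twice and the quotient. -/
def StmtLip : Prop := ∀ (D D' : QD) (ε : ℝ), 0 ≤ ε → QComp D D' ε →
  ∃ f : D.X ≃ D'.X, ∀ x y, dist (f x) (f y) ≤ Real.exp ε * dist x y ∧
    dist x y ≤ Real.exp ε * dist (f x) (f y)

/-- **Block OFF** (used in LIP, c0): local-to-global with one exceptional point. -/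
def StmtOff : Prop := ∀ (Y Z : Type) [PseudoMetricSpace Y] [CompactSpace Y] [PseudoMetricSpace Z]
  (_ : HasBet Y) (f : Y → Z) (Λ : ℝ), 0 ≤ Λ → Continuous f → ∀ p₀ : Y,
  (∀ q : Y, 0 < dist q p₀ → ∀ ε > 0, ∃ r > 0, ∀ x ∈ ball q r, ∀ y ∈ ball q r,
    dist (f x) (f y) ≤ (Λ + ε) * dist x y) → ∀ x y, dist (f x) (f y) ≤ Λ * dist x y

instance (D : QD) : CompactSpace D.EPt := by
  have hE := D.isCompact_E
  have hc : CompactSpace {x : ℝ × ℝ | x ∈ D.rect ∧ x.1 ≤ D.β x.2} := isCompact_iff_compactSpace.1 hE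
  have hcont : Continuous (fun z : {x : ℝ × ℝ | x ∈ D.rect ∧ x.1 ≤ D.β x.2} =>
      (⟨⟨z.1, z.2.1⟩, z.2.2⟩ : D.EPt)) := by
    have h1 : Continuous (fun z : {x : ℝ × ℝ | x ∈ D.rect ∧ x.1 ≤ D.β x.2} =>
        (⟨z.1, z.2.1⟩ : Pt D.nf)) :=
      Pt.continuous_mk.comp (continuous_subtype_val.subtype_mk fun z => z.2.1)
    rw [Metric.continuous_iff] at h1 ⊢
    exact h1
  refine ⟨?_⟩
  have : (univ : Set D.EPt) = range (fun z : {x : ℝ × ℝ | x ∈ D.rect ∧ x.1 ≤ D.β x.2} =>
      (⟨⟨z.1, z.2.1⟩, z.2.2⟩ : D.EPt)) := by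
    ext x
    simp only [mem_univ, true_iff, mem_range]
    exact ⟨⟨x.1.val, x.1.mem, x.2⟩, rfl⟩
  rw [this]
  exact isCompact_range hcont

end Pool.MP8e
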