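import Mathlib
import Pool.Agent.Work.MP_8e9dbb.A.Pole

/-!
# Part A: a quarter domain which is flat everywhere (helper19)

If `R = kN s` everywhere, the quarter domain is a planar set (a flat sector cut by the floor).
-/

open Filter Topology Metric Set

namespace Pool.MP8e
namespace QD

variable {D : QD}

/-- flat everywhere -/
def AllFlat (D : QD) : Prop := ∀ p ∈ Icc 0 D.top, D.R p = D.kN * D.sP p

theorem AllFlat.lower (hc : D.AllFlat) (x y : D.EPt) : ‖D.ZP x.c - D.ZP y.c‖ ≤ dist x y := by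
  have h := D.lowerZ D.hasDerivAt_sP (κ := D.kN) (ρ := 0) 0 (O := univ) isOpen_univ
    (fun p _ hp => by rw [add_zero]; exact hc p hp) (r := ‖D.ZP x.c - D.ZP y.c‖ + 1)
    (by positivity) x.1 (mem_univ _) (fun p _ hp => absurd (mem_univ p) hp) y.1
  have h1 := h.1 (mem_univ _)
  have e : min ‖D.ZP x.c - D.ZP y.c‖ (‖D.ZP x.c - D.ZP y.c‖ + 1) = ‖D.ZP x.c - D.ZP y.c‖ :=
    min_eq_left (by linarith)
  calc ‖D.ZP x.c - D.ZP y.c‖ = min ‖D.ZP x.c - D.ZP y.c‖ (‖D.ZP x.c - D.ZP y.c‖ + 1) := e.symm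
    _ ≤ dist x y := h1

theorem AllFlat.upper' (hc : D.AllFlat) (x y : D.EPt) (hx : 0 < x.c.1) (hy : 0 < y.c.1) :
    dist x y ≤ ‖D.ZP x.c - D.ZP y.c‖ := by
  have hmono := D.sP_strictMonoOn
  have htop : 0 < D.top := D.top_pos
  have hI : ∀ {p : ℝ}, p ∈ Icc 0 D.top → p ∈ Icc 0 D.ℓ := fun hp =>
    ⟨hp.1, hp.2.trans D.top_mem.2⟩
  have h0I : (0:ℝ) ∈ Icc 0 D.ℓ := hI ⟨le_refl _, htop.le⟩
  have hsx : 0 < D.sP x.c.1 := by
    have := hmono h0I (hI x.c1) hx; rwa [D.sP_zero] at this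
  have hsy : 0 < D.sP y.c.1 := by
    have := hmono h0I (hI y.c1) hy; rwa [D.sP_zero] at this
  have hcos : 0 < Real.cos D.αP :=
    Real.cos_pos_of_mem_Ioo ⟨by linarith [D.αP_pos, Real.pi_pos], D.αP_lt⟩
  set m := min (D.sP x.c.1) (D.sP y.c.1) * Real.cos D.αP with hm
  have hm0 : 0 < m := mul_pos (lt_min hsx hsy) hcos
  set T : Set (ℝ × ℝ) := {z | z ∈ D.rect ∧ m ≤ D.sP z.1} with hT
  have hrect : IsCompact D.rect := isCompact_Icc.prod isCompact_Icc
  have hTc : IsCompact T := by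
    have : T = D.rect ∩ {z | m ≤ D.sP z.1} := rfl
    rw [this]
    exact hrect.inter_right (isClosed_le continuous_const (D.cont_sP.comp continuous_fst))
  have hT0 : ∀ z ∈ T, 0 < z.1 := by
    intro z hz
    rcases eq_or_lt_of_le hz.1.1.1 with h | h
    · have h2 := hz.2
      rw [← h, D.sP_zero] at h2
      linarith
    · exact h
  have hRT : ∀ z ∈ T, D.R z.1 = D.kN * D.sP z.1 + 0 := fun z hz => by
    rw [add_zero]; exact hc _ hz.1.1
  have hinj : InjOn (fun x : ℝ × ℝ => ZZ D.kN 0 0 (D.sP x.1) x.2) T :=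
    D.inj_ZZ D.hasDerivAt_sP (by rw [abs_of_pos D.kN_pos]; exact D.kN_lt.le) 0 (fun _ hx => hx.1)
      (fun z hz => by
        rw [add_zero]; exact mul_pos D.kN_pos (hm0.trans_le hz.2))
  have key : ∀ z : D.EPt, m ≤ D.sP z.c.1 * Real.cos D.αP → z.c ∈ T := by
    intro z hmz
    refine ⟨z.1.mem, ?_⟩
    have h1 := D.sP_nonneg (hI z.c1)
    nlinarith [Real.cos_le_one D.αP]
  have hxm : m ≤ D.sP x.c.1 * Real.cos D.αP := mul_le_mul_of_nonneg_right (min_le_left _ _) hcos.le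
  have hym : m ≤ D.sP y.c.1 * Real.cos D.αP := mul_le_mul_of_nonneg_right (min_le_right _ _) hcos.le
  refine D.upperZ D.hasDerivAt_sP 0 hTc (fun _ hx => hx.1) hT0 hRT hinj x.1 y.1 (key x hxm)
    (key y hym) ?_
  -- the convex set
  set S : Set ℂ := {z | m ≤ z.re ∧ 0 ≤ z.im ∧
    (z * Complex.exp (((-D.αP : ℝ) : ℂ) * Complex.I)).im ≤ 0 ∧ ‖z‖ ≤ D.sP D.top} with hS
  have hSconv : Convex ℝ S := by
    intro z hz w hw a b ha hb hab
    refine ⟨?_, ?_, ?_, ?_⟩
    · have e1 := mul_le_mul_of_nonneg_left hz.1 ha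
      have e2 := mul_le_mul_of_nonneg_left hw.1 hb
      have : (a • z + b • w).re = a * z.re + b * w.re := by simp
      rw [this]
      have : m = a * m + b * m := by rw [← add_mul, hab, one_mul]
      linarith
    · have e1 := mul_nonneg ha hz.2.1
      have e2 := mul_nonneg hb hw.2.1
      have : (a • z + b • w).im = a * z.im + b * w.im := by simp
      rw [this]; linarith
    · have e1 := mul_nonpos_of_nonneg_of_nonpos ha hz.2.2.1
      have e2 := mul_nonpos_of_nonneg_of_nonpos hb hw.2.2.1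
      have : ((a • z + b • w) * Complex.exp (((-D.αP : ℝ) : ℂ) * Complex.I)).im =
          a * (z * Complex.exp (((-D.αP : ℝ) : ℂ) * Complex.I)).im +
          b * (w * Complex.exp (((-D.αP : ℝ) : ℂ) * Complex.I)).im := by
        rw [add_mul, smul_mul_assoc, smul_mul_assoc]; simp
      rw [this]; linarith
    · have := (convex_closedBall (0:ℂ) (D.sP D.top)) (x := z) (by simpa using hz.2.2.2)
        (y := w) (by simpa using hw.2.2.2) ha hb hab
      simpa using this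
  have hmemS : ∀ z : D.EPt, m ≤ D.sP z.c.1 * Real.cos D.αP → D.ZP z.c ∈ S := by
    intro z hmz
    have h1 := D.sP_nonneg (hI z.c1)
    obtain ⟨h2, h3⟩ := D.kN_mul_mem z.c2
    have h4 : Real.cos D.αP ≤ Real.cos (D.kN * z.c.2) :=
      Real.cos_le_cos_of_nonneg_of_le_pi h2 (by linarith [D.αP_lt, Real.pi_pos]) h3
    refine ⟨?_, ?_, ?_, ?_⟩
    · rw [ZP_eq]
      have := mul_le_mul_of_nonneg_left h4 h1
      simp only [pol]; linarith
    · rw [ZP_eq]
      simp only [pol]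
      exact mul_nonneg h1 (Real.sin_nonneg_of_nonneg_of_le_pi h2 (by linarith [D.αP_lt, Real.pi_pos]))
    · rw [ZP_eq, pol_mul_exp]
      apply mul_nonpos_of_nonneg_of_nonpos h1
      apply Real.sin_nonpos_of_nonpos_of_neg_pi_le (by linarith)
      linarith [D.αP_lt, Real.pi_pos]
    · rw [D.norm_ZP (hI z.c1)]
      exact hmono.monotoneOn (hI z.c1) (hI ⟨htop.le, le_refl _⟩) z.c1.2
  intro z hz
  have hzS : z ∈ S := hSconv.segment_subset (hmemS x hxm) (hmemS y hym) hz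
  obtain ⟨φ, hφ0, hφ1, hφ⟩ := exists_pol D.αP_pos.le D.αP_lt z (hm0.trans_le hzS.1) hzS.2.1 hzS.2.2.1
  have hzm : m ≤ ‖z‖ := hzS.1.trans (Complex.re_le_norm z)
  obtain ⟨p, hp, hps⟩ := intermediate_value_Icc htop.le D.cont_sP.continuousOn
    (show ‖z‖ ∈ Icc (D.sP 0) (D.sP D.top) by rw [D.sP_zero]; exact ⟨norm_nonneg _, hzS.2.2.2⟩)
  refine ⟨(p, φ / D.kN), ⟨⟨⟨hp.1, hp.2⟩, ?_, ?_⟩, ?_⟩, ?_⟩
  · exact div_nonneg hφ0 D.kN_pos.le
  · change φ / D.kN ≤ Real.pi / 2
    rw [div_le_iff₀ D.kN_pos]; unfold αP at hφ1; linarith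
  · change m ≤ D.sP p; rw [hps]; exact hzm
  · change ZZ D.kN 0 0 (D.sP p) (φ / D.kN) = z
    rw [ZZ_zero, hps, mul_div_cancel₀ _ D.kN_pos.ne', ← hφ]

theorem AllFlat.upper (hc : D.AllFlat) (x y : D.EPt) :
    dist x y ≤ ‖D.ZP x.c - D.ZP y.c‖ := by
  have hI : ∀ {p : ℝ}, p ∈ Icc 0 D.top → p ∈ Icc 0 D.ℓ := fun hp =>
    ⟨hp.1, hp.2.trans D.top_mem.2⟩
  -- apex to a point
  have apex : ∀ x y : D.EPt, x.c.1 = 0 → 0 < y.c.1 → dist x y ≤ ‖D.ZP x.c - D.ZP y.c‖ := by
    intro x y hx hy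
    have hx0 : D.ZP x.c = 0 := by
      rw [ZP_eq, hx, D.sP_zero]
      apply Complex.ext <;> simp [pol]
    rw [hx0, zero_sub, norm_neg, D.norm_ZP (hI y.c1)]
    obtain ⟨C, hC0, hC⟩ := D.nf.bdd
    have hle : ∀ ε, 0 < ε → ε ≤ y.c.1 → dist x y ≤ C * ε + D.sP y.c.1 := by
      intro ε hε hεy
      set x0 : D.EPt := EPt.mk 0 y.c.2 le_rfl (hy.le.trans y.c_le) y.c2 with hx0
      set x1 : D.EPt := EPt.mk ε y.c.2 hε.le (hεy.trans y.c_le) y.c2 with hx1
      have e1 : dist x x0 = 0 := dist_pole x x0 hx rfl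
      have e2 : dist x0 x1 ≤ C * ε := by
        have := Pt.dist_le_norm hC x0.1 x1.1
        refine this.trans ?_
        apply mul_le_mul_of_nonneg_left _ hC0
        have h1 : x0.1.val = (0, y.c.2) := rfl
        have h2 : x1.1.val = (ε, y.c.2) := rfl
        rw [h1, h2, Prod.mk_sub_mk, sub_self, zero_sub, Prod.norm_def]
        simp only [norm_zero, norm_neg, Real.norm_eq_abs, abs_of_pos hε]
        exact max_le le_rfl hε.le
      have hεI : ε ∈ Icc 0 D.top := ⟨hε.le, hεy.trans y.c1.2⟩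
      have e3 := hc.upper' x1 y hε hy
      have e4 : ‖D.ZP x1.c - D.ZP y.c‖ = D.sP y.c.1 - D.sP ε := by
        have h1 : x1.c = (ε, y.c.2) := rfl
        rw [h1, ZP_eq, ZP_eq, norm_pol_sub]
        simp only
        rw [sub_self, Real.cos_zero]
        have hmon := D.sP_strictMonoOn.monotoneOn (hI hεI) (hI y.c1) hεy
        rw [show D.sP ε ^ 2 + D.sP y.c.1 ^ 2 - 2 * D.sP ε * D.sP y.c.1 * 1 =
          (D.sP y.c.1 - D.sP ε) ^ 2 by ring, Real.sqrt_sq (by linarith)]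
      have e5 := D.sP_nonneg (hI hεI)
      have e6 := dist_triangle x x0 x1
      have e7 := dist_triangle x x1 y
      linarith
    refine le_of_forall_pos_le_add fun ε hε => ?_
    have h1 := hle (min (ε / (C + 1)) y.c.1) (lt_min (by positivity) hy) (min_le_right _ _)
    have h2 : C * min (ε / (C + 1)) y.c.1 ≤ ε := by
      have h3 : min (ε / (C + 1)) y.c.1 ≤ ε / (C + 1) := min_le_left _ _
      rw [le_div_iff₀ (by positivity)] at h3
      have h4 : 0 < min (ε / (C + 1)) y.c.1 := lt_min (by positivity) hy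
      nlinarith
    linarith
  rcases eq_or_lt_of_le x.c1.1 with h0 | h0
  · rcases eq_or_lt_of_le y.c1.1 with h1 | h1
    · rw [dist_pole x y h0.symm h1.symm]; exact norm_nonneg _
    · exact apex x y h0.symm h1
  · rcases eq_or_lt_of_le y.c1.1 with h1 | h1
    · rw [dist_comm, norm_sub_rev]; exact apex y x h1.symm h0
    · exact hc.upper' x y h0 h1

/-- **the quarter domain is planar** -/
theorem AllFlat.dist_eq (hc : D.AllFlat) (x y : D.EPt) : dist x y = ‖D.ZP x.c - D.ZP y.c‖ :=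
  le_antisymm (hc.upper x y) (hc.lower x y)

end QD
end Pool.MP8e
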