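import Mathlib
import Pool.Agent.Work.MP_8e9dbb.A.FlatAll

/-!
# Part A: the doubled equilateral triangle (helper19)

For `κ = kN = 1/3` and a quarter domain which is flat everywhere, the space `D.X` is the doubled
equilateral triangle.
-/

open Filter Topology Metric Set

namespace Pool.MP8e
namespace QD

variable {D : QD}

/-- flat everywhere, with `κ = kN = 1/3` -/
structure IsTri (D : QD) : Prop where
  flat : D.AllFlat
  kN : D.kN = 1 / 3
  κ : D.κ = 1 / 3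

/-- height of the triangle -/
noncomputable def hh (D : QD) : ℝ := 3 * D.ρf

theorem hh_pos (D : QD) : 0 < D.hh := by unfold hh; linarith [D.ρf_pos]

/-- planar coordinates: the axis is on the positive real line -/
noncomputable def W3 (D : QD) (x : ℝ × ℝ) : ℂ := pol (D.sP x.1) ((x.2 - Real.pi / 2) / 3)

theorem inI {p : ℝ} (h : p ∈ Icc 0 D.top) : p ∈ Icc 0 D.ℓ := ⟨h.1, h.2.trans D.top_mem.2⟩

theorem IsTri.dist_eq (h : D.IsTri) (x y : D.EPt) : dist x y = ‖D.W3 x.c - D.W3 y.c‖ := by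
  rw [h.flat.dist_eq, ZP_eq, ZP_eq]
  unfold W3
  rw [norm_pol_sub, norm_pol_sub, h.kN]
  congr 4
  ring

theorem ang_mem {θ : ℝ} (h : θ ∈ Icc (0:ℝ) (Real.pi / 2)) :
    -(Real.pi / 6) ≤ (θ - Real.pi / 2) / 3 ∧ (θ - Real.pi / 2) / 3 ≤ 0 := by
  constructor <;> linarith [h.1, h.2]

theorem cos_ang_pos {θ : ℝ} (h : θ ∈ Icc (0:ℝ) (Real.pi / 2)) :
    0 < Real.cos ((θ - Real.pi / 2) / 3) := by
  have := ang_mem h
  have hpi := Real.pi_pos
  exact Real.cos_pos_of_mem_Ioo ⟨by linarith, by linarith⟩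

theorem IsTri.floor_sP (h : D.IsTri) {θ : ℝ} (hθ : θ ∈ Icc (0:ℝ) (Real.pi / 2)) :
    D.sP (D.β θ) * Real.cos ((θ - Real.pi / 2) / 3) = D.hh := by
  have hf := D.floor θ hθ
  have hθf : D.θf = Real.pi / 2 := by
    rcases D.cls with h' | h'
    · rw [h.κ] at h'; linarith [h'.1]
    · exact h'.2.2
  have hβ := D.β_mem' hθ
  rw [h.flat (D.β θ) ⟨D.pf_pos.le.trans hβ.1, D.β_le_top hθ⟩, h.kN, h.κ, hθf] at hf
  unfold hh
  rw [← hf]
  have : (1 / 3 * (θ - Real.pi / 2)) = (θ - Real.pi / 2) / 3 := by ring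
  rw [this]; ring

theorem sP_mono {p p' : ℝ} (h : p ∈ Icc 0 D.top) (h' : p' ∈ Icc 0 D.top) (hp : p ≤ p') :
    D.sP p ≤ D.sP p' := D.sP_strictMonoOn.monotoneOn (inI h) (inI h') hp

theorem IsTri.re_le (h : D.IsTri) (x : D.EPt) : (D.W3 x.c).re ≤ D.hh := by
  rw [← h.floor_sP x.c2]
  have hβ := D.β_mem' x.c2
  exact mul_le_mul_of_nonneg_right (sP_mono x.c1 ⟨D.pf_pos.le.trans hβ.1, D.β_le_top x.c2⟩ x.c_le)
    (cos_ang_pos x.c2).le

theorem IsTri.re_eq_iff (h : D.IsTri) (x : D.EPt) :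
    (D.W3 x.c).re = D.hh ↔ x.c.1 = D.β x.c.2 := by
  rw [← h.floor_sP x.c2]
  have hβ := D.β_mem' x.c2
  have hI : D.β x.c.2 ∈ Icc 0 D.top := ⟨D.pf_pos.le.trans hβ.1, D.β_le_top x.c2⟩
  constructor
  · intro he
    have h1 : D.sP x.c.1 = D.sP (D.β x.c.2) := mul_right_cancel₀ (cos_ang_pos x.c2).ne' he
    exact D.sP_strictMonoOn.injOn (inI x.c1) (inI hI) h1
  · intro he
    show D.sP x.c.1 * _ = _
    rw [he]

theorem sqrt3_sq : √3 ^ 2 = (3:ℝ) := Real.sq_sqrt (by norm_num)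

theorem pol_add (r φ : ℝ) : (pol r φ).re + √3 * (pol r φ).im =
    2 * r * Real.sin (φ + Real.pi / 6) := by
  rw [Real.sin_add, Real.cos_pi_div_six, Real.sin_pi_div_six]
  simp only [pol]; ring

theorem W3_im (x : D.EPt) : (D.W3 x.c).im ≤ 0 := by
  have := ang_mem x.c2
  have hpi := Real.pi_pos
  exact mul_nonpos_of_nonneg_of_nonpos (D.sP_nonneg (inI x.c1))
    (Real.sin_nonpos_of_nonpos_of_neg_pi_le this.2 (by linarith))

theorem W3_add (x : D.EPt) : 0 ≤ (D.W3 x.c).re + √3 * (D.W3 x.c).im := by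
  unfold W3
  rw [pol_add]
  have := ang_mem x.c2
  have hpi := Real.pi_pos
  have h1 := D.sP_nonneg (inI x.c1)
  have h2 := Real.sin_nonneg_of_nonneg_of_le_pi
    (by linarith : 0 ≤ (x.c.2 - Real.pi / 2) / 3 + Real.pi / 6) (by linarith)
  positivity

theorem W3_leg (x : D.EPt) (h : x.c.2 = 0) : (D.W3 x.c).re + √3 * (D.W3 x.c).im = 0 := by
  unfold W3
  rw [pol_add, h]
  have : (0 - Real.pi / 2) / 3 + Real.pi / 6 = 0 := by ring
  rw [this, Real.sin_zero, mul_zero]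

/-- preimages -/
theorem IsTri.surj (h : D.IsTri) {z : ℂ} (h1 : z.im ≤ 0) (h2 : 0 ≤ z.re + √3 * z.im)
    (h3 : z.re ≤ D.hh) : ∃ x : D.EPt, D.W3 x.c = z ∧
      (z.re + √3 * z.im = 0 → x.c.2 = 0) := by
  have hs3 : 0 < √3 := Real.sqrt_pos.2 (by norm_num)
  have hre : 0 ≤ z.re := by
    have := mul_nonpos_of_nonneg_of_nonpos hs3.le h1
    linarith
  rcases hre.eq_or_lt with h0 | h0
  · have him : z.im = 0 := by
      rw [← h0, zero_add] at h2
      have := nonneg_of_mul_nonneg_right h2 hs3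
      linarith
    refine ⟨D.eP, ?_, fun _ => rfl⟩
    have : (D.eP).c = (0, 0) := rfl
    rw [this]
    unfold W3
    rw [D.sP_zero]
    apply Complex.ext
    · simp [pol, ← h0]
    · simp [pol, him]
  · set φ := Real.arctan (z.im / z.re) with hφ
    have hφ0 : φ ≤ 0 := by
      rw [hφ, ← Real.arctan_zero]
      exact Real.arctan_mono (div_nonpos_of_nonpos_of_nonneg h1 h0.le)
    have hφ1 : -(Real.pi / 6) ≤ φ := by
      rw [hφ, ← Real.arctan_inv_sqrt_three, ← Real.arctan_neg]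
      apply Real.arctan_mono
      rw [le_div_iff₀ h0, neg_mul, neg_le, inv_mul_eq_div, le_div_iff₀ hs3]
      linarith
    have hcos : 0 < Real.cos φ := Real.cos_pos_of_mem_Ioo
      ⟨by linarith [Real.pi_pos], by linarith [Real.pi_pos]⟩
    have htan : Real.sin φ = z.im / z.re * Real.cos φ := by
      have : Real.tan φ = z.im / z.re := Real.tan_arctan _
      rw [← this, Real.tan_eq_sin_div_cos]; field_simp
    set θ := Real.pi / 2 + 3 * φ with hθd
    have hθ : θ ∈ Icc (0:ℝ) (Real.pi / 2) := ⟨by linarith, by linarith⟩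
    have hβ := D.β_mem' hθ
    have hI : D.β θ ∈ Icc 0 D.top := ⟨D.pf_pos.le.trans hβ.1, D.β_le_top hθ⟩
    have hfl := h.floor_sP hθ
    have hang : (θ - Real.pi / 2) / 3 = φ := by rw [hθd]; ring
    rw [hang] at hfl
    obtain ⟨p, hp, hps⟩ := intermediate_value_Icc hI.1 D.cont_sP.continuousOn
      (show z.re / Real.cos φ ∈ Icc (D.sP 0) (D.sP (D.β θ)) by
        rw [D.sP_zero]
        refine ⟨by positivity, ?_⟩
        rw [div_le_iff₀ hcos, hfl]; exact h3)
    refine ⟨EPt.mk p θ hp.1 hp.2 hθ, ?_, fun he => ?_⟩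
    · rw [EPt.mk_c]
      unfold W3
      simp only
      rw [hang, hps]
      apply Complex.ext
      · simp only [pol]; field_simp
      · simp only [pol]; rw [htan]; field_simp
    · rw [EPt.mk_c]
      show θ = 0
      have h5 : z.im / z.re = -(√3)⁻¹ := by
        rw [div_eq_iff h0.ne']
        have : z.re = -(√3 * z.im) := by linarith
        rw [this]
        field_simp
      have : φ = -(Real.pi / 6) := by
        rw [hφ, h5, Real.arctan_neg, Real.arctan_inv_sqrt_three]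
      rw [hθd, this]; ring

/-- preimages on the axis -/
theorem IsTri.surj_axis (h : D.IsTri) {t : ℝ} (h1 : 0 ≤ t) (h2 : t ≤ D.hh) :
    ∃ x ∈ D.axis, D.W3 x.c = t := by
  have hθ : Real.pi / 2 ∈ Icc (0:ℝ) (Real.pi / 2) := ⟨by positivity, le_refl _⟩
  have hβ := D.β_mem' hθ
  have hI : D.β (Real.pi / 2) ∈ Icc 0 D.top := ⟨D.pf_pos.le.trans hβ.1, D.β_le_top hθ⟩
  have hfl := h.floor_sP hθ
  rw [sub_self, zero_div, Real.cos_zero, mul_one] at hfl
  obtain ⟨p, hp, hps⟩ := intermediate_value_Icc hI.1 D.cont_sP.continuousOn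
    (show t ∈ Icc (D.sP 0) (D.sP (D.β (Real.pi / 2))) by
      rw [D.sP_zero, hfl]; exact ⟨h1, h2⟩)
  refine ⟨EPt.mk p (Real.pi / 2) hp.1 hp.2 hθ, rfl, ?_⟩
  rw [EPt.mk_c]
  unfold W3
  simp only
  rw [hps, sub_self, zero_div]
  apply Complex.ext <;> simp [pol]

theorem axis_im {x : D.EPt} (hx : x ∈ D.axis) : (D.W3 x.c).im = 0 := by
  have : x.c.2 = Real.pi / 2 := hx
  unfold W3
  rw [this, sub_self, zero_div]
  simp [pol]

/-- crossing point with the real axis -/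
theorem exists_cross {z w : ℂ} (hz : z.im ≤ 0) (hw : 0 ≤ w.im) {c : ℝ} (hz0 : 0 ≤ z.re)
    (hw0 : 0 ≤ w.re) (hz1 : z.re ≤ c) (hw1 : w.re ≤ c) :
    ∃ t : ℝ, 0 ≤ t ∧ t ≤ c ∧ ‖z - t‖ + ‖(t : ℂ) - w‖ = ‖z - w‖ := by
  by_cases h0 : w.im - z.im = 0
  · have e1 : z.im = 0 := by linarith
    refine ⟨z.re, hz0, hz1, ?_⟩
    have : z = (z.re : ℂ) := Complex.ext (by simp) (by simp [e1])
    rw [← this, sub_self, norm_zero, zero_add]
  · have h0' : 0 < w.im - z.im := lt_of_le_of_ne (by linarith) (Ne.symm h0)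
    set a := w.im / (w.im - z.im) with ha
    have ha0 : 0 ≤ a := by positivity
    have ha1 : a ≤ 1 := by rw [ha, div_le_one h0']; linarith
    set t := a * z.re + (1 - a) * w.re with ht
    have hb0 : 0 ≤ 1 - a := by linarith
    have e : (t : ℂ) = (a : ℂ) * z + ((1 - a : ℝ) : ℂ) * w := by
      apply Complex.ext
      · simp only [Complex.ofReal_re, Complex.add_re, Complex.mul_re, Complex.ofReal_im]
        rw [ht]; ring
      · simp only [Complex.ofReal_im, Complex.add_im, Complex.mul_im, Complex.ofReal_re]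
        rw [ha]; field_simp; ring
    refine ⟨t, by positivity, ?_, ?_⟩
    · have e1 := mul_le_mul_of_nonneg_left hz1 ha0
      have e2 := mul_le_mul_of_nonneg_left hw1 hb0
      rw [ht]; linarith
    · have e1 : z - t = ((1 - a : ℝ) : ℂ) * (z - w) := by rw [e]; push_cast; ring
      have e2 : (t : ℂ) - w = (a : ℂ) * (z - w) := by rw [e]; push_cast; ring
      rw [e1, e2, norm_mul, norm_mul, Complex.norm_real, Complex.norm_real,
        Real.norm_of_nonneg hb0, Real.norm_of_nonneg ha0]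
      ring

theorem norm_sub_conj (t : ℝ) (w : ℂ) : ‖(t : ℂ) - w‖ = ‖(t : ℂ) - (starRingEnd ℂ) w‖ := by
  rw [← Complex.norm_conj ((t : ℂ) - w), map_sub, Complex.conj_ofReal]

theorem W3_re (x : D.EPt) : 0 ≤ (D.W3 x.c).re :=
  mul_nonneg (D.sP_nonneg (inI x.c1)) (cos_ang_pos x.c2).le

/-- the distance across the axis -/
theorem IsTri.cr_eq (h : D.IsTri) (x y : D.EPt) :
    Dbl.cr D.axis x y = ‖D.W3 x.c - (starRingEnd ℂ) (D.W3 y.c)‖ := by
  apply le_antisymm
  · obtain ⟨t, ht0, ht1, ht⟩ := exists_cross (z := D.W3 x.c) (w := (starRingEnd ℂ) (D.W3 y.c))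
      (W3_im x) (by rw [Complex.conj_im]; linarith [W3_im y]) (W3_re x)
      (by rw [Complex.conj_re]; exact W3_re y) (h.re_le x)
      (by rw [Complex.conj_re]; exact h.re_le y)
    obtain ⟨z, hz, hzt⟩ := h.surj_axis ht0 ht1
    refine (Dbl.cr_le hz).trans ?_
    rw [h.dist_eq, h.dist_eq, hzt, norm_sub_conj t (D.W3 y.c), ht]
  · apply Dbl.le_cr
    intro z hz
    rw [h.dist_eq, h.dist_eq]
    have hzt : D.W3 z.c = (((D.W3 z.c).re : ℝ) : ℂ) :=
      Complex.ext (by simp) (by simp [axis_im hz])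
    rw [hzt, norm_sub_conj _ (D.W3 y.c)]
    have := norm_add_le (D.W3 x.c - (((D.W3 z.c).re : ℝ) : ℂ))
      ((((D.W3 z.c).re : ℝ) : ℂ) - (starRingEnd ℂ) (D.W3 y.c))
    rwa [sub_add_sub_cancel] at this

/-- planar coordinates of the half surface -/
noncomputable def Wd (x : D.D1) : ℂ := if x.side then (starRingEnd ℂ) (D.W3 x.pt.c) else D.W3 x.pt.c

theorem IsTri.dist_D1 (h : D.IsTri) (x y : D.D1) : dist x y = ‖Wd x - Wd y‖ := by
  obtain ⟨x, i⟩ := x
  obtain ⟨y, j⟩ := y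
  cases i <;> cases j
  · rw [Dbl.dist_same, h.dist_eq]; rfl
  · rw [Dbl.dist_diff _ _ (by simp), h.cr_eq]; rfl
  · rw [Dbl.dist_diff _ _ (by simp), h.cr_eq]
    show _ = ‖(starRingEnd ℂ) (D.W3 x.c) - D.W3 y.c‖
    rw [← Complex.norm_conj (D.W3 x.c - (starRingEnd ℂ) (D.W3 y.c)), map_sub, Complex.conj_conj]
  · rw [Dbl.dist_same, h.dist_eq]
    show _ = ‖(starRingEnd ℂ) (D.W3 x.c) - (starRingEnd ℂ) (D.W3 y.c)‖
    rw [← map_sub, Complex.norm_conj]

/-- the equilateral triangle -/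
def Tri (c : ℝ) : Set ℂ := {z | 0 ≤ z.re + √3 * z.im ∧ 0 ≤ z.re - √3 * z.im ∧ z.re ≤ c}

theorem Wd_mem (h : D.IsTri) (x : D.D1) : Wd x ∈ Tri D.hh := by
  have hs3 : 0 < √3 := Real.sqrt_pos.2 (by norm_num)
  obtain ⟨x, i⟩ := x
  have h1 := W3_im x
  have h2 := W3_add x
  have h3 := h.re_le x
  have h4 := W3_re x
  have h5 := mul_nonpos_of_nonneg_of_nonpos hs3.le h1
  cases i
  · exact ⟨h2, by show 0 ≤ (D.W3 x.c).re - √3 * (D.W3 x.c).im; linarith, h3⟩
  · refine ⟨?_, ?_, ?_⟩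
    · show 0 ≤ ((starRingEnd ℂ) (D.W3 x.c)).re + √3 * ((starRingEnd ℂ) (D.W3 x.c)).im
      rw [Complex.conj_re, Complex.conj_im]; linarith
    · show 0 ≤ ((starRingEnd ℂ) (D.W3 x.c)).re - √3 * ((starRingEnd ℂ) (D.W3 x.c)).im
      rw [Complex.conj_re, Complex.conj_im]; linarith
    · show ((starRingEnd ℂ) (D.W3 x.c)).re ≤ _
      rw [Complex.conj_re]; exact h3

/-- the sides of the triangle -/
def TriB (c : ℝ) : Set ℂ :=
  {z | z ∈ Tri c ∧ (z.re + √3 * z.im = 0 ∨ z.re - √3 * z.im = 0 ∨ z.re = c)}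

theorem Wd_bd (h : D.IsTri) {x : D.D1} (hx : x ∈ D.bd1) : Wd x ∈ TriB D.hh := by
  refine ⟨Wd_mem h x, ?_⟩
  obtain ⟨x, i⟩ := x
  rcases hx with hx | hx
  · have h1 := W3_leg x hx
    cases i
    · exact Or.inl h1
    · right; left
      show ((starRingEnd ℂ) (D.W3 x.c)).re - √3 * ((starRingEnd ℂ) (D.W3 x.c)).im = 0
      rw [Complex.conj_re, Complex.conj_im]; linarith
  · have h1 := (h.re_eq_iff x).2 hx
    right; right
    cases i
    · exact h1
    · show ((starRingEnd ℂ) (D.W3 x.c)).re = _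
      rw [Complex.conj_re]; exact h1

theorem Wd_surj (h : D.IsTri) {z : ℂ} (hz : z ∈ Tri D.hh) :
    ∃ x : D.D1, Wd x = z ∧ (z ∈ TriB D.hh → x ∈ D.bd1) := by
  have hs3 : 0 < √3 := Real.sqrt_pos.2 (by norm_num)
  rcases le_total z.im 0 with h0 | h0
  · obtain ⟨x, hx, hx'⟩ := h.surj h0 hz.1 hz.2.2
    refine ⟨⟨x, false⟩, hx, fun hb => ?_⟩
    rcases hb.2 with hb | hb | hb
    · exact Or.inl (hx' hb)
    · have h1 := hz.1
      have h5 := mul_nonpos_of_nonneg_of_nonpos hs3.le h0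
      exact Or.inl (hx' (by linarith))
    · exact Or.inr ((h.re_eq_iff x).1 (by rw [hx]; exact hb))
  · obtain ⟨x, hx, hx'⟩ := h.surj (z := (starRingEnd ℂ) z) (by rw [Complex.conj_im]; linarith)
      (by rw [Complex.conj_re, Complex.conj_im]; linarith [hz.2.1])
      (by rw [Complex.conj_re]; exact hz.2.2)
    refine ⟨⟨x, true⟩, ?_, fun hb => ?_⟩
    · show (starRingEnd ℂ) (D.W3 x.c) = z
      rw [hx, Complex.conj_conj]
    · rw [Complex.conj_re, Complex.conj_im] at hx'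
      rcases hb.2 with hb | hb | hb
      · have h1 := hz.2.1
        have h5 := mul_nonneg hs3.le h0
        exact Or.inl (hx' (by linarith))
      · exact Or.inl (hx' (by linarith))
      · exact Or.inr ((h.re_eq_iff x).1 (by rw [hx, Complex.conj_re]; exact hb))

end QD
end Pool.MP8e
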