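import Mathlib
import Pool.Agent.Work.MP_8e9dbb.A.Equi

/-!
# Part A: the doubled equilateral triangle, final form (helper19)
-/

open Filter Topology Metric Set

namespace Pool.MP8e
namespace QD

/-! ### the planar triangle -/

theorem isOpenMap_lin (a b : ℝ) (h : a ≠ 0) : IsOpenMap (fun z : ℂ => a * z.re + b * z.im) := by
  set L : ℂ →L[ℝ] ℝ := a • Complex.reCLM + b • Complex.imCLM with hL
  have hs : Function.Surjective L := by
    intro y
    refine ⟨((y / a : ℝ) : ℂ), ?_⟩
    rw [hL]
    simp only [ContinuousLinearMap.add_apply, ContinuousLinearMap.smul_apply,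
      Complex.reCLM_apply, Complex.imCLM_apply, Complex.ofReal_re, Complex.ofReal_im,
      smul_eq_mul, mul_zero, add_zero]
    field_simp
  exact L.isOpenMap hs

theorem continuous_lin (a b : ℝ) : Continuous (fun z : ℂ => a * z.re + b * z.im) :=
  (continuous_const.mul Complex.continuous_re).add (continuous_const.mul Complex.continuous_im)

theorem interior_ge (a b c : ℝ) (h : a ≠ 0) :
    interior {z : ℂ | c ≤ a * z.re + b * z.im} = {z : ℂ | c < a * z.re + b * z.im} := by
  have h1 := (isOpenMap_lin a b h).preimage_interior_eq_interior_preimage (continuous_lin a b)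
    (Ici c)
  rw [interior_Ici] at h1
  exact h1.symm

theorem Tri_eq (c : ℝ) : Tri c = {z : ℂ | 0 ≤ 1 * z.re + √3 * z.im} ∩
    ({z : ℂ | 0 ≤ 1 * z.re + (-√3) * z.im} ∩ {z : ℂ | -c ≤ (-1) * z.re + 0 * z.im}) := by
  ext z
  simp only [Tri, mem_setOf_eq, mem_inter_iff]
  constructor
  · rintro ⟨h1, h2, h3⟩
    exact ⟨by linarith, by linarith, by linarith⟩
  · rintro ⟨h1, h2, h3⟩
    exact ⟨by linarith, by linarith, by linarith⟩

theorem isClosed_Tri (c : ℝ) : IsClosed (Tri c) := by
  rw [Tri_eq]
  exact (isClosed_le continuous_const (continuous_lin _ _)).inter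
    ((isClosed_le continuous_const (continuous_lin _ _)).inter
      (isClosed_le continuous_const (continuous_lin _ _)))

theorem frontier_Tri (c : ℝ) : frontier (Tri c) = TriB c := by
  rw [(isClosed_Tri c).frontier_eq]
  have hi : interior (Tri c) = {z : ℂ | 0 < z.re + √3 * z.im ∧ 0 < z.re - √3 * z.im ∧ z.re < c} := by
    rw [Tri_eq, interior_inter, interior_inter, interior_ge _ _ _ one_ne_zero,
      interior_ge _ _ _ one_ne_zero, interior_ge _ _ _ (by norm_num)]
    ext z
    simp only [mem_setOf_eq, mem_inter_iff]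
    constructor
    · rintro ⟨h1, h2, h3⟩
      exact ⟨by linarith, by linarith, by linarith⟩
    · rintro ⟨h1, h2, h3⟩
      exact ⟨by linarith, by linarith, by linarith⟩
  rw [hi]
  ext z
  simp only [mem_diff, mem_setOf_eq, TriB]
  constructor
  · rintro ⟨hz, hn⟩
    refine ⟨hz, ?_⟩
    by_contra hcon
    push Not at hcon
    exact hn ⟨lt_of_le_of_ne hz.1 (Ne.symm hcon.1), lt_of_le_of_ne hz.2.1 (Ne.symm hcon.2.1),
      lt_of_le_of_ne hz.2.2 hcon.2.2⟩
  · rintro ⟨hz, hn⟩
    refine ⟨hz, ?_⟩
    rintro ⟨h1, h2, h3⟩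
    rcases hn with h | h | h <;> linarith

/-- the vertices -/
noncomputable def vert (c : ℝ) : Fin 3 → ℂ := ![0, ⟨c, c / √3⟩, ⟨c, -(c / √3)⟩]

theorem sqrt3_pos : 0 < √3 := Real.sqrt_pos.2 (by norm_num)

theorem Tri_convex (c : ℝ) : Convex ℝ (Tri c) := by
  intro z hz w hw a b ha hb hab
  have e1 : (a • z + b • w).re = a * z.re + b * w.re := by simp
  have e2 : (a • z + b • w).im = a * z.im + b * w.im := by simp
  refine ⟨?_, ?_, ?_⟩
  · rw [e1, e2]
    have h1 := mul_nonneg ha hz.1
    have h2 := mul_nonneg hb hw.1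
    linarith
  · rw [e1, e2]
    have h1 := mul_nonneg ha hz.2.1
    have h2 := mul_nonneg hb hw.2.1
    linarith
  · rw [e1]
    have h1 := mul_le_mul_of_nonneg_left hz.2.2 ha
    have h2 := mul_le_mul_of_nonneg_left hw.2.2 hb
    have : c = a * c + b * c := by rw [← add_mul, hab, one_mul]
    linarith

theorem hull_vert {c : ℝ} (hc : 0 < c) : convexHull ℝ (range (vert c)) = Tri c := by
  have hs := sqrt3_pos
  have hs2 : √3 * √3 = 3 := Real.mul_self_sqrt (by norm_num)
  apply Subset.antisymm
  · apply convexHull_min _ (Tri_convex c)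
    rintro z ⟨i, rfl⟩
    have e : √3 * (c / √3) = c := by field_simp
    fin_cases i
    · exact ⟨by simp [vert], by simp [vert], by simpa [vert] using hc.le⟩
    · refine ⟨?_, ?_, ?_⟩
      · simp only [vert]
        show 0 ≤ c + √3 * (c / √3)
        rw [e]; linarith
      · show 0 ≤ c - √3 * (c / √3)
        rw [e]; linarith
      · exact le_refl c
    · refine ⟨?_, ?_, ?_⟩
      · show 0 ≤ c + √3 * (-(c / √3))
        rw [mul_neg, e]; linarith
      · show 0 ≤ c - √3 * (-(c / √3))
        rw [mul_neg, e]; linarith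
      · exact le_refl c
  · intro z hz
    have hb : 0 ≤ (z.re + √3 * z.im) / (2 * c) := div_nonneg hz.1 (by positivity)
    have hd : 0 ≤ (z.re - √3 * z.im) / (2 * c) := div_nonneg hz.2.1 (by positivity)
    have ha : 0 ≤ 1 - z.re / c := by
      have : z.re / c ≤ 1 := (div_le_one hc).2 hz.2.2
      linarith
    have hsum : (1 - z.re / c) + (z.re + √3 * z.im) / (2 * c) + (z.re - √3 * z.im) / (2 * c) = 1 := by
      field_simp; ring
    have hz' : z = ∑ i : Fin 3, (![1 - z.re / c, (z.re + √3 * z.im) / (2 * c),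
        (z.re - √3 * z.im) / (2 * c)] : Fin 3 → ℝ) i • vert c i := by
      rw [Fin.sum_univ_three]
      apply Complex.ext
      · simp only [vert, Matrix.cons_val_zero, Matrix.cons_val_one, Matrix.cons_val,
          Complex.add_re, Complex.smul_re, smul_eq_mul, Complex.zero_re, mul_zero, zero_add]
        field_simp; ring
      · simp only [vert, Matrix.cons_val_zero, Matrix.cons_val_one, Matrix.cons_val,
          Complex.add_im, Complex.smul_im, smul_eq_mul, Complex.zero_im, mul_zero, zero_add]
        field_simp; ring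
    rw [hz']
    apply (convex_convexHull ℝ _).sum_mem
    · intro i _
      fin_cases i
      · exact ha
      · exact hb
      · exact hd
    · rw [Fin.sum_univ_three]; exact hsum
    · intro i _
      exact subset_convexHull ℝ _ ⟨i, rfl⟩

/-- the isometry of `ℂ` with the Euclidean plane -/
noncomputable def iE : ℂ ≃ₗᵢ[ℝ] E2 := Complex.orthonormalBasisOneI.repr

variable {D : QD}

/-- **the doubled equilateral triangle** -/
theorem IsTri.dbl (h : D.IsTri) : ∃ v : Fin 3 → E2, 0 < dist (v 0) (v 1) ∧
    dist (v 1) (v 2) = dist (v 0) (v 1) ∧ dist (v 2) (v 0) = dist (v 0) (v 1) ∧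
    ∃ f : (convexHull ℝ (Set.range v) : Set E2) × Bool → D.X, Function.Surjective f ∧
      (∀ x y i, dist (f (x, i)) (f (y, i)) = dist x y) ∧
      (∀ x y, dist (f (x, true)) (f (y, false)) =
        ⨅ z : frontier (convexHull ℝ (Set.range v) : Set E2),
          (dist (x : E2) (z : E2) + dist (z : E2) (y : E2))) := by
  have hs := sqrt3_pos
  have hs2 : √3 * √3 = 3 := Real.mul_self_sqrt (by norm_num)
  have hc := D.hh_pos
  set v : Fin 3 → E2 := fun i => iE (vert D.hh i) with hv
  have hrange : range v = iE '' range (vert D.hh) := by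
    rw [← range_comp]; rfl
  have hhull : convexHull ℝ (range v) = iE '' Tri D.hh := by
    rw [hrange, ← hull_vert hc]
    exact (iE.toLinearEquiv.toLinearMap.image_convexHull _).symm
  have hfr : frontier (convexHull ℝ (range v)) = iE '' TriB D.hh := by
    rw [hhull, ← frontier_Tri]
    exact (iE.toHomeomorph.image_frontier _).symm
  have hd : ∀ i j, dist (v i) (v j) = ‖vert D.hh i - vert D.hh j‖ := by
    intro i j
    rw [hv]; simp only
    rw [iE.dist_map, dist_eq_norm]
  have e01 : ‖vert D.hh 0 - vert D.hh 1‖ = 2 * (D.hh / √3) := by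
    rw [Complex.norm_def, Complex.normSq_apply]
    have : (vert D.hh 0 - vert D.hh 1).re = -D.hh ∧
        (vert D.hh 0 - vert D.hh 1).im = -(D.hh / √3) := by
      simp [vert]
    rw [this.1, this.2]
    have : -D.hh * -D.hh + -(D.hh / √3) * -(D.hh / √3) = (2 * (D.hh / √3)) ^ 2 := by
      field_simp
      linear_combination hs2
    rw [this, Real.sqrt_sq (by positivity)]
  have e12 : ‖vert D.hh 1 - vert D.hh 2‖ = 2 * (D.hh / √3) := by
    rw [Complex.norm_def, Complex.normSq_apply]
    have : (vert D.hh 1 - vert D.hh 2).re = 0 ∧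
        (vert D.hh 1 - vert D.hh 2).im = 2 * (D.hh / √3) := by
      constructor
      · simp [vert]
      · simp only [vert, Matrix.cons_val_one, Matrix.cons_val, Complex.sub_im]
        ring
    rw [this.1, this.2]
    have : (0:ℝ) * 0 + 2 * (D.hh / √3) * (2 * (D.hh / √3)) = (2 * (D.hh / √3)) ^ 2 := by ring
    rw [this, Real.sqrt_sq (by positivity)]
  have e20 : ‖vert D.hh 2 - vert D.hh 0‖ = 2 * (D.hh / √3) := by
    rw [Complex.norm_def, Complex.normSq_apply]
    have : (vert D.hh 2 - vert D.hh 0).re = D.hh ∧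
        (vert D.hh 2 - vert D.hh 0).im = -(D.hh / √3) := by
      simp [vert]
    rw [this.1, this.2]
    have : D.hh * D.hh + -(D.hh / √3) * -(D.hh / √3) = (2 * (D.hh / √3)) ^ 2 := by
      field_simp
      linear_combination hs2
    rw [this, Real.sqrt_sq (by positivity)]
  refine ⟨v, ?_, ?_, ?_, ?_⟩
  · rw [hd, e01]; positivity
  · rw [hd, hd, e01, e12]
  · rw [hd, hd, e01, e20]
  · -- the gluing map
    have hpre : ∀ x : (convexHull ℝ (range v) : Set E2), ∃ a : D.D1, iE (Wd a) = x.1 ∧
        (x.1 ∈ frontier (convexHull ℝ (range v)) → a ∈ D.bd1) := by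
      intro x
      have hx : x.1 ∈ iE '' Tri D.hh := by rw [← hhull]; exact x.2
      obtain ⟨z, hz, hzx⟩ := hx
      obtain ⟨a, ha, ha'⟩ := Wd_surj h hz
      refine ⟨a, by rw [ha, hzx], fun hb => ha' ?_⟩
      rw [hfr] at hb
      obtain ⟨z', hz', hzx'⟩ := hb
      have : z' = z := iE.injective (hzx'.trans hzx.symm)
      rw [← this]; exact hz'
    choose pre hpre1 hpre2 using hpre
    have hdist : ∀ x y : (convexHull ℝ (range v) : Set E2), dist (pre x) (pre y) = dist x y := by
      intro x y
      rw [h.dist_D1, Subtype.dist_eq, ← hpre1 x, ← hpre1 y, iE.dist_map, dist_eq_norm]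
    refine ⟨fun xi => SeparationQuotient.mk (⟨pre xi.1, xi.2⟩ : D.XX), ?_, ?_, ?_⟩
    · intro y
      obtain ⟨y, rfl⟩ := SeparationQuotient.surjective_mk y
      obtain ⟨a, i⟩ := y
      have hx : iE (Wd a) ∈ convexHull ℝ (range v) := by
        rw [hhull]; exact ⟨Wd a, Wd_mem h a, rfl⟩
      refine ⟨(⟨iE (Wd a), hx⟩, i), ?_⟩
      rw [SeparationQuotient.mk_eq_mk, Metric.inseparable_iff]
      show dist (⟨pre ⟨iE (Wd a), hx⟩, i⟩ : D.XX) ⟨a, i⟩ = 0
      rw [Dbl.dist_same, h.dist_D1]
      have := iE.injective (hpre1 ⟨iE (Wd a), hx⟩)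
      rw [this, sub_self, norm_zero]
    · intro x y i
      show dist (SeparationQuotient.mk (⟨pre x, i⟩ : D.XX)) (SeparationQuotient.mk ⟨pre y, i⟩) = _
      rw [SeparationQuotient.dist_mk, Dbl.dist_same, hdist]
    · intro x y
      show dist (SeparationQuotient.mk (⟨pre x, true⟩ : D.XX))
        (SeparationQuotient.mk ⟨pre y, false⟩) = _
      rw [SeparationQuotient.dist_mk, Dbl.dist_diff _ _ (by simp)]
      unfold Dbl.cr
      have hmem : ∀ z : D.bd1, iE (Wd z.1) ∈ frontier (convexHull ℝ (range v)) := fun z => by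
        rw [hfr]; exact ⟨Wd z.1, Wd_bd h z.2, rfl⟩
      apply le_antisymm
      · haveI : Nonempty (frontier (convexHull ℝ (range v))) := by
          have z : D.bd1 := Classical.arbitrary _
          exact ⟨⟨_, hmem z⟩⟩
        apply le_ciInf
        intro z
        have hzh : z.1 ∈ convexHull ℝ (range v) := by
          have hcl : IsClosed (convexHull ℝ (range v)) := by
            rw [hhull]; exact iE.toHomeomorph.isClosedMap _ (isClosed_Tri _)
          exact hcl.frontier_subset z.2
        have hz2 := hpre2 ⟨z.1, hzh⟩ z.2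
        refine (ciInf_le (Dbl.bddBelow _ _) (⟨_, hz2⟩ : D.bd1)).trans ?_
        show dist (pre x) (pre ⟨z.1, hzh⟩) + dist (pre ⟨z.1, hzh⟩) (pre y) ≤ _
        rw [hdist, hdist]
        rfl
      · apply le_ciInf
        intro z
        refine (ciInf_le ⟨0, ?_⟩ (⟨_, hmem z⟩ : frontier (convexHull ℝ (range v)))).trans ?_
        · rintro _ ⟨w, rfl⟩
          positivity
        · apply le_of_eq
          show dist x.1 (iE (Wd z.1)) + dist (iE (Wd z.1)) y.1 = _
          rw [← hpre1 x, ← hpre1 y, iE.dist_map, iE.dist_map, h.dist_D1, h.dist_D1,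
            dist_eq_norm, dist_eq_norm]

end QD
end Pool.MP8e
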