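import Mathlib
import Pool.Agent.Work.MP_8e9dbb.A.Top

/-!
# Part A, file 16: the infinitesimal description of the distance (`strip`)
-/

open Filter Topology Metric Set

namespace Pool.MP8e
namespace QD

variable {D : QD}

/-- the infinitesimal description in the quarter domain -/
theorem inf_E (q : D.EPt) (hq : 0 < q.c.1) {ε : ℝ} (hε : 0 < ε) : ∃ δ > 0, ∀ x y : D.EPt,
    dist x.c q.c < δ → dist y.c q.c < δ →
    |dist x y - D.nms q.c.1 (x.c - y.c)| ≤ ε * ‖x.c - y.c‖ := by
  obtain ⟨c0, hc0, _, _, hge0⟩ := D.nms_ge (q := q.c.1) ⟨hq, q.c1.2.trans D.top_mem.2⟩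
  have hge : ∀ u : ℝ × ℝ, c0 * ‖u‖ ≤ D.nms q.c.1 u := fun u => hge0 q.c.1 (by simpa) u
  set C := |D.A q.c.1| + |D.R q.c.1| with hC
  have hC0 : 0 ≤ C := by positivity
  set ε' := ε / (C + 1 + ε) with hε'
  have hε'0 : 0 < ε' := by positivity
  obtain ⟨δ1, hδ1, H1⟩ := Pt.dist_upper (D := D.nf) q.1 hε
  obtain ⟨δ2, hδ2, H2⟩ := Pt.dist_lower (D := D.nf) q.1 hc0 hge hε'0
  refine ⟨min δ1 δ2, lt_min hδ1 hδ2, fun x y hx hy => ?_⟩
  have e1 := H1 x.1 y.1 (lt_of_lt_of_le hx (min_le_left _ _)) (lt_of_lt_of_le hy (min_le_left _ _))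
  have e2 := H2 x.1 y.1 (lt_of_lt_of_le hx (min_le_right _ _)) (lt_of_lt_of_le hy (min_le_right _ _))
  change dist x y ≤ D.nms q.c.1 (x.c - y.c) + ε * ‖x.c - y.c‖ at e1
  change D.nms q.c.1 (x.c - y.c) ≤ (1 + ε') * dist x y at e2
  have e3 := D.nms_le q.c.1 (x.c - y.c)
  rw [← hC] at e3
  have e4 : dist x y ≤ (C + ε) * ‖x.c - y.c‖ := by linarith
  have e5 : ε' * dist x y ≤ ε * ‖x.c - y.c‖ := by
    have h1 : ε' * dist x y ≤ ε' * ((C + ε) * ‖x.c - y.c‖) := mul_le_mul_of_nonneg_left e4 hε'0.le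
    have h2 : ε' * (C + ε) ≤ ε := by
      rw [hε', div_mul_eq_mul_div, div_le_iff₀ (by positivity)]
      nlinarith
    nlinarith [norm_nonneg (x.c - y.c)]
  exact abs_le.2 ⟨by linarith, by linarith⟩

/-- **doubling lemma** for infinitesimal descriptions -/
theorem dc {M : Type} [PseudoMetricSpace M] {S : Set M} [Nonempty S] (e : ℝ × ℝ → M) (q : ℝ × ℝ)
    (N : Seminorm ℝ (ℝ × ℝ)) {c C : ℝ} (hc : 0 < c) (hC0 : 0 ≤ C) (hN : ∀ u, c * ‖u‖ ≤ N u)
    (hC : ∀ u, N u ≤ C * ‖u‖) {ρ : ℝ} (hρ : 0 < ρ)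
    (hS : ∀ x : ℝ × ℝ, dist x q < ρ → x.2 = q.2 → e x ∈ S)
    (hloc : ∀ δ > 0, ∃ r > 0, ∀ m ∈ S, dist m (e q) < r →
      ∃ z : ℝ × ℝ, dist z q < δ ∧ z.2 = q.2 ∧ dist (e z) m = 0)
    (hinf : ∀ ε > 0, ∃ δ > 0, ∀ x y : ℝ × ℝ, dist x q < δ → dist y q < δ →
      0 ≤ (x.2 - q.2) * (y.2 - q.2) → |dist (e x) (e y) - N (x - y)| ≤ ε * ‖x - y‖)
    {ε : ℝ} (hε : 0 < ε) : ∃ δ > 0, ∀ x y : ℝ × ℝ, dist x q < δ → dist y q < δ →
      (x.2 - q.2) * (y.2 - q.2) ≤ 0 → |Dbl.cr S (e x) (e y) - N (x - y)| ≤ ε * ‖x - y‖ := by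
  set ε1 := min c (ε * c / (C + c)) with hε1
  have hε10 : 0 < ε1 := lt_min hc (by positivity)
  have hε1c : ε1 ≤ c := min_le_left _ _
  have hε12 : ε1 * (C + c) ≤ ε * c := by
    have := min_le_right c (ε * c / (C + c))
    rwa [← hε1, le_div_iff₀ (by positivity)] at this
  have hε1ε : ε1 ≤ ε := by
    have h1 : ε1 * c ≤ ε * c := by nlinarith
    exact le_of_mul_le_mul_right h1 hc
  obtain ⟨δ1, hδ1, H1⟩ := hinf ε1 hε10
  obtain ⟨r, hr, Hr⟩ := hloc (min δ1 ρ) (lt_min hδ1 hρ)
  set δ := min (min δ1 ρ) (r / (4 * (C + ε1 + 1))) with hδ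
  have hδ0 : 0 < δ := lt_min (lt_min hδ1 hρ) (by positivity)
  have hδr : δ * (4 * (C + ε1 + 1)) ≤ r := by
    have := min_le_right (min δ1 ρ) (r / (4 * (C + ε1 + 1)))
    rwa [← hδ, le_div_iff₀ (by positivity)] at this
  refine ⟨δ, hδ0, fun x y hx hy hxy => ?_⟩
  have hδ1' : δ ≤ δ1 := (min_le_left _ _).trans (min_le_left _ _)
  have hδρ : δ ≤ ρ := (min_le_left _ _).trans (min_le_right _ _)
  have hqq : dist q q < δ1 := by simpa using hδ1
  -- distance of `e x` from `e q`
  have hxq : ∀ x : ℝ × ℝ, dist x q < δ → dist (e x) (e q) ≤ (C + ε1) * δ := by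
    intro x hx
    have h1 := H1 x q (lt_of_lt_of_le hx hδ1') hqq (by simp)
    have h2 := (abs_le.1 h1).2
    have h3 := hC (x - q)
    rw [dist_eq_norm] at hx
    have : dist (e x) (e q) ≤ (C + ε1) * ‖x - q‖ := by linarith
    exact this.trans (mul_le_mul_of_nonneg_left hx.le (by positivity))
  -- the crossing point
  obtain ⟨t, ht0, ht1, htz⟩ : ∃ t : ℝ, 0 ≤ t ∧ t ≤ 1 ∧ x.2 + t * (y.2 - x.2) = q.2 := by
    by_cases h : y.2 - x.2 = 0
    · refine ⟨0, le_rfl, zero_le_one, ?_⟩
      have h2 : y.2 = x.2 := by linarith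
      rw [h2] at hxy
      have h3 : (x.2 - q.2) * (x.2 - q.2) = 0 := le_antisymm hxy (mul_self_nonneg _)
      have h4 := mul_self_eq_zero.1 h3
      rw [zero_mul, add_zero]; linarith
    · rcases lt_or_gt_of_ne h with h1 | h1
      · -- y.2 < x.2
        have ha : 0 ≤ x.2 - q.2 := by
          by_contra hcon
          push Not at hcon
          have : 0 < (x.2 - q.2) * (y.2 - q.2) := mul_pos_of_neg_of_neg hcon (by linarith)
          linarith
        have hb : y.2 - q.2 ≤ 0 := by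
          by_contra hcon
          push Not at hcon
          have : 0 < (x.2 - q.2) * (y.2 - q.2) := mul_pos (by linarith) hcon
          linarith
        refine ⟨(x.2 - q.2) / (x.2 - y.2), div_nonneg ha (by linarith), ?_, ?_⟩
        · rw [div_le_one (by linarith)]; linarith
        · have : x.2 - y.2 ≠ 0 := by intro h5; apply h; linarith
          field_simp; ring
      · have ha : x.2 - q.2 ≤ 0 := by
          by_contra hcon
          push Not at hcon
          have : 0 < (x.2 - q.2) * (y.2 - q.2) := mul_pos hcon (by linarith)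
          linarith
        have hb : 0 ≤ y.2 - q.2 := by
          by_contra hcon
          push Not at hcon
          have : 0 < (x.2 - q.2) * (y.2 - q.2) := mul_pos_of_neg_of_neg (by linarith) hcon
          linarith
        refine ⟨(q.2 - x.2) / (y.2 - x.2), div_nonneg (by linarith) h1.le, ?_, ?_⟩
        · rw [div_le_one h1]; linarith
        · have : y.2 - x.2 ≠ 0 := h
          field_simp; ring
  set z : ℝ × ℝ := x + t • (y - x) with hz
  have hz2 : z.2 = q.2 := by rw [hz]; simpa using htz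
  have hzb : dist z q < δ := by
    have : z ∈ segment ℝ x y := by rw [segment_eq_image']; exact ⟨t, ⟨ht0, ht1⟩, rfl⟩
    exact (convex_ball q δ).segment_subset hx hy this
  have hxz : x - z = t • (x - y) := by rw [hz]; module
  have hzy : z - y = (1 - t) • (x - y) := by rw [hz]; module
  apply abs_le.2
  constructor
  · -- lower bound
    have key : N (x - y) - ε * ‖x - y‖ ≤ Dbl.cr S (e x) (e y) := by
      refine Dbl.le_cr fun m hm => ?_
      by_cases hmr : dist m (e q) < r
      · obtain ⟨w, hw, hw2, hwm⟩ := Hr m hm hmr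
        have hwδ : dist w q < δ1 := lt_of_lt_of_le hw (min_le_left _ _)
        have a1 := H1 x w (lt_of_lt_of_le hx hδ1') hwδ (by rw [hw2]; simp)
        have a2 := H1 w y hwδ (lt_of_lt_of_le hy hδ1') (by rw [hw2]; simp)
        have b1 : dist (e x) (e w) ≤ dist (e x) m := by
          have := dist_triangle (e x) m (e w)
          rw [dist_comm m (e w), hwm] at this; linarith
        have b2 : dist (e w) (e y) ≤ dist m (e y) := by
          have := dist_triangle (e w) m (e y)
          rw [hwm] at this; linarith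
        have c1 := (abs_le.1 a1).1
        have c2 := (abs_le.1 a2).1
        have d1 := hN (x - w)
        have d2 := hN (w - y)
        have d3 : N (x - y) ≤ N (x - w) + N (w - y) := by
          have := map_add_le_add N (x - w) (w - y)
          rwa [sub_add_sub_cancel] at this
        have d4 := hC (x - y)
        -- (1 - ε1/c) N
        set a := N (x - w) + N (w - y) with ha
        have f1 : a - (ε1 / c) * a ≤ dist (e x) m + dist m (e y) := by
          have g1 : ε1 * ‖x - w‖ ≤ ε1 / c * N (x - w) := by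
            rw [div_mul_eq_mul_div, le_div_iff₀ hc]
            nlinarith
          have g2 : ε1 * ‖w - y‖ ≤ ε1 / c * N (w - y) := by
            rw [div_mul_eq_mul_div, le_div_iff₀ hc]
            nlinarith
          have g3 : ε1 / c * a = ε1 / c * N (x - w) + ε1 / c * N (w - y) := by rw [ha]; ring
          linarith
        have f2 : 0 ≤ 1 - ε1 / c := by
          have : ε1 / c ≤ 1 := by rw [div_le_one hc]; exact hε1c
          linarith
        have f3 : (1 - ε1 / c) * N (x - y) ≤ (1 - ε1 / c) * a := mul_le_mul_of_nonneg_left d3 f2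
        have f4 : ε1 / c * N (x - y) ≤ ε * ‖x - y‖ := by
          rw [div_mul_eq_mul_div, div_le_iff₀ hc]
          have h5 : ε1 * C ≤ ε * c := by nlinarith
          have h6 : ε1 * N (x - y) ≤ ε1 * (C * ‖x - y‖) := mul_le_mul_of_nonneg_left d4 hε10.le
          nlinarith [norm_nonneg (x - y)]
        nlinarith
      · push Not at hmr
        have a1 := hxq x hx
        have a2 := hxq y hy
        have b1 := dist_triangle m (e x) (e q)
        have b2 := dist_triangle m (e y) (e q)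
        rw [dist_comm m (e x)] at b1
        have d4 := hC (x - y)
        have d5 : ‖x - y‖ ≤ 2 * δ := by
          rw [← dist_eq_norm]
          have := dist_triangle_right x y q
          linarith
        have d6 : C * ‖x - y‖ ≤ C * (2 * δ) := mul_le_mul_of_nonneg_left d5 hC0
        have d7 : 0 ≤ ε * ‖x - y‖ := by positivity
        nlinarith
    linarith
  · -- upper bound
    have hzS : e z ∈ S := hS z (lt_of_lt_of_le hzb hδρ) hz2
    have a0 := Dbl.cr_le (x := e x) (y := e y) hzS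
    have a1 := H1 x z (lt_of_lt_of_le hx hδ1') (lt_of_lt_of_le hzb hδ1') (by rw [hz2]; simp)
    have a2 := H1 z y (lt_of_lt_of_le hzb hδ1') (lt_of_lt_of_le hy hδ1') (by rw [hz2]; simp)
    have c1 := (abs_le.1 a1).2
    have c2 := (abs_le.1 a2).2
    rw [hxz, map_smul_eq_mul, norm_smul, Real.norm_eq_abs, abs_of_nonneg ht0] at c1
    rw [hzy, map_smul_eq_mul, norm_smul, Real.norm_eq_abs, abs_of_nonneg (by linarith)] at c2
    have : ε1 * ‖x - y‖ ≤ ε * ‖x - y‖ := mul_le_mul_of_nonneg_right hε1ε (norm_nonneg _)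
    nlinarith

/-! ## the fold near an angle -/

theorem fold_shift (θ₀ : ℝ) : ∃ s : ℝ, (s = 1 ∨ s = -1) ∧ ∀ h, fold (θ₀ + h) = fold (fold θ₀ + s * h) := by
  have hc := cos_fold θ₀
  have hs := sin_fold θ₀
  have key : ∀ s : ℝ, (s = 1 ∨ s = -1) → ∀ a : ℝ, (a = 1 ∨ a = -1) →
      Real.cos θ₀ = a * Real.cos (fold θ₀) → Real.sin θ₀ = a * s * Real.sin (fold θ₀) →
      ∀ h, fold (θ₀ + h) = fold (fold θ₀ + s * h) := by
    intro s hs1 a ha h1 h2 h
    have h3 : Real.cos (s * h) = Real.cos h := by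
      rcases hs1 with h5 | h5
      · rw [h5, one_mul]
      · rw [h5, neg_one_mul, Real.cos_neg]
    have h4 : Real.sin (s * h) = s * Real.sin h := by
      rcases hs1 with h5 | h5
      · rw [h5, one_mul, one_mul]
      · rw [h5, neg_one_mul, Real.sin_neg]; ring
    have h5 : Real.cos (θ₀ + h) = a * Real.cos (fold θ₀ + s * h) := by
      rw [Real.cos_add, Real.cos_add, h3, h4, h1, h2]; ring
    unfold fold at h5 ⊢
    rw [h5, abs_mul]
    have : |a| = 1 := by rcases ha with ha | ha <;> rw [ha] <;> simp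
    rw [this, one_mul]
  rcases le_total 0 (Real.cos θ₀) with h1 | h1
  · rw [abs_of_nonneg h1] at hc
    rcases le_total 0 (Real.sin θ₀) with h2 | h2
    · rw [abs_of_nonneg h2] at hs
      exact ⟨1, Or.inl rfl, key 1 (Or.inl rfl) 1 (Or.inl rfl) (by rw [hc]; ring) (by rw [hs]; ring)⟩
    · rw [abs_of_nonpos h2] at hs
      exact ⟨-1, Or.inr rfl, key (-1) (Or.inr rfl) 1 (Or.inl rfl) (by rw [hc]; ring) (by rw [hs]; ring)⟩
  · rw [abs_of_nonpos h1] at hc
    rcases le_total 0 (Real.sin θ₀) with h2 | h2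
    · rw [abs_of_nonneg h2] at hs
      exact ⟨-1, Or.inr rfl, key (-1) (Or.inr rfl) (-1) (Or.inr rfl) (by rw [hc]; ring) (by rw [hs]; ring)⟩
    · rw [abs_of_nonpos h2] at hs
      exact ⟨1, Or.inl rfl, key 1 (Or.inl rfl) (-1) (Or.inr rfl) (by rw [hc]; ring) (by rw [hs]; ring)⟩

theorem fold_half_add {k : ℝ} (h : |k| ≤ Real.pi / 2) : fold (Real.pi / 2 + k) = Real.pi / 2 - |k| := by
  have h1 : |Real.cos (Real.pi / 2 + k)| = Real.cos (Real.pi / 2 - |k|) := by
    rw [add_comm, Real.cos_add_pi_div_two, abs_neg, Real.cos_pi_div_two_sub]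
    rcases le_total 0 k with h2 | h2
    · rw [abs_of_nonneg h2] at h ⊢
      exact abs_of_nonneg (Real.sin_nonneg_of_nonneg_of_le_pi h2 (by linarith [Real.pi_pos]))
    · rw [abs_of_nonpos h2] at h ⊢
      rw [Real.sin_neg]
      exact abs_of_nonpos (Real.sin_nonpos_of_nonpos_of_neg_pi_le h2 (by linarith [Real.pi_pos]))
  unfold fold
  rw [h1]
  exact Real.arccos_cos (by linarith) (by linarith [abs_nonneg k, Real.pi_pos])

theorem fold_zero_add {k : ℝ} (h : |k| ≤ Real.pi / 2) : fold (0 + k) = |k| := by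
  have h1 : |Real.cos (0 + k)| = Real.cos |k| := by
    rw [zero_add, Real.cos_abs]
    exact abs_of_nonneg (Real.cos_nonneg_of_mem_Icc ⟨by linarith [(abs_le.1 h).1], (abs_le.1 h).2⟩)
  unfold fold
  rw [h1]
  exact Real.arccos_cos (abs_nonneg _) (by linarith [Real.pi_pos])

theorem abs_abs_sub_abs_eq {a b : ℝ} (h : 0 ≤ a * b) : |(|a| - |b|)| = |a - b| := by
  rcases le_total 0 a with ha | ha
  · rcases le_total 0 b with hb | hb
    · rw [abs_of_nonneg ha, abs_of_nonneg hb]
    · rcases eq_or_lt_of_le ha with h0 | h0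
      · rw [← h0]; simp
      · have : b = 0 := by
          by_contra hcon
          have : b < 0 := lt_of_le_of_ne hb hcon
          have := mul_neg_of_pos_of_neg h0 this
          linarith
        rw [this]; simp
  · rcases le_total 0 b with hb | hb
    · rcases eq_or_lt_of_le ha with h0 | h0
      · rw [h0]; simp
      · have : b = 0 := by
          by_contra hcon
          have : 0 < b := lt_of_le_of_ne hb (Ne.symm hcon)
          have := mul_neg_of_neg_of_pos h0 this
          linarith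
        rw [this]; simp
    · rw [abs_of_nonpos ha, abs_of_nonpos hb, abs_sub_comm]
      congr 1; ring

theorem fold_near (θ₀ : ℝ) : ∃ δ > 0, ∀ θ θ', |θ - θ₀| < δ → |θ' - θ₀| < δ →
    ((Real.cos θ₀ ≠ 0 ∧ Real.sin θ₀ ≠ 0) ∨ 0 ≤ (θ - θ₀) * (θ' - θ₀)) →
    |fold θ - fold θ'| = |θ - θ'| := by
  obtain ⟨s, hs, H⟩ := fold_shift θ₀
  have hs1 : |s| = 1 := by rcases hs with h | h <;> rw [h] <;> simp
  have hs2 : s * s = 1 := by rcases hs with h | h <;> rw [h] <;> norm_num
  have hf := fold_mem θ₀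
  have red : ∀ θ, fold θ = fold (fold θ₀ + s * (θ - θ₀)) := fun θ => by
    rw [← H]; congr 1; ring
  have habs : ∀ θ, |s * (θ - θ₀)| = |θ - θ₀| := fun θ => by rw [abs_mul, hs1, one_mul]
  by_cases h1 : fold θ₀ = Real.pi / 2
  · have hc0 : Real.cos θ₀ = 0 := by
      have := cos_fold θ₀
      rw [h1, Real.cos_pi_div_two] at this
      exact abs_eq_zero.1 this.symm
    refine ⟨Real.pi / 2, Real.pi_div_two_pos, fun θ θ' hθ hθ' hor => ?_⟩
    have hpos : 0 ≤ (θ - θ₀) * (θ' - θ₀) := by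
      rcases hor with h2 | h2
      · exact absurd hc0 h2.1
      · exact h2
    rw [red θ, red θ', h1, fold_half_add (by rw [habs]; exact hθ.le),
      fold_half_add (by rw [habs]; exact hθ'.le), habs, habs]
    rw [show Real.pi / 2 - |θ - θ₀| - (Real.pi / 2 - |θ' - θ₀|) = -(|θ - θ₀| - |θ' - θ₀|) by ring,
      abs_neg, abs_abs_sub_abs_eq hpos]
    congr 1; ring
  by_cases h2 : fold θ₀ = 0
  · have hs0 : Real.sin θ₀ = 0 := by
      have := sin_fold θ₀
      rw [h2, Real.sin_zero] at this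
      exact abs_eq_zero.1 this.symm
    refine ⟨Real.pi / 2, Real.pi_div_two_pos, fun θ θ' hθ hθ' hor => ?_⟩
    have hpos : 0 ≤ (θ - θ₀) * (θ' - θ₀) := by
      rcases hor with h3 | h3
      · exact absurd hs0 h3.2
      · exact h3
    rw [red θ, red θ', h2, fold_zero_add (by rw [habs]; exact hθ.le),
      fold_zero_add (by rw [habs]; exact hθ'.le), habs, habs, abs_abs_sub_abs_eq hpos]
    congr 1; ring
  · have hlt : fold θ₀ < Real.pi / 2 := lt_of_le_of_ne hf.2 h1
    have hgt : 0 < fold θ₀ := lt_of_le_of_ne hf.1 (Ne.symm h2)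
    refine ⟨min (fold θ₀) (Real.pi / 2 - fold θ₀), lt_min hgt (by linarith), fun θ θ' hθ hθ' _ => ?_⟩
    have hin : ∀ θ, |θ - θ₀| < min (fold θ₀) (Real.pi / 2 - fold θ₀) →
        fold θ = fold θ₀ + s * (θ - θ₀) := by
      intro θ hθ
      rw [red θ]
      apply fold_of_mem
      rw [← habs] at hθ
      have h3 := abs_lt.1 (lt_of_lt_of_le hθ (min_le_left _ _))
      have h4 := abs_lt.1 (lt_of_lt_of_le hθ (min_le_right _ _))
      exact ⟨by linarith [h3.1], by linarith [h4.2]⟩
    rw [hin θ hθ, hin θ' hθ']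
    rw [show fold θ₀ + s * (θ - θ₀) - (fold θ₀ + s * (θ' - θ₀)) = s * (θ - θ') by ring, abs_mul, hs1,
      one_mul]

/-- one sided infinitesimal description of `ept` -/
theorem inf_ept (q : ℝ × ℝ) (hq0 : 0 < q.1) (hq1 : q.1 < D.βh q.2) {ε : ℝ} (hε : 0 < ε) :
    ∃ δ > 0, ∀ x y : ℝ × ℝ, dist x q < δ → dist y q < δ →
      ((Real.cos q.2 ≠ 0 ∧ Real.sin q.2 ≠ 0) ∨ 0 ≤ (x.2 - q.2) * (y.2 - q.2)) →
      |dist (D.ept x) (D.ept y) - D.nms q.1 (x - y)| ≤ ε * ‖x - y‖ := by
  have hc := ept_c (D := D) (x := q) hq0.le hq1.le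
  obtain ⟨δ1, hδ1, H1⟩ := inf_E (D.ept q) (by rw [hc]; exact hq0) hε
  rw [hc] at H1
  simp only at H1
  obtain ⟨δ2, hδ2, H2⟩ := fold_near q.2
  -- the open set 0 < x.1 < βh x.2
  have hopen : IsOpen {x : ℝ × ℝ | 0 < x.1 ∧ x.1 < D.βh x.2} :=
    (isOpen_lt continuous_const continuous_fst).and
      (isOpen_lt continuous_fst (D.continuous_βh.comp continuous_snd))
  obtain ⟨δ3, hδ3, H3⟩ := Metric.isOpen_iff.1 hopen q ⟨hq0, hq1⟩
  -- continuity of fold
  obtain ⟨δ4, hδ4, H4⟩ := Metric.continuous_iff.1 continuous_fold q.2 δ1 hδ1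
  refine ⟨min (min δ1 δ2) (min δ3 δ4), lt_min (lt_min hδ1 hδ2) (lt_min hδ3 hδ4),
    fun x y hx hy hor => ?_⟩
  have hsnd : ∀ x : ℝ × ℝ, |x.2 - q.2| ≤ dist x q := fun x => by
    rw [← Real.dist_eq, Prod.dist_eq]; exact le_max_right _ _
  have hfst : ∀ x : ℝ × ℝ, |x.1 - q.1| ≤ dist x q := fun x => by
    rw [← Real.dist_eq, Prod.dist_eq]; exact le_max_left _ _
  have hcx : ∀ x : ℝ × ℝ, dist x q < min (min δ1 δ2) (min δ3 δ4) →
      (D.ept x).c = (x.1, fold x.2) ∧ dist (D.ept x).c (q.1, fold q.2) < δ1 := by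
    intro x hx
    have h3 := H3 (show x ∈ ball q δ3 from
      lt_of_lt_of_le hx ((min_le_right _ _).trans (min_le_left _ _)))
    have h5 := ept_c (D := D) (x := x) h3.1.le h3.2.le
    refine ⟨h5, ?_⟩
    rw [h5, Prod.dist_eq]
    refine max_lt ?_ ?_
    · simp only [Real.dist_eq]
      exact lt_of_le_of_lt (hfst x) (lt_of_lt_of_le hx ((min_le_left _ _).trans (min_le_left _ _)))
    · refine H4 x.2 ?_
      rw [Real.dist_eq]
      exact lt_of_le_of_lt (hsnd x) (lt_of_lt_of_le hx ((min_le_right _ _).trans (min_le_right _ _)))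
  obtain ⟨ex, dx⟩ := hcx x hx
  obtain ⟨ey, dy⟩ := hcx y hy
  have h1 := H1 _ _ dx dy
  have hfold := H2 x.2 y.2
    (lt_of_le_of_lt (hsnd x) (lt_of_lt_of_le hx ((min_le_left _ _).trans (min_le_right _ _))))
    (lt_of_le_of_lt (hsnd y) (lt_of_lt_of_le hy ((min_le_left _ _).trans (min_le_right _ _)))) hor
  rw [ex, ey] at h1
  have e1 : D.nms q.1 ((x.1, fold x.2) - (y.1, fold y.2)) = D.nms q.1 (x - y) := by
    rw [nms_eq, nms_eq]
    unfold nm
    congr 1
    simp only [Prod.fst_sub, Prod.snd_sub]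
    have : (fold x.2 - fold y.2) ^ 2 = (x.2 - y.2) ^ 2 := by
      rw [← sq_abs, hfold, sq_abs]
    rw [mul_pow, mul_pow, mul_pow, this]
  have e2 : ‖((x.1, fold x.2) : ℝ × ℝ) - (y.1, fold y.2)‖ = ‖x - y‖ := by
    rw [Prod.norm_def, Prod.norm_def]
    simp only [Prod.fst_sub, Prod.snd_sub, Real.norm_eq_abs]
    rw [hfold]
  rw [e1, e2] at h1
  exact h1

/-- signs near a simple zero -/
theorem sign_near {g : ℝ → ℝ} {θ₀ a : ℝ} (ha : a ≠ 0) (hg : ∀ h, g (θ₀ + h) = a * Real.sin h) :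
    ∀ θ θ', |θ - θ₀| < Real.pi → |θ' - θ₀| < Real.pi →
      (decide (g θ < 0) = decide (g θ' < 0) → 0 ≤ (θ - θ₀) * (θ' - θ₀)) ∧
      (decide (g θ < 0) ≠ decide (g θ' < 0) → (θ - θ₀) * (θ' - θ₀) ≤ 0) := by
  have key : ∀ θ, |θ - θ₀| < Real.pi → (0 < θ - θ₀ → 0 < a * g θ) ∧ (θ - θ₀ < 0 → a * g θ < 0) := by
    intro θ hθ
    have h1 : g θ = a * Real.sin (θ - θ₀) := by rw [← hg]; congr 1; ring
    have h2 : a * g θ = a ^ 2 * Real.sin (θ - θ₀) := by rw [h1]; ring
    have h3 : 0 < a ^ 2 := by positivity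
    rw [h2]
    exact ⟨fun h => mul_pos h3 (Real.sin_pos_of_pos_of_lt_pi h (abs_lt.1 hθ).2),
      fun h => mul_neg_of_pos_of_neg h3 (Real.sin_neg_of_neg_of_neg_pi_lt h (abs_lt.1 hθ).1)⟩
  intro θ θ' hθ hθ'
  obtain ⟨p1, p2⟩ := key θ hθ
  obtain ⟨q1, q2⟩ := key θ' hθ'
  constructor
  · intro heq
    by_contra hcon
    push Not at hcon
    -- opposite strict signs
    rcases mul_neg_iff.1 hcon with ⟨h1, h2⟩ | ⟨h1, h2⟩
    · have e1 := p1 h1
      have e2 := q2 h2
      rcases lt_or_gt_of_ne ha with ha | ha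
      · have f1 : g θ < 0 := by by_contra h; push Not at h; nlinarith
        have f2 : ¬ g θ' < 0 := by intro h; nlinarith
        simp [f1, f2] at heq
      · have f1 : ¬ g θ < 0 := by intro h; nlinarith
        have f2 : g θ' < 0 := by by_contra h; push Not at h; nlinarith
        simp [f1, f2] at heq
    · have e1 := p2 h1
      have e2 := q1 h2
      rcases lt_or_gt_of_ne ha with ha | ha
      · have f1 : ¬ g θ < 0 := by intro h; nlinarith
        have f2 : g θ' < 0 := by by_contra h; push Not at h; nlinarith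
        simp [f1, f2] at heq
      · have f1 : g θ < 0 := by by_contra h; push Not at h; nlinarith
        have f2 : ¬ g θ' < 0 := by intro h; nlinarith
        simp [f1, f2] at heq
  · intro hne
    by_contra hcon
    push Not at hcon
    apply hne
    rcases mul_pos_iff.1 hcon with ⟨h1, h2⟩ | ⟨h1, h2⟩
    · have e1 := p1 h1
      have e2 := q1 h2
      rcases lt_or_gt_of_ne ha with ha | ha
      · have f1 : g θ < 0 := by by_contra h; push Not at h; nlinarith
        have f2 : g θ' < 0 := by by_contra h; push Not at h; nlinarith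
        simp [f1, f2]
      · have f1 : ¬ g θ < 0 := by intro h; nlinarith
        have f2 : ¬ g θ' < 0 := by intro h; nlinarith
        simp [f1, f2]
    · have e1 := p2 h1
      have e2 := q2 h2
      rcases lt_or_gt_of_ne ha with ha | ha
      · have f1 : ¬ g θ < 0 := by intro h; nlinarith
        have f2 : ¬ g θ' < 0 := by intro h; nlinarith
        simp [f1, f2]
      · have f1 : g θ < 0 := by by_contra h; push Not at h; nlinarith
        have f2 : g θ' < 0 := by by_contra h; push Not at h; nlinarith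
        simp [f1, f2]

/-- **strip** -/
theorem fact_strip : ∀ q : ℝ × ℝ, 0 < q.1 → q.1 < D.βh q.2 → ∀ ε > 0, ∃ δ > 0, ∀ x y : ℝ × ℝ,
    dist x q < δ → dist y q < δ → |dist (D.Pr x) (D.Pr y) - D.nm q.1 (x - y)| ≤ ε * ‖x - y‖ := by
  intro q hq0 hq1 ε hε
  have hc := ept_c (D := D) (x := q) hq0.le hq1.le
  have hqE : 0 < (D.ept q).c.1 := by rw [hc]; exact hq0
  obtain ⟨δ0, hδ0, H0⟩ := inf_ept (D := D) q hq0 hq1 hε
  obtain ⟨δs, hδs, Hs⟩ := sides_near q.2
  have hsnd : ∀ x : ℝ × ℝ, |x.2 - q.2| ≤ dist x q := fun x => by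
    rw [← Real.dist_eq, Prod.dist_eq]; exact le_max_right _ _
  have hfst : ∀ x : ℝ × ℝ, |x.1 - q.1| ≤ dist x q := fun x => by
    rw [← Real.dist_eq, Prod.dist_eq]; exact le_max_left _ _
  -- the norm constants
  obtain ⟨c0, hc0, _, _, hge0⟩ := D.nms_ge (q := q.1) ⟨hq0, by
    have := (D.β_mem' (fold_mem q.2)).2
    have h2 : D.βh q.2 = D.β (fold q.2) := rfl
    linarith⟩
  have hge : ∀ u : ℝ × ℝ, c0 * ‖u‖ ≤ D.nms q.1 u := fun u => hge0 q.1 (by simpa) u
  have hC := D.nms_le q.1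
  -- open set
  have hopen : IsOpen {x : ℝ × ℝ | 0 < x.1 ∧ x.1 < D.βh x.2} :=
    (isOpen_lt continuous_const continuous_fst).and
      (isOpen_lt continuous_fst (D.continuous_βh.comp continuous_snd))
  obtain ⟨δ3, hδ3, H3⟩ := Metric.isOpen_iff.1 hopen q ⟨hq0, hq1⟩
  by_cases hcos : Real.cos q.2 = 0
  · -- the axis
    have hsin : Real.sin q.2 ≠ 0 := by
      intro h
      have := Real.sin_sq_add_cos_sq q.2
      rw [h, hcos] at this
      norm_num at this
    have hfq : fold q.2 = Real.pi / 2 := fold_of_cos_zero hcos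
    obtain ⟨δ1, hδ1, H1⟩ := dc (S := D.axis) D.ept q (D.nms q.1) hc0 (by positivity) hge hC one_pos
      (fun x _ hx2 => by
        change (D.ept x).c.2 = Real.pi / 2
        rw [ept_c2, hx2, hfq])
      (by
        intro δ hδ
        obtain ⟨r, hr, Hr⟩ := near' (D.ept q) hqE (lt_min hδ hδ3)
        refine ⟨r, hr, fun m hm hmr => ⟨(m.c.1, q.2), ?_, rfl, ?_⟩⟩
        · have h1 := Hr m hmr
          rw [hc, Prod.dist_eq] at h1
          have h2 := lt_of_le_of_lt (le_max_left _ _) h1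
          rw [Prod.dist_eq]
          simp only [dist_self]
          exact max_lt (lt_of_lt_of_le h2 (min_le_left _ _)) hδ
        · have h3 : D.ept (m.c.1, q.2) = m := by
            apply EPt.ext'
            have hm2 : m.c.2 = Real.pi / 2 := hm
            rw [ept_c (x := (m.c.1, q.2)) m.c1.1 (by
              simp only
              unfold βh
              rw [hfq, ← hm2]; exact m.c_le)]
            simp only
            rw [hfq, ← hm2]
          rw [h3, dist_self])
      (by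
        intro ε hε
        obtain ⟨δ, hδ, H⟩ := inf_ept (D := D) q hq0 hq1 hε
        exact ⟨δ, hδ, fun x y hx hy hxy => H x y hx hy (Or.inr hxy)⟩) hε
    refine ⟨min (min δ0 δ1) (min δs Real.pi), lt_min (lt_min hδ0 hδ1) (lt_min hδs Real.pi_pos),
      fun x y hx hy => ?_⟩
    have s1 := (Hs x.2 (lt_of_le_of_lt (hsnd x) (lt_of_lt_of_le hx
      ((min_le_right _ _).trans (min_le_left _ _))))).2.resolve_right hsin
    have s2 := (Hs y.2 (lt_of_le_of_lt (hsnd y) (lt_of_lt_of_le hy
      ((min_le_right _ _).trans (min_le_left _ _))))).2.resolve_right hsin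
    have hsg := sign_near (g := Real.cos) (θ₀ := q.2) (a := -Real.sin q.2) (by
      intro h; apply hsin; linarith) (fun h => by rw [Real.cos_add, hcos]; ring) x.2 y.2
      (lt_of_le_of_lt (hsnd x) (lt_of_lt_of_le hx ((min_le_right _ _).trans (min_le_right _ _))))
      (lt_of_le_of_lt (hsnd y) (lt_of_lt_of_le hy ((min_le_right _ _).trans (min_le_right _ _))))
    rw [dist_Pr, pr_eq, pr_eq, s1, s2, Dbl.dist_same, ← nms_eq]
    by_cases hsd : sd1 x.2 = sd1 y.2
    · rw [hsd, Dbl.dist_same]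
      exact H0 x y (lt_of_lt_of_le hx ((min_le_left _ _).trans (min_le_left _ _)))
        (lt_of_lt_of_le hy ((min_le_left _ _).trans (min_le_left _ _))) (Or.inr (hsg.1 hsd))
    · rw [Dbl.dist_diff _ _ hsd]
      exact H1 x y (lt_of_lt_of_le hx ((min_le_left _ _).trans (min_le_right _ _)))
        (lt_of_lt_of_le hy ((min_le_left _ _).trans (min_le_right _ _))) (hsg.2 hsd)
  by_cases hsin : Real.sin q.2 = 0
  · -- the leg
    have hfq : fold q.2 = 0 := fold_of_sin_zero hsin
    have hnax : (D.ept q).c.2 ≠ Real.pi / 2 := by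
      rw [hc]; simp only; rw [hfq]; exact Real.pi_div_two_pos.ne
    obtain ⟨δ1, hδ1, H1⟩ := dc (S := D.bd1) (fun x => (⟨D.ept x, sd1 q.2⟩ : D.D1)) q (D.nms q.1) hc0
      (by positivity) hge hC one_pos
      (fun x _ hx2 => by
        change (D.ept x).c.2 = 0 ∨ _
        left
        rw [ept_c2, hx2, hfq])
      (by
        intro δ hδ
        -- stay away from the floor and from the axis
        obtain ⟨ra, hra, Ha⟩ := axis_away (D.ept q) hqE hnax
        have hgap : 0 < D.βh q.2 - q.1 := by linarith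
        obtain ⟨δβ, hδβ, Hβ⟩ := Metric.continuousWithinAt_iff.1 (D.cont_β (fold q.2) (fold_mem _))
          ((D.βh q.2 - q.1) / 2) (by linarith)
        obtain ⟨r, hr, Hr⟩ := near' (D.ept q) hqE (lt_min hδ (lt_min hδβ (half_pos hgap)))
        refine ⟨min ra r, lt_min hra hr, fun m hm hmr => ?_⟩
        have hside : m.side = sd1 q.2 := Dbl.side_eq_of_dist_lt Ha
          (lt_of_lt_of_le hmr (min_le_left _ _))
        have hmE : dist m.pt (D.ept q) < r := lt_of_le_of_lt
          (Dbl.dist_pt_le m (⟨D.ept q, sd1 q.2⟩ : D.D1)) (lt_of_lt_of_le hmr (min_le_right _ _))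
        have h1 := Hr m.pt hmE
        rw [hc, Prod.dist_eq] at h1
        have h2 := lt_of_le_of_lt (le_max_left _ _) h1
        have h3 := lt_of_le_of_lt (le_max_right _ _) h1
        have hm0 : m.pt.c.2 = 0 := by
          rcases hm with h | h
          · exact h
          · exfalso
            have h4 := Hβ m.pt.c2 (lt_of_lt_of_le h3 ((min_le_right _ _).trans (min_le_left _ _)))
            have h5 := lt_of_lt_of_le h2 ((min_le_right _ _).trans (min_le_right _ _))
            rw [Real.dist_eq, abs_lt] at h4 h5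
            have h6 : D.βh q.2 = D.β (fold q.2) := rfl
            rw [h] at h5
            linarith [h4.1, h5.2]
        refine ⟨(m.pt.c.1, q.2), ?_, rfl, ?_⟩
        · rw [Prod.dist_eq]
          simp only [dist_self]
          exact max_lt (lt_of_lt_of_le h2 (min_le_left _ _)) hδ
        · have h7 : D.ept (m.pt.c.1, q.2) = m.pt := by
            apply EPt.ext'
            rw [ept_c (x := (m.pt.c.1, q.2)) m.pt.c1.1 (by
              simp only
              unfold βh
              rw [hfq, ← hm0]; exact m.pt.c_le)]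
            simp only
            rw [hfq, ← hm0]
          rw [h7, ← hside, dist_self])
      (by
        intro ε hε
        obtain ⟨δ, hδ, H⟩ := inf_ept (D := D) q hq0 hq1 hε
        exact ⟨δ, hδ, fun x y hx hy hxy => by rw [Dbl.dist_same]; exact H x y hx hy (Or.inr hxy)⟩) hε
    refine ⟨min (min δ0 δ1) (min δs Real.pi), lt_min (lt_min hδ0 hδ1) (lt_min hδs Real.pi_pos),
      fun x y hx hy => ?_⟩
    have s1 := (Hs x.2 (lt_of_le_of_lt (hsnd x) (lt_of_lt_of_le hx
      ((min_le_right _ _).trans (min_le_left _ _))))).1.resolve_right hcos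
    have s2 := (Hs y.2 (lt_of_le_of_lt (hsnd y) (lt_of_lt_of_le hy
      ((min_le_right _ _).trans (min_le_left _ _))))).1.resolve_right hcos
    have hsg := sign_near (g := Real.sin) (θ₀ := q.2) (a := Real.cos q.2) hcos
      (fun h => by rw [Real.sin_add, hsin]; ring) x.2 y.2
      (lt_of_le_of_lt (hsnd x) (lt_of_lt_of_le hx ((min_le_right _ _).trans (min_le_right _ _))))
      (lt_of_le_of_lt (hsnd y) (lt_of_lt_of_le hy ((min_le_right _ _).trans (min_le_right _ _))))
    rw [dist_Pr, pr_eq, pr_eq, s1, s2, ← nms_eq]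
    by_cases hsd : sd2 x.2 = sd2 y.2
    · rw [hsd, Dbl.dist_same, Dbl.dist_same]
      exact H0 x y (lt_of_lt_of_le hx ((min_le_left _ _).trans (min_le_left _ _)))
        (lt_of_lt_of_le hy ((min_le_left _ _).trans (min_le_left _ _))) (Or.inr (hsg.1 hsd))
    · rw [Dbl.dist_diff _ _ hsd]
      exact H1 x y (lt_of_lt_of_le hx ((min_le_left _ _).trans (min_le_right _ _)))
        (lt_of_lt_of_le hy ((min_le_left _ _).trans (min_le_right _ _))) (hsg.2 hsd)
  · refine ⟨min δ0 δs, lt_min hδ0 hδs, fun x y hx hy => ?_⟩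
    obtain ⟨s1, s2⟩ := Hs x.2 (lt_of_le_of_lt (hsnd x) (lt_of_lt_of_le hx (min_le_right _ _)))
    obtain ⟨s3, s4⟩ := Hs y.2 (lt_of_le_of_lt (hsnd y) (lt_of_lt_of_le hy (min_le_right _ _)))
    rw [dist_Pr, pr_eq, pr_eq, s1.resolve_right hcos, s2.resolve_right hsin,
      s3.resolve_right hcos, s4.resolve_right hsin, Dbl.dist_same, Dbl.dist_same, ← nms_eq]
    exact H0 x y (lt_of_lt_of_le hx (min_le_left _ _)) (lt_of_lt_of_le hy (min_le_left _ _))
      (Or.inl ⟨hcos, hsin⟩)

end QD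
end Pool.MP8e
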