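import Mathlib
import Pool.Agent.Work.MP_8e9dbb.A.Strip
import Pool.Agent.Work.MP_8e9dbb.A.Cones
import Pool.Agent.Work.MP_8e9dbb.A.Calls2

/-!
# Part A, block LIP (helper77): comparison of the surfaces from `QComp`
-/

open Filter Topology Metric Set

namespace Pool.MP8e

/-- mutually inverse Lipschitz maps pass to the separation quotients -/
theorem quot_equiv {Y Y' : Type} [PseudoMetricSpace Y] [PseudoMetricSpace Y'] (f : Y → Y')
    (g : Y' → Y) {Λ : ℝ} (hf : ∀ x y, dist (f x) (f y) ≤ Λ * dist x y)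
    (hg : ∀ x y, dist (g x) (g y) ≤ Λ * dist x y) (hgf : ∀ x, g (f x) = x)
    (hfg : ∀ y, f (g y) = y) :
    ∃ F : SeparationQuotient Y ≃ SeparationQuotient Y', ∀ x y,
      dist (F x) (F y) ≤ Λ * dist x y ∧ dist x y ≤ Λ * dist (F x) (F y) := by
  have key : ∀ {Y Y' : Type} [PseudoMetricSpace Y] [PseudoMetricSpace Y'] (f : Y → Y')
      (g : Y' → Y), (∀ x y, dist (g x) (g y) ≤ Λ * dist x y) →
      (∀ x, g (f x) = x) → ∀ x : SeparationQuotient Y,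
      (SeparationQuotient.mk (g (rep (SeparationQuotient.mk (f (rep x))))) :
        SeparationQuotient Y) = x := by
    intro Y Y' _ _ f g hg hgf x
    have h1 : dist (g (rep (SeparationQuotient.mk (f (rep x))))) (rep x) = 0 := by
      have h2 := hg (rep (SeparationQuotient.mk (f (rep x)))) (f (rep x))
      rw [dist_rep_mk, mul_zero, hgf] at h2
      exact le_antisymm h2 dist_nonneg
    have h3 : dist x (SeparationQuotient.mk (g (rep (SeparationQuotient.mk (f (rep x)))))) = 0 := by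
      rw [dist_mk_rep, dist_comm]; exact h1
    exact (dist_eq_zero.1 h3).symm
  refine ⟨⟨fun x => SeparationQuotient.mk (f (rep x)), fun y => SeparationQuotient.mk (g (rep y)),
    key f g hg hgf, key g f hf hfg⟩, fun x y => ⟨?_, ?_⟩⟩
  · change dist (SeparationQuotient.mk (f (rep x)) : SeparationQuotient Y')
      (SeparationQuotient.mk (f (rep y))) ≤ Λ * dist x y
    rw [SeparationQuotient.dist_mk, dist_rep x y]
    exact hf _ _
  · change dist x y ≤ Λ * dist (SeparationQuotient.mk (f (rep x)) : SeparationQuotient Y')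
      (SeparationQuotient.mk (f (rep y)))
    rw [SeparationQuotient.dist_mk, dist_rep x y]
    have := hg (f (rep x)) (f (rep y))
    rwa [hgf, hgf] at this

namespace QD

/-- the comparison data, unpacked -/
structure Cmpr (D D' : QD) (Λ : ℝ) (φ : ℝ × ℝ → ℝ) : Prop where
  h0 : ∀ θ ∈ Icc (0:ℝ) (Real.pi / 2), φ (0, θ) = 0
  hβ : ∀ θ ∈ Icc (0:ℝ) (Real.pi / 2), φ (D.β θ, θ) = D'.β θ
  one_le : 1 ≤ Λ
  der : ∀ q : ℝ × ℝ, q.2 ∈ Icc (0:ℝ) (Real.pi / 2) → 0 ≤ q.1 → q.1 ≤ D.β q.2 →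
    ∃ φ' : ℝ × ℝ →L[ℝ] ℝ, HasStrictFDerivAt φ φ' q ∧ 0 < φ' (1, 0) ∧
      ∀ u : ℝ × ℝ, D'.nms (φ q) (φ' u, u.2) ≤ Λ * D.nms q.1 u ∧
        D.nms q.1 u ≤ Λ * D'.nms (φ q) (φ' u, u.2)

variable {D D' : QD} {Λ : ℝ} {φ : ℝ × ℝ → ℝ}

theorem Cmpr.der' (h : Cmpr D D' Λ φ) (x : D.EPt) :
    ∃ φ' : ℝ × ℝ →L[ℝ] ℝ, HasStrictFDerivAt φ φ' x.c ∧ 0 < φ' (1, 0) ∧
      ∀ u : ℝ × ℝ, D'.nms (φ x.c) (φ' u, u.2) ≤ Λ * D.nms x.c.1 u ∧
        D.nms x.c.1 u ≤ Λ * D'.nms (φ x.c) (φ' u, u.2) :=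
  h.der x.c x.c2 x.c1.1 x.c_le

theorem Cmpr.mono (h : Cmpr D D' Λ φ) {θ : ℝ} (hθ : θ ∈ Icc (0:ℝ) (Real.pi / 2)) :
    StrictMonoOn (fun p => φ (p, θ)) (Icc 0 (D.β θ)) := by
  have hd : ∀ p ∈ Icc 0 (D.β θ), ∃ d, 0 < d ∧ HasDerivAt (fun p => φ (p, θ)) d p := by
    intro p hp
    obtain ⟨φ', h1, h2, _⟩ := h.der (p, θ) hθ hp.1 hp.2
    refine ⟨φ' (1, 0), h2, ?_⟩
    have h3 : HasDerivAt (fun p : ℝ => (p, θ)) ((1:ℝ), (0:ℝ)) p :=
      (hasDerivAt_id p).prodMk (hasDerivAt_const p θ)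
    exact h1.hasFDerivAt.comp_hasDerivAt p h3
  apply strictMonoOn_of_deriv_pos (convex_Icc _ _)
  · intro p hp
    obtain ⟨d, _, h2⟩ := hd p hp
    exact h2.continuousAt.continuousWithinAt
  · intro p hp
    obtain ⟨d, h1, h2⟩ := hd p (interior_subset hp)
    rw [h2.deriv]; exact h1

theorem β_nonneg' {θ : ℝ} (hθ : θ ∈ Icc (0:ℝ) (Real.pi / 2)) : 0 ≤ D.β θ :=
  D.pf_pos.le.trans (D.β_mem' hθ).1

theorem Cmpr.nonneg (h : Cmpr D D' Λ φ) (x : D.EPt) : 0 ≤ φ x.c := by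
  have := (h.mono x.c2).monotoneOn (⟨le_refl _, β_nonneg' x.c2⟩ : (0:ℝ) ∈ Icc 0 (D.β x.c.2))
    ⟨x.c1.1, x.c_le⟩ x.c1.1
  change φ (0, x.c.2) ≤ φ x.c at this
  rwa [h.h0 _ x.c2] at this

theorem Cmpr.le (h : Cmpr D D' Λ φ) (x : D.EPt) : φ x.c ≤ D'.β x.c.2 := by
  have := (h.mono x.c2).monotoneOn (⟨x.c1.1, x.c_le⟩ : x.c.1 ∈ Icc 0 (D.β x.c.2))
    ⟨β_nonneg' x.c2, le_refl _⟩ x.c_le
  change φ x.c ≤ φ (D.β x.c.2, x.c.2) at this
  rwa [h.hβ _ x.c2] at this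

/-- the comparison map of the quarter domains -/
noncomputable def Cmpr.F (h : Cmpr D D' Λ φ) (x : D.EPt) : D'.EPt :=
  EPt.mk (φ x.c) x.c.2 (h.nonneg x) (h.le x) x.c2

theorem Cmpr.F_c (h : Cmpr D D' Λ φ) (x : D.EPt) : (h.F x).c = (φ x.c, x.c.2) := rfl

theorem Cmpr.inj (h : Cmpr D D' Λ φ) : Function.Injective h.F := by
  intro x y hxy
  have h1 : (h.F x).c = (h.F y).c := by rw [hxy]
  rw [h.F_c, h.F_c, Prod.mk.injEq] at h1
  apply EPt.ext'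
  refine Prod.ext ?_ h1.2
  have h2 := h1.2
  apply (h.mono x.c2).injOn ⟨x.c1.1, x.c_le⟩
  · rw [h2]; exact ⟨y.c1.1, y.c_le⟩
  · simp only
    rw [h1.1, h2]

theorem Cmpr.surj (h : Cmpr D D' Λ φ) : Function.Surjective h.F := by
  intro y
  have hc : ContinuousOn (fun p => φ (p, y.c.2)) (Icc 0 (D.β y.c.2)) := by
    intro p hp
    obtain ⟨φ', h1, _, _⟩ := h.der (p, y.c.2) y.c2 hp.1 hp.2
    have h2 : ContinuousAt (fun p : ℝ => (p, y.c.2)) p := by fun_prop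
    exact (ContinuousAt.comp (f := fun p : ℝ => (p, y.c.2)) (g := φ)
      h1.hasFDerivAt.continuousAt h2).continuousWithinAt
  obtain ⟨p, hp, hp2⟩ := intermediate_value_Icc (β_nonneg' (D := D) y.c2) hc
    (show y.c.1 ∈ Icc (φ (0, y.c.2)) (φ (D.β y.c.2, y.c.2)) by
      rw [h.h0 _ y.c2, h.hβ _ y.c2]; exact ⟨y.c1.1, y.c_le⟩)
  refine ⟨EPt.mk p y.c.2 hp.1 hp.2 y.c2, EPt.ext' ?_⟩
  rw [h.F_c]
  simp only [EPt.mk_c]
  exact Prod.ext hp2 rfl

/-- the inverse map -/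
noncomputable def Cmpr.G (h : Cmpr D D' Λ φ) (y : D'.EPt) : D.EPt :=
  Function.surjInv h.surj y

theorem Cmpr.FG (h : Cmpr D D' Λ φ) (y : D'.EPt) : h.F (h.G y) = y :=
  Function.surjInv_eq h.surj y

theorem Cmpr.GF (h : Cmpr D D' Λ φ) (x : D.EPt) : h.G (h.F x) = x := h.inj (h.FG _)

theorem Cmpr.pos (h : Cmpr D D' Λ φ) (x : D.EPt) : 0 < (h.F x).c.1 ↔ 0 < x.c.1 := by
  have h0 : (0:ℝ) ∈ Icc 0 (D.β x.c.2) := ⟨le_refl _, β_nonneg' x.c2⟩
  have h1 : x.c.1 ∈ Icc 0 (D.β x.c.2) := ⟨x.c1.1, x.c_le⟩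
  have := (h.mono x.c2).lt_iff_lt h0 h1
  change φ (0, x.c.2) < φ x.c ↔ 0 < x.c.1 at this
  rw [h.h0 _ x.c2] at this
  exact this

/-! ## continuity -/

/-- the height is controlled by the distance -/
theorem sP_le_dist (x y : D.EPt) : |D.sP x.c.1 - D.sP y.c.1| ≤ dist x y := by
  have hI : Pt.InfLip (D := D.nf) (fun z => D.sP z.val.1) := by
    intro q ε hε
    have hq : q.val.1 ∈ Icc 0 D.top := q.mem.1
    have hs : HasStrictDerivAt D.sP (D.A q.val.1) q.val.1 := by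
      unfold sP
      exact intervalIntegral.integral_hasStrictDerivAt_right (D.cont_A.intervalIntegrable _ _)
        (D.cont_A.stronglyMeasurableAtFilter _ _) D.cont_A.continuousAt
    have h1 := hs.hasStrictFDerivAt.isLittleO.def hε
    rw [Metric.eventually_nhds_iff] at h1
    obtain ⟨δ, hδ, H⟩ := h1
    refine ⟨δ, hδ, fun x y hx hy => ?_⟩
    have hx1 : dist x.val.1 q.val.1 < δ :=
      lt_of_le_of_lt (by rw [Prod.dist_eq]; exact le_max_left _ _) hx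
    have hy1 : dist y.val.1 q.val.1 < δ :=
      lt_of_le_of_lt (by rw [Prod.dist_eq]; exact le_max_left _ _) hy
    have h2 := H (y := (x.val.1, y.val.1)) (by
      rw [Prod.dist_eq]; exact max_lt hx1 hy1)
    simp only [ContinuousLinearMap.toSpanSingleton_apply, smul_eq_mul] at h2
    have h3 : |D.A q.val.1 * (x.val.1 - y.val.1)| ≤ D.nms q.val.1 (x.val - y.val) := by
      rw [nms_apply, diagC_apply, norm_mk]
      apply Real.abs_le_sqrt
      have := sq_nonneg (D.R q.val.1 * (x.val - y.val).2)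
      simp only [Prod.fst_sub] at *
      linarith
    have h4 : ‖x.val.1 - y.val.1‖ ≤ ‖x.val - y.val‖ := norm_fst_le (x.val - y.val)
    have h5 : |D.sP x.val.1 - D.sP y.val.1| ≤ |D.sP x.val.1 - D.sP y.val.1 -
        (x.val.1 - y.val.1) * D.A q.val.1| + |D.A q.val.1 * (x.val.1 - y.val.1)| := by
      have := abs_add_le (D.sP x.val.1 - D.sP y.val.1 - (x.val.1 - y.val.1) * D.A q.val.1)
        (D.A q.val.1 * (x.val.1 - y.val.1))
      rwa [show D.sP x.val.1 - D.sP y.val.1 - (x.val.1 - y.val.1) * D.A q.val.1 +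
        D.A q.val.1 * (x.val.1 - y.val.1) = D.sP x.val.1 - D.sP y.val.1 by ring] at this
    rw [Real.norm_eq_abs] at h2
    have h6 := mul_le_mul_of_nonneg_left h4 hε.le
    change |D.sP x.val.1 - D.sP y.val.1| ≤ D.nms q.val.1 (x.val - y.val) + ε * ‖x.val - y.val‖
    linarith
  exact hI.le_dist x.1 y.1

theorem Cmpr.contOn (h : Cmpr D D' Λ φ) :
    ContinuousOn φ {x : ℝ × ℝ | x ∈ D.rect ∧ x.1 ≤ D.β x.2} := by
  intro q hq
  obtain ⟨φ', h1, _⟩ := h.der q hq.1.2 hq.1.1.1 hq.2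
  exact h1.hasFDerivAt.continuousAt.continuousWithinAt

theorem dist_E_le_norm : ∃ C : ℝ, 0 ≤ C ∧ ∀ x y : D.EPt, dist x y ≤ C * dist x.c y.c := by
  obtain ⟨C, hC0, hC⟩ := D.nf.bdd
  refine ⟨C, hC0, fun x y => ?_⟩
  have := Pt.dist_le_norm hC x.1 y.1
  rw [← dist_eq_norm] at this
  exact this

theorem Cmpr.contF (h : Cmpr D D' Λ φ) : Continuous h.F := by
  obtain ⟨C, hC0, hC⟩ := dist_E_le_norm (D := D')
  rw [Metric.continuous_iff]
  intro x₀ ε hε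
  rcases eq_or_lt_of_le x₀.c1.1 with h0 | h0
  · -- the pole
    have huc := D.isCompact_E.uniformContinuousOn_of_continuous h.contOn
    rw [Metric.uniformContinuousOn_iff] at huc
    obtain ⟨η, hη, H⟩ := huc (ε / (C + 1)) (by positivity)
    set η' := min (η / 2) D.ℓ with hη'
    have hη'0 : 0 < η' := lt_min (by positivity) (D.e₀_pos.trans D.e₀_lt_ℓ)
    have hη'I : η' ∈ Icc 0 D.ℓ := ⟨hη'0.le, min_le_right _ _⟩
    have h0I : (0:ℝ) ∈ Icc 0 D.ℓ := ⟨le_refl _, hη'0.le.trans (min_le_right _ _)⟩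
    have hs := D.sP_strictMonoOn h0I hη'I hη'0
    rw [D.sP_zero] at hs
    refine ⟨D.sP η', hs, fun x hx => ?_⟩
    have h1 := sP_le_dist x x₀
    rw [← h0, D.sP_zero, sub_zero] at h1
    have h2 : D.sP x.c.1 < D.sP η' := lt_of_le_of_lt ((le_abs_self _).trans h1) hx
    have hxI : x.c.1 ∈ Icc 0 D.ℓ := ⟨x.c1.1, x.c1.2.trans D.top_mem.2⟩
    have h3 : x.c.1 < η' := (D.sP_strictMonoOn.lt_iff_lt hxI hη'I).1 h2
    have h4 : x.c.1 < η := by
      have := min_le_left (η / 2) D.ℓ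
      linarith
    have h5 := H x.c ⟨x.1.mem, x.c_le⟩ (0, x.c.2)
      ⟨⟨⟨le_refl _, D.top_pos.le⟩, x.c2⟩, β_nonneg' x.c2⟩ (by
        rw [Prod.dist_eq]
        simp only [dist_self]
        rw [Real.dist_eq, sub_zero, abs_of_nonneg x.c1.1]
        exact max_lt h4 hη)
    rw [h.h0 _ x.c2] at h5
    set z : D'.EPt := EPt.mk 0 x.c.2 le_rfl (β_nonneg' x.c2) x.c2 with hz
    have h6 : dist z (h.F x₀) = 0 := by
      refine dist_pole z (h.F x₀) rfl ?_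
      rw [h.F_c]
      simp only
      have : x₀.c = (0, x₀.c.2) := Prod.ext h0.symm rfl
      rw [this]
      exact h.h0 _ x₀.c2
    have h7 := hC (h.F x) z
    have h8 : dist (h.F x).c z.c = dist (φ x.c) 0 := by
      rw [h.F_c, hz, EPt.mk_c, Prod.dist_eq]
      simp only [dist_self]
      exact max_eq_left dist_nonneg
    have h9 := dist_triangle (h.F x) z (h.F x₀)
    rw [h8] at h7
    rw [lt_div_iff₀ (by positivity)] at h5
    have := dist_nonneg (x := φ x.c) (y := 0)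
    nlinarith
  · obtain ⟨φ', h1, _⟩ := h.der' x₀
    obtain ⟨η, hη, H⟩ := Metric.continuousAt_iff.1 h1.hasFDerivAt.continuousAt (ε / (C + 1))
      (by positivity)
    obtain ⟨r, hr, H2⟩ := near' x₀ h0 (lt_min hη (show 0 < ε / (C + 1) by positivity))
    refine ⟨r, hr, fun x hx => ?_⟩
    have h2 := H2 x hx
    have h3 := H (lt_of_lt_of_le h2 (min_le_left _ _))
    have h4 := hC (h.F x) (h.F x₀)
    have h5 : dist (h.F x).c (h.F x₀).c < ε / (C + 1) := by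
      rw [h.F_c, h.F_c, Prod.dist_eq]
      simp only
      apply max_lt h3
      refine lt_of_le_of_lt ?_ (lt_of_lt_of_le h2 (min_le_right _ _))
      rw [Prod.dist_eq]
      exact le_max_right _ _
    rw [lt_div_iff₀ (by positivity)] at h5
    have := dist_nonneg (x := (h.F x).c) (y := (h.F x₀).c)
    nlinarith

theorem Cmpr.dist_zero (h : Cmpr D D' Λ φ) {x y : D.EPt} (hxy : dist (h.F x) (h.F y) = 0) :
    dist x y = 0 := by
  have key : ∀ x y : D.EPt, 0 < x.c.1 → dist (h.F x) (h.F y) = 0 → dist x y = 0 := by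
    intro x y hx hxy
    have h1 : (h.F y).c = (h.F x).c := by
      by_contra hcon
      have hpos : 0 < dist (h.F y).c (h.F x).c := dist_pos.2 hcon
      obtain ⟨r, hr, H⟩ := near' (h.F x) ((h.pos x).2 hx) hpos
      exact lt_irrefl _ (H (h.F y) (by rw [dist_comm, hxy]; exact hr))
    have h2 : x = y := (h.inj (EPt.ext' h1)).symm
    rw [h2, dist_self]
  rcases eq_or_lt_of_le x.c1.1 with h0 | h0
  · rcases eq_or_lt_of_le y.c1.1 with h1 | h1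
    · exact dist_pole x y h0.symm h1.symm
    · rw [dist_comm]; exact key y x h1 (by rw [dist_comm]; exact hxy)
  · exact key x y h0 hxy

theorem Cmpr.contG (h : Cmpr D D' Λ φ) : Continuous h.G := by
  rw [Metric.continuous_iff]
  intro y₀ ε hε
  set A : Set D.EPt := {x | ε ≤ dist x (h.G y₀)} with hA
  have hAc : IsCompact A :=
    (isClosed_le continuous_const (continuous_id.dist continuous_const)).isCompact
  rcases A.eq_empty_or_nonempty with hE | hne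
  · refine ⟨1, one_pos, fun y _ => ?_⟩
    by_contra hcon
    push Not at hcon
    have : h.G y ∈ A := hcon
    rw [hE] at this
    exact this
  · obtain ⟨x₁, hx₁, hmin⟩ := hAc.exists_isMinOn hne (f := fun x => dist (h.F x) y₀)
      (h.contF.dist continuous_const).continuousOn
    have hpos : 0 < dist (h.F x₁) y₀ := by
      rcases eq_or_lt_of_le (dist_nonneg (x := h.F x₁) (y := y₀)) with h0 | h0
      · exfalso
        have h1 : dist x₁ (h.G y₀) = 0 := h.dist_zero (by rw [h.FG]; exact h0.symm)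
        have h2 : ε ≤ dist x₁ (h.G y₀) := hx₁
        linarith
      · exact h0
    refine ⟨_, hpos, fun y hy => ?_⟩
    by_contra hcon
    push Not at hcon
    have h1 : h.G y ∈ A := hcon
    have h2 : dist (h.F x₁) y₀ ≤ dist (h.F (h.G y)) y₀ := hmin h1
    rw [h.FG] at h2
    linarith

/-! ## the local estimate -/

theorem lip_arith {Λ ε w t d d' N N' : ℝ} (hΛ : 1 ≤ Λ) (hε : 0 < ε) (ht0 : 0 ≤ t) (hw : w ≤ N)
    (m1 : 2 * Λ * t ≤ w) (m2 : 2 * Λ * (Λ + 1) * t ≤ ε * w) (f1a : -t ≤ d' - N')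
    (f1b : d' - N' ≤ t) (f2a : -t ≤ d - N) (f2b : d - N ≤ t) (c1 : N' ≤ Λ * N)
    (c2 : N ≤ Λ * N') : d' ≤ (Λ + ε) * d ∧ d ≤ (Λ + ε) * d' := by
  have hΛ0 : 0 < Λ := by linarith
  have m0 : t ≤ Λ * t := by
    have := mul_le_mul_of_nonneg_right hΛ ht0
    linarith
  have m3 : w ≤ 2 * d := by linarith
  have h5 : Λ * N' ≤ Λ * (d' + t) := mul_le_mul_of_nonneg_left (by linarith) hΛ0.le
  have h7 : Λ * N ≤ Λ * (d + t) := mul_le_mul_of_nonneg_left (by linarith) hΛ0.le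
  have m4 : w ≤ 2 * Λ * d' := by
    have : Λ * (d' + t) = Λ * d' + Λ * t := by ring
    linarith
  have m5 : (Λ + 1) * t ≤ ε * d := by
    have h5 : ε * w ≤ ε * (2 * d) := mul_le_mul_of_nonneg_left m3 hε.le
    have h6 : (Λ + 1) * t ≤ Λ * ((Λ + 1) * t) := by
      have h8 : 0 ≤ (Λ + 1) * t := by positivity
      have := mul_le_mul_of_nonneg_right hΛ h8
      linarith
    linarith
  have m6 : (Λ + 1) * t ≤ ε * d' := by
    have h5 : ε * w ≤ ε * (2 * Λ * d') := mul_le_mul_of_nonneg_left m4 hε.le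
    have h6 : 2 * Λ * ((Λ + 1) * t) ≤ 2 * Λ * (ε * d') := by
      have e7 : 2 * Λ * ((Λ + 1) * t) = 2 * Λ * (Λ + 1) * t := by ring
      have e8 : 2 * Λ * (ε * d') = ε * (2 * Λ * d') := by ring
      rw [e7, e8]; linarith
    exact le_of_mul_le_mul_left h6 (by positivity)
  constructor
  · linarith
  · linarith

theorem Cmpr.loc (h : Cmpr D D' Λ φ) (q : D.EPt) (hq : 0 < q.c.1) {ε : ℝ} (hε : 0 < ε) :
    ∃ δ > 0, ∀ x y : D.EPt, dist x.c q.c < δ → dist y.c q.c < δ →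
      dist (h.F x) (h.F y) ≤ (Λ + ε) * dist x y ∧ dist x y ≤ (Λ + ε) * dist (h.F x) (h.F y) := by
  have hΛ := h.one_le
  obtain ⟨c0, hc0, _, _, hge0⟩ := D.nms_ge (q := q.c.1) ⟨hq, q.c1.2.trans D.top_mem.2⟩
  have hge : ∀ u : ℝ × ℝ, c0 * ‖u‖ ≤ D.nms q.c.1 u := fun u => hge0 q.c.1 (by simpa) u
  obtain ⟨φ', hd, _, hcmp⟩ := h.der' q
  set C' := |D'.A (φ q.c)| + |D'.R (φ q.c)| with hC'
  have hC'0 : 0 ≤ C' := by positivity
  have hle : ∀ u : ℝ × ℝ, D'.nms (φ q.c) u ≤ C' * ‖u‖ := fun u => D'.nms_le _ _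
  set M := ‖φ'‖ + 2 with hM
  have hM0 : 2 ≤ M := by rw [hM]; linarith [norm_nonneg φ']
  set S := M + C' + 1 with hS
  have hS1 : 1 ≤ S := by rw [hS]; linarith
  have hΛ0 : 0 < Λ := by linarith
  have hS0 : 0 < S := by linarith
  set η := min 1 (min (c0 / (2 * Λ * S)) (ε * c0 / (2 * Λ * (Λ + 1) * S))) with hη
  have hη0 : 0 < η := by
    rw [hη]
    refine lt_min one_pos (lt_min ?_ ?_) <;> positivity
  have hη1 : η ≤ 1 := min_le_left _ _
  have hη2 : η * (2 * Λ * S) ≤ c0 := by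
    have : η ≤ c0 / (2 * Λ * S) := (min_le_right _ _).trans (min_le_left _ _)
    rwa [le_div_iff₀ (by positivity)] at this
  have hη3 : η * (2 * Λ * (Λ + 1) * S) ≤ ε * c0 := by
    have : η ≤ ε * c0 / (2 * Λ * (Λ + 1) * S) := (min_le_right _ _).trans (min_le_right _ _)
    rwa [le_div_iff₀ (by positivity)] at this
  obtain ⟨δ1, hδ1, H1⟩ := inf_E q hq hη0
  obtain ⟨δ2, hδ2, H2⟩ := inf_E (h.F q) ((h.pos q).2 hq) hη0
  -- strict derivative
  have h3 := hd.isLittleO.def hη0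
  rw [Metric.eventually_nhds_iff] at h3
  obtain ⟨δ3, hδ3, H3⟩ := h3
  -- continuity of φ
  obtain ⟨δ4, hδ4, H4⟩ := Metric.continuousAt_iff.1 hd.hasFDerivAt.continuousAt δ2 hδ2
  refine ⟨min (min δ1 δ2) (min δ3 δ4), lt_min (lt_min hδ1 hδ2) (lt_min hδ3 hδ4),
    fun x y hx hy => ?_⟩
  have g1 : ∀ {x : D.EPt}, dist x.c q.c < min (min δ1 δ2) (min δ3 δ4) →
      dist x.c q.c < δ1 := fun hx => lt_of_lt_of_le hx ((min_le_left _ _).trans (min_le_left _ _))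
  have g2 : ∀ {x : D.EPt}, dist x.c q.c < min (min δ1 δ2) (min δ3 δ4) →
      dist x.c q.c < δ2 := fun hx => lt_of_lt_of_le hx ((min_le_left _ _).trans (min_le_right _ _))
  have g3 : ∀ {x : D.EPt}, dist x.c q.c < min (min δ1 δ2) (min δ3 δ4) →
      dist x.c q.c < δ3 := fun hx => lt_of_lt_of_le hx ((min_le_right _ _).trans (min_le_left _ _))
  have g4 : ∀ {x : D.EPt}, dist x.c q.c < min (min δ1 δ2) (min δ3 δ4) →
      dist x.c q.c < δ4 := fun hx => lt_of_lt_of_le hx ((min_le_right _ _).trans (min_le_right _ _))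
  have gF : ∀ {x : D.EPt}, dist x.c q.c < min (min δ1 δ2) (min δ3 δ4) →
      dist (h.F x).c (h.F q).c < δ2 := by
    intro x hx
    rw [h.F_c, h.F_c, Prod.dist_eq]
    simp only
    refine max_lt (H4 (g4 hx)) (lt_of_le_of_lt ?_ (g2 hx))
    rw [Prod.dist_eq]; exact le_max_right _ _
  have k1 := H1 x y (g1 hx) (g1 hy)
  have k2 := H2 (h.F x) (h.F y) (gF hx) (gF hy)
  have k3 := H3 (y := (x.c, y.c)) (by rw [Prod.dist_eq]; exact max_lt (g3 hx) (g3 hy))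
  simp only at k3
  set Δ := x.c - y.c with hΔ
  set Δ' := (h.F x).c - (h.F y).c with hΔ'
  set LΔ : ℝ × ℝ := (φ' Δ, Δ.2) with hLΔ
  have e1 : Δ' - LΔ = (φ x.c - φ y.c - φ' Δ, 0) := by
    rw [hΔ', h.F_c, h.F_c, hLΔ, hΔ]
    apply Prod.ext
    · simp
    · simp
  have e2 : ‖Δ' - LΔ‖ ≤ η * ‖Δ‖ := by
    rw [e1, Prod.norm_def]
    simp only [norm_zero]
    exact max_le k3 (by positivity)
  have hn0 := norm_nonneg Δ
  have e3 : ‖LΔ‖ ≤ (‖φ'‖ + 1) * ‖Δ‖ := by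
    rw [hLΔ, Prod.norm_def]
    apply max_le
    · simp only
      have := φ'.le_opNorm Δ
      nlinarith
    · simp only
      have := norm_snd_le Δ
      nlinarith [norm_nonneg φ', mul_nonneg (norm_nonneg φ') hn0]
  have e4 : ‖Δ'‖ ≤ M * ‖Δ‖ := by
    have h5 : ‖Δ'‖ ≤ ‖Δ' - LΔ‖ + ‖LΔ‖ := by
      have := norm_add_le (Δ' - LΔ) LΔ
      rwa [sub_add_cancel] at this
    have h6 : η * ‖Δ‖ ≤ 1 * ‖Δ‖ := mul_le_mul_of_nonneg_right hη1 hn0
    rw [hM]; nlinarith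
  rw [show (h.F q).c.1 = φ q.c from rfl] at k2
  have e5 : |D'.nms (φ q.c) Δ' - D'.nms (φ q.c) LΔ| ≤ C' * (η * ‖Δ‖) := by
    have h5 : |D'.nms (φ q.c) Δ' - D'.nms (φ q.c) LΔ| ≤ D'.nms (φ q.c) (Δ' - LΔ) :=
      abs_sub_map_le_sub (D'.nms (φ q.c)) Δ' LΔ
    exact h5.trans ((hle _).trans (mul_le_mul_of_nonneg_left e2 hC'0))
  obtain ⟨c1, c2⟩ := hcmp Δ
  rw [← hLΔ] at c1 c2
  have e6 : η * ‖Δ'‖ ≤ η * (M * ‖Δ‖) := mul_le_mul_of_nonneg_left e4 hη0.le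
  set N := D.nms q.c.1 Δ with hN
  set N' := D'.nms (φ q.c) LΔ with hN'
  set d := dist x y with hdd
  set d' := dist (h.F x) (h.F y) with hdd'
  have f1 : |d' - N'| ≤ η * S * ‖Δ‖ := by
    have h5 : |d' - N'| ≤ |d' - D'.nms (φ q.c) Δ'| + |D'.nms (φ q.c) Δ' - N'| :=
      abs_sub_le _ _ _
    have h6 : η * S * ‖Δ‖ = η * (M * ‖Δ‖) + C' * (η * ‖Δ‖) + η * ‖Δ‖ := by rw [hS]; ring
    have h7 : 0 ≤ η * ‖Δ‖ := by positivity
    linarith
  have f2 : |d - N| ≤ η * S * ‖Δ‖ := by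
    have : η * ‖Δ‖ ≤ η * S * ‖Δ‖ := by
      apply mul_le_mul_of_nonneg_right _ hn0
      nlinarith
    linarith
  have hgeΔ := hge Δ
  rw [← hN] at hgeΔ
  obtain ⟨f1a, f1b⟩ := abs_le.1 f1
  obtain ⟨f2a, f2b⟩ := abs_le.1 f2
  set t := η * S * ‖Δ‖ with ht
  have ht0 : 0 ≤ t := by positivity
  -- 2 Λ t ≤ c0 ‖Δ‖
  have m1 : 2 * Λ * t ≤ c0 * ‖Δ‖ := by
    have : 2 * Λ * t = η * (2 * Λ * S) * ‖Δ‖ := by rw [ht]; ring
    rw [this]
    exact mul_le_mul_of_nonneg_right hη2 hn0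
  have m2 : 2 * Λ * (Λ + 1) * t ≤ ε * (c0 * ‖Δ‖) := by
    have e7 : 2 * Λ * (Λ + 1) * t = η * (2 * Λ * (Λ + 1) * S) * ‖Δ‖ := by rw [ht]; ring
    have e8 : ε * (c0 * ‖Δ‖) = ε * c0 * ‖Δ‖ := by ring
    rw [e7, e8]
    exact mul_le_mul_of_nonneg_right hη3 hn0
  exact lip_arith hΛ hε ht0 hgeΔ m1 m2 f1a f1b f2a f2b c1 c2

/-! ## global estimates -/

theorem Cmpr.lipF (hB : StmtBet) (hO : StmtOff) (h : Cmpr D D' Λ φ) (x y : D.EPt) :
    dist (h.F x) (h.F y) ≤ Λ * dist x y := by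
  have hΛ := h.one_le
  refine hO D.EPt D'.EPt (hB D) h.F Λ (by linarith) h.contF D.eP (fun q hq ε hε => ?_) x y
  have hq0 : 0 < q.c.1 := by
    rcases eq_or_lt_of_le q.c1.1 with h0 | h0
    · exfalso
      rw [dist_pole q D.eP h0.symm rfl] at hq
      exact lt_irrefl _ hq
    · exact h0
  obtain ⟨δ, hδ, H⟩ := h.loc q hq0 hε
  obtain ⟨r, hr, H2⟩ := near' q hq0 hδ
  exact ⟨r, hr, fun x hx y hy => (H x y (H2 x hx) (H2 y hy)).1⟩

theorem Cmpr.lipG (hB : StmtBet) (hO : StmtOff) (h : Cmpr D D' Λ φ) (x y : D'.EPt) :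
    dist (h.G x) (h.G y) ≤ Λ * dist x y := by
  have hΛ := h.one_le
  refine hO D'.EPt D.EPt (hB D') h.G Λ (by linarith) h.contG D'.eP (fun q hq ε hε => ?_) x y
  have hq0 : 0 < q.c.1 := by
    rcases eq_or_lt_of_le q.c1.1 with h0 | h0
    · exfalso
      rw [dist_pole q D'.eP h0.symm rfl] at hq
      exact lt_irrefl _ hq
    · exact h0
  have hG0 : 0 < (h.G q).c.1 := (h.pos (h.G q)).1 (by rw [h.FG]; exact hq0)
  obtain ⟨δ, hδ, H⟩ := h.loc (h.G q) hG0 hε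
  obtain ⟨r, hr, H2⟩ := near' (h.G q) hG0 hδ
  obtain ⟨r2, hr2, H3⟩ := Metric.continuous_iff.1 h.contG q r hr
  refine ⟨r2, hr2, fun x hx y hy => ?_⟩
  have := (H (h.G x) (h.G y) (H2 _ (H3 x hx)) (H2 _ (H3 y hy))).2
  rwa [h.FG, h.FG] at this

theorem Cmpr.F_axis (h : Cmpr D D' Λ φ) (z : D.EPt) (hz : z ∈ D.axis) : h.F z ∈ D'.axis := hz

theorem Cmpr.F_bd (h : Cmpr D D' Λ φ) (z : D.EPt) (hz : z ∈ D.bd) : h.F z ∈ D'.bd := by
  rcases hz with hz | hz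
  · exact Or.inl hz
  · right
    change φ z.c = D'.β z.c.2
    rw [← h.hβ _ z.c2]
    congr 1
    exact Prod.ext hz rfl

theorem Cmpr.G_c2 (h : Cmpr D D' Λ φ) (z : D'.EPt) : (h.G z).c.2 = z.c.2 := by
  have : (h.F (h.G z)).c.2 = z.c.2 := by rw [h.FG]
  exact this

theorem Cmpr.G_axis (h : Cmpr D D' Λ φ) (z : D'.EPt) (hz : z ∈ D'.axis) : h.G z ∈ D.axis := by
  change (h.G z).c.2 = Real.pi / 2
  rw [h.G_c2]; exact hz

theorem Cmpr.G_bd (h : Cmpr D D' Λ φ) (z : D'.EPt) (hz : z ∈ D'.bd) : h.G z ∈ D.bd := by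
  rcases hz with hz | hz
  · left
    change (h.G z).c.2 = 0
    rw [h.G_c2]; exact hz
  · right
    have h1 : (h.F (h.G z)).c.1 = D'.β (h.G z).c.2 := by rw [h.FG, h.G_c2]; exact hz
    rw [← h.hβ _ (h.G z).c2] at h1
    exact (h.mono (h.G z).c2).injOn ⟨(h.G z).c1.1, (h.G z).c_le⟩
      ⟨β_nonneg' (h.G z).c2, le_refl _⟩ h1

end QD

open QD in
/-- **Block LIP** -/
theorem blk_LIP (hB : StmtBet) (hO : StmtOff) : StmtLip := by
  intro D D' ε hε hcmp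
  obtain ⟨φ, h1, h2⟩ := hcmp
  have h : Cmpr D D' (Real.exp ε) φ := by
    refine ⟨fun θ hθ => (h1 θ hθ).1, fun θ hθ => (h1 θ hθ).2, Real.one_le_exp hε, ?_⟩
    intro q hq1 hq2 hq3
    obtain ⟨φ', g1, g2, g3⟩ := h2 q hq1 hq2 hq3
    refine ⟨φ', g1, g2, fun u => ?_⟩
    rw [D.nms_eq, D'.nms_eq]
    exact g3 u
  have hΛ : 0 ≤ Real.exp ε := (Real.exp_pos ε).le
  have F1 := Dbl.dist_map_le (S := D.axis) (S' := D'.axis) h.F hΛ (h.lipF hB hO) h.F_axis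
  have G1 := Dbl.dist_map_le (S := D'.axis) (S' := D.axis) h.G hΛ (h.lipG hB hO) h.G_axis
  have F2 := Dbl.dist_map_le (S := D.bd1) (S' := D'.bd1) (Dbl.map D.axis D'.axis h.F) hΛ F1
    (fun z hz => h.F_bd z.pt hz)
  have G2 := Dbl.dist_map_le (S := D'.bd1) (S' := D.bd1) (Dbl.map D'.axis D.axis h.G) hΛ G1
    (fun z hz => h.G_bd z.pt hz)
  refine quot_equiv _ _ F2 G2 ?_ ?_
  · rintro ⟨⟨x, i⟩, j⟩
    simp only [Dbl.map, h.GF]
  · rintro ⟨⟨x, i⟩, j⟩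
    simp only [Dbl.map, h.FG]

end Pool.MP8e
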