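import Mathlib
import Pool.Agent.Work.MP_8e9dbb.A.Cones

/-!
# Part A: from a Lipschitz comparison of the quarter domains to the surfaces
-/

open Filter Topology Metric Set

namespace Pool.MP8e

/-- a map of pseudo-metric spaces with a Lipschitz inverse passes to the separation quotients -/
theorem lip_quot {Y Z : Type} [PseudoMetricSpace Y] [PseudoMetricSpace Z] (F : Y → Z) (G : Z → Y)
    {Λ : ℝ} (hF : ∀ x y, dist (F x) (F y) ≤ Λ * dist x y)
    (hG : ∀ x y, dist (G x) (G y) ≤ Λ * dist x y) (hFG : ∀ y, F (G y) = y)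
    (hGF : ∀ x, G (F x) = x) :
    ∃ f : SeparationQuotient Y ≃ SeparationQuotient Z, ∀ x y,
      dist (f x) (f y) ≤ Λ * dist x y ∧ dist x y ≤ Λ * dist (f x) (f y) := by
  have key : ∀ {Y Z : Type} [PseudoMetricSpace Y] [PseudoMetricSpace Z] (F : Y → Z) (G : Z → Y),
      (∀ x y, dist (G x) (G y) ≤ Λ * dist x y) → (∀ x, G (F x) = x) → ∀ x : SeparationQuotient Y,
      SeparationQuotient.mk (G (rep (SeparationQuotient.mk (F (rep x))))) = x := by
    intro Y Z _ _ F G hG hGF x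
    rw [← dist_eq_zero, dist_comm, dist_mk_rep]
    refine le_antisymm ?_ dist_nonneg
    have h1 := hG (rep (SeparationQuotient.mk (F (rep x)))) (F (rep x))
    rw [dist_rep_mk, mul_zero, hGF, dist_comm] at h1
    exact h1
  refine ⟨⟨fun x => SeparationQuotient.mk (F (rep x)), fun y => SeparationQuotient.mk (G (rep y)),
    fun x => key F G hG hGF x, fun y => key G F hF hFG y⟩, fun x y => ⟨?_, ?_⟩⟩
  · change dist (SeparationQuotient.mk (F (rep x))) (SeparationQuotient.mk (F (rep y))) ≤ _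
    rw [SeparationQuotient.dist_mk, dist_rep x y]
    exact hF _ _
  · change _ ≤ Λ * dist (SeparationQuotient.mk (F (rep x))) (SeparationQuotient.mk (F (rep y)))
    rw [SeparationQuotient.dist_mk, dist_rep x y]
    have h1 := hG (F (rep x)) (F (rep y))
    rwa [hGF, hGF] at h1

namespace QD

/-- **passage from the quarter domains to the surfaces** -/
theorem lip_X {D D' : QD} (F : D.EPt → D'.EPt) (G : D'.EPt → D.EPt) {Λ : ℝ} (hΛ : 0 ≤ Λ)
    (hF : ∀ x y, dist (F x) (F y) ≤ Λ * dist x y) (hG : ∀ x y, dist (G x) (G y) ≤ Λ * dist x y)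
    (hFG : ∀ y, F (G y) = y) (hGF : ∀ x, G (F x) = x)
    (hax : ∀ x ∈ D.axis, F x ∈ D'.axis) (hax' : ∀ y ∈ D'.axis, G y ∈ D.axis)
    (hbd : ∀ x ∈ D.bd, F x ∈ D'.bd) (hbd' : ∀ y ∈ D'.bd, G y ∈ D.bd) :
    ∃ f : D.X ≃ D'.X, ∀ x y, dist (f x) (f y) ≤ Λ * dist x y ∧
      dist x y ≤ Λ * dist (f x) (f y) := by
  refine lip_quot (Y := D.XX) (Z := D'.XX)
    (Dbl.map D.bd1 D'.bd1 (Dbl.map D.axis D'.axis F))
    (Dbl.map D'.bd1 D.bd1 (Dbl.map D'.axis D.axis G)) ?_ ?_ ?_ ?_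
  · exact Dbl.dist_map_le _ hΛ (Dbl.dist_map_le F hΛ hF hax) fun z hz => hbd _ hz
  · exact Dbl.dist_map_le _ hΛ (Dbl.dist_map_le G hΛ hG hax') fun z hz => hbd' _ hz
  · rintro ⟨⟨y, i⟩, j⟩
    simp only [Dbl.map, hFG]
  · rintro ⟨⟨y, i⟩, j⟩
    simp only [Dbl.map, hGF]

end QD

end Pool.MP8e
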