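import Pool.Agent.Work.MP_8e9dbb.A.Sph1
import Pool.Agent.Work.MP_8e9dbb.A.Double

/-!
# Part A, block LUNE (helper19): the round sphere is the iterated double of a lune

`Ln = {u : 0 ≤ u₀, 0 ≤ u₁}` (the lune `0 ≤ θ ≤ π/2`), `axisL = {u₀ = 0}` (`θ = π/2`),
`legL = {u₁ = 0}` (`θ = 0`).
-/

open Filter Topology Metric Set InnerProductGeometry
open scoped RealInnerProductSpace

namespace Pool.MP8e.Lune

open Sph1

/-- the coordinate vectors -/
noncomputable def ee (j : Fin 3) : E3 := EuclideanSpace.single j 1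

theorem inner_ee (u : E3) (j : Fin 3) : ⟪u, ee j⟫ = u j := by
  unfold ee
  rw [EuclideanSpace.inner_single_right]
  simp

theorem inner_ee' (u : E3) (j : Fin 3) : ⟪ee j, u⟫ = u j := by
  rw [real_inner_comm]; exact inner_ee u j

theorem ee_same (j : Fin 3) : (ee j) j = 1 := by
  unfold ee
  simp

theorem ee_ee (j : Fin 3) : ⟪ee j, ee j⟫ = 1 := by
  rw [inner_ee, ee_same]

theorem ee_ne {i j : Fin 3} (h : i ≠ j) : (ee j) i = 0 := by
  unfold ee
  simp [h]

/-- reflection, linear part -/
noncomputable def rl (j : Fin 3) (u : E3) : E3 := u - (2 * u j) • ee j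

theorem inner_rl (j : Fin 3) (u v : E3) : ⟪rl j u, rl j v⟫ = ⟪u, v⟫ := by
  unfold rl
  simp only [inner_sub_left, inner_sub_right, real_inner_smul_left, real_inner_smul_right,
    inner_ee, inner_ee', ee_same]
  ring

theorem norm_rl (j : Fin 3) (u : E3) : ‖rl j u‖ = ‖u‖ := by
  have h : ‖rl j u‖ ^ 2 = ‖u‖ ^ 2 := by
    rw [← real_inner_self_eq_norm_sq, ← real_inner_self_eq_norm_sq, inner_rl]
  exact (sq_eq_sq₀ (norm_nonneg _) (norm_nonneg _)).1 h

theorem rl_same (j : Fin 3) (u : E3) : (rl j u) j = -u j := by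
  unfold rl ee
  simp
  ring

theorem rl_ne {i j : Fin 3} (h : i ≠ j) (u : E3) : (rl j u) i = u i := by
  unfold rl
  have := ee_ne h
  simp [this]

theorem rl_rl (j : Fin 3) (u : E3) : rl j (rl j u) = u := by
  ext i
  by_cases h : i = j
  · subst h; rw [rl_same, rl_same, neg_neg]
  · rw [rl_ne h, rl_ne h]

/-- reflection of the sphere -/
noncomputable def refl (j : Fin 3) (u : Sph) : Sph :=
  ⟨⟨rl j u.pt, mem_sphere_zero_iff_norm.2 (by rw [norm_rl, norm_pt])⟩⟩

theorem refl_coe (j : Fin 3) (u : Sph) : ((refl j u).pt : E3) = rl j (u.pt : E3) := rfl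

theorem dist_refl (j : Fin 3) (u v : Sph) : dist (refl j u) (refl j v) = dist u v := by
  rw [dist_def, dist_def]
  refine ang_of_inner (ang_nonneg _ _) (ang_le_pi _ _) ?_
  rw [refl_coe, refl_coe, inner_rl, cos_ang]

theorem refl_refl (j : Fin 3) (u : Sph) : refl j (refl j u) = u := by
  have : ((refl j (refl j u)).pt : E3) = (u.pt : E3) := by
    rw [refl_coe, refl_coe, rl_rl]
  have h2 : (refl j (refl j u)).pt = u.pt := Subtype.ext this
  exact ptEquiv.injective h2

theorem refl_fix {j : Fin 3} {u : Sph} (h : (u.pt : E3) j = 0) : refl j u = u := by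
  have : ((refl j u).pt : E3) = (u.pt : E3) := by
    rw [refl_coe]; unfold rl; rw [h]; simp
  have h2 : (refl j u).pt = u.pt := Subtype.ext this
  exact ptEquiv.injective h2

/-- the north pole -/
noncomputable def np : Sph :=
  ⟨⟨ee 2, mem_sphere_zero_iff_norm.2 (by
    have h : ‖ee 2‖ ^ 2 = 1 ^ 2 := by rw [← real_inner_self_eq_norm_sq, ee_ee]; norm_num
    exact (sq_eq_sq₀ (norm_nonneg _) zero_le_one).1 h)⟩⟩

theorem np_apply {j : Fin 3} (h : j ≠ 2) : (np.pt : E3) j = 0 := ee_ne h

/-- crossing point of a minimal geodesic with a coordinate plane -/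
theorem cross {j i : Fin 3} (hj : j ≠ 2) (hi : i ≠ 2) (x y : Sph) (hx : 0 ≤ (x.pt : E3) j)
    (hy : (y.pt : E3) j ≤ 0) : ∃ z : Sph, (z.pt : E3) j = 0 ∧
      (0 ≤ (x.pt : E3) i → 0 ≤ (y.pt : E3) i → 0 ≤ (z.pt : E3) i) ∧
      dist x z + dist z y = dist x y := by
  obtain ⟨x⟩ := x
  obtain ⟨y⟩ := y
  simp only at hx hy
  rcases (ang_le_pi x y).eq_or_lt with hpi | hpi
  · -- antipodal
    refine ⟨np, np_apply hj, fun _ _ => by rw [np_apply hi], ?_⟩
    rw [dist_def, dist_def, dist_def]
    have hyx : (y : E3) = -(x : E3) := by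
      obtain ⟨e, -, -, h⟩ := decomp x y
      rw [h, hpi, Real.cos_pi, Real.sin_pi]
      simp
    show ang x np.pt + ang np.pt y = ang x y
    rw [hpi]
    unfold ang
    rw [hyx, angle_neg_right, angle_comm (np.pt : E3) (x : E3)]
    ring
  · rcases (ang_nonneg x y).eq_or_lt with h0 | h0
    · have hxy := ang_eq_zero h0.symm
      subst hxy
      refine ⟨⟨x⟩, le_antisymm hy hx, fun h _ => h, ?_⟩
      rw [dist_self, zero_add]
    · obtain ⟨e, he1, he2, hye⟩ := decomp x y
      set a := ang x y with ha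
      have hsa : 0 < Real.sin a := Real.sin_pos_of_pos_of_lt_pi h0 hpi
      have hxx : ⟪(x : E3), (x : E3)⟫ = 1 := by rw [real_inner_self_eq_norm_sq, norm_pt]; norm_num
      have hee : ⟪e, e⟫ = 1 := by rw [real_inner_self_eq_norm_sq, he1]; norm_num
      have hex : ⟪e, (x : E3)⟫ = 0 := by rw [real_inner_comm]; exact he2
      have hco : ∀ k, (y : E3) k = Real.cos a * (x : E3) k + Real.sin a * e k := fun k => by
        rw [hye]; simp
      obtain ⟨s, hs, hs0⟩ : ∃ s ∈ Icc 0 a, Real.cos s * (x : E3) j + Real.sin s * e j = 0 := by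
        have hc : ContinuousOn (fun s => Real.cos s * (x : E3) j + Real.sin s * e j) (Icc 0 a) := by
          fun_prop
        have := intermediate_value_Icc' h0.le hc
        refine this ⟨?_, ?_⟩
        · simp only; rw [← hco]; exact hy
        · simp only [Real.cos_zero, one_mul, Real.sin_zero, zero_mul, add_zero]; exact hx
      set z : E3 := Real.cos s • (x : E3) + Real.sin s • e with hz
      have hzn : ‖z‖ = 1 := by
        have h1 : ‖z‖ ^ 2 = 1 ^ 2 := by
          rw [← real_inner_self_eq_norm_sq, hz]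
          simp only [inner_add_left, inner_add_right, real_inner_smul_left,
            real_inner_smul_right, hxx, hee, hex, he2]
          have := Real.sin_sq_add_cos_sq s
          nlinarith
        exact (sq_eq_sq₀ (norm_nonneg _) zero_le_one).1 h1
      have hzk : ∀ k, z k = Real.cos s * (x : E3) k + Real.sin s * e k := fun k => by
        rw [hz]; simp
      have hapi : a ≤ Real.pi := hpi.le
      refine ⟨⟨⟨z, mem_sphere_zero_iff_norm.2 hzn⟩⟩, ?_, ?_, ?_⟩
      · show z j = 0
        rw [hzk]; exact hs0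
      · intro h1 h2
        show 0 ≤ z i
        have h3 : z i * Real.sin a = Real.sin (a - s) * (x : E3) i + Real.sin s * (y : E3) i := by
          rw [hzk, hco, Real.sin_sub]; ring
        have h4 : 0 ≤ Real.sin (a - s) :=
          Real.sin_nonneg_of_nonneg_of_le_pi (by linarith [hs.2]) (by linarith [hs.1])
        have h5 : 0 ≤ Real.sin s :=
          Real.sin_nonneg_of_nonneg_of_le_pi hs.1 (by linarith [hs.2])
        have h6 : 0 ≤ z i * Real.sin a := by
          rw [h3]
          have := mul_nonneg h4 h1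
          have := mul_nonneg h5 h2
          linarith
        exact nonneg_of_mul_nonneg_left h6 hsa
      · rw [dist_def, dist_def, dist_def]
        have e1 : ang x ⟨z, mem_sphere_zero_iff_norm.2 hzn⟩ = s := by
          refine ang_of_inner hs.1 (by linarith [hs.2]) ?_
          change ⟪(x : E3), z⟫ = _
          rw [hz]
          simp only [inner_add_right, real_inner_smul_right, hxx, he2]
          ring
        have e2 : ang ⟨z, mem_sphere_zero_iff_norm.2 hzn⟩ y = a - s := by
          refine ang_of_inner (by linarith [hs.2]) (by linarith [hs.1]) ?_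
          change ⟪z, (y : E3)⟫ = _
          rw [hye, hz]
          simp only [inner_add_left, inner_add_right, real_inner_smul_left,
            real_inner_smul_right, hxx, hee, hex, he2]
          rw [Real.cos_sub]; ring
        show ang x _ + ang _ y = a
        rw [e1, e2]; ring

/-! ### doubling -/

/-- one doubling step -/
theorem step {N : Type} [PseudoMetricSpace N] {S : Set N} [Nonempty S] (G : N → Sph)
    (hG : ∀ x y, dist (G x) (G y) = dist x y) {j : Fin 3}
    (hS : ∀ z ∈ S, ((G z).pt : E3) j = 0)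
    (hcr : ∀ x y : N, ∃ z ∈ S, dist (G x) (G z) + dist (G z) (refl j (G y)) =
      dist (G x) (refl j (G y))) (x y : Dbl N S) :
    dist (if x.side then refl j (G x.pt) else G x.pt) (if y.side then refl j (G y.pt) else G y.pt)
      = dist x y := by
  have key : ∀ x y : N, Dbl.cr S x y = dist (G x) (refl j (G y)) := by
    intro x y
    apply le_antisymm
    · obtain ⟨z, hz, hzd⟩ := hcr x y
      refine (Dbl.cr_le hz).trans ?_
      rw [← hG, ← hG, ← hzd]
      have h1 := dist_refl j (G z) (G y)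
      rw [refl_fix (hS z hz)] at h1
      rw [h1]
    · apply Dbl.le_cr
      intro z hz
      rw [← hG, ← hG]
      have h1 := dist_refl j (G z) (G y)
      rw [refl_fix (hS z hz)] at h1
      rw [← h1]
      exact dist_triangle _ _ _
  obtain ⟨x, a⟩ := x
  obtain ⟨y, b⟩ := y
  cases a <;> cases b
  · rw [Dbl.dist_same]; exact hG x y
  · rw [Dbl.dist_diff _ _ (by simp), key]; simp
  · rw [Dbl.dist_diff _ _ (by simp), Dbl.cr_comm, key, dist_comm]; simp
  · rw [Dbl.dist_same]
    show dist (refl j (G x)) (refl j (G y)) = _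
    rw [dist_refl, hG]

/-- the lune -/
def Ln := {u : Sph // 0 ≤ (u.pt : E3) 0 ∧ 0 ≤ (u.pt : E3) 1}

noncomputable instance : MetricSpace Ln :=
  inferInstanceAs (MetricSpace {u : Sph // 0 ≤ (u.pt : E3) 0 ∧ 0 ≤ (u.pt : E3) 1})

/-- the axis -/
def axisL : Set Ln := {u | (u.1.pt : E3) 0 = 0}

/-- the north pole of the lune -/
noncomputable def npL : Ln :=
  ⟨np, by rw [np_apply (by decide)], by rw [np_apply (by decide)]⟩

instance : Nonempty axisL := ⟨⟨npL, np_apply (by decide)⟩⟩

/-- the half sphere -/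
abbrev Hs := Dbl Ln axisL

/-- the half sphere, as a subset of the sphere -/
noncomputable def F1 (x : Hs) : Sph := if x.side then refl 0 x.pt.1 else x.pt.1

theorem dist_F1 (x y : Hs) : dist (F1 x) (F1 y) = dist x y := by
  refine step (S := axisL) (fun u : Ln => u.1) (fun _ _ => rfl) (j := 0)
    (fun z hz => hz) (fun x y => ?_) x y
  obtain ⟨z, h1, h2, h3⟩ := cross (j := 0) (i := 1) (by decide) (by decide) x.1 (refl 0 y.1)
    x.2.1 (by rw [refl_coe, rl_same]; linarith [y.2.1])
  have h4 := h2 x.2.2 (by rw [refl_coe, rl_ne (by decide)]; exact y.2.2)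
  exact ⟨⟨z, by rw [h1], h4⟩, h1, h3⟩

theorem F1_pos (x : Hs) : 0 ≤ ((F1 x).pt : E3) 1 := by
  unfold F1
  split_ifs
  · rw [refl_coe, rl_ne (by decide)]; exact x.pt.2.2
  · exact x.pt.2.2

/-- the leg -/
def legL : Set Hs := {x | (x.pt.1.pt : E3) 1 = 0}

instance : Nonempty legL := ⟨⟨⟨npL, false⟩, np_apply (by decide)⟩⟩

theorem F1_leg {x : Hs} (hx : x ∈ legL) : ((F1 x).pt : E3) 1 = 0 := by
  unfold F1
  split_ifs
  · rw [refl_coe, rl_ne (by decide)]; exact hx
  · exact hx

theorem F1_surj (z : Sph) (hz : 0 ≤ (z.pt : E3) 1) : ∃ x : Hs, F1 x = z ∧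
    ((z.pt : E3) 1 = 0 → x ∈ legL) := by
  rcases le_total 0 ((z.pt : E3) 0) with h | h
  · exact ⟨⟨⟨z, h, hz⟩, false⟩, rfl, fun h' => h'⟩
  · refine ⟨⟨⟨refl 0 z, ?_, ?_⟩, true⟩, ?_, fun h' => ?_⟩
    · rw [refl_coe, rl_same]; linarith
    · rw [refl_coe, rl_ne (by decide)]; exact hz
    · show refl 0 (refl 0 z) = z
      exact refl_refl 0 z
    · show ((refl 0 z).pt : E3) 1 = 0
      rw [refl_coe, rl_ne (by decide)]; exact h'

/-- the sphere as an iterated double -/
noncomputable def F2 (x : Dbl Hs legL) : Sph := if x.side then refl 1 (F1 x.pt) else F1 x.pt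

/-- **LUNE**: the iterated double of the lune is the round sphere -/
theorem dist_F2 (x y : Dbl Hs legL) : dist (F2 x) (F2 y) = dist x y := by
  refine step (S := legL) F1 dist_F1 (j := 1) (fun z hz => F1_leg hz) (fun x y => ?_) x y
  obtain ⟨z, h1, -, h3⟩ := cross (j := 1) (i := 0) (by decide) (by decide) (F1 x) (refl 1 (F1 y))
    (F1_pos x) (by rw [refl_coe, rl_same]; linarith [F1_pos y])
  obtain ⟨z', hz', hz''⟩ := F1_surj z (by rw [h1])
  exact ⟨z', hz'' h1, by rw [hz']; exact h3⟩

theorem F2_surj : Function.Surjective F2 := by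
  intro z
  rcases le_total 0 ((z.pt : E3) 1) with h | h
  · obtain ⟨x, hx, -⟩ := F1_surj z h
    exact ⟨⟨x, false⟩, hx⟩
  · obtain ⟨x, hx, -⟩ := F1_surj (refl 1 z) (by rw [refl_coe, rl_same]; linarith)
    refine ⟨⟨x, true⟩, ?_⟩
    show refl 1 (F1 x) = z
    rw [hx, refl_refl]

/-- every round sphere is the quotient of the iterated double of the lune -/
theorem round_iso {g : ConeSphere} (hg : IsRound g) :
    ∃ f : Dbl Hs legL → g.X, Function.Surjective f ∧ ∀ x y, dist (f x) (f y) = dist x y := by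
  obtain ⟨f, hf⟩ := hg
  refine ⟨fun x => f.symm (F2 x).pt, ?_, fun x y => ?_⟩
  · intro z
    obtain ⟨x, hx⟩ := F2_surj ⟨f z⟩
    refine ⟨x, ?_⟩
    show f.symm (F2 x).pt = z
    rw [hx]; exact f.symm_apply_apply z
  · rw [hf, f.apply_symm_apply, f.apply_symm_apply, ← dist_F2]
    rfl

end Pool.MP8e.Lune
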