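import Mathlib
import Pool.Agent.Work.MP_8e9dbb.A.Core

/-!
# Local-to-global principle with finitely many exceptional points (helper81)

In a compact space with midpoints a continuous map which is locally `(Λ+ε)`-Lipschitz at every point
of positive distance from a finite set `T` is `Λ`-Lipschitz.  Proof with chains of dyadic points.
-/

open Filter Topology Metric Set

namespace Pool.MP8e

/-- dyadic chains -/
theorem exists_chain {Y : Type*} [PseudoMetricSpace Y] (mid : HasMid Y) (n : ℕ) : ∀ x y : Y,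
    ∃ z : ℕ → Y, z 0 = x ∧ z (2 ^ n) = y ∧ ∀ i < 2 ^ n, dist (z i) (z (i + 1)) = dist x y / 2 ^ n := by
  induction n with
  | zero =>
    intro x y
    refine ⟨fun i => if i = 0 then x else y, by simp, by simp, ?_⟩
    intro i hi
    have : i = 0 := by simpa using hi
    subst this
    simp
  | succ n ih =>
    intro x y
    obtain ⟨m, h1, h2⟩ := mid x y
    obtain ⟨u, u0, u1, u2⟩ := ih x m
    obtain ⟨v, v0, v1, v2⟩ := ih m y
    refine ⟨fun i => if i ≤ 2 ^ n then u i else v (i - 2 ^ n), ?_, ?_, ?_⟩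
    · simp [u0]
    · have : ¬ (2 ^ (n + 1) ≤ 2 ^ n) := by
        rw [pow_succ]
        have := Nat.pos_of_ne_zero (pow_ne_zero n (two_ne_zero (α := ℕ)))
        omega
      simp only [this, if_false]
      rw [show 2 ^ (n + 1) - 2 ^ n = 2 ^ n by rw [pow_succ]; omega, v1]
    · intro i hi
      rcases lt_trichotomy i (2 ^ n) with h | h | h
      · have e1 : i ≤ 2 ^ n := h.le
        have e2 : i + 1 ≤ 2 ^ n := h
        simp only [e1, e2, if_true]
        rw [u2 i h, h1, pow_succ]
        ring
      · have e1 : i ≤ 2 ^ n := h.le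
        have e2 : ¬ i + 1 ≤ 2 ^ n := by omega
        simp only [e1, e2, if_true, if_false]
        rw [h, u1, show 2 ^ n + 1 - 2 ^ n = 0 + 1 by omega, ← v0,
          v2 0 (Nat.pos_of_ne_zero (pow_ne_zero n two_ne_zero)), h2, pow_succ]
        ring
      · have e1 : ¬ i ≤ 2 ^ n := by omega
        have e2 : ¬ i + 1 ≤ 2 ^ n := by omega
        simp only [e1, e2, if_false]
        rw [show i + 1 - 2 ^ n = (i - 2 ^ n) + 1 by omega,
          v2 (i - 2 ^ n) (by rw [pow_succ] at hi; omega), h2, pow_succ]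
        ring

/-- the chain estimate -/
theorem chain_bound {Y Z : Type*} [PseudoMetricSpace Y] [PseudoMetricSpace Z] (F : Y → Z)
    {C h ρ η : ℝ} (hC : 0 ≤ C) (hh : 0 ≤ h) (hη : 0 ≤ η) (hhρ : h < ρ) (K : Set Y) (T : Finset Y)
    (hsep : ∀ p ∈ T, ∀ p' ∈ T, 0 < dist p p' → 4 * ρ < dist p p')
    (z : ℕ → Y) (N : ℕ) (hstep : ∀ i < N, dist (z i) (z (i + 1)) = h)
    (hloc : ∀ i < N, (z i ∈ K ∨ z (i + 1) ∈ K) → dist (F (z i)) (F (z (i + 1))) ≤ C * h)
    (hcont : ∀ i ≤ N, ∀ j ≤ N, ∀ p ∈ T, dist (z i) p < ρ → dist (z j) p < ρ →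
      dist (F (z i)) (F (z j)) ≤ η) :
    ∀ S : Finset Y, S ⊆ T → ∀ i j : ℕ, i ≤ j → j ≤ N →
      (∀ k, i ≤ k → k ≤ j → z k ∈ K ∨ ∃ p ∈ S, dist (z k) p < ρ) →
      dist (F (z i)) (F (z j)) ≤ C * ((j - i : ℕ) * h) + (2 ^ S.card - 1) * η := by
  classical
  intro S
  induction S using Finset.induction_on with
  | empty =>
    intro _ i j hij hj hK
    have hgood : ∀ k, i ≤ k → k ≤ j → z k ∈ K := by
      intro k h1 h2
      rcases hK k h1 h2 with h | ⟨p, hp, _⟩
      · exact h
      · simp at hp
    obtain ⟨d, rfl⟩ := Nat.exists_eq_add_of_le hij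
    clear hK
    induction d with
    | zero => simp
    | succ d ih =>
      have h1 := ih (by omega) (by omega) (fun k a b => hgood k a (by omega))
      have h2 := hloc (i + d) (by omega) (Or.inl (hgood _ (by omega) (by omega)))
      have h3 := dist_triangle (F (z i)) (F (z (i + d))) (F (z (i + d + 1)))
      have e1 : i + d - i = d := by omega
      have e2 : i + (d + 1) - i = d + 1 := by omega
      rw [e1] at h1
      rw [e2, ← add_assoc]
      push_cast
      simp only [Finset.card_empty, pow_zero, sub_self, zero_mul, add_zero] at h1 ⊢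
      linarith
  | insert p S hpS ih =>
    intro hST i j hij hj hK
    have hpT : p ∈ T := hST (Finset.mem_insert_self p S)
    have hST' : S ⊆ T := fun q hq => hST (Finset.mem_insert_of_mem hq)
    have e0 : (0:ℝ) ≤ (2 ^ S.card - 1) * η := by
      apply mul_nonneg _ hη
      have : (1:ℝ) ≤ 2 ^ S.card := one_le_pow₀ (by norm_num)
      linarith
    rw [Finset.card_insert_of_notMem hpS]
    by_cases hex : ∃ k, i ≤ k ∧ k ≤ j ∧ dist (z k) p < ρ
    · -- first and last index near p
      obtain ⟨I, hI⟩ : ∃ I : Finset ℕ, I = (Finset.Icc i j).filter (fun k => dist (z k) p < ρ) :=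
        ⟨_, rfl⟩
      have hmemI : ∀ k, k ∈ I ↔ (i ≤ k ∧ k ≤ j) ∧ dist (z k) p < ρ := fun k => by
        rw [hI, Finset.mem_filter, Finset.mem_Icc]
      have hIne : I.Nonempty := by
        obtain ⟨k, h1, h2, h3⟩ := hex
        exact ⟨k, (hmemI k).2 ⟨⟨h1, h2⟩, h3⟩⟩
      obtain ⟨a, ha, hamin⟩ : ∃ a ∈ I, ∀ k ∈ I, a ≤ k :=
        ⟨I.min' hIne, I.min'_mem hIne, fun k hk => I.min'_le k hk⟩
      obtain ⟨b, hb, hbmax⟩ : ∃ b ∈ I, ∀ k ∈ I, k ≤ b :=
        ⟨I.max' hIne, I.max'_mem hIne, fun k hk => I.le_max' k hk⟩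
      obtain ⟨⟨ha1, ha2⟩, ha3⟩ := (hmemI a).1 ha
      obtain ⟨⟨hb1, hb2⟩, hb3⟩ := (hmemI b).1 hb
      have hab : a ≤ b := hamin b hb
      -- the neighbours of the block are in K
      have hnb : ∀ k, i ≤ k → k ≤ j → k ∉ I → (∃ c ∈ I, dist (z k) (z c) = h) → z k ∈ K := by
        intro k h1 h2 h3 ⟨c, hc, hkc⟩
        rcases hK k h1 h2 with h | ⟨p', hp', hd⟩
        · exact h
        · exfalso
          have hkp : ¬ dist (z k) p < ρ := fun h4 => h3 ((hmemI k).2 ⟨⟨h1, h2⟩, h4⟩)
          have hcp := ((hmemI c).1 hc).2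
          rcases (dist_nonneg (x := p) (y := p')).eq_or_lt with h0 | h0
          · apply hkp
            have := dist_triangle (z k) p' p
            rw [dist_comm p' p, ← h0] at this
            linarith
          · have h5 := hsep p hpT p' (hST hp') h0
            have h6 := dist_triangle p (z c) p'
            have h7 := dist_triangle (z c) (z k) p'
            rw [dist_comm p (z c)] at h6
            rw [dist_comm (z c) (z k), hkc] at h7
            linarith
      have hout : ∀ k, i ≤ k → k ≤ j → k ∉ I → z k ∈ K ∨ ∃ q ∈ S, dist (z k) q < ρ := by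
        intro k h1 h2 h3
        rcases hK k h1 h2 with h | ⟨q, hq, hd⟩
        · exact Or.inl h
        · rcases Finset.mem_insert.1 hq with rfl | hq
          · exact absurd ((hmemI k).2 ⟨⟨h1, h2⟩, hd⟩) h3
          · exact Or.inr ⟨q, hq, hd⟩
      -- left part
      have hleft : dist (F (z i)) (F (z a)) ≤ C * ((a - i : ℕ) * h) + (2 ^ S.card - 1) * η := by
        rcases ha1.eq_or_lt with h | h
        · rw [← h]
          simpa using e0
        · obtain ⟨a', rfl⟩ : ∃ a', a = a' + 1 := ⟨a - 1, by omega⟩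
          have hnot : a' ∉ I := fun h4 => by have := hamin a' h4; omega
          have hKa : z a' ∈ K := hnb a' (by omega) (by omega) hnot ⟨a' + 1, ha, hstep a' (by omega)⟩
          have h1 := ih hST' i a' (by omega) (by omega) (fun k c1 c2 => hout k c1 (by omega)
            (fun h4 => by have := hamin k h4; omega))
          have h2 := hloc a' (by omega) (Or.inl hKa)
          have h3 := dist_triangle (F (z i)) (F (z a')) (F (z (a' + 1)))
          have e1 : ((a' + 1 - i : ℕ) : ℝ) = ((a' - i : ℕ) : ℝ) + 1 := by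
            rw [show a' + 1 - i = (a' - i) + 1 by omega]; push_cast; ring
          rw [e1]
          linarith
      have hright : dist (F (z b)) (F (z j)) ≤ C * ((j - b : ℕ) * h) + (2 ^ S.card - 1) * η := by
        rcases hb2.eq_or_lt with h | h
        · rw [h]
          simpa using e0
        · have hnot : b + 1 ∉ I := fun h4 => by have := hbmax (b + 1) h4; omega
          have hKb : z (b + 1) ∈ K := hnb (b + 1) (by omega) (by omega) hnot
            ⟨b, hb, by rw [dist_comm]; exact hstep b (by omega)⟩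
          have h1 := ih hST' (b + 1) j (by omega) (by omega) (fun k c1 c2 => hout k (by omega) c2
            (fun h4 => by have := hbmax k h4; omega))
          have h2 := hloc b (by omega) (Or.inr hKb)
          have h3 := dist_triangle (F (z b)) (F (z (b + 1))) (F (z j))
          have e1 : ((j - b : ℕ) : ℝ) = ((j - (b + 1) : ℕ) : ℝ) + 1 := by
            rw [show j - b = (j - (b + 1)) + 1 by omega]; push_cast; ring
          rw [e1]
          linarith
      have hmid := hcont a (by omega) b (by omega) p hpT ha3 hb3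
      have t1 := dist_triangle (F (z i)) (F (z a)) (F (z b))
      have t2 := dist_triangle (F (z i)) (F (z b)) (F (z j))
      have e1 : ((j - i : ℕ) : ℝ) = ((a - i : ℕ) : ℝ) + ((b - a : ℕ) : ℝ) + ((j - b : ℕ) : ℝ) := by
        rw [show j - i = (a - i) + (b - a) + (j - b) by omega]; push_cast; ring
      have e2 : (0:ℝ) ≤ C * (((b - a : ℕ) : ℝ) * h) := by positivity
      rw [e1, pow_succ]
      nlinarith
    · push Not at hex
      have h1 := ih hST' i j hij hj (fun k c1 c2 => by
        rcases hK k c1 c2 with h | ⟨q, hq, hd⟩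
        · exact Or.inl h
        · rcases Finset.mem_insert.1 hq with rfl | hq
          · exact absurd hd (not_lt.2 (hex k c1 c2))
          · exact Or.inr ⟨q, hq, hd⟩)
      rw [pow_succ]
      nlinarith [one_le_pow₀ (n := S.card) (show (1:ℝ) ≤ 2 by norm_num)]

/-- **Local to global with finitely many exceptional points.** -/
theorem lip_off_finset {Y Z : Type*} [PseudoMetricSpace Y] [CompactSpace Y] [PseudoMetricSpace Z]
    (mid : HasMid Y) (F : Y → Z) {Λ : ℝ} (hΛ : 0 ≤ Λ) (hF : Continuous F) (T : Finset Y)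
    (hf : ∀ q : Y, (∀ p ∈ T, 0 < dist q p) → ∀ ε > 0, ∃ r > 0, ∀ x ∈ ball q r, ∀ y ∈ ball q r,
      dist (F x) (F y) ≤ (Λ + ε) * dist x y) (x y : Y) : dist (F x) (F y) ≤ Λ * dist x y := by
  have key : ∀ ε > 0, ∀ η > 0, dist (F x) (F y) ≤ (Λ + ε) * dist x y + (2 ^ T.card - 1) * η := by
    intro ε hε η hη
    have huc : UniformContinuous F := CompactSpace.uniformContinuous_of_continuous hF
    obtain ⟨ρ₀, hρ₀, huc⟩ := Metric.uniformContinuous_iff.1 huc η hη
    -- the radius
    have hev : ∀ᶠ ρ in 𝓝[>] (0:ℝ), (∀ p ∈ T, ∀ p' ∈ T, 0 < dist p p' → 4 * ρ < dist p p') ∧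
        2 * ρ < ρ₀ := by
      refine Filter.Eventually.and ?_ ?_
      · rw [Filter.eventually_all_finset]
        intro p _
        rw [Filter.eventually_all_finset]
        intro p' _
        by_cases h0 : 0 < dist p p'
        · have : Tendsto (fun ρ : ℝ => 4 * ρ) (𝓝[>] 0) (𝓝 0) := by
            have h1 : Tendsto (fun ρ : ℝ => 4 * ρ) (𝓝 0) (𝓝 (4 * 0)) :=
              (continuous_const.mul continuous_id).tendsto 0
            rw [mul_zero] at h1
            exact h1.mono_left nhdsWithin_le_nhds
          filter_upwards [this.eventually (gt_mem_nhds h0)] with ρ hρ _ using hρ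
        · exact Filter.Eventually.of_forall fun ρ h1 => absurd h1 h0
      · have : Tendsto (fun ρ : ℝ => 2 * ρ) (𝓝[>] 0) (𝓝 0) := by
          have h1 : Tendsto (fun ρ : ℝ => 2 * ρ) (𝓝 0) (𝓝 (2 * 0)) :=
            (continuous_const.mul continuous_id).tendsto 0
          rw [mul_zero] at h1
          exact h1.mono_left nhdsWithin_le_nhds
        exact this.eventually (gt_mem_nhds hρ₀)
    obtain ⟨ρ, ⟨hsep, hρρ₀⟩, hρ⟩ := (hev.and self_mem_nhdsWithin).exists
    replace hρ : 0 < ρ := hρ
    -- the compact set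
    obtain ⟨K, hK⟩ : ∃ K : Set Y, K = ⋂ p ∈ T, {q | ρ ≤ dist q p} := ⟨_, rfl⟩
    have hKmem : ∀ q, q ∈ K ↔ ∀ p ∈ T, ρ ≤ dist q p := fun q => by rw [hK]; simp
    have hKc : IsCompact K := by
      rw [hK]
      apply IsClosed.isCompact
      refine isClosed_biInter fun p _ => ?_
      exact isClosed_le continuous_const (continuous_id.dist continuous_const)
    have hlocK : ∀ q : K, ∃ r > 0, ∀ x ∈ ball (q:Y) r, ∀ y ∈ ball (q:Y) r,
        dist (F x) (F y) ≤ (Λ + ε) * dist x y := fun q =>
      hf q (fun p hp => hρ.trans_le ((hKmem q).1 q.2 p hp)) ε hε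
    choose r hr hloc using hlocK
    obtain ⟨δ, hδ, hball⟩ := lebesgue_number_lemma_of_metric (s := K) hKc
      (c := fun q : K => ball (q:Y) (r q)) (fun q => isOpen_ball)
      (fun x hx => mem_iUnion.2 ⟨⟨x, hx⟩, mem_ball_self (hr ⟨x, hx⟩)⟩)
    have base : ∀ a ∈ K, ∀ b, dist a b < δ → dist (F a) (F b) ≤ (Λ + ε) * dist a b := by
      intro a ha b hab
      obtain ⟨q, hq⟩ := hball a ha
      exact hloc q a (hq (mem_ball_self hδ)) b (hq (by rwa [mem_ball, dist_comm]))
    -- the chain
    obtain ⟨n, hn⟩ := pow_unbounded_of_one_lt (dist x y / min δ ρ) (one_lt_two)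
    have hm : 0 < min δ ρ := lt_min hδ hρ
    have h2n : (0:ℝ) < 2 ^ n := by positivity
    have hhs : dist x y / 2 ^ n < min δ ρ := by
      rw [div_lt_iff₀ hm] at hn
      rw [div_lt_iff₀ h2n]
      linarith
    obtain ⟨z, z0, z1, z2⟩ := exists_chain mid n x y
    have hh0 : 0 ≤ dist x y / 2 ^ n := by positivity
    have hmain := chain_bound F (C := Λ + ε) (h := dist x y / 2 ^ n) (ρ := ρ) (η := η)
      (by linarith) hh0 hη.le (hhs.trans_le (min_le_right _ _)) K T hsep z (2 ^ n) z2
      (by
        intro i hi hor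
        rcases hor with h | h
        · have := base _ h (z (i + 1)) (by rw [z2 i hi]; exact hhs.trans_le (min_le_left _ _))
          rwa [z2 i hi] at this
        · have := base _ h (z i) (by
            rw [dist_comm, z2 i hi]; exact hhs.trans_le (min_le_left _ _))
          rw [dist_comm (z (i + 1)), z2 i hi] at this
          rwa [dist_comm])
      (by
        intro i _ j _ p _ h1 h2
        have h3 := dist_triangle (z i) p (z j)
        rw [dist_comm p (z j)] at h3
        exact (huc (by linarith)).le)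
      T (Finset.Subset.refl T) 0 (2 ^ n) (Nat.zero_le _) le_rfl
      (by
        intro k _ _
        by_cases h : ∃ p ∈ T, dist (z k) p < ρ
        · exact Or.inr h
        · push Not at h
          exact Or.inl ((hKmem _).2 h))
    rw [z0, z1, Nat.sub_zero] at hmain
    have e1 : ((2 ^ n : ℕ) : ℝ) * (dist x y / 2 ^ n) = dist x y := by
      push_cast
      field_simp
    rw [e1] at hmain
    exact hmain
  -- conclusion
  refine le_of_forall_pos_le_add fun γ hγ => ?_
  have hd := dist_nonneg (x := x) (y := y)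
  have h2 : (0:ℝ) < 2 ^ T.card := by positivity
  have := key (γ / (2 * (dist x y + 1))) (by positivity) (γ / (2 * 2 ^ T.card)) (by positivity)
  have e1 : γ / (2 * (dist x y + 1)) * dist x y ≤ γ / 2 := by
    rw [div_mul_eq_mul_div, div_le_div_iff₀ (by positivity) (by positivity)]
    nlinarith
  have e2 : (2 ^ T.card - 1) * (γ / (2 * 2 ^ T.card)) ≤ γ / 2 := by
    rw [mul_div_assoc', div_le_div_iff₀ (by positivity) (by positivity)]
    nlinarith
  linarith

end Pool.MP8e
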