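import Mathlib
import Pool.Agent.Work.MP_8e9dbb.A.Calls2
import Pool.Agent.Work.MP_8e9dbb.A.OffAux

/-!
# Block OFF (helper81): local-to-global with one exceptional point
-/

open Filter Topology Metric Set

namespace Pool.MP8e

theorem blk_OFF : StmtOff := by
  intro Y Z _ _ _ hbet f Λ hΛ hf p₀ hloc x y
  classical
  refine lip_off_finset (Y := Y) (Z := Z) hbet.hasMid f hΛ hf {p₀} ?_ x y
  intro q hq
  exact hloc q (hq p₀ (Finset.mem_singleton_self _))

end Pool.MP8e
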