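import Mathlib
import Pool.Agent.Work.MP_8e9dbb.A.Calls2

/-!
# Part A: betweenness of the quarter domain (block RET)
-/

open Filter Topology Metric Set

namespace Pool.MP8e
namespace QD
namespace Ret

variable (D : QD)

/-- the tangent of the angle (times `κ`) of the floor point with the same `Im Z` -/
noncomputable def sl (x : ℝ × ℝ) : ℝ := D.R x.1 * Real.sin (D.κ * (x.2 - D.θf)) / D.ρf

/-- the angle of the floor point with the same `Im Z` -/
noncomputable def T (x : ℝ × ℝ) : ℝ := D.θf + Real.arctan (sl D x) / D.κ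

theorem continuous_T : Continuous (T D) := by
  unfold T sl
  have hR := D.cont_R
  exact continuous_const.add ((Real.continuous_arctan.comp (((hR.comp continuous_fst).mul
    (Real.continuous_sin.comp (continuous_const.mul
      (continuous_snd.sub continuous_const)))).div_const _)).div_const _)

variable {D}

theorem mul_T (hκ : D.κ ≠ 0) (x : ℝ × ℝ) : D.κ * (T D x - D.θf) = Real.arctan (sl D x) := by
  unfold T; rw [add_sub_cancel_left]; field_simp

theorem T_floor (hκ : D.κ ≠ 0) {θ : ℝ} (h : θ ∈ Icc (0:ℝ) (Real.pi / 2)) :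
    T D (D.β θ, θ) = θ := by
  have h1 := D.floor θ h
  have hc := D.cos_foot_pos h
  have hρ := D.ρf_pos
  have e : sl D (D.β θ, θ) = Real.tan (D.κ * (θ - D.θf)) := by
    unfold sl
    simp only
    rw [Real.tan_eq_sin_div_cos, div_eq_div_iff hρ.ne' hc.ne', ← h1]; ring
  have hb := abs_lt.1 (D.abs_κ_mul_sub_θf h)
  unfold T
  rw [e, Real.arctan_tan (by linarith [hb.1]) hb.2]
  field_simp
  ring

/-- `T` stays in the quarter -/
theorem T_mem (hκ : D.κ ≠ 0) {x : ℝ × ℝ} (hx : x ∈ D.rect) (h : D.β x.2 < x.1) :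
    T D x ∈ Icc (0:ℝ) (Real.pi / 2) := by
  have hθ := hx.2
  have hρ := D.ρf_pos
  have hβ := D.β_mem' hθ
  have hxI : x.1 ∈ Icc D.pf D.ℓ := ⟨hβ.1.trans h.le, hx.1.2.trans D.top_mem.2⟩
  have hI : ∀ {y}, y ∈ Icc D.pf D.ℓ → y ∈ Icc 0 D.ℓ := fun hy => ⟨D.pf_pos.le.trans hy.1, hy.2⟩
  have hmono := D.σ_strictMonoOn'
  have hσ : D.σ (D.β x.2) < D.σ x.1 := hmono (hI hβ) (hI hxI) h
  have hRx := D.R_flat hxI
  have hRβ := D.R_flat hβ
  have hRx0 : 0 < D.R x.1 := D.posR _ ⟨D.pf_pos.trans_le hxI.1, hxI.2⟩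
  have hfl := T_floor hκ hθ
  have hb := abs_lt.1 (D.abs_κ_mul_sub_θf hθ)
  rcases lt_or_gt_of_ne hκ with hκ' | hκ'
  · -- `T` lies between `θf` and `θ`
    have hRlt : D.R x.1 ≤ D.R (D.β x.2) := by rw [hRx, hRβ]; nlinarith
    have hf := D.θf_mem
    rcases le_total (x.2) D.θf with h1 | h1
    · have hs : 0 ≤ Real.sin (D.κ * (x.2 - D.θf)) :=
        Real.sin_nonneg_of_nonneg_of_le_pi (by nlinarith) (by linarith [hb.2, Real.pi_pos])
      have e1 : 0 ≤ sl D x := by unfold sl; positivity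
      have e2 : sl D x ≤ sl D (D.β x.2, x.2) := by
        unfold sl
        exact div_le_div_of_nonneg_right (mul_le_mul_of_nonneg_right hRlt hs) hρ.le
      have e3 : 0 ≤ Real.arctan (sl D x) := Real.arctan_nonneg.2 e1
      have e4 : Real.arctan (sl D x) ≤ Real.arctan (sl D (D.β x.2, x.2)) :=
        Real.arctan_strictMono.monotone e2
      have e5 : Real.arctan (sl D x) / D.κ ≤ 0 := div_nonpos_of_nonneg_of_nonpos e3 hκ'.le
      have e6 : Real.arctan (sl D (D.β x.2, x.2)) / D.κ ≤ Real.arctan (sl D x) / D.κ :=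
        (div_le_div_right_of_neg hκ').2 e4
      unfold T at hfl ⊢
      exact ⟨by linarith [hθ.1], by linarith [hf.2]⟩
    · have hs : Real.sin (D.κ * (x.2 - D.θf)) ≤ 0 :=
        Real.sin_nonpos_of_nonpos_of_neg_pi_le (by nlinarith) (by linarith [hb.1, Real.pi_pos])
      have e1 : sl D x ≤ 0 := by
        unfold sl
        exact div_nonpos_of_nonpos_of_nonneg (mul_nonpos_of_nonneg_of_nonpos hRx0.le hs) hρ.le
      have e2 : sl D (D.β x.2, x.2) ≤ sl D x := by
        unfold sl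
        exact div_le_div_of_nonneg_right (mul_le_mul_of_nonpos_right hRlt hs) hρ.le
      have e3 : Real.arctan (sl D x) ≤ 0 := by
        have := Real.arctan_strictMono.monotone e1
        rwa [Real.arctan_zero] at this
      have e4 : Real.arctan (sl D (D.β x.2, x.2)) ≤ Real.arctan (sl D x) :=
        Real.arctan_strictMono.monotone e2
      have e5 : 0 ≤ Real.arctan (sl D x) / D.κ := div_nonneg_of_nonpos e3 hκ'.le
      have e6 : Real.arctan (sl D x) / D.κ ≤ Real.arctan (sl D (D.β x.2, x.2)) / D.κ :=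
        (div_le_div_right_of_neg hκ').2 e4
      unfold T at hfl ⊢
      exact ⟨by linarith [hf.1], by linarith [hθ.2]⟩
  · -- `θf = π/2`
    rcases D.cls with ⟨h0, _⟩ | ⟨h0, h1, h2⟩
    · exact absurd h0 (not_lt.2 hκ'.le)
    have htop : D.top = D.β 0 := by unfold top; rw [if_neg (not_lt.2 hκ'.le)]
    have hβ0 := D.β_mem' zero_mem
    have hb0 := abs_lt.1 (D.abs_κ_mul_sub_θf zero_mem)
    have hle : D.R x.1 ≤ D.R (D.β 0) := by
      rw [hRx, D.R_flat hβ0]
      have : D.σ x.1 ≤ D.σ (D.β 0) :=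
        hmono.monotoneOn (hI hxI) (hI hβ0) (by rw [← htop]; exact hx.1.2)
      nlinarith
    have ha : D.κ * (x.2 - D.θf) ≤ 0 :=
      mul_nonpos_of_nonneg_of_nonpos hκ'.le (by rw [h2]; linarith [hθ.2])
    have ha0 : D.κ * (0 - D.θf) ≤ D.κ * (x.2 - D.θf) :=
      mul_le_mul_of_nonneg_left (by linarith [hθ.1]) hκ'.le
    have hs : Real.sin (D.κ * (x.2 - D.θf)) ≤ 0 :=
      Real.sin_nonpos_of_nonpos_of_neg_pi_le ha (by linarith [hb.1, Real.pi_pos])
    have hs0 : Real.sin (D.κ * (0 - D.θf)) ≤ Real.sin (D.κ * (x.2 - D.θf)) :=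
      Real.sin_le_sin_of_le_of_le_pi_div_two (by linarith [hb0.1]) (by linarith [hb.2]) ha0
    have hR0 : 0 ≤ D.R (D.β 0) := hRx0.le.trans hle
    have e1 : sl D x ≤ 0 := by
      unfold sl
      exact div_nonpos_of_nonpos_of_nonneg (mul_nonpos_of_nonneg_of_nonpos hRx0.le hs) hρ.le
    have e2 : sl D (D.β 0, 0) ≤ sl D x := by
      unfold sl
      refine div_le_div_of_nonneg_right ?_ hρ.le
      exact (mul_le_mul_of_nonneg_left hs0 hR0).trans (mul_le_mul_of_nonpos_right hle hs)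
    have e3 : Real.arctan (sl D x) ≤ 0 := by
        have := Real.arctan_strictMono.monotone e1
        rwa [Real.arctan_zero] at this
    have e4 : Real.arctan (sl D (D.β 0, 0)) ≤ Real.arctan (sl D x) :=
      Real.arctan_strictMono.monotone e2
    have e5 : Real.arctan (sl D x) / D.κ ≤ 0 := div_nonpos_of_nonpos_of_nonneg e3 hκ'.le
    have e6 : Real.arctan (sl D (D.β 0, 0)) / D.κ ≤ Real.arctan (sl D x) / D.κ :=
      div_le_div_of_nonneg_right e4 hκ'.le
    have hfl0 := T_floor hκ zero_mem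
    unfold T at hfl0 ⊢
    exact ⟨by linarith, by linarith⟩

/-- the projection to `Re ≤ 0` -/
noncomputable def cutC (z : ℂ) : ℂ := ⟨min z.re 0, z.im⟩

theorem norm_cutC_sub (z w : ℂ) : ‖cutC z - cutC w‖ ≤ ‖z - w‖ := by
  rw [Complex.norm_def, Complex.norm_def]
  apply Real.sqrt_le_sqrt
  rw [Complex.normSq_apply, Complex.normSq_apply]
  simp only [Complex.sub_re, Complex.sub_im, cutC]
  have h1 : |min z.re 0 - min w.re 0| ≤ |z.re - w.re| := by
    have := abs_min_sub_min_le_max z.re 0 w.re 0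
    simpa using this
  have h2 := sq_le_sq.2 h1
  nlinarith

theorem re_Z {x : ℝ × ℝ} (hθ : x.2 ∈ Icc (0:ℝ) (Real.pi / 2)) : (D.Z D.θf x.1 x.2).re =
    (D.σ x.1 - D.σ (D.β x.2)) * Real.cos (D.κ * (x.2 - D.θf)) := by
  have hf := D.σ_floor hθ
  rw [Z_re]; linear_combination hf

variable (D)

/-- the retraction, in coordinates -/
noncomputable def gc (x : ℝ × ℝ) : ℝ × ℝ :=
  if x.1 ≤ D.β x.2 then x else (D.βh (T D x), T D x)

variable {D}

theorem βh_eq {θ : ℝ} (h : θ ∈ Icc (0:ℝ) (Real.pi / 2)) : D.βh θ = D.β θ := by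
  unfold βh; rw [fold_of_mem h]

theorem gc_mem (hκ : D.κ ≠ 0) {x : ℝ × ℝ} (hx : x ∈ D.rect) : gc D x ∈ D.rect ∧
    (gc D x).1 ≤ D.β (gc D x).2 := by
  unfold gc
  split_ifs with h
  · exact ⟨hx, h⟩
  · have hT := T_mem hκ hx (not_le.1 h)
    simp only
    rw [βh_eq hT]
    exact ⟨⟨⟨D.pf_pos.le.trans (D.β_mem' hT).1, D.β_le_top hT⟩, hT⟩, le_rfl⟩

theorem Z_gc (hκ : D.κ ≠ 0) {x : ℝ × ℝ} (hx : x ∈ D.rect) :
    D.Z D.θf (gc D x).1 (gc D x).2 = cutC (D.Z D.θf x.1 x.2) := by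
  have hθ := hx.2
  have hc := D.cos_foot_pos hθ
  have hβ := D.β_mem' hθ
  have hmono := D.σ_strictMonoOn'
  have hxI : x.1 ∈ Icc 0 D.ℓ := ⟨hx.1.1, hx.1.2.trans D.top_mem.2⟩
  have hI : ∀ {y}, y ∈ Icc D.pf D.ℓ → y ∈ Icc 0 D.ℓ := fun hy => ⟨D.pf_pos.le.trans hy.1, hy.2⟩
  unfold gc
  split_ifs with h
  · have h1 : D.σ x.1 ≤ D.σ (D.β x.2) := hmono.monotoneOn hxI (hI hβ) h
    have h2 : (D.Z D.θf x.1 x.2).re ≤ 0 := by
      rw [re_Z hθ]; exact mul_nonpos_of_nonpos_of_nonneg (by linarith) hc.le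
    apply Complex.ext
    · simp only [cutC]; rw [min_eq_left h2]
    · simp only [cutC]
  · have h' := not_le.1 h
    have hT := T_mem hκ hx h'
    have h1 : D.σ (D.β x.2) < D.σ x.1 := hmono (hI hβ) hxI h'
    have h2 : 0 ≤ (D.Z D.θf x.1 x.2).re := by
      rw [re_Z hθ]; exact mul_nonneg (by linarith) hc.le
    simp only
    rw [βh_eq hT]
    apply Complex.ext
    · simp only [cutC]; rw [min_eq_right h2, D.Z_re_floor hT]
    · simp only [cutC]
      rw [Z_im, Z_im, ← D.R_flat (D.β_mem' hT), ← D.R_flat ⟨hβ.1.trans h'.le, hxI.2⟩]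
      have e1 := mul_snk D.κ (T D x - D.θf)
      have e2 := mul_snk D.κ (x.2 - D.θf)
      have e3 := mul_T hκ x
      have e4 := D.floor _ hT
      rw [e3] at e1 e4
      have e5 : Real.sin (Real.arctan (sl D x)) = sl D x * Real.cos (Real.arctan (sl D x)) := by
        have h5 := Real.tan_arctan (sl D x)
        rw [Real.tan_eq_sin_div_cos, div_eq_iff (Real.cos_arctan_pos _).ne'] at h5
        exact h5
      have e6 : sl D x * D.ρf = D.R x.1 * Real.sin (D.κ * (x.2 - D.θf)) := by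
        unfold sl; rw [div_mul_cancel₀ _ D.ρf_pos.ne']
      have : D.κ * (D.R (D.β (T D x)) * snk D.κ (T D x - D.θf)) =
          D.κ * (D.R x.1 * snk D.κ (x.2 - D.θf)) := by
        calc D.κ * (D.R (D.β (T D x)) * snk D.κ (T D x - D.θf))
            = D.R (D.β (T D x)) * (D.κ * snk D.κ (T D x - D.θf)) := by ring
          _ = sl D x * (D.R (D.β (T D x)) * Real.cos (Real.arctan (sl D x))) := by
            rw [e1, e5]; ring
          _ = D.R x.1 * (D.κ * snk D.κ (x.2 - D.θf)) := by rw [e4, e6, e2]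
          _ = D.κ * (D.R x.1 * snk D.κ (x.2 - D.θf)) := by ring
      exact mul_left_cancel₀ hκ this

/-- the retraction is continuous at the points on or beyond the floor -/
theorem gc_cont (hκ : D.κ ≠ 0) {q : ℝ × ℝ} (hq : q ∈ D.rect) (hqβ : D.β q.2 ≤ q.1) {η : ℝ}
    (hη : 0 < η) : ∃ δ > 0, ∀ x ∈ D.rect, dist x q < δ → dist (gc D x) (gc D q) < η := by
  have hcont : Continuous (fun x : ℝ × ℝ => (D.βh (T D x), T D x)) :=
    (D.continuous_βh.comp (continuous_T D)).prodMk (continuous_T D)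
  obtain ⟨δ1, hδ1, H1⟩ := Metric.continuous_iff.1 hcont q η hη
  rcases eq_or_lt_of_le hqβ with h0 | h0
  · have hgq : gc D q = q := by unfold gc; rw [if_pos h0.ge]
    have hTq : T D q = q.2 := by
      have := T_floor hκ hq.2
      rw [h0] at this
      exact this
    have hhq : (D.βh (T D q), T D q) = q := by
      rw [hTq, βh_eq hq.2, h0]
    refine ⟨min δ1 η, lt_min hδ1 hη, fun x hx hxq => ?_⟩
    rw [hgq]
    unfold gc
    split_ifs with h
    · exact lt_of_lt_of_le hxq (min_le_right _ _)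
    · have := H1 x (lt_of_lt_of_le hxq (min_le_left _ _))
      simp only [hhq] at this
      exact this
  · have hgq : gc D q = (D.βh (T D q), T D q) := by unfold gc; rw [if_neg (not_le.2 h0)]
    have hopen : IsOpen {x : ℝ × ℝ | D.βh x.2 < x.1} :=
      isOpen_lt (D.continuous_βh.comp continuous_snd) continuous_fst
    obtain ⟨δ2, hδ2, H2⟩ := Metric.isOpen_iff.1 hopen q
      (by change D.βh q.2 < q.1; rw [βh_eq hq.2]; exact h0)
    refine ⟨min δ1 δ2, lt_min hδ1 hδ2, fun x hx hxq => ?_⟩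
    have h1 : D.βh x.2 < x.1 := H2 (lt_of_lt_of_le hxq (min_le_right _ _))
    rw [βh_eq hx.2] at h1
    rw [hgq]
    unfold gc
    rw [if_neg (not_le.2 h1)]
    exact H1 x (lt_of_lt_of_le hxq (min_le_left _ _))

variable (D)

/-- the retraction -/
noncomputable def g (hκ : D.κ ≠ 0) (x : D.RPt) : D.RPt := ⟨gc D x.val, (gc_mem hκ x.mem).1⟩

variable {D}

theorem g_lip (hκ : D.κ ≠ 0) (x y : D.RPt) : dist (g D hκ x) (g D hκ y) ≤ 1 * dist x y := by
  refine Pt.map_le (g D hκ) zero_le_one ?_ x y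
  intro q ε hε
  have hqm : q.val ∈ D.rect := q.mem
  rcases lt_or_ge q.val.1 (D.β q.val.2) with h0 | h0
  · -- interior: identity
    have hopen : IsOpen {x : ℝ × ℝ | x.1 < D.βh x.2} :=
      isOpen_lt continuous_fst (D.continuous_βh.comp continuous_snd)
    obtain ⟨δ2, hδ2, H2⟩ := Metric.isOpen_iff.1 hopen q.val
      (by change q.val.1 < D.βh q.val.2; rw [βh_eq hqm.2]; exact h0)
    obtain ⟨δ1, hδ1, H1⟩ := Pt.dist_upper q hε
    have hid : ∀ x : D.RPt, dist x.val q.val < δ2 → g D hκ x = x := by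
      intro x hx
      have hxm : x.val ∈ D.rect := x.mem
      have h1 : x.val.1 < D.βh x.val.2 := H2 hx
      rw [βh_eq hxm.2] at h1
      apply Pt.ext'
      change gc D x.val = x.val
      unfold gc
      rw [if_pos h1.le]
    refine ⟨min δ1 δ2, lt_min hδ1 hδ2, fun x y hx hy => ?_⟩
    rw [hid x (lt_of_lt_of_le hx (min_le_right _ _)), hid y (lt_of_lt_of_le hy (min_le_right _ _)),
      one_mul]
    exact H1 x y (lt_of_lt_of_le hx (min_le_left _ _)) (lt_of_lt_of_le hy (min_le_left _ _))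
  · -- on or beyond the floor
    obtain ⟨C, hC0, hC⟩ := D.nf.bdd
    set q' := g D hκ q with hq'
    have hgq : q'.val = gc D q.val := rfl
    have hqI : q.val.1 ∈ Icc D.pf D.ℓ :=
      ⟨(D.β_mem' hqm.2).1.trans h0, hqm.1.2.trans D.top_mem.2⟩
    have hq'I : q'.val.1 ∈ Icc D.pf D.ℓ := by
      rw [hgq]
      unfold gc
      split_ifs with h
      · exact hqI
      · have hT := T_mem hκ hqm (not_le.1 h)
        simp only
        rw [βh_eq hT]
        exact D.β_mem' hT
    obtain ⟨c, hc, δ0, hδ0, Hc⟩ := D.nms_ge (q := q'.val.1) ⟨D.pf_pos.trans_le hq'I.1, hq'I.2⟩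
    have Hc' : ∀ u : ℝ × ℝ, c * ‖u‖ ≤ D.nms q'.val.1 u := fun u => Hc _ (by simpa using hδ0) u
    set M := C + ε / 2 with hM
    have hM0 : 0 < M := by positivity
    set η := min (c / 2) (ε * c / (8 * M)) with hη
    have hη0 : 0 < η := by positivity
    have hη1 : η ≤ c / 2 := min_le_left _ _
    have hη2 : η ≤ ε * c / (8 * M) := min_le_right _ _
    obtain ⟨δ1, hδ1, H1⟩ := inf_ZZ D.hasDerivAt_σ D.cont_A D.κ D.ρf D.θf q.val (half_pos hε)
    obtain ⟨δ2, hδ2, H2⟩ := inf_ZZ D.hasDerivAt_σ D.cont_A D.κ D.ρf D.θf q'.val hη0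
    obtain ⟨δ3, hδ3, H3⟩ := Pt.dist_upper q' hη0
    obtain ⟨δ4, hδ4, H4⟩ := gc_cont hκ hqm h0 (lt_min hδ2 hδ3)
    refine ⟨min δ1 δ4, lt_min hδ1 hδ4, fun x y hx hy => ?_⟩
    have a1 := H1 x.val y.val (lt_of_lt_of_le hx (min_le_left _ _))
      (lt_of_lt_of_le hy (min_le_left _ _))
    have hgx := H4 x.val x.mem (lt_of_lt_of_le hx (min_le_right _ _))
    have hgy := H4 y.val y.mem (lt_of_lt_of_le hy (min_le_right _ _))
    have a2 := H2 (gc D x.val) (gc D y.val) (lt_of_lt_of_le hgx (min_le_left _ _))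
      (lt_of_lt_of_le hgy (min_le_left _ _))
    have a3 := H3 (g D hκ x) (g D hκ y) (lt_of_lt_of_le hgx (min_le_right _ _))
      (lt_of_lt_of_le hgy (min_le_right _ _))
    rw [← D.R_flat hqI] at a1
    rw [← D.R_flat hq'I] at a2
    have b1 : ‖D.Z D.θf x.val.1 x.val.2 - D.Z D.θf y.val.1 y.val.2‖ ≤
        D.nf.N q.val (x.val - y.val) + ε / 2 * ‖x.val - y.val‖ := by
      have := (abs_le.1 a1).2
      have e : D.nf.N q.val (x.val - y.val) =
        ‖diagC (D.A q.val.1) (D.R q.val.1) (x.val - y.val)‖ := rfl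
      rw [Z_eq_ZZ, Z_eq_ZZ, e]; linarith
    have b2 : ‖D.Z D.θf (gc D x.val).1 (gc D x.val).2 - D.Z D.θf (gc D y.val).1 (gc D y.val).2‖ ≤
        ‖D.Z D.θf x.val.1 x.val.2 - D.Z D.θf y.val.1 y.val.2‖ := by
      rw [Z_gc hκ x.mem, Z_gc hκ y.mem]; exact norm_cutC_sub _ _
    have b3 : D.nf.N q'.val (gc D x.val - gc D y.val) ≤
        ‖D.Z D.θf (gc D x.val).1 (gc D x.val).2 - D.Z D.θf (gc D y.val).1 (gc D y.val).2‖ +
          η * ‖gc D x.val - gc D y.val‖ := by
      have := (abs_le.1 a2).1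
      have e : D.nf.N q'.val (gc D x.val - gc D y.val) =
        ‖diagC (D.A q'.val.1) (D.R q'.val.1) (gc D x.val - gc D y.val)‖ := rfl
      rw [Z_eq_ZZ, Z_eq_ZZ, e]; linarith
    have b4 : c * ‖gc D x.val - gc D y.val‖ ≤ D.nf.N q'.val (gc D x.val - gc D y.val) := Hc' _
    have b5 : D.nf.N q.val (x.val - y.val) ≤ C * ‖x.val - y.val‖ := hC _ q.mem _
    have b6 : dist (g D hκ x) (g D hκ y) ≤ D.nf.N q'.val (gc D x.val - gc D y.val) +
        η * ‖gc D x.val - gc D y.val‖ := a3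
    set w := ‖gc D x.val - gc D y.val‖
    set z := ‖D.Z D.θf (gc D x.val).1 (gc D x.val).2 - D.Z D.θf (gc D y.val).1 (gc D y.val).2‖
    set zz := ‖D.Z D.θf x.val.1 x.val.2 - D.Z D.θf y.val.1 y.val.2‖
    set v := ‖x.val - y.val‖
    set n := D.nf.N q.val (x.val - y.val)
    set n' := D.nf.N q'.val (gc D x.val - gc D y.val)
    have hw0 : 0 ≤ w := norm_nonneg _
    have hv0 : 0 ≤ v := norm_nonneg _
    have hz0 : 0 ≤ z := norm_nonneg _
    -- w ≤ 2 z / c
    have c1 : c * w ≤ 2 * z := by nlinarith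
    have c2 : z ≤ M * v := by rw [hM]; linarith
    -- 2 η w ≤ (ε/2) v
    have c3 : 2 * η * w ≤ ε / 2 * v := by
      have d1 : η * (8 * M) ≤ ε * c := by rwa [le_div_iff₀ (by positivity)] at hη2
      have d2 : 2 * η * w * c ≤ ε / 2 * v * c := by
        calc 2 * η * w * c = 2 * η * (c * w) := by ring
          _ ≤ 2 * η * (2 * (M * v)) := by
            apply mul_le_mul_of_nonneg_left _ (by positivity)
            linarith
          _ = η * (8 * M) * (v / 2) := by ring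
          _ ≤ ε * c * (v / 2) := mul_le_mul_of_nonneg_right d1 (by positivity)
          _ = ε / 2 * v * c := by ring
      exact le_of_mul_le_mul_right d2 hc
    linarith

end Ret
end QD

open QD QD.Ret in
/-- **Block RET** -/
theorem blk_RET : StmtBet := by
  intro D x y a ha ha'
  by_cases hκ : D.κ = 0
  · -- nothing lies beyond the floor
    obtain ⟨z, h1, h2⟩ := Pt.hasBet (D := D.nf) x.1 y.1 a ha ha'
    have hz : z.val.1 ≤ D.β z.val.2 := by
      have hzm : z.val ∈ D.rect := z.mem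
      rw [D.β_const hκ _ hzm.2]
      refine hzm.1.2.trans (le_of_eq ?_)
      unfold QD.top
      rw [hκ, if_neg (lt_irrefl _), D.β_const hκ 0 zero_mem]
    exact ⟨⟨z, hz⟩, h1, h2⟩
  · obtain ⟨z, h1, h2⟩ := Pt.hasBet (D := D.nf) x.1 y.1 a ha ha'
    have hfix : ∀ x : D.EPt, g D hκ x.1 = x.1 := by
      intro x
      apply Pt.ext'
      change gc D x.1.val = x.1.val
      unfold gc
      rw [if_pos x.2]
    have e1 := g_lip hκ x.1 z
    have e2 := g_lip hκ z y.1
    rw [hfix, one_mul, h1] at e1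
    rw [hfix, one_mul, h2] at e2
    have e3 := dist_triangle x.1 (g D hκ z) y.1
    have e4 : dist x y = dist x.1 y.1 := rfl
    refine ⟨⟨g D hκ z, (gc_mem hκ z.mem).2⟩, ?_, ?_⟩
    · change dist x.1 (g D hκ z) = a
      linarith
    · change dist (g D hκ z) y.1 = dist x.1 y.1 - a
      linarith

end Pool.MP8e
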