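import Pool.Agent.Work.MP_8e9dbb.A.Calls

/-!
# Part A, block SMOOTH: all points except the four special ones are smooth points
-/

open MeasureTheory Filter Topology Metric Set
open scoped ContDiff

set_option autoImplicit false

namespace Pool.MP8e

namespace SmoothAux

/-- coordinates -/
noncomputable def toE (q : ℝ × ℝ) : E2 := !₂[q.1, q.2]

/-- the inverse -/
noncomputable def ofE (z : E2) : ℝ × ℝ := (z 0, z 1)

theorem ofE_toE (q : ℝ × ℝ) : ofE (toE q) = q := by simp [ofE, toE]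

theorem toE_ofE (z : E2) : toE (ofE z) = z := by
  ext i
  fin_cases i <;> simp [ofE, toE]

theorem continuous_ofE : Continuous ofE := by
  unfold ofE
  fun_prop

theorem continuous_toE : Continuous toE := by
  have h : Continuous fun q : ℝ × ℝ => (![q.1, q.2] : Fin 2 → ℝ) := by
    refine continuous_pi fun i => ?_
    fin_cases i
    · exact continuous_fst
    · exact continuous_snd
  exact (PiLp.continuous_toLp 2 (fun _ : Fin 2 => ℝ)).comp h

theorem image_toE (B : Set (ℝ × ℝ)) : toE '' B = ofE ⁻¹' B := by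
  ext z
  constructor
  · rintro ⟨q, hq, rfl⟩
    rw [mem_preimage, ofE_toE]
    exact hq
  · intro hz
    exact ⟨ofE z, hz, toE_ofE z⟩

theorem continuous_fold : Continuous fold := by
  unfold fold
  exact Real.continuous_arccos.comp (continuous_abs.comp Real.continuous_cos)

theorem fold_mem (θ : ℝ) : fold θ ∈ Icc 0 (Real.pi / 2) := by
  refine ⟨Real.arccos_nonneg _, ?_⟩
  exact Real.arccos_le_pi_div_two.2 (abs_nonneg _)

variable (D : QD)

theorem pf_pos : 0 < D.pf := D.e₀_pos.trans D.e₀_lt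

theorem cos_ne (θ : ℝ) : Real.cos (D.κ * (fold θ - D.θf)) ≠ 0 := by
  intro h
  have h1 := D.floor (fold θ) (fold_mem θ)
  rw [h, mul_zero] at h1
  exact absurd h1 D.ρf_pos.ne

theorem R_eq (θ : ℝ) : D.R (D.βh θ) = D.ρf / Real.cos (D.κ * (fold θ - D.θf)) := by
  rw [eq_div_iff (cos_ne D θ)]
  exact D.floor (fold θ) (fold_mem θ)

theorem lsc {θ p : ℝ} (h : p < D.βh θ) : ∀ᶠ θ' in 𝓝 θ, p < D.βh θ' := by
  by_cases hp : p ≤ D.pf
  · exact Eventually.of_forall fun θ' => lt_of_le_of_lt hp (D.β_mem _ (fold_mem θ')).1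
  push Not at hp
  have hpI : p ∈ Icc D.pf D.ℓ := ⟨hp.le, h.le.trans (D.β_mem _ (fold_mem θ)).2⟩
  have hβI : ∀ θ', D.βh θ' ∈ Icc D.pf D.ℓ := fun θ' =>
    ⟨(D.β_mem _ (fold_mem θ')).1.le, (D.β_mem _ (fold_mem θ')).2⟩
  have hg : Tendsto (fun θ' => D.ρf / Real.cos (D.κ * (fold θ' - D.θf))) (𝓝 θ)
      (𝓝 (D.ρf / Real.cos (D.κ * (fold θ - D.θf)))) := by
    refine Tendsto.div tendsto_const_nhds ?_ (cos_ne D θ)
    have hc : Continuous fun θ' => Real.cos (D.κ * (fold θ' - D.θf)) :=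
      Real.continuous_cos.comp (continuous_const.mul (continuous_fold.sub continuous_const))
    exact hc.tendsto θ
  have hcont : ContinuousOn D.R (Icc D.pf D.ℓ) := D.smR.continuous.continuousOn
  have hA : ∀ x ∈ interior (Icc D.pf D.ℓ), 0 < D.A x ∧ deriv D.R x = D.κ * D.A x := by
    intro x hx
    have hx' := interior_subset hx
    exact ⟨D.posA x ⟨(pf_pos D).le.trans hx'.1, hx'.2⟩, D.flat x hx'⟩
  rcases lt_trichotomy D.κ 0 with hκ | hκ | hκ
  · have hm : StrictAntiOn D.R (Icc D.pf D.ℓ) := by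
      refine strictAntiOn_of_deriv_neg (convex_Icc _ _) hcont fun x hx => ?_
      rw [(hA x hx).2]
      exact mul_neg_of_neg_of_pos hκ (hA x hx).1
    have h1 : D.ρf / Real.cos (D.κ * (fold θ - D.θf)) < D.R p := by
      rw [← R_eq D θ]
      exact hm hpI (hβI θ) h
    filter_upwards [hg.eventually (gt_mem_nhds h1)] with θ' hθ'
    rw [← R_eq D θ'] at hθ'
    exact (hm.lt_iff_gt (hβI θ') hpI).1 hθ'
  · refine Eventually.of_forall fun θ' => ?_
    have h1 := D.β_const hκ _ (fold_mem θ)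
    have h2 := D.β_const hκ _ (fold_mem θ')
    have h3 : D.βh θ' = D.βh θ := h2.trans h1.symm
    rw [h3]
    exact h
  · have hm : StrictMonoOn D.R (Icc D.pf D.ℓ) := by
      refine strictMonoOn_of_deriv_pos (convex_Icc _ _) hcont fun x hx => ?_
      rw [(hA x hx).2]
      exact mul_pos hκ (hA x hx).1
    have h1 : D.R p < D.ρf / Real.cos (D.κ * (fold θ - D.θf)) := by
      rw [← R_eq D θ]
      exact hm hpI (hβI θ) h
    filter_upwards [hg.eventually (lt_mem_nhds h1)] with θ' hθ'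
    rw [← R_eq D θ'] at hθ'
    exact (hm.lt_iff_lt hpI (hβI θ')).1 hθ'

theorem nbhd {q : ℝ × ℝ} (h0 : 0 < q.1) (h1 : q.1 < D.βh q.2) :
    ∃ δ > 0, ∀ q' ∈ ball q δ, 0 < q'.1 ∧ q'.1 < D.βh q'.2 := by
  obtain ⟨p1, h2, h3⟩ := exists_between h1
  have e1 : ∀ᶠ q' in 𝓝 q, 0 < q'.1 := (continuous_fst.tendsto q).eventually (lt_mem_nhds h0)
  have e2 : ∀ᶠ q' in 𝓝 q, q'.1 < p1 := (continuous_fst.tendsto q).eventually (gt_mem_nhds h2)
  have e3 : ∀ᶠ q' in 𝓝 q, p1 < D.βh q'.2 := (continuous_snd.tendsto q).eventually (lsc D h3)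
  obtain ⟨δ, hδ, h⟩ := Metric.eventually_nhds_iff_ball.1 (e1.and (e2.and e3))
  exact ⟨δ, hδ, fun q' hq' => ⟨(h q' hq').1, (h q' hq').2.1.trans (h q' hq').2.2⟩⟩

/-- lower bound of the norm -/
theorem nm_ge {p m : ℝ} (u : ℝ × ℝ) (h1 : 0 ≤ m) (hA : m ≤ D.A p) (hR : m ≤ D.R p) :
    m * ‖u‖ ≤ D.nm p u := by
  have e1 : m * |u.1| ≤ D.nm p u := by
    refine Real.le_sqrt_of_sq_le ?_
    have : (m * |u.1|) ^ 2 ≤ (D.A p * u.1) ^ 2 := by
      rw [mul_pow, mul_pow, sq_abs]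
      exact mul_le_mul_of_nonneg_right (pow_le_pow_left₀ h1 hA 2) (sq_nonneg _)
    nlinarith [sq_nonneg (D.R p * u.2)]
  have e2 : m * |u.2| ≤ D.nm p u := by
    refine Real.le_sqrt_of_sq_le ?_
    have : (m * |u.2|) ^ 2 ≤ (D.R p * u.2) ^ 2 := by
      rw [mul_pow, mul_pow, sq_abs]
      exact mul_le_mul_of_nonneg_right (pow_le_pow_left₀ h1 hR 2) (sq_nonneg _)
    nlinarith [sq_nonneg (D.A p * u.1)]
  rw [Prod.norm_def, Real.norm_eq_abs, Real.norm_eq_abs, mul_max_of_nonneg _ _ h1]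
  exact max_le e1 e2

/-- the matrix of the metric -/
noncomputable def GG (z : E2) : Matrix (Fin 2) (Fin 2) ℝ :=
  Matrix.diagonal ![D.A (z 0) ^ 2, D.R (z 0) ^ 2]

theorem gnorm_GG (a x y : ℝ × ℝ) : gnorm (GG D (toE a)) (toE x - toE y) = D.nm a.1 (x - y) := by
  unfold gnorm QD.nm
  congr 1
  simp [GG, toE, Fin.sum_univ_two, Matrix.diagonal]
  ring

theorem disc {X : Type} [MetricSpace X] {Pr : ℝ × ℝ → X} (hF : Facts D X Pr) (q0 : ℝ × ℝ)
    (h0 : 0 < q0.1) (h1 : q0.1 < D.βh q0.2) : IsSmoothPoint (Pr q0) := by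
  obtain ⟨δ1, hδ1, hΩ⟩ := nbhd D h0 h1
  set δ0 : ℝ := min δ1 3 with hδ0
  have hδ0p : 0 < δ0 := lt_min hδ1 (by norm_num)
  set B : Set (ℝ × ℝ) := ball q0 δ0 with hB
  have hBΩ : ∀ a ∈ B, 0 < a.1 ∧ a.1 < D.βh a.2 := fun a ha =>
    hΩ a (ball_subset_ball (min_le_left _ _) ha)
  have hBℓ : ∀ a ∈ B, a.1 ≤ D.ℓ := fun a ha =>
    (hBΩ a ha).2.le.trans (D.β_mem _ (fold_mem _)).2
  have hinj : InjOn Pr B := by
    intro a ha b hb hab
    obtain ⟨e1, n, e2⟩ := hF.inj a.1 a.2 b.1 b.2 (hBΩ a ha).1 (hBΩ a ha).2 (hBΩ b hb).1.le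
      (hBΩ b hb).2.le hab
    have e3 : dist a.2 q0.2 < 3 := lt_of_le_of_lt
      (le_max_right _ _) (lt_of_lt_of_le (mem_ball.1 ha) (min_le_right _ _))
    have e4 : dist b.2 q0.2 < 3 := lt_of_le_of_lt
      (le_max_right _ _) (lt_of_lt_of_le (mem_ball.1 hb) (min_le_right _ _))
    rw [Real.dist_eq, abs_lt] at e3 e4
    have e5 : |(n : ℝ)| < 1 := by
      rw [abs_lt]
      have e6 : (n : ℝ) * (2 * Real.pi) < 6 := by linarith
      have e7 : -6 < (n : ℝ) * (2 * Real.pi) := by linarith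
      have e8 := Real.pi_gt_three
      constructor
      · by_contra hcon
        push Not at hcon
        nlinarith
      · by_contra hcon
        push Not at hcon
        nlinarith
    have e6 : n = 0 := by
      have e7 : |n| < 1 := by exact_mod_cast e5
      exact Int.abs_lt_one_iff.1 e7
    rw [e6, Int.cast_zero, zero_mul, add_zero] at e2
    exact Prod.ext e1.symm e2.symm
  set ψ : X → ℝ × ℝ := Function.invFunOn Pr B with hψ
  have hψB : ∀ a ∈ B, ψ (Pr a) = a := fun a ha => hinj.leftInvOn_invFunOn ha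
  have hopn : ∀ a ∈ B, ∀ δ > 0, ∃ r > 0, ∀ x ∈ ball (Pr a) r, ∃ b ∈ B, dist b a < δ ∧ Pr b = x := by
    intro a ha δ hδ
    obtain ⟨δ', hδ', hsub⟩ := Metric.isOpen_iff.1 (isOpen_ball : IsOpen B) a ha
    obtain ⟨r, hr, h⟩ := hF.opn a (hBΩ a ha).1 (hBΩ a ha).2 (min δ δ') (lt_min hδ hδ')
    refine ⟨r, hr, fun x hx => ?_⟩
    obtain ⟨b, hb, rfl⟩ := h hx
    exact ⟨b, hsub (ball_subset_ball (min_le_right _ _) hb),
      lt_of_lt_of_le (mem_ball.1 hb) (min_le_left _ _), rfl⟩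
  refine ⟨Pr '' B, fun x => toE (ψ x), GG D, ?_, ⟨q0, mem_ball_self hδ0p, rfl⟩, ?_, ?_, ?_, ?_, ?_,
    ?_⟩
  · refine Metric.isOpen_iff.2 ?_
    rintro x ⟨a, ha, rfl⟩
    obtain ⟨r, hr, h⟩ := hopn a ha 1 one_pos
    refine ⟨r, hr, fun x hx => ?_⟩
    obtain ⟨b, hb, -, hbx⟩ := h x hx
    exact ⟨b, hb, hbx⟩
  · have e1 : (fun x => toE (ψ x)) '' (Pr '' B) = toE '' B := by
      rw [image_image]
      exact image_congr fun a ha => by rw [hψB a ha]
    rw [e1, image_toE]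
    exact isOpen_ball.preimage continuous_ofE
  · rintro x ⟨a, ha, rfl⟩ y ⟨b, hb, rfl⟩ hxy
    have e1 : toE a = toE b := by
      have := hxy
      simp only [hψB a ha, hψB b hb] at this
      exact this
    have e2 : a = b := by rw [← ofE_toE a, e1, ofE_toE]
    rw [e2]
  · rintro x ⟨a, ha, rfl⟩
    refine (continuous_toE.continuousAt.comp_continuousWithinAt ?_)
    rw [Metric.continuousWithinAt_iff]
    intro ε hε
    obtain ⟨r, hr, h⟩ := hopn a ha ε hε
    refine ⟨r, hr, fun {x} _ hxa => ?_⟩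
    obtain ⟨b, hb, hba, rfl⟩ := h x hxa
    rw [hψB b hb, hψB a ha]
    exact hba
  · intro i j
    have hz : ContDiff ℝ ∞ fun z : E2 => z 0 := by fun_prop
    have hA : ContDiff ℝ ∞ fun z : E2 => D.A (z 0) ^ 2 := (D.smA.comp hz).pow 2
    have hR : ContDiff ℝ ∞ fun z : E2 => D.R (z 0) ^ 2 := (D.smR.comp hz).pow 2
    fin_cases i <;> fin_cases j
    · exact hA.contDiffOn
    · exact contDiffOn_const
    · exact contDiffOn_const
    · exact hR.contDiffOn
  · rintro z ⟨x, ⟨a, ha, rfl⟩, rfl⟩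
    simp only [hψB a ha]
    rw [GG, Matrix.posDef_diagonal_iff]
    have e0 : (toE a) 0 = a.1 := by simp [toE]
    intro i
    have hA := D.posA a.1 ⟨(hBΩ a ha).1.le, hBℓ a ha⟩
    have hR := D.posR a.1 ⟨(hBΩ a ha).1, hBℓ a ha⟩
    rw [e0]
    fin_cases i
    · exact pow_pos hA 2
    · exact pow_pos hR 2
  · rintro q ⟨a, ha, rfl⟩ ε hε
    have hA := D.posA a.1 ⟨(hBΩ a ha).1.le, hBℓ a ha⟩
    have hR := D.posR a.1 ⟨(hBΩ a ha).1, hBℓ a ha⟩
    set m : ℝ := min (D.A a.1) (D.R a.1) with hm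
    have hm0 : 0 < m := lt_min hA hR
    obtain ⟨δ, hδ, hs⟩ := hF.strip a (hBΩ a ha).1 (hBΩ a ha).2 (min (m / 2) (ε * (m / 2)))
      (lt_min (by positivity) (by positivity))
    obtain ⟨r, hr, h⟩ := hopn a ha δ hδ
    refine ⟨r, hr, fun x _ y _ hxa hya => ?_⟩
    obtain ⟨b, hb, hba, rfl⟩ := h x hxa
    obtain ⟨c, hc, hca, rfl⟩ := h y hya
    simp only [hψB a ha, hψB b hb, hψB c hc]
    rw [gnorm_GG]
    have e1 := hs b c hba hca
    have e2 := nm_ge D (p := a.1) (b - c) hm0.le (min_le_left _ _) (min_le_right _ _)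
    have e3 : min (m / 2) (ε * (m / 2)) * ‖b - c‖ ≤ m / 2 * ‖b - c‖ :=
      mul_le_mul_of_nonneg_right (min_le_left _ _) (norm_nonneg _)
    have e4 : min (m / 2) (ε * (m / 2)) * ‖b - c‖ ≤ ε * (m / 2) * ‖b - c‖ :=
      mul_le_mul_of_nonneg_right (min_le_right _ _) (norm_nonneg _)
    have e5 : m / 2 * ‖b - c‖ ≤ dist (Pr b) (Pr c) := by
      have e6 := (abs_le.1 e1).1
      linarith
    have e7 := mul_le_mul_of_nonneg_left e5 hε.le
    linarith

/-- flat points -/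
theorem flat {X : Type} [MetricSpace X] {x : X} {r : ℝ} (hr : 0 < r) (ζ : X → ℂ)
    (h1 : ∀ y ∈ ball x r, ∀ z ∈ ball x r, dist y z = ‖ζ y - ζ z‖)
    (h2 : ∀ z : ℂ, ‖z - ζ x‖ < r → ∃ y ∈ ball x r, ζ y = z) : IsSmoothPoint x := by
  set ι : ℂ ≃ₗᵢ[ℝ] E2 := Complex.orthonormalBasisOneI.repr with hι
  have hx : x ∈ ball x r := mem_ball_self hr
  have hd : ∀ y ∈ ball x r, ∀ z ∈ ball x r, dist (ι (ζ y)) (ι (ζ z)) = dist y z := by
    intro y hy z hz
    rw [ι.dist_map, h1 y hy z hz, dist_eq_norm]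
  refine ⟨ball x r, fun y => ι (ζ y), fun _ => 1, isOpen_ball, hx, ?_, ?_, ?_, ?_, ?_, ?_⟩
  · have e1 : (fun y => ι (ζ y)) '' ball x r = ball (ι (ζ x)) r := by
      ext w
      constructor
      · rintro ⟨y, hy, rfl⟩
        rw [mem_ball, hd y hy x hx]
        exact hy
      · intro hw
        obtain ⟨y, hy, hyw⟩ := h2 (ι.symm w) (by
          rw [← dist_eq_norm, ← ι.dist_map, ι.apply_symm_apply]
          exact hw)
        exact ⟨y, hy, by simp only [hyw, ι.apply_symm_apply]⟩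
    rw [e1]
    exact isOpen_ball
  · intro y hy z hz hyz
    have e1 := hd y hy z hz
    have e2 : dist (ι (ζ y)) (ι (ζ z)) = 0 := dist_eq_zero.2 hyz
    rw [e2] at e1
    exact dist_eq_zero.1 e1.symm
  · intro y hy
    rw [Metric.continuousWithinAt_iff]
    intro ε hε
    exact ⟨ε, hε, fun {z} hz hzy => by rw [hd z hz y hy]; exact hzy⟩
  · intro i j
    exact contDiffOn_const
  · intro z _
    exact Matrix.PosDef.one
  · intro q _ ε hε
    refine ⟨1, one_pos, fun y hy z hz _ _ => ?_⟩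
    have e1 : gnorm (1 : Matrix (Fin 2) (Fin 2) ℝ) (ι (ζ y) - ι (ζ z)) = dist y z := by
      rw [← hd y hy z hz, dist_eq_norm, EuclideanSpace.norm_eq]
      unfold gnorm
      congr 1
      simp [Fin.sum_univ_two, Matrix.one_apply]
      ring
    rw [e1, sub_self, abs_zero]
    positivity

theorem fold_int (j : ℤ) : fold (j * Real.pi) = 0 := by
  unfold fold
  rw [Real.abs_cos_int_mul_pi, Real.arccos_one]

theorem fold_half (j : ℤ) : fold (j * Real.pi + Real.pi / 2) = Real.pi / 2 := by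
  unfold fold
  rw [Real.cos_add_pi_div_two, Real.sin_int_mul_pi, neg_zero, abs_zero, Real.arccos_zero]

theorem per_int {X : Type} [MetricSpace X] {Pr : ℝ × ℝ → X} (hF : Facts D X Pr) (p θ : ℝ)
    (n : ℤ) : Pr (p, θ + n * (2 * Real.pi)) = Pr (p, θ) := by
  have hnat : ∀ (k : ℕ) (θ : ℝ), Pr (p, θ + k * (2 * Real.pi)) = Pr (p, θ) := by
    intro k
    induction k with
    | zero => intro θ; rw [Nat.cast_zero, zero_mul, add_zero]
    | succ k ih =>
      intro θ
      have e : θ + ((k + 1 : ℕ) : ℝ) * (2 * Real.pi) = (θ + k * (2 * Real.pi)) + 2 * Real.pi := by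
        push_cast
        ring
      rw [e, hF.per, ih]
  obtain ⟨k, hk | hk⟩ := n.eq_nat_or_neg
  · rw [hk, Int.cast_natCast]
    exact hnat k θ
  · have h := hnat k (θ + n * (2 * Real.pi))
    have e : θ + n * (2 * Real.pi) + k * (2 * Real.pi) = θ := by
      rw [hk]
      push_cast
      ring
    rw [e] at h
    exact h.symm

end SmoothAux

open SmoothAux

theorem blk_SMOOTH : StmtSmooth := by
  intro D X _ Pr hF x hx
  obtain ⟨p, θ, hp0, hp1, rfl⟩ := hF.surj x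
  rcases hp0.eq_or_lt with hp | hp
  · exfalso
    apply hx
    rw [← hp, hF.pole θ]
    exact Or.inl rfl
  rcases hp1.lt_or_eq with hpβ | hpβ
  · exact disc D hF (p, θ) hp hpβ
  -- the floor
  have hfoot : ∀ c, D.IsFoot θ c → IsSmoothPoint (Pr (p, θ)) := by
    intro c hc
    obtain ⟨r, hr, ζ, h1, h2, -, h3⟩ := hF.floor θ c hc 1 one_pos
    rw [← hpβ] at h1 h2 h3
    refine flat hr ζ h2 fun z hz => ?_
    rw [h1] at hz
    exact h3 z hz
  set j : ℤ := ⌊θ / Real.pi⌋ with hj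
  have hπ := Real.pi_pos
  have hj1 : j * Real.pi ≤ θ := by
    have := Int.floor_le (θ / Real.pi)
    rw [le_div_iff₀ hπ] at this
    exact this
  have hj2 : θ < (j + 1) * Real.pi := by
    have := Int.lt_floor_add_one (θ / Real.pi)
    rw [div_lt_iff₀ hπ] at this
    exact this
  rcases hj1.eq_or_lt with hθ | hθ
  · exfalso
    apply hx
    have e1 : p = D.β 0 := by
      rw [hpβ, ← hθ, QD.βh, fold_int]
    rcases Int.even_or_odd' j with ⟨m, hm | hm⟩
    · have e2 : θ = 0 + m * (2 * Real.pi) := by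
        rw [← hθ, hm]; push_cast; ring
      rw [e1, e2, per_int D hF]
      exact Or.inr (Or.inl rfl)
    · have e2 : θ = Real.pi + m * (2 * Real.pi) := by
        rw [← hθ, hm]; push_cast; ring
      rw [e1, e2, per_int D hF]
      exact Or.inr (Or.inr (Or.inl rfl))
  rcases lt_trichotomy θ (j * Real.pi + Real.pi / 2) with hθ2 | hθ2 | hθ2
  · exact hfoot (D.θf + j * Real.pi) ⟨j, Or.inl ⟨rfl, hθ, hθ2⟩⟩
  · exfalso
    apply hx
    have e1 : p = D.β (Real.pi / 2) := by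
      rw [hpβ, hθ2, QD.βh, fold_half]
    have e0 : D.βh (Real.pi / 2) = D.β (Real.pi / 2) := by
      have := fold_half 0
      rw [Int.cast_zero, zero_mul, zero_add] at this
      rw [QD.βh, this]
    rcases Int.even_or_odd' j with ⟨m, hm | hm⟩
    · have e2 : θ = Real.pi / 2 + m * (2 * Real.pi) := by
        rw [hθ2, hm]; push_cast; ring
      rw [e1, e2, per_int D hF]
      exact Or.inr (Or.inr (Or.inr rfl))
    · have e2 : θ = -(Real.pi / 2) + (m + 1 : ℤ) * (2 * Real.pi) := by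
        rw [hθ2, hm]; push_cast; ring
      have e3 := hF.flr (Real.pi / 2)
      rw [e0] at e3
      rw [e1, e2, per_int D hF, e3]
      exact Or.inr (Or.inr (Or.inr rfl))
  · refine hfoot (-D.θf + (j + 1 : ℤ) * Real.pi) ⟨j + 1, Or.inr (Or.inl ⟨rfl, ?_, ?_⟩)⟩
    · push_cast
      linarith
    · push_cast
      exact hj2

end Pool.MP8e
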