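import Pool.Agent.Work.MP_8e9dbb.A.Calls

/-!
# MP_8e9dbb_gt, block SPH1 (helper64): the round sphere is a `ConeSphere` without singular points
-/

open MeasureTheory Filter Topology Metric Set InnerProductGeometry
open scoped ContDiff RealInnerProductSpace

namespace Pool.MP8e.Sph1

theorem norm_pt (x : S2) : ‖(x : E3)‖ = 1 := mem_sphere_zero_iff_norm.1 x.2

/-- angular distance -/
noncomputable def ang (x y : S2) : ℝ := angle (x : E3) (y : E3)

theorem ang_nonneg (x y : S2) : 0 ≤ ang x y := angle_nonneg _ _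

theorem ang_le_pi (x y : S2) : ang x y ≤ Real.pi := angle_le_pi _ _

theorem cos_ang (x y : S2) : Real.cos (ang x y) = ⟪(x : E3), (y : E3)⟫ := by
  unfold ang
  rw [cos_angle, norm_pt, norm_pt]
  simp

theorem ang_of_inner {x y : S2} {a : ℝ} (h0 : 0 ≤ a) (h1 : a ≤ Real.pi)
    (h : ⟪(x : E3), (y : E3)⟫ = Real.cos a) : ang x y = a := by
  have h2 := cos_ang x y
  rw [h] at h2
  exact Real.injOn_cos ⟨ang_nonneg x y, ang_le_pi x y⟩ ⟨h0, h1⟩ h2

theorem chord (x y : S2) : dist (x : E3) (y : E3) = 2 * Real.sin (ang x y / 2) := by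
  have h0 : 0 ≤ Real.sin (ang x y / 2) := by
    refine Real.sin_nonneg_of_nonneg_of_le_pi ?_ ?_
    · have := ang_nonneg x y
      linarith
    · have := ang_le_pi x y
      have := Real.pi_pos
      linarith
  have h1 : dist (x : E3) (y : E3) ^ 2 = (2 * Real.sin (ang x y / 2)) ^ 2 := by
    rw [dist_eq_norm, norm_sub_sq_real, norm_pt, norm_pt, ← cos_ang]
    have h2 := Real.cos_two_mul (ang x y / 2)
    have e : 2 * (ang x y / 2) = ang x y := by ring
    rw [e] at h2
    have h3 := Real.sin_sq_add_cos_sq (ang x y / 2)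
    rw [h2]
    linarith
  exact (sq_eq_sq₀ dist_nonneg (by positivity)).1 h1

theorem chord_le (x y : S2) : dist (x : E3) (y : E3) ≤ ang x y := by
  rw [chord]
  have := Real.sin_le (x := ang x y / 2) (by have := ang_nonneg x y; linarith)
  linarith

theorem le_chord (x y : S2) : ang x y ≤ Real.pi / 2 * dist (x : E3) (y : E3) := by
  rw [chord]
  have h := Real.mul_le_sin (x := ang x y / 2) (by have := ang_nonneg x y; linarith)
    (by have := ang_le_pi x y; linarith)
  have hp := Real.pi_pos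
  have h2 : Real.pi * (2 / Real.pi * (ang x y / 2)) ≤ Real.pi * Real.sin (ang x y / 2) :=
    mul_le_mul_of_nonneg_left h hp.le
  have h3 : Real.pi * (2 / Real.pi * (ang x y / 2)) = ang x y := by field_simp
  linarith

theorem chord_cube (x y : S2) : ang x y - ang x y ^ 3 / 24 ≤ dist (x : E3) (y : E3) := by
  rw [chord]
  rcases (ang_nonneg x y).eq_or_lt with h | h
  · rw [← h]; simp
  · have := Real.sin_gt_sub_cube (x := ang x y / 2) (by linarith)
    nlinarith

theorem ang_eq_zero {x y : S2} (h : ang x y = 0) : x = y := by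
  have h1 := chord x y
  rw [h] at h1
  simp only [zero_div, Real.sin_zero, mul_zero, dist_eq_zero] at h1
  exact Subtype.ext h1

theorem ang_self (x : S2) : ang x x = 0 := by
  have h1 := le_chord x x
  rw [dist_self, mul_zero] at h1
  exact le_antisymm h1 (ang_nonneg x x)

noncomputable instance met : MetricSpace Sph where
  dist x y := ang x.pt y.pt
  dist_self x := ang_self _
  dist_comm x y := angle_comm _ _
  dist_triangle x y z := angle_le_angle_add_angle _ _ _
  eq_of_dist_eq_zero := by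
    intro x y h
    have := ang_eq_zero h
    cases x; cases y
    simpa using this

theorem dist_def (x y : Sph) : dist x y = ang x.pt y.pt := rfl

/-- the points -/
def ptEquiv : Sph ≃ S2 where
  toFun x := x.pt
  invFun x := ⟨x⟩
  left_inv _ := rfl
  right_inv _ := rfl

noncomputable def ptHomeo : Sph ≃ₜ S2 where
  toEquiv := ptEquiv
  continuous_toFun := by
    refine (LipschitzWith.of_dist_le' (K := 1) fun x y => ?_).continuous
    rw [one_mul, dist_def, Subtype.dist_eq]
    exact chord_le _ _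
  continuous_invFun := by
    refine (LipschitzWith.of_dist_le' (K := Real.pi / 2) fun x y => ?_).continuous
    rw [dist_def, Subtype.dist_eq]
    exact le_chord _ _

instance : CompactSpace Sph := ptHomeo.symm.compactSpace

theorem cont_coord (i : Fin 3) : Continuous fun x : Sph => (x.pt : E3) i := by
  have h : Continuous fun x : Sph => x.pt := ptHomeo.continuous
  fun_prop

/-! ### Midpoints -/

theorem exists_perp (x : S2) : ∃ e : E3, ‖e‖ = 1 ∧ ⟪(x : E3), e⟫ = 0 := by
  have hx : (x : E3) ≠ 0 := by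
    intro h
    have := norm_pt x
    rw [h, norm_zero] at this
    exact zero_ne_one this
  have : Fact (Module.finrank ℝ E3 = 2 + 1) := ⟨by simp⟩
  have h := Submodule.finrank_orthogonal_span_singleton (𝕜 := ℝ) (n := 2) hx
  have hn : Nontrivial ((Submodule.span ℝ {(x : E3)})ᗮ) :=
    Module.nontrivial_of_finrank_pos (R := ℝ) (by rw [h]; norm_num)
  obtain ⟨e, he⟩ := exists_ne (0 : (Submodule.span ℝ {(x : E3)})ᗮ)
  have he' : (e : E3) ≠ 0 := fun h => he (Subtype.ext h)
  have hin : ⟪(x : E3), (e : E3)⟫ = 0 :=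
    (Submodule.mem_orthogonal _ _).1 e.2 x (Submodule.mem_span_singleton_self _)
  refine ⟨‖(e : E3)‖⁻¹ • (e : E3), ?_, ?_⟩
  · rw [norm_smul, norm_inv, norm_norm, inv_mul_cancel₀ (norm_ne_zero_iff.2 he')]
  · rw [real_inner_smul_right, hin, mul_zero]

theorem decomp (x y : S2) : ∃ e : E3, ‖e‖ = 1 ∧ ⟪(x : E3), e⟫ = 0 ∧
    (y : E3) = Real.cos (ang x y) • (x : E3) + Real.sin (ang x y) • e := by
  set a := ang x y with ha
  have hc := cos_ang x y
  rw [← ha] at hc
  set w : E3 := (y : E3) - Real.cos a • (x : E3) with hw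
  have hxx : ⟪(x : E3), (x : E3)⟫ = 1 := by rw [real_inner_self_eq_norm_sq, norm_pt]; norm_num
  have hyy : ⟪(y : E3), (y : E3)⟫ = 1 := by rw [real_inner_self_eq_norm_sq, norm_pt]; norm_num
  have hxw : ⟪(x : E3), w⟫ = 0 := by
    rw [hw, inner_sub_right, real_inner_smul_right, hxx, ← hc]; ring
  have hww : ‖w‖ ^ 2 = Real.sin a ^ 2 := by
    rw [← real_inner_self_eq_norm_sq]
    have h1 : ⟪w, w⟫ = ⟪(y : E3), w⟫ := by
      nth_rw 1 [hw]
      rw [inner_sub_left, real_inner_smul_left, hxw]; ring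
    rw [h1, hw, inner_sub_right, real_inner_smul_right, hyy, real_inner_comm, ← hc]
    have := Real.sin_sq_add_cos_sq a
    nlinarith
  by_cases hs : Real.sin a = 0
  · obtain ⟨e, he1, he2⟩ := exists_perp x
    refine ⟨e, he1, he2, ?_⟩
    rw [hs, zero_smul, add_zero]
    rw [hs] at hww
    have : w = 0 := by
      have h1 : ‖w‖ = 0 := by
        have : ‖w‖ ^ 2 = 0 := by rw [hww]; norm_num
        exact pow_eq_zero_iff (two_ne_zero) |>.1 this
      exact norm_eq_zero.1 h1
    exact sub_eq_zero.1 this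
  · have hs0 : 0 ≤ Real.sin a :=
      Real.sin_nonneg_of_nonneg_of_le_pi (ang_nonneg x y) (ang_le_pi x y)
    have hw' : ‖w‖ = Real.sin a := (sq_eq_sq₀ (norm_nonneg _) hs0).1 hww
    refine ⟨(Real.sin a)⁻¹ • w, ?_, ?_, ?_⟩
    · rw [norm_smul, norm_inv, Real.norm_of_nonneg hs0, hw', inv_mul_cancel₀ hs]
    · rw [real_inner_smul_right, hxw, mul_zero]
    · rw [smul_smul, mul_inv_cancel₀ hs, one_smul, hw]
      abel

theorem midpoint' (x y : S2) : ∃ z : S2, ang x z = ang x y / 2 ∧ ang z y = ang x y / 2 := by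
  obtain ⟨e, he1, he2, hy⟩ := decomp x y
  set a := ang x y with ha
  have hxx : ⟪(x : E3), (x : E3)⟫ = 1 := by rw [real_inner_self_eq_norm_sq, norm_pt]; norm_num
  have hee : ⟪e, e⟫ = 1 := by rw [real_inner_self_eq_norm_sq, he1]; norm_num
  have hex : ⟪e, (x : E3)⟫ = 0 := by rw [real_inner_comm]; exact he2
  set z : E3 := Real.cos (a / 2) • (x : E3) + Real.sin (a / 2) • e with hz
  have hzn : ‖z‖ = 1 := by
    have h1 : ‖z‖ ^ 2 = 1 ^ 2 := by
      rw [← real_inner_self_eq_norm_sq, hz]
      simp only [inner_add_left, inner_add_right, real_inner_smul_left, real_inner_smul_right,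
        hxx, hee, hex, he2]
      have := Real.sin_sq_add_cos_sq (a / 2)
      nlinarith
    exact (sq_eq_sq₀ (norm_nonneg _) zero_le_one).1 h1
  have h0 : 0 ≤ a / 2 := by have := ang_nonneg x y; linarith
  have hpi : a / 2 ≤ Real.pi := by
    have := ang_le_pi x y
    have := Real.pi_pos
    linarith
  refine ⟨⟨z, mem_sphere_zero_iff_norm.2 hzn⟩, ang_of_inner h0 hpi ?_, ang_of_inner h0 hpi ?_⟩
  · change ⟪(x : E3), z⟫ = _
    rw [hz]
    simp only [inner_add_right, real_inner_smul_right, hxx, he2]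
    ring
  · change ⟪z, (y : E3)⟫ = _
    rw [hy, hz]
    simp only [inner_add_left, inner_add_right, real_inner_smul_left, real_inner_smul_right,
      hxx, hee, hex, he2]
    have h1 := Real.cos_sub a (a / 2)
    have e1 : a - a / 2 = a / 2 := by ring
    rw [e1] at h1
    linarith

/-! ### The charts -/

theorem sum3 (i : Fin 3) (x : E3) :
    ‖x‖ ^ 2 = x i ^ 2 + (x (i + 1) ^ 2 + x (i + 2) ^ 2) := by
  rw [EuclideanSpace.norm_sq_eq, Fin.sum_univ_three]
  simp only [Real.norm_eq_abs, sq_abs]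
  fin_cases i
  · simp; ring
  · change _ = x 1 ^ 2 + (x 2 ^ 2 + x 0 ^ 2)
    ring
  · change _ = x 2 ^ 2 + (x 0 ^ 2 + x 1 ^ 2)
    ring

/-- the chart -/
noncomputable def ch (i : Fin 3) (x : Sph) : E2 := !₂[(x.pt : E3) (i + 1), (x.pt : E3) (i + 2)]

theorem ch0 (i : Fin 3) (x : Sph) : ch i x 0 = (x.pt : E3) (i + 1) := rfl

theorem ch1 (i : Fin 3) (x : Sph) : ch i x 1 = (x.pt : E3) (i + 2) := rfl

theorem coord_eq (i : Fin 3) (x : Sph) :
    (x.pt : E3) i ^ 2 + (ch i x 0 ^ 2 + ch i x 1 ^ 2) = 1 := by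
  rw [ch0, ch1, ← sum3, norm_pt]; norm_num

/-- the metric -/
noncomputable def GG (z : E2) : Matrix (Fin 2) (Fin 2) ℝ := fun i j =>
  (if i = j then 1 else 0) + z i * z j / (1 - (z 0 ^ 2 + z 1 ^ 2))

theorem gnorm_GG (z v : E2) : gnorm (GG z) v =
    √((v 0 ^ 2 + v 1 ^ 2) + (z 0 * v 0 + z 1 * v 1) ^ 2 / (1 - (z 0 ^ 2 + z 1 ^ 2))) := by
  unfold gnorm GG
  congr 1
  simp only [Fin.sum_univ_two]
  simp
  ring

theorem sqrt_lip (A u v : ℝ) (hA : 0 ≤ A) : |√(A + u ^ 2) - √(A + v ^ 2)| ≤ |u - v| := by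
  refine sq_le_sq.1 ?_
  have hX : 0 ≤ A + u ^ 2 := by positivity
  have hY : 0 ≤ A + v ^ 2 := by positivity
  have h1 : A + u * v ≤ √(A + u ^ 2) * √(A + v ^ 2) := by
    rw [← Real.sqrt_mul hX]
    refine Real.le_sqrt_of_sq_le ?_
    nlinarith [mul_nonneg hA (sq_nonneg (u - v))]
  have h2 := Real.sq_sqrt hX
  have h3 := Real.sq_sqrt hY
  nlinarith

/-- the domain of the chart -/
def dom (i : Fin 3) (s : ℝ) : Set Sph := {x | 0 < s * (x.pt : E3) i}

theorem dom_open (i : Fin 3) (s : ℝ) : IsOpen (dom i s) :=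
  isOpen_lt continuous_const (continuous_const.mul (cont_coord i))

theorem image_dom (i : Fin 3) (s : ℝ) (hs : s ^ 2 = 1) :
    ch i '' dom i s = {z : E2 | z 0 ^ 2 + z 1 ^ 2 < 1} := by
  ext z
  constructor
  · rintro ⟨x, hx, rfl⟩
    have h := coord_eq i x
    have h1 : (x.pt : E3) i ≠ 0 := by
      intro h0
      have hx' : 0 < s * (x.pt : E3) i := hx
      rw [h0, mul_zero] at hx'
      exact lt_irrefl _ hx'
    have h2 : 0 < (x.pt : E3) i ^ 2 := by positivity
    change ch i x 0 ^ 2 + ch i x 1 ^ 2 < 1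
    linarith
  · intro hz
    have hz' : z 0 ^ 2 + z 1 ^ 2 < 1 := hz
    have hpos : 0 < 1 - (z 0 ^ 2 + z 1 ^ 2) := by linarith
    set y : E3 := WithLp.toLp 2 (fun j => if j = i then s * √(1 - (z 0 ^ 2 + z 1 ^ 2)) else
      if j = i + 1 then z 0 else z 1) with hy
    have y0 : y i = s * √(1 - (z 0 ^ 2 + z 1 ^ 2)) := by simp [hy]
    have y1 : y (i + 1) = z 0 := by
      change (if i + 1 = i then s * √(1 - (z 0 ^ 2 + z 1 ^ 2)) else
        if i + 1 = i + 1 then z 0 else z 1) = z 0
      rw [if_neg (by fin_cases i <;> decide), if_pos rfl]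
    have y2 : y (i + 2) = z 1 := by
      simp only [hy]
      rw [if_neg (by fin_cases i <;> decide), if_neg (by fin_cases i <;> decide)]
    have hn : ‖y‖ = 1 := by
      have h1 : ‖y‖ ^ 2 = 1 ^ 2 := by
        rw [sum3 i, y0, y1, y2, mul_pow, hs, Real.sq_sqrt hpos.le]
        ring
      exact (sq_eq_sq₀ (norm_nonneg _) zero_le_one).1 h1
    refine ⟨⟨⟨y, mem_sphere_zero_iff_norm.2 hn⟩⟩, ?_, ?_⟩
    · change 0 < s * y i
      rw [y0, ← mul_assoc, ← sq, hs, one_mul]
      exact Real.sqrt_pos.2 hpos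
    · ext j
      fin_cases j
      · exact y1
      · exact y2

theorem ch_inj (i : Fin 3) (s : ℝ) : InjOn (ch i) (dom i s) := by
  intro x hx y hy h
  have hx' : 0 < s * (x.pt : E3) i := hx
  have hy' : 0 < s * (y.pt : E3) i := hy
  have h1 := coord_eq i x
  have h2 := coord_eq i y
  rw [h] at h1
  have h3 : (x.pt : E3) i ^ 2 = (y.pt : E3) i ^ 2 := by linarith
  have h4 : (x.pt : E3) i = (y.pt : E3) i := by
    rcases sq_eq_sq_iff_eq_or_eq_neg.1 h3 with h5 | h5
    · exact h5
    · rw [h5] at hx'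
      nlinarith
  have h5 : (x.pt : E3) (i + 1) = (y.pt : E3) (i + 1) := by
    have := congrArg (fun z : E2 => z 0) h
    exact this
  have h6 : (x.pt : E3) (i + 2) = (y.pt : E3) (i + 2) := by
    have := congrArg (fun z : E2 => z 1) h
    exact this
  have h7 : (x.pt : E3) = (y.pt : E3) := by
    ext j
    have : j = i ∨ j = i + 1 ∨ j = i + 2 := by
      fin_cases i <;> fin_cases j <;> simp
    rcases this with rfl | rfl | rfl
    · exact h4
    · exact h5
    · exact h6
  have h8 : x.pt = y.pt := Subtype.ext h7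
  cases x; cases y
  simpa using h8

theorem ch_cont (i : Fin 3) : Continuous (ch i) := by
  have h1 := cont_coord (i + 1)
  have h2 := cont_coord (i + 2)
  unfold ch
  refine (PiLp.continuous_toLp 2 _).comp (continuous_pi fun j => ?_)
  fin_cases j
  · exact h1
  · exact h2

theorem GG_smooth (i j : Fin 2) :
    ContDiffOn ℝ ∞ (fun z => GG z i j) {z : E2 | z 0 ^ 2 + z 1 ^ 2 < 1} := by
  have h : ∀ k : Fin 2, ContDiff ℝ ∞ (fun z : E2 => z k) := fun k =>
    (EuclideanSpace.proj k : E2 →L[ℝ] ℝ).contDiff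
  unfold GG
  refine contDiffOn_const.add (ContDiffOn.div ?_ ?_ ?_)
  · exact ((h i).mul (h j)).contDiffOn
  · exact (contDiff_const.sub (((h 0).pow 2).add ((h 1).pow 2))).contDiffOn
  · intro z hz
    have hz' : z 0 ^ 2 + z 1 ^ 2 < 1 := hz
    linarith

theorem GG_pos {z : E2} (hz : z 0 ^ 2 + z 1 ^ 2 < 1) : (GG z).PosDef := by
  have hpos : 0 < 1 - (z 0 ^ 2 + z 1 ^ 2) := by linarith
  refine Matrix.PosDef.of_dotProduct_mulVec_pos ?_ fun x hx => ?_
  · refine Matrix.IsHermitian.ext fun i j => ?_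
    unfold GG
    rw [star_trivial, mul_comm (z i)]
    congr 2
    exact propext eq_comm
  · have e : star x ⬝ᵥ (GG z).mulVec x = (x 0 ^ 2 + x 1 ^ 2) +
        (z 0 * x 0 + z 1 * x 1) ^ 2 / (1 - (z 0 ^ 2 + z 1 ^ 2)) := by
      unfold GG
      simp [Matrix.mulVec, dotProduct, Fin.sum_univ_two]
      ring
    rw [e]
    have h1 : 0 < x 0 ^ 2 + x 1 ^ 2 := by
      by_contra hcon
      have h0 : x 0 = 0 := by nlinarith [sq_nonneg (x 0), sq_nonneg (x 1)]
      have h1 : x 1 = 0 := by nlinarith [sq_nonneg (x 0), sq_nonneg (x 1)]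
      refine hx (funext fun j => ?_)
      fin_cases j
      · exact h0
      · exact h1
    positivity

theorem smooth_pt (p : Sph) : IsSmoothPoint p := by
  obtain ⟨i, hi⟩ : ∃ i : Fin 3, (p.pt : E3) i ≠ 0 := by
    by_contra hcon
    push Not at hcon
    have h0 : (p.pt : E3) = 0 := by
      ext j
      exact hcon j
    have := norm_pt p.pt
    rw [h0, norm_zero] at this
    exact zero_ne_one this
  obtain ⟨s, hs, hsp⟩ : ∃ s : ℝ, s ^ 2 = 1 ∧ 0 < s * (p.pt : E3) i := by
    rcases lt_or_gt_of_ne hi with h | h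
    · exact ⟨-1, by norm_num, by linarith⟩
    · exact ⟨1, by norm_num, by linarith⟩
  refine ⟨dom i s, ch i, GG, dom_open i s, hsp, ?_, ch_inj i s, (ch_cont i).continuousOn, ?_, ?_,
    ?_⟩
  · rw [image_dom i s hs]
    have h0 : Continuous fun z : E2 => z 0 ^ 2 + z 1 ^ 2 := by fun_prop
    exact isOpen_lt h0 continuous_const
  · rw [image_dom i s hs]; exact GG_smooth
  · rw [image_dom i s hs]; exact fun z hz => GG_pos hz
  · intro q hq ε hε
    have hq' : 0 < s * (q.pt : E3) i := hq
    have cc := ch_cont i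
    have c0 : Continuous fun x : Sph => ch i x 0 := cont_coord (i + 1)
    have c1 : Continuous fun x : Sph => ch i x 1 := cont_coord (i + 2)
    have ci : Continuous fun x : Sph => (x.pt : E3) i := cont_coord i
    -- the two quotients
    have key : ∀ f : Sph → ℝ, Continuous f → ∃ δ > 0, ∀ x y : Sph, dist x q < δ → dist y q < δ →
        |(f x + f y) / (s * (x.pt : E3) i + s * (y.pt : E3) i) - f q / (s * (q.pt : E3) i)| <
          ε / 4 := by
      intro f hf
      have hden : s * (q.pt : E3) i + s * (q.pt : E3) i ≠ 0 := by positivity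
      have hc : ContinuousAt (fun u : Sph × Sph => (f u.1 + f u.2) /
          (s * (u.1.pt : E3) i + s * (u.2.pt : E3) i)) (q, q) := by
        have n1 : ContinuousAt (fun u : Sph × Sph => f u.1 + f u.2) (q, q) :=
          ((hf.comp continuous_fst).add (hf.comp continuous_snd)).continuousAt
        have n2 : ContinuousAt (fun u : Sph × Sph => s * (u.1.pt : E3) i +
            s * (u.2.pt : E3) i) (q, q) :=
          ((continuous_const.mul (ci.comp continuous_fst)).add
            (continuous_const.mul (ci.comp continuous_snd))).continuousAt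
        exact n1.div n2 hden
      obtain ⟨δ, hδ, h⟩ := Metric.continuousAt_iff.1 hc (ε / 4) (by linarith)
      refine ⟨δ, hδ, fun x y hx hy => ?_⟩
      have h1 := h (x := (x, y)) (by rw [Prod.dist_eq]; exact max_lt hx hy)
      rw [Real.dist_eq] at h1
      have e : (f q + f q) / (s * (q.pt : E3) i + s * (q.pt : E3) i) =
          f q / (s * (q.pt : E3) i) := by
        field_simp
      rw [e] at h1
      exact h1
    obtain ⟨δ0, hδ0, k0⟩ := key (fun x => ch i x 0) c0
    obtain ⟨δ1, hδ1, k1⟩ := key (fun x => ch i x 1) c1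
    refine ⟨min (min δ0 δ1) (min 1 ε), by positivity, fun x hx y hy hxq hyq => ?_⟩
    have hx' : 0 < s * (x.pt : E3) i := hx
    have hy' : 0 < s * (y.pt : E3) i := hy
    have a0 := k0 x y (hxq.trans_le ((min_le_left _ _).trans (min_le_left _ _)))
      (hyq.trans_le ((min_le_left _ _).trans (min_le_left _ _)))
    have a1 := k1 x y (hxq.trans_le ((min_le_left _ _).trans (min_le_right _ _)))
      (hyq.trans_le ((min_le_left _ _).trans (min_le_right _ _)))
    set A0 : ℝ := (ch i x 0 + ch i y 0) / (s * (x.pt : E3) i + s * (y.pt : E3) i) with hA0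
    set A1 : ℝ := (ch i x 1 + ch i y 1) / (s * (x.pt : E3) i + s * (y.pt : E3) i) with hA1
    set B0 : ℝ := ch i q 0 / (s * (q.pt : E3) i) with hB0
    set B1 : ℝ := ch i q 1 / (s * (q.pt : E3) i) with hB1
    set w0 : ℝ := ch i x 0 - ch i y 0 with hw0
    set w1 : ℝ := ch i x 1 - ch i y 1 with hw1
    have hxe := coord_eq i x
    have hye := coord_eq i y
    have hqe := coord_eq i q
    have hsum : 0 < s * (x.pt : E3) i + s * (y.pt : E3) i := by linarith
    have hh : s * (x.pt : E3) i - s * (y.pt : E3) i = -(A0 * w0 + A1 * w1) := by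
      have h1 : (s * (x.pt : E3) i - s * (y.pt : E3) i) *
          (s * (x.pt : E3) i + s * (y.pt : E3) i) =
          -((ch i x 0 + ch i y 0) * w0 + (ch i x 1 + ch i y 1) * w1) := by
        rw [hw0, hw1]
        linear_combination ((x.pt : E3) i ^ 2 - (y.pt : E3) i ^ 2) * hs + hxe - hye
      have h2 : A0 * (s * (x.pt : E3) i + s * (y.pt : E3) i) = ch i x 0 + ch i y 0 := by
        rw [hA0]; exact div_mul_cancel₀ _ hsum.ne'
      have h3 : A1 * (s * (x.pt : E3) i + s * (y.pt : E3) i) = ch i x 1 + ch i y 1 := by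
        rw [hA1]; exact div_mul_cancel₀ _ hsum.ne'
      rw [← h2, ← h3] at h1
      have h4 : (s * (x.pt : E3) i - s * (y.pt : E3) i) *
          (s * (x.pt : E3) i + s * (y.pt : E3) i) =
          (-(A0 * w0 + A1 * w1)) * (s * (x.pt : E3) i + s * (y.pt : E3) i) := by
        rw [h1]; ring
      exact mul_right_cancel₀ hsum.ne' h4
    -- chord
    have hchord : dist (x.pt : E3) (y.pt : E3) =
        √((w0 ^ 2 + w1 ^ 2) + (A0 * w0 + A1 * w1) ^ 2) := by
      rw [dist_eq_norm, ← Real.sqrt_sq (norm_nonneg ((x.pt : E3) - (y.pt : E3))), sum3 i]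
      congr 1
      have h1 : (A0 * w0 + A1 * w1) ^ 2 = (((x.pt : E3) - (y.pt : E3)) i) ^ 2 := by
        have h2 : (((x.pt : E3) - (y.pt : E3)) i) = (x.pt : E3) i - (y.pt : E3) i := rfl
        have h3 : (A0 * w0 + A1 * w1) ^ 2 =
            (s * (x.pt : E3) i - s * (y.pt : E3) i) ^ 2 := by rw [hh]; ring
        rw [h2, h3]
        linear_combination ((x.pt : E3) i - (y.pt : E3) i) ^ 2 * hs
      rw [h1]
      change _ = (w0 ^ 2 + w1 ^ 2) + _
      rw [add_comm]
      rfl
    have hgn : gnorm (GG (ch i q)) (ch i x - ch i y) =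
        √((w0 ^ 2 + w1 ^ 2) + (B0 * w0 + B1 * w1) ^ 2) := by
      rw [gnorm_GG]
      congr 1
      have h1 : (ch i x - ch i y) 0 = w0 := rfl
      have h2 : (ch i x - ch i y) 1 = w1 := rfl
      rw [h1, h2]
      congr 1
      have h3 : 1 - (ch i q 0 ^ 2 + ch i q 1 ^ 2) = (s * (q.pt : E3) i) ^ 2 := by
        linear_combination -hqe - (q.pt : E3) i ^ 2 * hs
      rw [h3, hB0, hB1]
      field_simp
    have hlip := sqrt_lip (w0 ^ 2 + w1 ^ 2) (A0 * w0 + A1 * w1) (B0 * w0 + B1 * w1)
      (by positivity)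
    rw [← hchord, ← hgn] at hlip
    have hc0 : |w0| ≤ dist (x.pt : E3) (y.pt : E3) := by
      rw [hchord]
      refine Real.abs_le_sqrt ?_
      linarith [sq_nonneg w1, sq_nonneg (A0 * w0 + A1 * w1)]
    have hc1 : |w1| ≤ dist (x.pt : E3) (y.pt : E3) := by
      rw [hchord]
      refine Real.abs_le_sqrt ?_
      linarith [sq_nonneg w0, sq_nonneg (A0 * w0 + A1 * w1)]
    have hd0 : 0 ≤ dist (x.pt : E3) (y.pt : E3) := dist_nonneg
    have hdiff : |(A0 * w0 + A1 * w1) - (B0 * w0 + B1 * w1)| ≤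
        ε / 2 * dist (x.pt : E3) (y.pt : E3) := by
      have e : (A0 * w0 + A1 * w1) - (B0 * w0 + B1 * w1) = (A0 - B0) * w0 + (A1 - B1) * w1 := by
        ring
      rw [e]
      refine (abs_add_le _ _).trans ?_
      rw [abs_mul, abs_mul]
      have h1 : |A0 - B0| * |w0| ≤ ε / 4 * dist (x.pt : E3) (y.pt : E3) :=
        mul_le_mul a0.le hc0 (abs_nonneg _) (by positivity)
      have h2 : |A1 - B1| * |w1| ≤ ε / 4 * dist (x.pt : E3) (y.pt : E3) :=
        mul_le_mul a1.le hc1 (abs_nonneg _) (by positivity)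
      linarith
    -- arc against chord
    have hle := chord_le x.pt y.pt
    have hge := chord_cube x.pt y.pt
    rw [← dist_def] at hle hge
    have hD : 0 ≤ dist x y := dist_nonneg
    have hsmall : dist x y ≤ 2 * min 1 ε := by
      have h1 := dist_triangle_right x y q
      have h2 : dist x q < min 1 ε := hxq.trans_le (min_le_right _ _)
      have h3 : dist y q < min 1 ε := hyq.trans_le (min_le_right _ _)
      linarith
    have hsq : dist x y ^ 2 ≤ 4 * ε := by
      have m1 : min 1 ε ≤ 1 := min_le_left _ _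
      have m2 : min 1 ε ≤ ε := min_le_right _ _
      have m0 : 0 < min 1 ε := lt_min one_pos hε
      have h1 : dist x y ^ 2 ≤ (2 * min 1 ε) ^ 2 := pow_le_pow_left₀ hD hsmall 2
      have h2 : min 1 ε * min 1 ε ≤ 1 * ε := mul_le_mul m1 m2 m0.le zero_le_one
      linarith
    have hcube : dist x y ^ 3 / 24 ≤ ε / 2 * dist x y := by
      have : dist x y ^ 3 = dist x y ^ 2 * dist x y := by ring
      rw [this]
      have h1 := mul_le_mul_of_nonneg_right hsq hD
      have h2 : 0 ≤ ε * dist x y := by positivity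
      linarith
    have h1 : |dist x y - dist (x.pt : E3) (y.pt : E3)| ≤ ε / 2 * dist x y := by
      rw [abs_le]
      constructor
      · have : 0 ≤ ε / 2 * dist x y := by positivity
        linarith
      · linarith
    have h2 : |dist (x.pt : E3) (y.pt : E3) - gnorm (GG (ch i q)) (ch i x - ch i y)| ≤
        ε / 2 * dist x y := by
      refine hlip.trans (hdiff.trans ?_)
      exact mul_le_mul_of_nonneg_left hle (by positivity)
    have h3 : dist x y - gnorm (GG (ch i q)) (ch i x - ch i y) =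
        (dist x y - dist (x.pt : E3) (y.pt : E3)) +
          (dist (x.pt : E3) (y.pt : E3) - gnorm (GG (ch i q)) (ch i x - ch i y)) := by ring
    rw [h3]
    refine (abs_add_le _ _).trans ?_
    linarith

/-- the round sphere -/
noncomputable def round : ConeSphere where
  X := Sph
  sphere := ⟨ptHomeo⟩
  length := by
    intro x y
    obtain ⟨z, h1, h2⟩ := midpoint' x.pt y.pt
    exact ⟨⟨z⟩, h1, h2⟩
  sing := ∅
  sing_finite := Set.finite_empty
  smooth := fun p _ => smooth_pt p
  conical := fun p hp => absurd hp (Set.notMem_empty p)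

end Pool.MP8e.Sph1

namespace Pool.MP8e

/-- **Block SPH1** -/
theorem sph1 : StmtSph1 :=
  ⟨Sph1.round, ⟨Sph1.ptEquiv, fun _ _ => rfl⟩, rfl⟩

end Pool.MP8e
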