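import Pool.Agent.Work.MP_8e9dbb.A.Sph1

/-!
# MP_8e9dbb_gt, block SPH2 (helper64): the area of the round sphere, from block AREA1
-/

open MeasureTheory Filter Topology Metric Set InnerProductGeometry
open scoped ContDiff RealInnerProductSpace

namespace Pool.MP8e.Sph2

open Sph1

/-- spherical coordinates -/
noncomputable def P (q : ℝ × ℝ) : E3 :=
  !₂[Real.cos q.1 * Real.cos q.2, Real.cos q.1 * Real.sin q.2, Real.sin q.1]

theorem P0 (q : ℝ × ℝ) : P q 0 = Real.cos q.1 * Real.cos q.2 := rfl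
theorem P1 (q : ℝ × ℝ) : P q 1 = Real.cos q.1 * Real.sin q.2 := rfl
theorem P2 (q : ℝ × ℝ) : P q 2 = Real.sin q.1 := rfl

theorem nsq (x : E3) : ‖x‖ ^ 2 = x 0 ^ 2 + x 1 ^ 2 + x 2 ^ 2 := by
  rw [EuclideanSpace.norm_sq_eq, Fin.sum_univ_three]
  simp only [Real.norm_eq_abs, sq_abs]

theorem P_norm (q : ℝ × ℝ) : ‖P q‖ = 1 := by
  have h1 : ‖P q‖ ^ 2 = 1 ^ 2 := by
    rw [nsq, P0, P1, P2]
    have h1 := Real.sin_sq_add_cos_sq q.1
    have h2 := Real.sin_sq_add_cos_sq q.2
    linear_combination (Real.cos q.1) ^ 2 * h2 + h1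
  exact (sq_eq_sq₀ (norm_nonneg _) zero_le_one).1 h1

/-- spherical coordinates as points of the sphere -/
noncomputable def PS (q : ℝ × ℝ) : S2 := ⟨P q, mem_sphere_zero_iff_norm.2 (P_norm q)⟩

/-- the coordinates -/
noncomputable def Gc (x : E3) : ℝ × ℝ := (Real.arcsin (x 2), Complex.arg ⟨x 0, x 1⟩)

/-- domain -/
def U : Set (ℝ × ℝ) := Ioo (-(Real.pi / 2)) (Real.pi / 2) ×ˢ Ioo (-Real.pi) Real.pi

/-- the sphere without the meridian `θ = π` -/
def W : Set E3 := {x | (⟨x 0, x 1⟩ : ℂ) ∈ Complex.slitPlane}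

theorem cos_pos {q : ℝ × ℝ} (hq : q ∈ U) : 0 < Real.cos q.1 :=
  Real.cos_pos_of_mem_Ioo ⟨hq.1.1, hq.1.2⟩

theorem cplx (q : ℝ × ℝ) : (⟨P q 0, P q 1⟩ : ℂ) =
    (Real.cos q.1 : ℂ) * (Complex.cos q.2 + Complex.sin q.2 * Complex.I) := by
  apply Complex.ext
  · rw [Complex.re_ofReal_mul, Complex.add_re, Complex.mul_I_re, Complex.cos_ofReal_re,
      Complex.sin_ofReal_im, neg_zero, add_zero]
    rfl
  · rw [Complex.im_ofReal_mul, Complex.add_im, Complex.mul_I_im, Complex.cos_ofReal_im,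
      Complex.sin_ofReal_re, zero_add]
    rfl

theorem arg_P {q : ℝ × ℝ} (hq : q ∈ U) : Complex.arg ⟨P q 0, P q 1⟩ = q.2 := by
  rw [cplx]
  exact Complex.arg_mul_cos_add_sin_mul_I (cos_pos hq) ⟨hq.2.1, hq.2.2.le⟩

theorem Gc_P {q : ℝ × ℝ} (hq : q ∈ U) : Gc (P q) = q := by
  unfold Gc
  rw [arg_P hq, P2, Real.arcsin_sin hq.1.1.le hq.1.2.le]

theorem P_mem {q : ℝ × ℝ} (hq : q ∈ U) : P q ∈ W := by
  refine Complex.mem_slitPlane_iff_arg.2 ⟨?_, ?_⟩
  · rw [arg_P hq]; exact hq.2.2.ne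
  · intro h
    have h1 := congrArg Complex.re h
    have h2 := congrArg Complex.im h
    have h3 : Real.cos q.1 * Real.cos q.2 = 0 := h1
    have h4 : Real.cos q.1 * Real.sin q.2 = 0 := h2
    have h5 := (cos_pos hq).ne'
    have h6 : Real.cos q.2 = 0 := by
      rcases mul_eq_zero.1 h3 with h | h
      · exact absurd h h5
      · exact h
    have h7 : Real.sin q.2 = 0 := by
      rcases mul_eq_zero.1 h4 with h | h
      · exact absurd h h5
      · exact h
    have := Real.sin_sq_add_cos_sq q.2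
    rw [h6, h7] at this
    norm_num at this

theorem coords (x : S2) : (x : E3) 0 ^ 2 + (x : E3) 1 ^ 2 + (x : E3) 2 ^ 2 = 1 := by
  rw [← nsq, norm_pt]; norm_num

theorem norm_z (x : S2) : ‖(⟨(x : E3) 0, (x : E3) 1⟩ : ℂ)‖ =
    Real.cos (Real.arcsin ((x : E3) 2)) := by
  have h := coords x
  rw [Real.cos_arcsin, Complex.norm_eq_sqrt_sq_add_sq]
  congr 1
  linarith

theorem abs2 (x : S2) : -1 ≤ (x : E3) 2 ∧ (x : E3) 2 ≤ 1 := by
  have h := coords x
  constructor <;> nlinarith [sq_nonneg ((x : E3) 0), sq_nonneg ((x : E3) 1)]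

theorem P_Gc (x : S2) : P (Gc x) = (x : E3) := by
  ext j
  fin_cases j
  · change Real.cos (Real.arcsin ((x : E3) 2)) *
      Real.cos (Complex.arg ⟨(x : E3) 0, (x : E3) 1⟩) = (x : E3) 0
    rw [← norm_z, Complex.norm_mul_cos_arg]
  · change Real.cos (Real.arcsin ((x : E3) 2)) *
      Real.sin (Complex.arg ⟨(x : E3) 0, (x : E3) 1⟩) = (x : E3) 1
    rw [← norm_z, Complex.norm_mul_sin_arg]
  · change Real.sin (Real.arcsin ((x : E3) 2)) = (x : E3) 2
    exact Real.sin_arcsin (abs2 x).1 (abs2 x).2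

theorem Gc_mem {x : S2} (hx : (x : E3) ∈ W) : Gc x ∈ U := by
  have hx' := Complex.mem_slitPlane_iff_arg.1 hx
  have h := coords x
  have h2 : 0 < (x : E3) 0 ^ 2 + (x : E3) 1 ^ 2 := by
    rcases hx with h0 | h0
    · have h0' : 0 < (x : E3) 0 := h0
      positivity
    · have h0' : (x : E3) 1 ≠ 0 := h0
      positivity
  refine ⟨⟨?_, ?_⟩, ⟨Complex.neg_pi_lt_arg _, ?_⟩⟩
  · change -(Real.pi / 2) < Real.arcsin ((x : E3) 2)
    rw [Real.neg_pi_div_two_lt_arcsin]
    nlinarith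
  · change Real.arcsin ((x : E3) 2) < Real.pi / 2
    rw [Real.arcsin_lt_pi_div_two]
    nlinarith
  · exact lt_of_le_of_ne (Complex.arg_le_pi _) hx'.1

theorem c_coord (i : Fin 3) : Continuous fun x : E3 => x i := by fun_prop

theorem c_cplx : Continuous fun x : E3 => (⟨x 0, x 1⟩ : ℂ) := by
  have e : (fun x : E3 => (⟨x 0, x 1⟩ : ℂ)) = fun x : E3 => ((x 0 : ℝ) : ℂ) +
      ((x 1 : ℝ) : ℂ) * Complex.I := by
    funext x
    apply Complex.ext <;> simp
  rw [e]
  have h0 := c_coord 0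
  have h1 := c_coord 1
  fun_prop

theorem W_open : IsOpen W := Complex.isOpen_slitPlane.preimage c_cplx

theorem Gc_cont : ContinuousOn Gc W := by
  refine ContinuousOn.prodMk ?_ ?_
  · exact (Real.continuous_arcsin.comp (c_coord 2)).continuousOn
  · intro x hx
    have h1 : ContinuousAt Complex.arg (⟨x 0, x 1⟩ : ℂ) := Complex.continuousAt_arg hx
    exact (ContinuousAt.comp (f := fun x : E3 => (⟨x 0, x 1⟩ : ℂ)) h1
      c_cplx.continuousAt).continuousWithinAt

theorem U_open : IsOpen U := isOpen_Ioo.prod isOpen_Ioo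

theorem U_meas : MeasurableSet U := measurableSet_Ioo.prod measurableSet_Ioo

/-! ### The integral -/

theorem int_U : ∫⁻ q in U, ENNReal.ofReal (1 * Real.cos q.1) = ENNReal.ofReal (4 * Real.pi) := by
  have hp := Real.pi_pos
  unfold U
  rw [Measure.volume_eq_prod, ← Measure.prod_restrict, lintegral_prod]
  · simp only [one_mul, lintegral_const, Measure.restrict_apply MeasurableSet.univ, univ_inter,
      Real.volume_Ioo]
    rw [lintegral_mul_const _ (by fun_prop)]
    have h1 : ∫⁻ x in Ioo (-(Real.pi / 2)) (Real.pi / 2), ENNReal.ofReal (Real.cos x) =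
        ENNReal.ofReal 2 := by
      rw [← ofReal_integral_eq_lintegral_ofReal]
      · congr 1
        rw [← integral_Ioc_eq_integral_Ioo,
          ← intervalIntegral.integral_of_le (by linarith), integral_cos]
        simp
        norm_num
      · have : IntegrableOn Real.cos (Icc (-(Real.pi / 2)) (Real.pi / 2)) :=
          Real.continuous_cos.continuousOn.integrableOn_Icc
        exact this.mono_set Ioo_subset_Icc_self
      · refine (ae_restrict_iff' measurableSet_Ioo).2 (Filter.Eventually.of_forall fun x hx => ?_)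
        exact (Real.cos_pos_of_mem_Ioo hx).le
    rw [h1, ← ENNReal.ofReal_mul (by norm_num)]
    congr 1
    ring
  · fun_prop

/-! ### The metric in spherical coordinates -/

theorem l1 (x : E3) : ‖x‖ ≤ |x 0| + |x 1| + |x 2| := by
  refine le_of_sq_le_sq ?_ (by positivity)
  rw [nsq]
  have h0 := sq_abs (x 0)
  have h1 := sq_abs (x 1)
  have h2 := sq_abs (x 2)
  nlinarith [mul_nonneg (abs_nonneg (x 0)) (abs_nonneg (x 1)),
    mul_nonneg (abs_nonneg (x 0)) (abs_nonneg (x 2)),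
    mul_nonneg (abs_nonneg (x 1)) (abs_nonneg (x 2))]

/-- the differential -/
noncomputable def dP (q u : ℝ × ℝ) : E3 :=
  !₂[-(Real.sin q.1 * Real.cos q.2 * u.1) - Real.cos q.1 * Real.sin q.2 * u.2,
    -(Real.sin q.1 * Real.sin q.2 * u.1) + Real.cos q.1 * Real.cos q.2 * u.2,
    Real.cos q.1 * u.1]

theorem dP_norm (q u : ℝ × ℝ) : ‖dP q u‖ = √((1 * u.1) ^ 2 + (Real.cos q.1 * u.2) ^ 2) := by
  rw [← Real.sqrt_sq (norm_nonneg (dP q u)), nsq]
  congr 1
  have e0 : dP q u 0 = -(Real.sin q.1 * Real.cos q.2 * u.1) -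
    Real.cos q.1 * Real.sin q.2 * u.2 := rfl
  have e1 : dP q u 1 = -(Real.sin q.1 * Real.sin q.2 * u.1) +
    Real.cos q.1 * Real.cos q.2 * u.2 := rfl
  have e2 : dP q u 2 = Real.cos q.1 * u.1 := rfl
  rw [e0, e1, e2]
  have h1 := Real.sin_sq_add_cos_sq q.1
  have h2 := Real.sin_sq_add_cos_sq q.2
  linear_combination (u.1 ^ 2 * Real.sin q.1 ^ 2 + Real.cos q.1 ^ 2 * u.2 ^ 2) * h2 + u.1 ^ 2 * h1

theorem strict_eps {f : ℝ × ℝ → ℝ} {f' : ℝ × ℝ →L[ℝ] ℝ} {q : ℝ × ℝ}
    (h : HasStrictFDerivAt f f' q) (ε : ℝ) (hε : 0 < ε) : ∃ δ > 0, ∀ x y : ℝ × ℝ,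
      dist x q < δ → dist y q < δ → |f x - f y - f' (x - y)| ≤ ε * ‖x - y‖ := by
  have h1 := h.isLittleO.def hε
  rw [Metric.eventually_nhds_iff] at h1
  obtain ⟨δ, hδ, h2⟩ := h1
  refine ⟨δ, hδ, fun x y hx hy => ?_⟩
  have h3 := h2 (y := (x, y)) (by rw [Prod.dist_eq]; exact max_lt hx hy)
  exact h3

theorem P_strict (q : ℝ × ℝ) (ε : ℝ) (hε : 0 < ε) : ∃ δ > 0, ∀ x y : ℝ × ℝ,
    dist x q < δ → dist y q < δ → ‖P x - P y - dP q (x - y)‖ ≤ ε * ‖x - y‖ := by
  have hf := hasStrictFDerivAt_fst (𝕜 := ℝ) (p := q)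
  have hs := hasStrictFDerivAt_snd (𝕜 := ℝ) (p := q)
  have hε3 : 0 < ε / 3 := by positivity
  obtain ⟨δ0, hδ0, k0⟩ := strict_eps (hf.cos.mul hs.cos) (ε / 3) hε3
  obtain ⟨δ1, hδ1, k1⟩ := strict_eps (hf.cos.mul hs.sin) (ε / 3) hε3
  obtain ⟨δ2, hδ2, k2⟩ := strict_eps hf.sin (ε / 3) hε3
  refine ⟨min δ0 (min δ1 δ2), by positivity, fun x y hx hy => ?_⟩
  have a0 := k0 x y (hx.trans_le (min_le_left _ _)) (hy.trans_le (min_le_left _ _))
  have a1 := k1 x y (hx.trans_le ((min_le_right _ _).trans (min_le_left _ _)))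
    (hy.trans_le ((min_le_right _ _).trans (min_le_left _ _)))
  have a2 := k2 x y (hx.trans_le ((min_le_right _ _).trans (min_le_right _ _)))
    (hy.trans_le ((min_le_right _ _).trans (min_le_right _ _)))
  refine (l1 _).trans ?_
  have e0 : |(P x - P y - dP q (x - y)) 0| ≤ ε / 3 * ‖x - y‖ := by
    refine le_trans (le_of_eq ?_) a0
    congr 1
    change P x 0 - P y 0 - dP q (x - y) 0 = _
    have : dP q (x - y) 0 = -(Real.sin q.1 * Real.cos q.2 * (x - y).1) -
      Real.cos q.1 * Real.sin q.2 * (x - y).2 := rfl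
    rw [this]
    simp [P0]
    ring
  have e1 : |(P x - P y - dP q (x - y)) 1| ≤ ε / 3 * ‖x - y‖ := by
    refine le_trans (le_of_eq ?_) a1
    congr 1
    change P x 1 - P y 1 - dP q (x - y) 1 = _
    have : dP q (x - y) 1 = -(Real.sin q.1 * Real.sin q.2 * (x - y).1) +
      Real.cos q.1 * Real.cos q.2 * (x - y).2 := rfl
    rw [this]
    simp [P1]
    ring
  have e2 : |(P x - P y - dP q (x - y)) 2| ≤ ε / 3 * ‖x - y‖ := by
    refine le_trans (le_of_eq ?_) a2
    congr 1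
  linarith

theorem est (q : ℝ × ℝ) (ε : ℝ) (hε : 0 < ε) : ∃ δ > 0, ∀ x y : ℝ × ℝ,
    dist x q < δ → dist y q < δ →
      |ang (PS x) (PS y) - √((1 * (x - y).1) ^ 2 + (Real.cos q.1 * (x - y).2) ^ 2)| ≤
        ε * ‖x - y‖ := by
  obtain ⟨δ, hδ, k⟩ := P_strict q (min (ε / 2) (1 / 2)) (by positivity)
  refine ⟨min δ (min 1 (ε / 48)), by positivity, fun x y hx hy => ?_⟩
  have h := k x y (hx.trans_le (min_le_left _ _)) (hy.trans_le (min_le_left _ _))
  set n : ℝ := ‖x - y‖ with hn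
  have hn0 : 0 ≤ n := norm_nonneg _
  set C : ℝ := dist (P x) (P y) with hC
  have hC0 : 0 ≤ C := dist_nonneg
  have hN := dP_norm q (x - y)
  have h1 : |C - ‖dP q (x - y)‖| ≤ ‖P x - P y - dP q (x - y)‖ := by
    rw [hC, dist_eq_norm]
    exact abs_norm_sub_norm_le _ _
  have h2 : ‖P x - P y - dP q (x - y)‖ ≤ ε / 2 * n :=
    h.trans (mul_le_mul_of_nonneg_right (min_le_left _ _) hn0)
  have h3 : ‖P x - P y - dP q (x - y)‖ ≤ 1 / 2 * n :=
    h.trans (mul_le_mul_of_nonneg_right (min_le_right _ _) hn0)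
  have h4 : ‖dP q (x - y)‖ ≤ 2 * n := by
    rw [hN]
    refine Real.sqrt_le_sqrt (y := (2 * n) ^ 2) ?_ |>.trans ?_
    · have u1 : |(x - y).1| ≤ n := norm_fst_le (x - y)
      have u2 : |(x - y).2| ≤ n := norm_snd_le (x - y)
      have v1 : (x - y).1 ^ 2 ≤ n ^ 2 := by
        rw [← sq_abs]; exact pow_le_pow_left₀ (abs_nonneg _) u1 2
      have v2 : (x - y).2 ^ 2 ≤ n ^ 2 := by
        rw [← sq_abs]; exact pow_le_pow_left₀ (abs_nonneg _) u2 2
      have v3 : Real.cos q.1 ^ 2 ≤ 1 := Real.cos_sq_le_one _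
      have v4 : Real.cos q.1 ^ 2 * (x - y).2 ^ 2 ≤ 1 * n ^ 2 :=
        mul_le_mul v3 v2 (sq_nonneg _) zero_le_one
      nlinarith
    · exact le_of_eq (Real.sqrt_sq (by positivity))
  have h5 : C ≤ 5 / 2 * n := by
    have := (abs_le.1 (h1.trans h3)).2
    linarith
  have h6 : ang (PS x) (PS y) ≤ 5 * n := by
    have h7 := le_chord (PS x) (PS y)
    have h8 : Real.pi / 2 ≤ 2 := by have := Real.pi_le_four; linarith
    have h9 : Real.pi / 2 * dist ((PS x : S2) : E3) ((PS y : S2) : E3) ≤ 2 * C :=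
      mul_le_mul_of_nonneg_right h8 hC0
    linarith
  have hge := chord_cube (PS x) (PS y)
  have hle := chord_le (PS x) (PS y)
  have ha0 := ang_nonneg (PS x) (PS y)
  have hCe : dist ((PS x : S2) : E3) ((PS y : S2) : E3) = C := rfl
  rw [hCe] at hge hle
  have hsmall : n ≤ 2 * min 1 (ε / 48) := by
    have h1 := dist_triangle_right x y q
    have h2 : dist x q < min 1 (ε / 48) := hx.trans_le (min_le_right _ _)
    have h3 : dist y q < min 1 (ε / 48) := hy.trans_le (min_le_right _ _)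
    rw [hn, ← dist_eq_norm]
    linarith
  have hsq : n ^ 2 ≤ ε / 12 := by
    have m1 : min 1 (ε / 48) ≤ 1 := min_le_left _ _
    have m2 : min 1 (ε / 48) ≤ ε / 48 := min_le_right _ _
    have m0 : 0 < min 1 (ε / 48) := by positivity
    have h1 : n ^ 2 ≤ (2 * min 1 (ε / 48)) ^ 2 := pow_le_pow_left₀ hn0 hsmall 2
    have h2 : min 1 (ε / 48) * min 1 (ε / 48) ≤ 1 * (ε / 48) :=
      mul_le_mul m1 m2 m0.le zero_le_one
    linarith
  have hcube : ang (PS x) (PS y) ^ 3 / 24 ≤ ε / 2 * n := by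
    have h1 : ang (PS x) (PS y) ^ 3 ≤ (5 * n) ^ 3 := pow_le_pow_left₀ ha0 h6 3
    have h2 : n ^ 2 * n ≤ ε / 12 * n := mul_le_mul_of_nonneg_right hsq hn0
    have h3 : 0 ≤ ε * n := by positivity
    have h4 : (5 * n) ^ 3 = 125 * (n ^ 2 * n) := by ring
    rw [h4] at h1
    linarith
  rw [← hN]
  have e : ang (PS x) (PS y) - ‖dP q (x - y)‖ = (ang (PS x) (PS y) - C) +
      (C - ‖dP q (x - y)‖) := by ring
  rw [e]
  refine (abs_add_le _ _).trans ?_
  have g1 : |ang (PS x) (PS y) - C| ≤ ε / 2 * n := by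
    rw [abs_le]
    constructor
    · have : 0 ≤ ε / 2 * n := by positivity
      linarith
    · linarith
  have g2 := h1.trans h2
  linarith

/-! ### The exceptional meridian -/

theorem merid_dist (s t : ℝ) :
    ang (PS (s, Real.pi)) (PS (t, Real.pi)) ≤ Real.pi / 2 * |s - t| := by
  refine (le_chord _ _).trans (mul_le_mul_of_nonneg_left ?_ (by have := Real.pi_pos; linarith))
  refine le_of_sq_le_sq ?_ (abs_nonneg _)
  change dist (P (s, Real.pi)) (P (t, Real.pi)) ^ 2 ≤ _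
  rw [dist_eq_norm, nsq]
  have e0 : (P (s, Real.pi) - P (t, Real.pi)) 0 = -Real.cos s - -Real.cos t := by
    change P (s, Real.pi) 0 - P (t, Real.pi) 0 = _
    rw [P0, P0]
    simp
  have e1 : (P (s, Real.pi) - P (t, Real.pi)) 1 = 0 := by
    change P (s, Real.pi) 1 - P (t, Real.pi) 1 = _
    rw [P1, P1]
    simp
  have e2 : (P (s, Real.pi) - P (t, Real.pi)) 2 = Real.sin s - Real.sin t := rfl
  rw [e0, e1, e2, sq_abs]
  have h1 := Real.one_sub_sq_div_two_le_cos (x := s - t)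
  rw [Real.cos_sub] at h1
  have h2 := Real.sin_sq_add_cos_sq s
  have h3 := Real.sin_sq_add_cos_sq t
  nlinarith

theorem not_W {x : S2} (hx : (x : E3) ∉ W) : ∃ s : ℝ, PS (s, Real.pi) = x := by
  refine ⟨Real.arcsin ((x : E3) 2), Subtype.ext ?_⟩
  have h0 : (x : E3) 0 ≤ 0 := by
    by_contra h
    exact hx (Or.inl (not_le.1 h))
  have h1 : (x : E3) 1 = 0 := by
    by_contra h
    exact hx (Or.inr h)
  have h2 := coords x
  have h3 : √(1 - (x : E3) 2 ^ 2) = -(x : E3) 0 := by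
    have : 1 - (x : E3) 2 ^ 2 = (-(x : E3) 0) ^ 2 := by
      rw [h1] at h2
      linarith
    rw [this, Real.sqrt_sq (by linarith)]
  change P (Real.arcsin ((x : E3) 2), Real.pi) = _
  ext j
  fin_cases j
  · change Real.cos (Real.arcsin ((x : E3) 2)) * Real.cos Real.pi = (x : E3) 0
    rw [Real.cos_arcsin, h3, Real.cos_pi]
    ring
  · change Real.cos (Real.arcsin ((x : E3) 2)) * Real.sin Real.pi = (x : E3) 1
    rw [Real.sin_pi, mul_zero, h1]
  · change Real.sin (Real.arcsin ((x : E3) 2)) = (x : E3) 2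
    exact Real.sin_arcsin (abs2 x).1 (abs2 x).2

theorem area_round (hA : StmtAreaGen) (X : Type) [MetricSpace X] [MeasurableSpace X]
    [BorelSpace X] (f : X ≃ S2) (hf : ∀ x y, dist x y = angle (f x : E3) (f y : E3)) :
    MeasureTheory.Measure.euclideanHausdorffMeasure 2 (univ : Set X) =
      ENNReal.ofReal (4 * Real.pi) := by
  have hfc : Continuous f := by
    refine (LipschitzWith.of_dist_le' (K := 1) fun x y => ?_).continuous
    rw [one_mul, hf, Subtype.dist_eq]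
    exact chord_le _ _
  have hfc' : Continuous fun x : X => (f x : E3) := continuous_subtype_val.comp hfc
  set F : ℝ × ℝ → X := fun q => f.symm (PS q) with hF
  have hfF : ∀ q, f (F q) = PS q := fun q => f.apply_symm_apply _
  have hdist : ∀ x y, dist (F x) (F y) = ang (PS x) (PS y) := by
    intro x y
    rw [hf, hfF, hfF]; rfl
  have hGF : ∀ q ∈ U, Gc (f (F q) : E3) = q := fun q hq => by
    rw [hfF]; exact Gc_P hq
  have hinj : InjOn F U := by
    intro x hx y hy h
    rw [← hGF x hx, ← hGF y hy, h]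
  have hopen : ∀ V ⊆ U, IsOpen V → IsOpen (F '' V) := by
    intro V hV hVo
    have e : F '' V = {x : X | (f x : E3) ∈ W} ∩ (fun x : X => Gc (f x : E3)) ⁻¹' V := by
      ext x
      constructor
      · rintro ⟨q, hq, rfl⟩
        refine ⟨?_, ?_⟩
        · change (f (F q) : E3) ∈ W
          rw [hfF]; exact P_mem (hV hq)
        · change Gc (f (F q) : E3) ∈ V
          rw [hGF q (hV hq)]; exact hq
      · rintro ⟨hx1, hx2⟩
        refine ⟨Gc (f x : E3), hx2, ?_⟩
        apply f.injective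
        rw [hfF]
        exact Subtype.ext (P_Gc (f x))
    rw [e]
    refine ContinuousOn.isOpen_inter_preimage ?_ (W_open.preimage hfc') hVo
    exact Gc_cont.comp hfc'.continuousOn fun x hx => hx
  have hmain := hA X U F (fun _ => 1) (fun q => Real.cos q.1) U_open hinj continuousOn_const
    (by fun_prop) (fun q hq => ⟨one_pos, cos_pos hq⟩)
    (fun q _ ε hε => by
      obtain ⟨δ, hδ, h⟩ := est q ε hε
      refine ⟨δ, hδ, fun x y hx hy => ?_⟩
      rw [hdist]
      exact h x y hx hy) hopen U Subset.rfl U_meas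
  rw [int_U] at hmain
  -- the meridian has measure zero
  set c : ℝ → X := fun s => F (s, Real.pi) with hc
  have hcl : LipschitzWith (Real.toNNReal (Real.pi / 2)) c := by
    refine LipschitzWith.of_dist_le' fun s t => ?_
    rw [hc, hdist, Real.dist_eq]
    exact merid_dist s t
  have hzero : MeasureTheory.Measure.euclideanHausdorffMeasure 2 (c '' univ) = 0 := by
    have h1 : Measure.hausdorffMeasure (2 : ℝ) (univ : Set ℝ) = 0 := by
      have := hausdorffMeasure_of_dimH_lt (s := (univ : Set ℝ)) (d := 2) (by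
        rw [Real.dimH_univ]; norm_num)
      simpa using this
    have h2 := hcl.hausdorffMeasure_image_le (d := (2 : ℝ)) (by norm_num) univ
    rw [h1, mul_zero] at h2
    have h3 : Measure.hausdorffMeasure (2 : ℝ) (c '' univ) = 0 := le_antisymm h2 (by simp)
    rw [Measure.euclideanHausdorffMeasure_def, Measure.smul_apply]
    have h4 : Measure.hausdorffMeasure ((2 : ℕ) : ℝ) (c '' univ) = 0 := by
      simpa using h3
    rw [h4, smul_zero]
  have hcover : (univ : Set X) ⊆ F '' U ∪ c '' univ := by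
    intro x _
    by_cases hx : (f x : E3) ∈ W
    · left
      refine ⟨Gc (f x : E3), Gc_mem hx, ?_⟩
      apply f.injective
      rw [hfF]
      exact Subtype.ext (P_Gc (f x))
    · right
      obtain ⟨s, hs⟩ := not_W hx
      refine ⟨s, mem_univ _, ?_⟩
      apply f.injective
      rw [hc, hfF, hs]
  refine le_antisymm ?_ ?_
  · refine (measure_mono hcover).trans ((measure_union_le _ _).trans ?_)
    rw [hzero, add_zero, hmain]
  · rw [← hmain]
    exact measure_mono (subset_univ _)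

end Pool.MP8e.Sph2

namespace Pool.MP8e

/-- **Block SPH2** -/
theorem sph2 (hA : StmtAreaGen) : StmtSph2 := by
  intro g hg
  obtain ⟨f, hf⟩ := hg
  unfold area
  letI : MeasurableSpace g.X := borel g.X
  haveI : BorelSpace g.X := ⟨rfl⟩
  rw [Sph2.area_round hA g.X f hf]
  exact ENNReal.toReal_ofReal (by positivity)

end Pool.MP8e
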