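import Pool.Agent.Work.MP_8e9dbb.A.Calls

/-!
# Part A, block SPH3: systole of the round sphere
-/

open MeasureTheory Filter Topology Metric Set
open scoped ContDiff RealInnerProductSpace

set_option autoImplicit false

namespace Pool.MP8e

namespace Sph3Aux

theorem rec_vec {E : Type} [NormedAddCommGroup E] [InnerProductSpace ℝ E] {a b c : E} {h : ℝ}
    (ha : ‖a‖ = 1) (hb : ‖b‖ = 1) (hc : ‖c‖ = 1) (hab : ⟪a, b⟫ = Real.cos h)
    (hbc : ⟪b, c⟫ = Real.cos h) (hac : ⟪a, c⟫ = Real.cos (2 * h)) :
    c = (2 * Real.cos h) • b - a := by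
  have ha' : ⟪a, a⟫ = 1 := by rw [real_inner_self_eq_norm_sq, ha]; norm_num
  have hb' : ⟪b, b⟫ = 1 := by rw [real_inner_self_eq_norm_sq, hb]; norm_num
  have hc' : ⟪c, c⟫ = 1 := by rw [real_inner_self_eq_norm_sq, hc]; norm_num
  have hba : ⟪b, a⟫ = Real.cos h := by rw [real_inner_comm]; exact hab
  have hcb : ⟪c, b⟫ = Real.cos h := by rw [real_inner_comm]; exact hbc
  have hca : ⟪c, a⟫ = Real.cos (2 * h) := by rw [real_inner_comm]; exact hac
  have key : ⟪c - ((2 * Real.cos h) • b - a), c - ((2 * Real.cos h) • b - a)⟫ = 0 := by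
    simp only [inner_sub_left, inner_sub_right, inner_smul_left, inner_smul_right, ha', hb', hc',
      hab, hba, hbc, hcb, hac, hca, Real.cos_two_mul, RCLike.conj_to_real]
    ring
  exact sub_eq_zero.1 (inner_self_eq_zero.1 key)

/-- the equator of `S2` -/
noncomputable def eqt (t : ℝ) : E3 := !₂[Real.cos t, Real.sin t, 0]

theorem inner_eqt (s t : ℝ) : ⟪eqt s, eqt t⟫ = Real.cos (s - t) := by
  simp [eqt, PiLp.inner_apply, Fin.sum_univ_three, Real.cos_sub]
  ring

theorem norm_eqt (t : ℝ) : ‖eqt t‖ = 1 := by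
  have h : ‖eqt t‖ ^ 2 = 1 := by rw [← real_inner_self_eq_norm_sq, inner_eqt, sub_self, Real.cos_zero]
  have h0 : 0 ≤ ‖eqt t‖ := norm_nonneg _
  nlinarith

theorem eqt_mem (t : ℝ) : eqt t ∈ Metric.sphere (0 : E3) 1 := by
  rw [mem_sphere_zero_iff_norm, norm_eqt]

theorem eqt_per (t : ℝ) : eqt (t + 2 * Real.pi) = eqt t := by
  simp [eqt]

end Sph3Aux

open Sph3Aux

theorem blk_SPH3 : StmtSph3 := by
  intro g hg
  obtain ⟨f, hf⟩ := hg
  refine ⟨⟨fun t => f.symm ⟨eqt t, eqt_mem t⟩, by positivity, fun t => ?_, 1, one_pos, ?_⟩, ?_⟩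
  · simp only [eqt_per]
  · intro s t hst
    rw [hf, Equiv.apply_symm_apply, Equiv.apply_symm_apply]
    change InnerProductGeometry.angle (eqt s) (eqt t) = |s - t|
    rw [InnerProductGeometry.angle, inner_eqt, norm_eqt, norm_eqt, mul_one, div_one,
      ← Real.cos_abs, Real.arccos_cos (abs_nonneg _)]
    linarith [Real.pi_gt_three]
  · rintro L ⟨c, hL, hper, ε, hε, hloc⟩
    set u : ℝ → E3 := fun t => (f (c t) : E3) with hu
    have hun : ∀ t, ‖u t‖ = 1 := fun t => mem_sphere_zero_iff_norm.1 (f (c t)).2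
    have hin : ∀ s t, |s - t| ≤ ε → ⟪u s, u t⟫ = Real.cos (s - t) := by
      intro s t hst
      have h1 := hloc s t hst
      rw [hf] at h1
      have h2 := InnerProductGeometry.cos_angle (u s) (u t)
      rw [hun, hun, mul_one, div_one] at h2
      rw [← h2]
      change Real.cos (InnerProductGeometry.angle (f (c s) : E3) (f (c t) : E3)) = _
      rw [h1, Real.cos_abs]
    obtain ⟨n, hn⟩ := exists_nat_gt (2 * L / ε)
    have hn0 : (0 : ℝ) < n := lt_of_le_of_lt (by positivity) hn
    set h : ℝ := L / n with hh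
    have hh0 : 0 < h := by positivity
    have h2h : 2 * h ≤ ε := by
      rw [div_lt_iff₀ hε] at hn
      rw [hh, mul_div_assoc', div_le_iff₀ hn0]
      linarith
    have hrec : ∀ t, u (t + h + h) = (2 * Real.cos h) • u (t + h) - u t := by
      intro t
      refine rec_vec (hun _) (hun _) (hun _) ?_ ?_ ?_
      · rw [hin _ _ (by rw [show t - (t + h) = -h by ring, abs_neg, abs_of_pos hh0]; linarith),
          show t - (t + h) = -h by ring, Real.cos_neg]
      · rw [hin _ _ (by rw [show t + h - (t + h + h) = -h by ring, abs_neg, abs_of_pos hh0]; linarith),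
          show t + h - (t + h + h) = -h by ring, Real.cos_neg]
      · rw [hin _ _ (by rw [show t - (t + h + h) = -(2 * h) by ring, abs_neg,
          abs_of_pos (by positivity)]; exact h2h),
          show t - (t + h + h) = -(2 * h) by ring, Real.cos_neg]
    have hcos : ∀ k : ℕ, ⟪u 0, u (k * h)⟫ = Real.cos (k * h) ∧
        ⟪u 0, u ((k + 1 : ℕ) * h)⟫ = Real.cos ((k + 1 : ℕ) * h) := by
      intro k
      induction k with
      | zero =>
        constructor
        · rw [Nat.cast_zero, zero_mul, hin 0 0 (by simpa using hε.le), sub_zero]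
        · rw [zero_add, Nat.cast_one, one_mul,
            hin 0 h (by rw [zero_sub, abs_neg, abs_of_pos hh0]; linarith), zero_sub, Real.cos_neg]
      | succ k ih =>
        refine ⟨ih.2, ?_⟩
        have e1 : ((k + 1 + 1 : ℕ) : ℝ) * h = k * h + h + h := by push_cast; ring
        have e2 : ((k + 1 : ℕ) : ℝ) * h = k * h + h := by push_cast; ring
        rw [e1, hrec, inner_sub_right, inner_smul_right, ← e2, ih.1, ih.2, e2]
        have e3 : Real.cos (k * h + h + h) = 2 * Real.cos h * Real.cos (k * h + h) -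
            Real.cos (k * h) := by
          have e4 : Real.cos (k * h) = Real.cos (k * h + h - h) := by ring_nf
          rw [e4, Real.cos_add (k * h + h) h, Real.cos_sub]
          ring
        rw [e3]
    have h1 := (hcos n).1
    have h2 : (n : ℝ) * h = L := by rw [hh]; field_simp
    rw [h2] at h1
    have h3 : u L = u 0 := by
      have := hper 0
      rw [zero_add] at this
      simp only [hu, this]
    rw [h3, real_inner_self_eq_norm_sq, hun, one_pow] at h1
    obtain ⟨m, hm⟩ := (Real.cos_eq_one_iff L).1 h1.symm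
    have hm0 : 0 < m := by
      by_contra hneg
      push Not at hneg
      have : (m : ℝ) ≤ 0 := by exact_mod_cast hneg
      nlinarith [Real.pi_pos]
    have hm1 : (1 : ℝ) ≤ m := by exact_mod_cast hm0
    nlinarith [Real.pi_pos]

end Pool.MP8e
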