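import Mathlib
import Pool.Agent.Work.MP_8e9dbb.A.Strip
import Pool.Agent.Work.MP_8e9dbb.A.Calls2
import Pool.Agent.Work.MP_8e9dbb.A.Smooth
import Pool.Agent.Work.MP_8e9dbb.A.Homeo

/-!
# Part A, file 17: the surface as a `ConeSphere`
-/

open Filter Topology Metric Set

namespace Pool.MP8e
namespace QD

variable (D : QD)

/-- **all facts** -/
theorem facts : Facts D D.X D.Pr where
  per := fact_per
  flr := fact_flr
  surj := fact_surj
  pole := fact_pole
  cont := continuous_Pr.continuousOn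
  inj := fact_inj
  injF := fact_injF
  strip := fact_strip
  opn := fact_opn
  coneP := fact_coneP
  coneB := fact_coneB
  coneA := fact_coneA
  floor := fact_floor
  coneQ := fact_coneQ

/-- the image of a compact set of coordinates is compact -/
theorem compact_of (S : Set (ℝ × ℝ)) (hS : IsCompact S)
    (hSE : ∀ x ∈ S, x ∈ D.rect ∧ x.1 ≤ D.β x.2) : IsCompact {x : D.EPt | x.c ∈ S} := by
  have hc : CompactSpace S := isCompact_iff_compactSpace.1 hS
  have hcont : Continuous (fun z : S => (⟨⟨z.1, (hSE z.1 z.2).1⟩, (hSE z.1 z.2).2⟩ : D.EPt)) := by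
    have h0 : Continuous (fun z : S => (⟨z.1, (hSE z.1 z.2).1⟩ : D.nf.K)) :=
      Continuous.subtype_mk continuous_subtype_val _
    have h1 : Continuous (fun z : S => (⟨z.1, (hSE z.1 z.2).1⟩ : Pt D.nf)) :=
      (Pt.continuous_mk (D := D.nf)).comp h0
    rw [Metric.continuous_iff] at h1 ⊢
    exact h1
  have : {x : D.EPt | x.c ∈ S} =
      range (fun z : S => (⟨⟨z.1, (hSE z.1 z.2).1⟩, (hSE z.1 z.2).2⟩ : D.EPt)) := by
    ext x
    constructor
    · intro hx
      exact ⟨⟨x.c, hx⟩, rfl⟩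
    · rintro ⟨z, rfl⟩
      exact z.2
  rw [this]
  exact isCompact_range hcont

theorem isCompact_axis : IsCompact D.axis := by
  have h1 : IsCompact ({x : ℝ × ℝ | x ∈ D.rect ∧ x.1 ≤ D.β x.2} ∩ {x | x.2 = Real.pi / 2}) :=
    D.isCompact_E.inter_right (isClosed_eq continuous_snd continuous_const)
  have h2 := D.compact_of _ h1 (fun x hx => hx.1)
  have h3 : D.axis = {x : D.EPt | x.c ∈ {x : ℝ × ℝ | x ∈ D.rect ∧ x.1 ≤ D.β x.2} ∩
      {x | x.2 = Real.pi / 2}} := by
    ext x
    exact ⟨fun h => ⟨⟨x.1.mem, x.c_le⟩, h⟩, fun h => h.2⟩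
  rw [h3]; exact h2

theorem isCompact_bd : IsCompact D.bd := by
  have h1 : IsCompact ({x : ℝ × ℝ | x ∈ D.rect ∧ x.1 ≤ D.β x.2} ∩
      ({x | x.2 = 0} ∪ {x | D.βh x.2 ≤ x.1})) :=
    D.isCompact_E.inter_right ((isClosed_eq continuous_snd continuous_const).union
      (isClosed_le (D.continuous_βh.comp continuous_snd) continuous_fst))
  have h2 := D.compact_of _ h1 (fun x hx => hx.1)
  have h3 : D.bd = {x : D.EPt | x.c ∈ {x : ℝ × ℝ | x ∈ D.rect ∧ x.1 ≤ D.β x.2} ∩
      ({x | x.2 = 0} ∪ {x | D.βh x.2 ≤ x.1})} := by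
    ext x
    constructor
    · rintro (h | h)
      · exact ⟨⟨x.1.mem, x.c_le⟩, Or.inl h⟩
      · exact ⟨⟨x.1.mem, x.c_le⟩, Or.inr (by
          change D.βh x.c.2 ≤ x.c.1
          rw [D.βh_of_mem x.c2]; exact h.ge)⟩
    · rintro ⟨_, h | h⟩
      · exact Or.inl h
      · right
        have h5 : D.βh x.c.2 ≤ x.c.1 := h
        rw [D.βh_of_mem x.c2] at h5
        exact le_antisymm x.c_le h5
  rw [h3]; exact h2

theorem isCompact_bd1 : IsCompact D.bd1 := by
  have h : D.bd1 = (fun x : D.EPt => (⟨x, false⟩ : D.D1)) '' D.bd ∪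
      (fun x : D.EPt => (⟨x, true⟩ : D.D1)) '' D.bd := by
    ext ⟨x, i⟩
    constructor
    · intro hx
      cases i
      · exact Or.inl ⟨x, hx, rfl⟩
      · exact Or.inr ⟨x, hx, rfl⟩
    · rintro (⟨y, hy, h⟩ | ⟨y, hy, h⟩)
      · cases h; exact hy
      · cases h; exact hy
  rw [h]
  exact (D.isCompact_bd.image (Dbl.isometry_mk false).continuous).union
    (D.isCompact_bd.image (Dbl.isometry_mk true).continuous)

theorem hasBet_XX (hB : HasBet D.EPt) : HasBet D.XX :=
  Dbl.hasBet (Dbl.hasBet hB D.isCompact_axis) D.isCompact_bd1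

theorem hasMid_X (hB : HasBet D.EPt) (x y : D.X) :
    ∃ z : D.X, dist x z = dist x y / 2 ∧ dist z y = dist x y / 2 := by
  obtain ⟨z, h1, h2⟩ := (D.hasBet_XX hB).hasMid (rep x) (rep y)
  refine ⟨SeparationQuotient.mk z, ?_, ?_⟩
  · rw [dist_mk_rep, h1, ← dist_rep]
  · rw [dist_comm, dist_mk_rep, dist_comm, h2, ← dist_rep]

instance : CompactSpace D.X := ⟨by
  rw [← (SeparationQuotient.surjective_mk (X := D.XX)).range_eq]
  exact isCompact_range SeparationQuotient.continuous_mk⟩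

/-- the surface -/
noncomputable def surf (hB : StmtBet) : ConeSphere where
  X := D.X
  sphere := blk_HOMEO D D.X D.Pr D.facts
  length := D.hasMid_X (hB D)
  sing := special D D.Pr
  sing_finite := by unfold special; exact (Set.finite_singleton _).insert _ |>.insert _ |>.insert _
  smooth p hp := blk_SMOOTH D D.X D.Pr D.facts p hp
  conical := by
    rintro p (h | h | h | h)
    · rw [h]
      exact ⟨2 * Real.pi * D.kN, by have := D.kN_pos; positivity, D.facts.coneP⟩
    · rw [h]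
      exact ⟨D.angAB, by rw [angAB_eq]; have := D.αB_pos; positivity, D.facts.coneB⟩
    · rw [h]
      exact ⟨D.angAB, by rw [angAB_eq]; have := D.αB_pos; positivity, D.facts.coneA⟩
    · have h' : p = D.Pr (D.β (Real.pi / 2), Real.pi / 2) := h
      rw [h']
      obtain ⟨r, hr, ψ, h1, h2, h3, _⟩ := D.facts.coneQ 1 one_pos
      exact ⟨4 * D.αQ, by have := D.αQ_pos; positivity, r, hr, ψ, h1, h2, h3⟩

end QD

end Pool.MP8e
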